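import Pool.Agent.H38.TD.Val
import Pool.Agent.H38.ML.RootInert

/-!
# [H38 TD TAME] Tame inertia acts on roots through the orders (80-130 lines)

`M` a number field inside `Ω`, `𝔓` a prime of `𝓞 Ω` with `q ∉ 𝔓`, `Q` the place of `M` below, `τ` in
the inertia group of `𝔓`, trivial on `M`.  There is `t ∈ ℤ` such that for all `α ∈ Mˣ` and all
`B ∈ Ω` with `B^q = α`: `τ B = ζ^{t · od Q α} B`.

Proof.  Choose `w ∈ Mˣ` with `od Q w = 1` (`exists_unif`) and a root `b^q = w` in `Ω`; `τ b / b` is a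
`q`-th root of unity, so `τ b = ζ^t b`.  Let `α ∈ Mˣ`, `n = od Q α`, `ε = α w^{-n}`, of order `0`.
`B' = B b^{-n}` is a `q`-th root of `ε`.  Write `ε = a / c` with `a, c ∈ 𝓞 M ∖ Q`
(`exists_int_div`).  Then `C = c B'` satisfies `C^q = c^{q-1} a`, it is integral, and `C ∉ 𝔓` because
`C^q = c^{q-1} a ∉ Q = 𝔓 ∩ 𝓞 M`.  `τ C = c τ B' = ζ^k C` for some `k`, and
`pow_eq_one_of_inertia` (`H38/ML/RootInert.lean`) gives `q ∣ k`.  So `τ B' = B'`, and
`τ B = τ (B' b^n) = ζ^{tn} B`.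
-/

open scoped NumberField Pointwise
open H38.ML

noncomputable section

namespace H38.TD

variable {K Ω : Type} [Field K] [NumberField K] [Field Ω] [Algebra K Ω] [IsAlgClosure K Ω]

/-- an automorphism trivial on `M` fixes the elements of `M` -/
theorem fix_of_res (M : IntermediateField K Ω) [Normal K M] (τ : Gal(Ω/K)) (hres : res M τ = 1)
    (y : M) : τ (y : Ω) = y := by
  have h := AlgEquiv.restrictNormal_commutes τ M y
  have h1 : (τ.restrictNormal M) = 1 := hres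
  rw [h1, AlgEquiv.one_apply] at h
  exact h.symm

/-- two elements with the same `q`-th power differ by a power of `ζ` -/
theorem root_ratio {q : ℕ} (hq : 0 < q) {ζ : K} (hζ : IsPrimitiveRoot ζ q) {x y : Ω} (hy : y ≠ 0)
    (h : x ^ q = y ^ q) : ∃ k : ℕ, x = algebraMap K Ω ζ ^ k * y := by
  have : NeZero q := ⟨hq.ne'⟩
  have hζ' : IsPrimitiveRoot (algebraMap K Ω ζ) q := hζ.map_of_injective (algebraMap K Ω).injective
  have h1 : (x / y) ^ q = 1 := by rw [div_pow, h, div_self (pow_ne_zero _ hy)]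
  obtain ⟨k, -, hk⟩ := hζ'.eq_pow_of_pow_eq_one h1
  exact ⟨k, by rw [hk, div_mul_cancel₀ _ hy]⟩

theorem tame (M : IntermediateField K Ω) [FiniteDimensional K M] [NumberField M] [Normal K M]
    (q : ℕ) (hq : 0 < q) (ζ : K) (hζ : IsPrimitiveRoot ζ q) (𝔓 : Ideal (𝓞 Ω)) [𝔓.IsPrime]
    (hq𝔓 : ((q : ℕ) : 𝓞 Ω) ∉ 𝔓) (Q : Pl M) (hQ : 𝔓.under (𝓞 M) = Q.asIdeal) (τ : Gal(Ω/K))
    (hτ : τ ∈ 𝔓.inertia Gal(Ω/K)) (hres : res M τ = 1) :
    ∃ t : ℤ, ∀ (α : Mˣ) (B : Ω), B ^ q = ((α : M) : Ω) →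
      τ B = algebraMap K Ω ζ ^ (t * od Q α) * B := by
  have : IsAlgClosed Ω := IsAlgClosure.isAlgClosed K
  have hζ0 : algebraMap K Ω ζ ≠ 0 :=
    (hζ.map_of_injective (algebraMap K Ω).injective).ne_zero hq.ne'
  obtain ⟨w, hw⟩ := exists_unif Q
  have hw0 : ((w : M) : Ω) ≠ 0 := by
    rw [Ne, ZeroMemClass.coe_eq_zero]
    exact w.ne_zero
  obtain ⟨b, hb⟩ := IsAlgClosed.exists_pow_nat_eq ((w : M) : Ω) hq
  have hb0 : b ≠ 0 := by
    intro h0
    rw [h0, zero_pow hq.ne'] at hb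
    exact hw0 hb.symm
  obtain ⟨t, ht⟩ := root_ratio (K := K) hq hζ (x := τ b) hb0
    (by rw [← map_pow, hb, fix_of_res M τ hres])
  refine ⟨t, fun α B hB => ?_⟩
  set n := od Q α with hn
  set ε : Mˣ := α * w ^ (-n) with hε
  have hε0 : od Q ε = 0 := by
    rw [hε, od_mul, od_zpow, hw, ← hn]
    ring
  obtain ⟨a, c, ha, hc, hac⟩ := exists_int_div Q ε hε0
  set B' : Ω := B * b ^ (-n) with hB'
  have hB'q : B' ^ q = ((ε : M) : Ω) := by
    rw [hB', mul_pow, hB, ← zpow_natCast (b ^ (-n)) q, ← zpow_mul, mul_comm (-n) (q : ℤ), zpow_mul,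
      zpow_natCast, hb, hε]
    push_cast
    rfl
  have hε0' : ((ε : M) : Ω) ≠ 0 := by
    rw [Ne, ZeroMemClass.coe_eq_zero]
    exact ε.ne_zero
  have hB'0 : B' ≠ 0 := by
    intro h0
    rw [h0, zero_pow hq.ne'] at hB'q
    exact hε0' hB'q.symm
  have hacΩ : ((ε : M) : Ω) * ((c : M) : Ω) = ((a : M) : Ω) := by
    have := congrArg (fun y : M => (y : Ω)) hac
    simpa using this
  set C : Ω := ((c : M) : Ω) * B' with hC
  have hCq : C ^ q = (((c ^ (q - 1) * a : 𝓞 M) : M) : Ω) := by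
    rw [hC, mul_pow, hB'q]
    push_cast
    rw [← hacΩ]
    obtain ⟨r, rfl⟩ : ∃ r, q = r + 1 := ⟨q - 1, by omega⟩
    rw [Nat.add_sub_cancel, pow_succ]
    ring
  have hint : IsIntegral ℤ C := by
    refine IsIntegral.of_pow hq ?_
    rw [hCq]
    exact (NumberField.RingOfIntegers.isIntegral_coe (c ^ (q - 1) * a)).algebraMap
  set C' : 𝓞 Ω := ⟨C, hint⟩ with hC'
  have hC'n : C' ∉ 𝔓 := by
    intro hmem
    have h1 : C' ^ q ∈ 𝔓 := Ideal.pow_mem_of_mem 𝔓 hmem q hq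
    have h2 : C' ^ q = algebraMap (𝓞 M) (𝓞 Ω) (c ^ (q - 1) * a) := by
      apply NumberField.RingOfIntegers.ext
      exact hCq
    rw [h2, ← Ideal.mem_under, hQ] at h1
    rcases Q.isPrime.mem_or_mem h1 with h3 | h3
    · exact hc (Q.isPrime.mem_of_pow_mem _ h3)
    · exact ha h3
  obtain ⟨k, hk⟩ := root_ratio (K := K) hq hζ (x := τ B') hB'0
    (by rw [← map_pow, hB'q, fix_of_res M τ hres])
  have hτC : τ (C' : Ω) = algebraMap K Ω ζ ^ k * (C' : Ω) := by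
    change τ C = algebraMap K Ω ζ ^ k * C
    rw [hC, map_mul, fix_of_res M τ hres, hk]
    ring
  have hqk := pow_eq_one_of_inertia 𝔓 q hq hq𝔓 ζ hζ τ hτ C' hC'n k hτC
  have hk1 : algebraMap K Ω ζ ^ k = 1 := by
    rw [← map_pow, (hζ.pow_eq_one_iff_dvd k).2 hqk, map_one]
  rw [hk1, one_mul] at hk
  have hBB : B = B' * b ^ n := by
    rw [hB', mul_assoc, ← zpow_add₀ hb0, neg_add_cancel, zpow_zero, mul_one]
  have h3 : τ B = B' * (algebraMap K Ω ζ ^ t * b) ^ n := by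
    conv_lhs => rw [hBB]
    rw [map_mul, hk, map_zpow₀, ht]
  rw [h3, mul_zpow, ← zpow_natCast, ← zpow_mul]
  conv_rhs => rw [hBB]
  ring

end H38.TD
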