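import Pool.Agent.H38.TD.Cyc
import Pool.Agent.H38.TD.Tame
import Pool.Agent.H38.ML.RootInert
import Pool.Agent.H38.ML.EmbOrb

/-!
# [H38 TD LOCT] Inertia and `K(x^{1/p})` inside `Ω` (three theorems, 120-190 lines)

`p` prime, `ζ ∈ K` a primitive `p`-th root of unity, `v` a place of `K` with `p ∉ v`, `𝔓` a prime
of `𝓞 Ω` over `v`, `B ∈ Ω` with `B^p = x ∈ Kˣ`.

* `inert_fix` (`p ∣ od v x`): every `τ` in the inertia group of `𝔓` fixes `B`.  Let
  `n = od v x`, `π ∈ Kˣ` with `od v π = 1` (`exists_unif`), `B' = B / π^{n/p}`,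
  `B'^p = ε = x π^{-n}`, `od v ε = 0`, `ε = a / c` with `a, c ∈ 𝓞 K ∖ v` (`exists_int_div`),
  `C = c B'`, `C^p = c^{p-1} a`: integral and not in `𝔓`.  `τ C = ζ^k C` for some `k`
  (`C ≠ 0`, `(τ C/C)^p = 1`), and `pow_eq_one_of_inertia` gives `p ∣ k`.
* `inert_res`: so if `M ⊆ Ω` and `D : KX K M p ζ x` then `res M τ = 1`: `res M τ` is a power
  `γ^k` of `γ`, which acts on `β` by `ζ^k` (`kx_pow_act`), and it fixes `β`, so `p ∣ k`, `γ^k = 1`
  (`D.ord`).
* `ram_move` (`od v x = 1`): some `τ` in the inertia group of `𝔓` moves `B`.  Suppose not.  Let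
  `L = K(B)` (`IntermediateField.adjoin K {B}`), of degree `p` over `K` (`X^p - x` is irreducible:
  a root of it in `K` would have order `1/p` at `v`; or: any two roots differ by `ζ^k`).  Every
  embedding `φ : L → Ω` over `K` has `φ B = ζ^k B`, so `τ φ = φ` for all `τ` in the inertia group `I`,
  and `embOrb L I` is the number of embeddings, `= [L : K]` (`AlgHom.card` with separability).
  `embOrb_le` (`H38/ML/EmbOrb.lean`) gives `[L:K] ≤ ∑_{P ∣ v} f_P`, and
  `∑ e_P f_P = [L:K]` (`Ideal.sum_ramification_inertia`, see `H38/ML/Disc.lean`), so all `e_P = 1`.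
  But for `P` over `v`, `p · od P B = od P x = e_P od v x = e_P = 1` (`od_iU`; identify the
  ramification index there), impossible.  (Alternatively: the inertia group of `𝔓` maps onto the
  inertia group of `𝔓 ∩ L` in `Gal(L/K)`, whose order is `e_P`.)
-/

open scoped NumberField Pointwise
open H38.ML

noncomputable section

namespace H38.TD

variable {K Ω : Type} [Field K] [NumberField K] [Field Ω] [Algebra K Ω] [IsAlgClosure K Ω]

theorem inert_fix (p : ℕ) (hp : p.Prime) (ζ : K) (hζ : IsPrimitiveRoot ζ p) (v : Pl K)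
    (hv : ((p : ℕ) : 𝓞 K) ∉ v.asIdeal) (𝔓 : Ideal (𝓞 Ω)) (h𝔓 : 𝔓.IsPrime)
    (h𝔓v : 𝔓.under (𝓞 K) = v.asIdeal) (x : Kˣ) (hx : (p : ℤ) ∣ od v x) (B : Ω)
    (hB : B ^ p = algebraMap K Ω x) (τ : Gal(Ω/K)) (hτ : τ ∈ 𝔓.inertia Gal(Ω/K)) : τ B = B := by
  have hinj := (algebraMap K Ω).injective
  obtain ⟨m, hm⟩ := hx
  obtain ⟨π, hπ⟩ := exists_unif v
  set ε : Kˣ := x * (π ^ (-m)) ^ p with hε
  have hod : od v ε = 0 := by
    rw [hε, od_mul, od_pow, od_zpow, hπ, hm]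
    ring
  obtain ⟨a, c, ha, hc, hac⟩ := exists_int_div v ε hod
  set B' : Ω := B * algebraMap K Ω ((π ^ (-m) : Kˣ) : K) with hB'
  have hπ0 : algebraMap K Ω ((π ^ (-m) : Kˣ) : K) ≠ 0 := by
    rw [Ne, map_eq_zero_iff _ hinj]
    exact (π ^ (-m)).ne_zero
  have hB'p : B' ^ p = algebraMap K Ω ε := by
    rw [hB', mul_pow, hB, ← map_pow, ← map_mul, hε]
    push_cast
    rfl
  have hε0 : algebraMap K Ω (ε : K) ≠ 0 := by
    rw [Ne, map_eq_zero_iff _ hinj]
    exact ε.ne_zero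
  have hB'0 : B' ≠ 0 := by
    intro h0
    rw [h0, zero_pow hp.ne_zero] at hB'p
    exact hε0 hB'p.symm
  have hacΩ : algebraMap K Ω (ε : K) * algebraMap K Ω (c : K) = algebraMap K Ω (a : K) := by
    rw [← map_mul, hac]
  set C : Ω := algebraMap K Ω (c : K) * B' with hC
  have hCp : C ^ p = algebraMap K Ω ((c ^ (p - 1) * a : 𝓞 K) : K) := by
    have e1 : ((c ^ (p - 1) * a : 𝓞 K) : K) = (c : K) ^ (p - 1) * (a : K) := by
      push_cast; rfl
    rw [hC, mul_pow, hB'p, e1, map_mul, map_pow, ← hacΩ]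
    obtain ⟨r, hr⟩ : ∃ r, p = r + 1 := ⟨p - 1, by have := hp.pos; omega⟩
    rw [hr, Nat.add_sub_cancel, pow_succ]
    ring
  have hint : IsIntegral ℤ C := by
    refine IsIntegral.of_pow hp.pos ?_
    rw [hCp]
    exact (NumberField.RingOfIntegers.isIntegral_coe (c ^ (p - 1) * a)).algebraMap
  set C' : 𝓞 Ω := ⟨C, hint⟩ with hC'
  have hC'n : C' ∉ 𝔓 := by
    intro hmem
    have h1 : C' ^ p ∈ 𝔓 := Ideal.pow_mem_of_mem 𝔓 hmem p hp.pos
    have h2 : C' ^ p = algebraMap (𝓞 K) (𝓞 Ω) (c ^ (p - 1) * a) := by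
      apply NumberField.RingOfIntegers.ext
      exact hCp
    rw [h2, ← Ideal.mem_under, h𝔓v] at h1
    rcases v.isPrime.mem_or_mem h1 with h3 | h3
    · exact hc (v.isPrime.mem_of_pow_mem _ h3)
    · exact ha h3
  have hp𝔓 : ((p : ℕ) : 𝓞 Ω) ∉ 𝔓 := by
    intro h
    apply hv
    rw [← h𝔓v, Ideal.mem_under, map_natCast]
    exact h
  obtain ⟨k, hk⟩ := root_ratio (K := K) hp.pos hζ (x := τ B') hB'0
    (by rw [← map_pow, hB'p, AlgEquiv.commutes])
  have hτC : τ (C' : Ω) = algebraMap K Ω ζ ^ k * (C' : Ω) := by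
    change τ C = algebraMap K Ω ζ ^ k * C
    rw [hC, map_mul, AlgEquiv.commutes, hk]
    ring
  have hpk := pow_eq_one_of_inertia 𝔓 p hp.pos hp𝔓 ζ hζ τ hτ C' hC'n k hτC
  have hk1 : algebraMap K Ω ζ ^ k = 1 := by
    rw [← map_pow, (hζ.pow_eq_one_iff_dvd k).2 hpk, map_one]
  rw [hk1, one_mul, hB', map_mul, AlgEquiv.commutes] at hk
  exact mul_right_cancel₀ hπ0 hk

theorem inert_res (p : ℕ) (hp : p.Prime) (ζ : K) (hζ : IsPrimitiveRoot ζ p) (v : Pl K)
    (hv : ((p : ℕ) : 𝓞 K) ∉ v.asIdeal) (𝔓 : Ideal (𝓞 Ω)) (h𝔓 : 𝔓.IsPrime)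
    (h𝔓v : 𝔓.under (𝓞 K) = v.asIdeal) (x : Kˣ) (hx : (p : ℤ) ∣ od v x)
    (M : IntermediateField K Ω) [FiniteDimensional K M] [IsGalois K M] (D : KX K M p ζ x)
    (τ : Gal(Ω/K)) (hτ : τ ∈ 𝔓.inertia Gal(Ω/K)) : res M τ = 1 := by
  have hβp : ((D.β : M) : Ω) ^ p = algebraMap K Ω x := by
    have h1 := congrArg (fun u : Mˣ => ((u : M) : Ω)) D.pow
    simpa [iU] using h1
  have h2 := inert_fix p hp ζ hζ v hv 𝔓 h𝔓 h𝔓v x hx _ hβp τ hτ
  obtain ⟨k, hk⟩ := D.gen (res M τ)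
  have h3 : (res M τ) (D.β : M) = D.β := by
    apply Subtype.ext
    have h4 := AlgEquiv.restrictNormal_commutes τ M (D.β : M)
    exact h4.trans h2
  rw [hk, kx_pow_act] at h3
  have h5 : algebraMap K M ζ ^ k = 1 := by
    have h6 : algebraMap K M ζ ^ k * D.β = 1 * D.β := by rw [h3, one_mul]
    exact mul_right_cancel₀ D.β.ne_zero h6
  have hζM : IsPrimitiveRoot (algebraMap K M ζ) p := hζ.map_of_injective (algebraMap K M).injective
  obtain ⟨l, hl⟩ := (hζM.pow_eq_one_iff_dvd k).1 h5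
  have hγp : D.γ ^ p = 1 := orderOf_dvd_iff_pow_eq_one.1 (dvd_of_eq D.ord)
  rw [hk, hl, pow_mul, hγp, one_pow]

/-- The orders on `K` and on `L` differ by the ramification index. -/
theorem od_iU_ram {K L : Type} [Field K] [NumberField K] [Field L] [NumberField L] [Algebra K L]
    (Q : Pl L) (v : Pl K) (h : Ov Q v) (f : Kˣ) :
    od Q (iU K L f) = (Q.asIdeal.ramificationIdx (𝓞 K) : ℤ) * od v f := by
  have hl : Q.asIdeal.LiesOver v.asIdeal := ⟨h.symm⟩
  have hv := v.isPrime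
  have hQ := Q.isPrime
  have he : v.asIdeal.ramificationIdx' Q.asIdeal = Q.asIdeal.ramificationIdx (𝓞 K) :=
    Ideal.ramificationIdx'_eq_ramificationIdx v.asIdeal Q.asIdeal v.ne_bot
  have h1 := IsDedekindDomain.HeightOneSpectrum.valuation_liesOver (K := K) L v Q (f : K)
  have h2 : ((v.valuationOfNeZero f : Multiplicative ℤ) : WithZero (Multiplicative ℤ))
      = v.valuation K (f : K) := IsDedekindDomain.HeightOneSpectrum.valuationOfNeZero_eq v f
  have h3 : ((Q.valuationOfNeZero (iU K L f) : Multiplicative ℤ) : WithZero (Multiplicative ℤ))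
      = Q.valuation L (algebraMap K L (f : K)) :=
    IsDedekindDomain.HeightOneSpectrum.valuationOfNeZero_eq Q (iU K L f)
  rw [← h2, ← h3, ← WithZero.coe_pow, WithZero.coe_inj, he] at h1
  unfold od
  rw [← h1, toAdd_pow]
  simp

theorem ram_move (p : ℕ) (hp : p.Prime) (ζ : K) (hζ : IsPrimitiveRoot ζ p) (v : Pl K)
    (𝔓 : Ideal (𝓞 Ω)) (h𝔓 : 𝔓.IsPrime)
    (h𝔓v : 𝔓.under (𝓞 K) = v.asIdeal) (x : Kˣ) (hx : od v x = 1) (B : Ω)
    (hB : B ^ p = algebraMap K Ω x) : ∃ τ ∈ 𝔓.inertia Gal(Ω/K), τ B ≠ B := by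
  classical
  by_contra hcon
  push Not at hcon
  have hac : IsAlgClosed Ω := IsAlgClosure.isAlgClosed K
  have halg : Algebra.IsAlgebraic K Ω := IsAlgClosure.isAlgebraic
  have hinj := (algebraMap K Ω).injective
  have hBint : IsIntegral K B := Algebra.IsIntegral.isIntegral B
  have hx0 : algebraMap K Ω (x : K) ≠ 0 := by
    rw [Ne, map_eq_zero_iff _ hinj]
    exact x.ne_zero
  have hB0 : B ≠ 0 := by
    intro h0
    rw [h0, zero_pow hp.ne_zero] at hB
    exact hx0 hB.symm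
  set L : IntermediateField K Ω := IntermediateField.adjoin K {B} with hL
  have hLfin : FiniteDimensional K L := IntermediateField.adjoin.finiteDimensional hBint
  have hNL : NumberField L := NumberField.of_module_finite K L
  have hBL : B ∈ L := IntermediateField.mem_adjoin_simple_self K B
  -- every element of the inertia group fixes all embeddings
  have hfixall : ∀ τ ∈ 𝔓.inertia Gal(Ω/K), ∀ φ : L →ₐ[K] Ω,
      ((τ : Gal(Ω/K)) : Ω →ₐ[K] Ω).comp φ = φ := by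
    intro τ hτ φ
    have hφB : (φ ⟨B, hBL⟩) ^ p = B ^ p := by
      rw [← map_pow]
      have h1 : ((⟨B, hBL⟩ : L) ^ p) = algebraMap K L x := by
        apply Subtype.ext
        exact hB
      rw [h1, AlgHom.commutes, hB]
    obtain ⟨k, hk⟩ := root_ratio (K := K) hp.pos hζ hB0 hφB
    have h2 : τ (φ ⟨B, hBL⟩) = φ ⟨B, hBL⟩ := by
      rw [hk, map_mul, map_pow, AlgEquiv.commutes, hcon τ hτ]
    refine IntermediateField.algHom_ext_of_eq_adjoin K hL ?_
    intro y hy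
    have hy' : y = B := hy
    subst hy'
    exact h2
  have hvp := v.isPrime
  have hvm : v.asIdeal.IsMaximal := v.isMaximal
  have hfint : Fintype (v.asIdeal.primesOver (𝓞 L)) :=
    (IsDedekindDomain.primesOver_finite v.asIdeal (𝓞 L)).fintype
  have h1 := embOrb_le L v.asIdeal v.isPrime v.ne_bot 𝔓 h𝔓 h𝔓v
  have h2 : Module.finrank K L ≤ embOrb L (𝔓.inertia Gal(Ω/K)) := by
    have hsep : Algebra.IsSeparable K L := inferInstance
    have hcard : Nat.card (L →ₐ[K] Ω) = Module.finrank K L := by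
      rw [Nat.card_eq_fintype_card]
      exact AlgHom.card K L Ω
    rw [← hcard]
    refine Nat.card_le_card_of_injective (fun φ => Quot.mk _ φ) ?_
    intro φ ψ h
    have h3 := congrArg (Quot.lift (fun φ : L →ₐ[K] Ω => φ) (by
      rintro φ ψ ⟨τ, hτ, h⟩
      rw [← h, hfixall τ hτ φ])) h
    exact h3
  have h3 : Module.finrank (𝓞 K) (𝓞 L) = Module.finrank K L :=
    (IsFractionRing.finrank_eq (𝓞 K) K (𝓞 L) L).symm
  have h4 := Ideal.sum_ramification_inertia_eq_finrank (S := 𝓞 L) v.asIdeal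
  have h5 : 2 * ∑ P : v.asIdeal.primesOver (𝓞 L), P.1.inertiaDeg (𝓞 K) ≤
      Module.finrank K L := by
    rw [← h3, ← h4, Finset.mul_sum]
    refine Finset.sum_le_sum fun P _ => Nat.mul_le_mul_right _ ?_
    have hP0 : P.1 ≠ ⊥ := Ideal.ne_bot_of_mem_primesOver v.ne_bot P.2
    let Q : Pl L := ⟨P.1, P.2.1, hP0⟩
    have hQ : Ov Q v := P.2.2.over.symm
    have hBLx : (⟨B, hBL⟩ : L) ≠ 0 := by
      intro h
      exact hB0 (congrArg Subtype.val h)
    have h6 : (Units.mk0 (⟨B, hBL⟩ : L) hBLx) ^ p = iU K L x := by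
      apply Units.ext
      apply Subtype.ext
      exact hB
    have h7 : (p : ℤ) * od Q (Units.mk0 (⟨B, hBL⟩ : L) hBLx) =
        (P.1.ramificationIdx (𝓞 K) : ℤ) := by
      rw [← od_pow, h6, od_iU_ram Q v hQ, hx, mul_one]
    have h8 : (p : ℤ) ∣ (P.1.ramificationIdx (𝓞 K) : ℤ) := ⟨_, h7.symm⟩
    have h9 : p ∣ P.1.ramificationIdx (𝓞 K) := by exact_mod_cast h8
    have h10 : 0 < P.1.ramificationIdx (𝓞 K) := by
      have := P.2.1
      exact Ideal.ramificationIdx_pos P.1 (𝓞 K)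
    exact hp.two_le.trans (Nat.le_of_dvd h10 h9)
  have h6 : 0 < Module.finrank K L := Module.finrank_pos
  omega

end H38.TD
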