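import Pool.Agent.H38.ML.Basic
import Pool.Agent.H38.ML.Ord

/-!
# Two-layer p-groups: definitions

`K` a number field, `M/K` a Galois extension.  Places are the nonzero primes
(`IsDedekindDomain.HeightOneSpectrum`).
-/

open scoped NumberField Pointwise
open H38.ML

noncomputable section

namespace H38.TD

/-- The finite places (nonzero primes) of a number field. -/
abbrev Pl (M : Type) [Field M] [NumberField M] : Type :=
  IsDedekindDomain.HeightOneSpectrum (𝓞 M)

/-- The (additive) order of a nonzero element at a place; it is `≥ 0` on integral elements. -/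
def od {M : Type} [Field M] [NumberField M] (Q : Pl M) (e : Mˣ) : ℤ :=
  -Multiplicative.toAdd (Q.valuationOfNeZero e)

section maps

variable {K M : Type} [Field K] [Field M] [Algebra K M]

/-- An automorphism as a homomorphism on the multiplicative group. -/
def gU (g : Gal(M/K)) : Mˣ →* Mˣ := Units.map ((g : M ≃ₐ[K] M) : M →* M)

/-- The inclusion of the multiplicative groups. -/
def iU (K M : Type) [Field K] [Field M] [Algebra K M] : Kˣ →* Mˣ :=
  Units.map ((algebraMap K M : K →+* M) : K →* M)

/-- The norm on the multiplicative groups. -/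
def nU (K M : Type) [Field K] [Field M] [Algebra K M] : Mˣ →* Kˣ :=
  Units.map (Algebra.norm K : M →* K)

end maps

section ext

variable {K M : Type} [Field K] [NumberField K] [Field M] [NumberField M] [Algebra K M]

/-- The place `Q` of `M` lies over the place `v` of `K`. -/
def Ov (Q : Pl M) (v : Pl K) : Prop := Q.asIdeal.under (𝓞 K) = v.asIdeal

end ext

theorem od_mul {M : Type} [Field M] [NumberField M] (Q : Pl M) (a b : Mˣ) :
    od Q (a * b) = od Q a + od Q b := by
  unfold od
  rw [map_mul, toAdd_mul]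
  ring

theorem od_one {M : Type} [Field M] [NumberField M] (Q : Pl M) : od Q (1 : Mˣ) = 0 := by
  unfold od
  rw [map_one, toAdd_one, neg_zero]

theorem od_inv {M : Type} [Field M] [NumberField M] (Q : Pl M) (a : Mˣ) :
    od Q a⁻¹ = -od Q a := by
  have h := od_mul Q a a⁻¹
  rw [mul_inv_cancel, od_one] at h
  omega

/-- The `T`-units of `M`, for a set `T` of places of `K`: the elements of order `0` at all places
which do not lie over a place in `T`. -/
def TU (K M : Type) [Field K] [NumberField K] [Field M] [NumberField M] [Algebra K M]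
    (T : Set (Pl K)) : Subgroup Mˣ where
  carrier := {e | ∀ Q : Pl M, (∀ v ∈ T, ¬ Ov Q v) → od Q e = 0}
  one_mem' := fun Q _ => od_one Q
  mul_mem' := by
    intro a b ha hb Q hQ
    rw [od_mul, ha Q hQ, hb Q hQ, add_zero]
  inv_mem' := by
    intro a ha Q hQ
    rw [od_inv, ha Q hQ, neg_zero]

/-- The `T`-units of `K`. -/
def TK (K : Type) [Field K] [NumberField K] (T : Set (Pl K)) : Subgroup Kˣ where
  carrier := {e | ∀ v : Pl K, v ∉ T → od v e = 0}
  one_mem' := fun v _ => od_one v
  mul_mem' := by
    intro a b ha hb v hv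
    rw [od_mul, ha v hv, hb v hv, add_zero]
  inv_mem' := by
    intro a ha v hv
    rw [od_inv, ha v hv, neg_zero]

/-- `M/K` is cyclic of degree `p` with a generator `γ` of the Galois group, and `β ^ p = x`,
`γ β = ζ β`. -/
structure KX (K M : Type) [Field K] [Field M] [Algebra K M] (p : ℕ) (ζ : K) (x : Kˣ) where
  /-- the generator -/
  γ : Gal(M/K)
  /-- the root -/
  β : Mˣ
  gen : ∀ g : Gal(M/K), ∃ k : ℕ, g = γ ^ k
  ord : orderOf γ = p
  pow : β ^ p = iU K M x
  act : γ (β : M) = algebraMap K M ζ * β

/-- Splitting of the place `v` in the cyclic extension `M/K` of prime degree, with generator `γ`: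
some place over `v` is moved by `γ`. -/
def Spl {K M : Type} [Field K] [NumberField K] [Field M] [NumberField M] [Algebra K M]
    (γ : Gal(M/K)) (v : Pl K) : Prop :=
  ∃ Q : Pl M, Ov Q v ∧ γ • Q.asIdeal ≠ Q.asIdeal

/-- The data of a `p`-group `P` with a commutative normal subgroup `j(A)` of index `p` and a
complement generated by `c`. -/
structure PD (p : ℕ) (A P : Type) [CommGroup A] [Group P] where
  /-- conjugation by `c` -/
  θ : A ≃* A
  /-- the inclusion -/
  j : A →* P
  /-- the generator of the complement -/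
  c : P
  jinj : Function.Injective j
  cp : c ^ p = 1
  conj : ∀ a, c * j a * c⁻¹ = j (θ a)
  gen : ∀ g : P, ∃ (a : A) (k : ℕ), g = j a * c ^ k
  notin : ∀ k : ℕ, c ^ k ∈ j.range → p ∣ k

section groups

variable {A : Type} [CommGroup A]

/-- The norm `a ↦ ∏_{k < p} θ^k a`. -/
def nh (θ : A ≃* A) (p : ℕ) : A →* A where
  toFun a := ∏ k ∈ Finset.range p, (θ ^ k : MulAut A) a
  map_one' := by simp
  map_mul' a b := by simp [Finset.prod_mul_distrib]

/-- The fixed points of `θ`. -/
def fx (θ : A ≃* A) : Subgroup A where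
  carrier := {a | θ a = a}
  one_mem' := map_one θ
  mul_mem' := by
    intro a b ha hb
    simp only [Set.mem_setOf_eq] at *
    rw [map_mul, ha, hb]
  inv_mem' := by
    intro a ha
    simp only [Set.mem_setOf_eq] at *
    rw [map_inv, ha]

/-- The elements with `a ^ p = 1`. -/
def tp (A : Type) [CommGroup A] (p : ℕ) : Subgroup A := (powMonoidHom p : A →* A).ker

end groups

section homs

variable {K Ω : Type} [Field K] [Field Ω] [Algebra K Ω]

/-- `ρ` is unramified at `v`. -/
def UnrAt {H : Type} [Group H] (ρ : Gal(Ω/K) →* H) (v : Ideal (𝓞 K)) : Prop :=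
  ∀ 𝔓 : Ideal (𝓞 Ω), 𝔓.IsPrime → 𝔓.under (𝓞 K) = v → ∀ τ ∈ 𝔓.inertia Gal(Ω/K), ρ τ = 1

/-- The images of the inertia groups over `v` have at most `p` elements. -/
def SmallAt {H : Type} [Group H] (p : ℕ) (ρ : Gal(Ω/K) →* H) (v : Ideal (𝓞 K)) : Prop :=
  ∀ 𝔓 : Ideal (𝓞 Ω), 𝔓.IsPrime → 𝔓.under (𝓞 K) = v →
    Nat.card ((𝔓.inertia Gal(Ω/K)).map ρ) ≤ p

end homs

end H38.TD
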