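import Pool.Agent.H38.TD.NtDefs
import Pool.Agent.H38.ML.Harm
import Pool.Agent.H38.ML.IdealCount
import Pool.Agent.H75.AP.MertensA

/-!
# [H38 TD MERTB] Upper bounds for sums over places (two theorems, 90-150 lines)

* `mert_log`: `∑_{N v ≤ z} log N v / N v ≤ C log z` for `z ≥ 2`.  A place `v` over the rational
  prime `ℓ` has norm `ℓ^f`, `f ≥ 1` (`Ideal.absNorm_eq_pow_inertiaDeg` and variants), and there are
  at most `[K:ℚ]` places over `ℓ` (`Ideal.ncard_primesOver...`, `sum_ramification_inertia`), so it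
  contributes `f log ℓ / ℓ^f ≤ log ℓ / ℓ` (`f ≤ 2^{f-1} ≤ ℓ^{f-1}`), `ℓ ≤ z`.  So it is enough that
  `∑_{ℓ ≤ n} log ℓ / ℓ ≤ log n + log 4` for rational primes:
  `∑_{ℓ ≤ n} ⌊n/ℓ⌋ log ℓ ≤ log n! ≤ n log n` (the product of the `ℓ^{⌊n/ℓ⌋}` divides `n!`,
  `Nat.Prime` multiplicity: `Nat.factorization_factorial` or Legendre), `⌊n/ℓ⌋ ≥ n/ℓ - 1`, and
  `∑_{ℓ ≤ n} log ℓ ≤ n log 4` (`Chebyshev.theta_le_log4_mul_x`, `primorial_le_four_pow`).  Search the
  team library and Mathlib for an existing Mertens estimate.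
  An alternative that avoids rational primes:  partial summation from a bound
  `#{v | N v ≤ t} ≤ C t / log t`.
* `sq_small`: from `sq_tail` (with `cb_ideals K`): `∑_{v ∈ s} 1/N v² ≤ C/w` if all `N v > w ≥ 1`
  (`v ↦ v.asIdeal` is injective).
-/

open scoped NumberField Pointwise
open H38.ML

noncomputable section

namespace H38.TD

/-- the norm of a place is a power of its smallest prime factor -/
theorem nv_pow (K : Type) [Field K] [NumberField K] (v : Pl K) :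
    (nv v).minFac.Prime ∧ ∃ f : ℕ, 1 ≤ f ∧ nv v = (nv v).minFac ^ f := by
  have hmax : v.asIdeal.IsMaximal := v.isMaximal
  obtain ⟨p, n, hn, -, hp, h⟩ := Ideal.exists_prime_and_absNorm_eq_pow v.asIdeal
  have h1 : nv v = p ^ n := h
  have h2 : (nv v).minFac = p := by
    rw [h1]
    exact hp.pow_minFac (Nat.pos_iff_ne_zero.1 hn)
  rw [h2]
  exact ⟨hp, n, hn, h1⟩

theorem minFac_mem (K : Type) [Field K] [NumberField K] (v : Pl K) :
    (((nv v).minFac : ℕ) : 𝓞 K) ∈ v.asIdeal := by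
  obtain ⟨-, f, -, hf⟩ := nv_pow K v
  have h1 : ((nv v : ℕ) : 𝓞 K) ∈ v.asIdeal := Ideal.absNorm_mem v.asIdeal
  have hp := v.isPrime
  apply hp.mem_of_pow_mem f
  rw [← Nat.cast_pow, ← hf]
  exact h1

theorem fibre_card (K : Type) [Field K] [NumberField K] (ℓ : ℕ) (hℓ : ℓ.Prime)
    (s : Finset (Pl K)) (hs : ∀ v ∈ s, (nv v).minFac = ℓ) :
    s.card ≤ Module.finrank ℤ (𝓞 K) := by
  classical
  have h1 : ∏ v ∈ s, v.asIdeal ∣ Ideal.span {((ℓ : ℕ) : 𝓞 K)} := by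
    have h2 : ∏ I ∈ s.image (fun v => v.asIdeal), I ∣ Ideal.span {((ℓ : ℕ) : 𝓞 K)} := by
      apply Finset.prod_primes_dvd
      · intro I hI
        obtain ⟨v, -, rfl⟩ := Finset.mem_image.1 hI
        exact v.prime
      · intro I hI
        obtain ⟨v, hv, rfl⟩ := Finset.mem_image.1 hI
        rw [Ideal.dvd_span_singleton, ← hs v hv]
        exact minFac_mem K v
    rwa [Finset.prod_image] at h2
    intro v _ v' _ h
    exact IsDedekindDomain.HeightOneSpectrum.ext h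
  have h3 : Ideal.absNorm (∏ v ∈ s, v.asIdeal) ∣ ℓ ^ Module.finrank ℤ (𝓞 K) := by
    rw [← Ideal.absNorm_span_natCast]
    exact map_dvd Ideal.absNorm h1
  rw [map_prod] at h3
  have h4 : ℓ ^ s.card ≤ ∏ v ∈ s, Ideal.absNorm v.asIdeal := by
    rw [← Finset.prod_const]
    apply Finset.prod_le_prod'
    intro v hv
    rw [← hs v hv]
    exact Nat.minFac_le (nv_pos v)
  have h5 := h4.trans (Nat.le_of_dvd (pow_pos hℓ.pos _) h3)
  exact (Nat.pow_le_pow_iff_right hℓ.one_lt).1 h5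

theorem mert_log (K : Type) [Field K] [NumberField K] (S : Set (Pl K)) :
    ∃ C : ℝ, 0 < C ∧ ∀ w z : ℝ, 2 ≤ z →
      ∑ v ∈ Zs S w z, Real.log (nv v.1) / (nv v.1 : ℝ) ≤ C * Real.log z := by
  classical
  obtain ⟨C, hC, hm⟩ := Pool.Agent.H75.AP.mertens_one
  have hl2 : 0 < Real.log 2 := Real.log_pos (by norm_num)
  have hd0 : 0 < Module.finrank ℤ (𝓞 K) := Module.finrank_pos
  have hd : (0 : ℝ) < Module.finrank ℤ (𝓞 K) := by exact_mod_cast hd0
  refine ⟨Module.finrank ℤ (𝓞 K) * (1 + C / Real.log 2), by positivity, fun w z hz => ?_⟩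
  have hlz : Real.log 2 ≤ Real.log z := Real.log_le_log (by norm_num) hz
  have hterm : ∀ v ∈ Zs S w z, Real.log (nv v.1) / (nv v.1 : ℝ) ≤
      Real.log ((nv v.1).minFac) / ((nv v.1).minFac : ℝ) := by
    intro v _
    obtain ⟨hp, f, hf, hv⟩ := nv_pow K v.1
    generalize (nv v.1).minFac = ℓ at *
    rw [hv]
    have hℓ0 : (0 : ℝ) < ℓ := by exact_mod_cast hp.pos
    have hℓ1 : (1 : ℝ) ≤ ℓ := by exact_mod_cast hp.one_lt.le
    have hlog : 0 ≤ Real.log ℓ := Real.log_nonneg hℓ1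
    push_cast
    rw [Real.log_pow]
    obtain ⟨g, rfl⟩ : ∃ g, f = g + 1 := ⟨f - 1, by omega⟩
    rw [div_le_div_iff₀ (by positivity) hℓ0]
    have h1 : ((g + 1 : ℕ) : ℝ) ≤ (ℓ : ℝ) ^ g := by
      have h2 : g + 1 ≤ 2 ^ g := Nat.lt_two_pow_self
      have h3 : 2 ^ g ≤ ℓ ^ g := Nat.pow_le_pow_left hp.two_le g
      exact_mod_cast h2.trans h3
    calc ((g + 1 : ℕ) : ℝ) * Real.log ℓ * ℓ ≤ (ℓ : ℝ) ^ g * Real.log ℓ * ℓ := by gcongr
      _ = Real.log ℓ * (ℓ : ℝ) ^ (g + 1) := by ring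
  refine (Finset.sum_le_sum hterm).trans ?_
  have hmap : ∀ v ∈ Zs S w z, (nv v.1).minFac ∈ Pool.Agent.H75.AP.PI 0 z := by
    intro v hv
    obtain ⟨hp, f, hf, hv'⟩ := nv_pow K v.1
    rw [mem_Zs] at hv
    rw [Pool.Agent.H75.AP.PI, Finset.mem_filter, Finset.mem_range]
    refine ⟨?_, hp, by exact_mod_cast hp.pos⟩
    have h1 : (((nv v.1).minFac : ℕ) : ℝ) ≤ z := by
      refine le_trans ?_ hv.1
      exact_mod_cast Nat.minFac_le (nv_pos v.1)
    exact Nat.lt_succ_of_le (Nat.le_floor h1)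
  rw [← Finset.sum_fiberwise_of_maps_to hmap]
  have hfib : ∀ ℓ ∈ Pool.Agent.H75.AP.PI 0 z,
      ∑ v ∈ (Zs S w z).filter (fun v => (nv v.1).minFac = ℓ),
        Real.log ((nv v.1).minFac) / ((nv v.1).minFac : ℝ) ≤
      Module.finrank ℤ (𝓞 K) * (Real.log ℓ / ℓ) := by
    intro ℓ hℓ
    rw [Pool.Agent.H75.AP.PI, Finset.mem_filter] at hℓ
    have hp : ℓ.Prime := hℓ.2.1
    have h1 : ∀ v ∈ (Zs S w z).filter (fun v => (nv v.1).minFac = ℓ),
        Real.log ((nv v.1).minFac) / ((nv v.1).minFac : ℝ) = Real.log ℓ / ℓ := by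
      intro v hv
      rw [(Finset.mem_filter.1 hv).2]
    rw [Finset.sum_congr rfl h1, Finset.sum_const, nsmul_eq_mul]
    have h2 : 0 ≤ Real.log ℓ / (ℓ : ℝ) := by
      have : 0 ≤ Real.log ℓ := Real.log_nonneg (by exact_mod_cast hp.one_lt.le)
      positivity
    refine mul_le_mul_of_nonneg_right ?_ h2
    have h3 := fibre_card K ℓ hp (((Zs S w z).filter (fun v => (nv v.1).minFac = ℓ)).image
      (fun v => v.1)) (by
        intro v hv
        obtain ⟨u, hu, rfl⟩ := Finset.mem_image.1 hv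
        exact (Finset.mem_filter.1 hu).2)
    rw [Finset.card_image_of_injective _ Subtype.val_injective] at h3
    exact_mod_cast h3
  refine (Finset.sum_le_sum hfib).trans ?_
  rw [← Finset.mul_sum, mul_assoc]
  refine mul_le_mul_of_nonneg_left ?_ hd.le
  have h4 := (abs_le.1 (hm z (by linarith))).2
  have h5 : C ≤ C / Real.log 2 * Real.log z := by
    rw [div_mul_eq_mul_div, le_div_iff₀ hl2]
    exact mul_le_mul_of_nonneg_left hlz hC.le
  calc ∑ p ∈ Pool.Agent.H75.AP.PI 0 z, Real.log p / (p : ℝ) ≤ Real.log z + C := by linarith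
    _ ≤ (1 + C / Real.log 2) * Real.log z := by linarith

theorem sq_small (K : Type) [Field K] [NumberField K] (S : Set (Pl K)) (η : ℝ) (hη : 0 < η) :
    ∃ w : ℝ, ∀ z : ℝ, ∑ v ∈ Zs S w z, 1 / (nv v.1 : ℝ) ^ 2 ≤ η := by
  classical
  obtain ⟨C, hC, h⟩ := sq_tail (cb_ideals K)
  refine ⟨max 1 (C / η), fun z => ?_⟩
  have h1 := h (max 1 (C / η)) (le_max_left _ _)
    ((Zs S (max 1 (C / η)) z).image (fun v => v.1.asIdeal)) (by
      intro I hI
      obtain ⟨v, hv, rfl⟩ := Finset.mem_image.1 hI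
      exact ⟨v.1.ne_bot, ((mem_Zs S _ z v).1 hv).2⟩)
  rw [Finset.sum_image (by
    intro v _ v' _ hvv
    exact Subtype.ext (IsDedekindDomain.HeightOneSpectrum.ext hvv))] at h1
  refine h1.trans ?_
  have h2 : 0 < max 1 (C / η) := lt_of_lt_of_le one_pos (le_max_left _ _)
  rw [div_le_iff₀ h2]
  have h3 : C / η ≤ max 1 (C / η) := le_max_right _ _
  rw [div_le_iff₀ hη] at h3
  linarith

end H38.TD
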