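import Pool.Agent.H38.TD.NtDefs
import Pool.Agent.H38.ML.Harm
import Pool.Agent.H38.ML.IdealCount

/-!
# [H38 TD MERTA] `∑ 1/N v` grows at least like `log log z` (80-140 lines)

`Lv nv (Zs S w z) = ∑_{v ∉ S, w < N v ≤ z} 1/N v`.  Claim: `exp` of it is `≥ c log z`.

`harm_lower` with `cb_ideals K`: `∑_{I ≠ 0, N I ≤ z} 1/N I ≥ c₀ log z` for large `z`.  Every such ideal
is a product of primes of norm `≤ z`, so (finite Euler product; e.g. by induction over a finite set of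
primes, or bound the sum over the ideals `∏ v^{a_v}`, `0 ≤ a_v ≤ n`, by
`∏_v ∑_{a ≤ n} N v^{-a}`; `Finset.prod_sum` / `Finset.prod_univ_sum`, unique factorization gives an
injection from ideals to exponent functions)
`∑_{N I ≤ z} 1/N I ≤ ∏_{N v ≤ z} (1 - 1/N v)⁻¹ ≤ ∏ (1 + 2/N v)`-type bounds are too weak; use
`(1 - t)⁻¹ ≤ exp (t + 2 t²)` for `0 ≤ t ≤ 1/2` (`-log(1-t) ≤ t + 2 t²`... e.g. from
`(1 - t) exp(t + t²) ≥ 1` for `t ≤ 1/2`), so it is
`≤ exp (∑ 1/N v + ∑ 1/N v²·C)`, and `∑ 1/N v²` converges (`sq_tail`).  The places in `S` and those of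
norm `≤ w` contribute at most a constant to `∑ 1/N v` (`S` is finite, `po_finite`).
-/

open scoped NumberField Pointwise
open H38.ML

noncomputable section

namespace H38.TD

theorem merta_dec {K : Type} [Field K] [NumberField K] (I : Ideal (𝓞 K)) (hI : I ≠ ⊥) :
    ∃ (y : Ideal (𝓞 K) × Finset (Pl K)), y.1 ≠ ⊥ ∧ I = y.1 ^ 2 * ∏ v ∈ y.2, v.asIdeal := by
  classical
  induction I using UniqueFactorizationMonoid.induction_on_prime with
  | h₁ => exact absurd rfl hI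
  | h₂ x hx =>
    refine ⟨(1, ∅), ?_, ?_⟩
    · exact one_ne_zero
    · rw [isUnit_iff_eq_one.mp hx]
      show (1 : Ideal (𝓞 K)) = 1 ^ 2 * ∏ v ∈ (∅ : Finset (Pl K)), v.asIdeal
      rw [Finset.prod_empty, one_pow, mul_one]
  | h₃ a p ha hp ih =>
    obtain ⟨⟨A, D⟩, hA, hD⟩ := ih ha
    have hp' : p.IsPrime := Ideal.isPrime_of_prime hp
    have hp0 : p ≠ ⊥ := hp.ne_zero
    by_cases h : (⟨p, hp', hp0⟩ : Pl K) ∈ D
    · refine ⟨(p * A, D.erase ⟨p, hp', hp0⟩), mul_ne_zero hp0 hA, ?_⟩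
      have h1 := Finset.mul_prod_erase D (fun v : Pl K => v.asIdeal) h
      have hD' : a = A ^ 2 * ∏ v ∈ D, v.asIdeal := hD
      rw [hD', ← h1]
      show p * (A ^ 2 * (p * _)) = (p * A) ^ 2 * _
      ring
    · refine ⟨(A, insert ⟨p, hp', hp0⟩ D), hA, ?_⟩
      have hD' : a = A ^ 2 * ∏ v ∈ D, v.asIdeal := hD
      show p * a = A ^ 2 * ∏ v ∈ insert (⟨p, hp', hp0⟩ : Pl K) D, v.asIdeal
      rw [Finset.prod_insert h, hD']
      ring

theorem merta_pl_finite {K : Type} [Field K] [NumberField K] (z : ℝ) :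
    {v : Pl K | (nv v : ℝ) ≤ z}.Finite := by
  have h1 : {I : Ideal (𝓞 K) | Ideal.absNorm I ≤ ⌊z⌋₊}.Finite :=
    Ideal.finite_setOfPred_absNorm_le _
  refine Set.Finite.of_finite_image (f := fun v : Pl K => v.asIdeal) (h1.subset ?_) ?_
  · rintro _ ⟨v, hv, rfl⟩
    exact Nat.le_floor hv
  · intro v _ v' _ h
    exact IsDedekindDomain.HeightOneSpectrum.ext h

theorem merta_norm_prod {K : Type} [Field K] [NumberField K] (D : Finset (Pl K)) :
    Ideal.absNorm (∏ v ∈ D, v.asIdeal) = ∏ v ∈ D, nv v := by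
  rw [map_prod]
  rfl

theorem merta_exp {K : Type} [Field K] [NumberField K] (P : Finset (Pl K)) :
    ∑ D ∈ P.powerset, Pv (fun v : Pl K => nv v) D ≤ Real.exp (∑ v ∈ P, 1 / (nv v : ℝ)) := by
  unfold Pv
  rw [← Finset.prod_one_add, Real.exp_sum]
  refine Finset.prod_le_prod (fun v _ => by positivity) fun v _ => ?_
  linarith [Real.add_one_le_exp (1 / (nv v : ℝ))]

theorem merta_sq (K : Type) [Field K] [NumberField K] :
    ∃ C : ℝ, 0 < C ∧ ∀ T : Finset (Ideal (𝓞 K)), (∀ I ∈ T, I ≠ ⊥) →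
      ∑ I ∈ T, 1 / ((Ideal.absNorm I : ℕ) : ℝ) ^ 2 ≤ C := by
  classical
  obtain ⟨C, hC, h⟩ := sq_tail (cb_ideals K)
  refine ⟨1 + C, by positivity, fun T hT => ?_⟩
  have h1 := h 1 le_rfl (T.filter fun I => (1 : ℝ) < ((Ideal.absNorm I : ℕ) : ℝ))
    (fun I hI => by
      rw [Finset.mem_filter] at hI
      exact ⟨hT I hI.1, hI.2⟩)
  rw [div_one] at h1
  rw [← Finset.sum_filter_add_sum_filter_not T fun I => (1 : ℝ) < ((Ideal.absNorm I : ℕ) : ℝ)]
  have h2 : ∑ I ∈ T.filter (fun I => ¬ (1 : ℝ) < ((Ideal.absNorm I : ℕ) : ℝ)),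
      1 / ((Ideal.absNorm I : ℕ) : ℝ) ^ 2 ≤ 1 := by
    have h3 : T.filter (fun I => ¬ (1 : ℝ) < ((Ideal.absNorm I : ℕ) : ℝ)) ⊆ {⊤} := by
      intro I hI
      rw [Finset.mem_filter] at hI
      obtain ⟨h4, h5⟩ := hI
      have h6 : Ideal.absNorm I ≤ 1 := by
        rw [not_lt] at h5
        exact_mod_cast h5
      have h7 : Ideal.absNorm I ≠ 0 := fun h8 => hT I h4 (Ideal.absNorm_eq_zero_iff.1 h8)
      have h8 : Ideal.absNorm I = 1 := by omega
      rw [Finset.mem_singleton]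
      exact Ideal.absNorm_eq_one_iff.1 h8
    refine (Finset.sum_le_sum_of_subset_of_nonneg h3 fun I _ _ => by positivity).trans ?_
    rw [Finset.sum_singleton, Ideal.absNorm_top]
    norm_num
  have h9 : ∑ I ∈ T.filter (fun I => (1 : ℝ) < ((Ideal.absNorm I : ℕ) : ℝ)),
      1 / ((Ideal.absNorm I : ℕ) : ℝ) ^ 2 ≤ C := h1
  linarith

theorem merta_ideals (K : Type) [Field K] [NumberField K] :
    ∃ C : ℝ, 0 < C ∧ ∀ z : ℝ, 0 ≤ z →
      ∑ I ∈ ((cb_ideals K).fin z).toFinset, (1 : ℝ) / ((Ideal.absNorm I : ℕ) : ℝ) ≤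
        C * Real.exp (∑ v ∈ (merta_pl_finite (K := K) z).toFinset, 1 / (nv v : ℝ)) := by
  classical
  obtain ⟨C, hC, hsq⟩ := merta_sq K
  refine ⟨C, hC, fun z hz => ?_⟩
  choose! φ hφ1 hφ2 using fun (I : Ideal (𝓞 K)) (hI : I ≠ ⊥) => merta_dec I hI
  have hT : ∀ I ∈ ((cb_ideals K).fin z).toFinset, I ≠ ⊥ ∧ ((Ideal.absNorm I : ℕ) : ℝ) ≤ z := by
    intro I hI
    rw [Set.Finite.mem_toFinset] at hI
    exact hI
  have hnorm : ∀ I : Ideal (𝓞 K), I ≠ ⊥ → Ideal.absNorm I =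
      Ideal.absNorm (φ I).1 ^ 2 * ∏ v ∈ (φ I).2, nv v := by
    intro I hI
    conv_lhs => rw [hφ2 I hI]
    rw [map_mul, map_pow, merta_norm_prod]
  have hpos : ∀ I : Ideal (𝓞 K), I ≠ ⊥ → 0 < Ideal.absNorm I := fun I hI =>
    Nat.pos_of_ne_zero fun h => hI (Ideal.absNorm_eq_zero_iff.1 h)
  have h1 : ∀ I ∈ ((cb_ideals K).fin z).toFinset, (1 : ℝ) / ((Ideal.absNorm I : ℕ) : ℝ) =
      (fun y : Ideal (𝓞 K) × Finset (Pl K) =>
        1 / ((Ideal.absNorm y.1 : ℕ) : ℝ) ^ 2 * Pv (fun v : Pl K => nv v) y.2) (φ I) := by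
    intro I hI
    rw [hnorm I (hT I hI).1]
    simp only [Pv, Finset.prod_div_distrib, Finset.prod_const_one]
    push_cast
    rw [one_div_mul_one_div]
  have hinj : Set.InjOn φ (((cb_ideals K).fin z).toFinset : Set (Ideal (𝓞 K))) := by
    intro I hI J hJ h
    rw [hφ2 I (hT I hI).1, hφ2 J (hT J hJ).1, h]
  have hsub : (((cb_ideals K).fin z).toFinset).image φ ⊆
      ((cb_ideals K).fin z).toFinset ×ˢ
        ((merta_pl_finite (K := K) z).toFinset).powerset := by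
    intro y hy
    rw [Finset.mem_image] at hy
    obtain ⟨I, hI, rfl⟩ := hy
    obtain ⟨hI0, hIz⟩ := hT I hI
    have hn := hnorm I hI0
    have hA := hpos _ (hφ1 I hI0)
    have hD : 0 < ∏ v ∈ (φ I).2, nv v := Finset.prod_pos fun v _ => nv_pos v
    rw [Finset.mem_product, Set.Finite.mem_toFinset, Finset.mem_powerset]
    refine ⟨⟨hφ1 I hI0, le_trans ?_ hIz⟩, fun v hv => ?_⟩
    · have : Ideal.absNorm (φ I).1 ≤ Ideal.absNorm I := by
        rw [hn]
        nlinarith [Nat.mul_le_mul hA hD]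
      exact_mod_cast this
    · rw [Set.Finite.mem_toFinset]
      refine le_trans ?_ hIz
      have h2 : nv v ∣ ∏ v ∈ (φ I).2, nv v := Finset.dvd_prod_of_mem _ hv
      have h3 : nv v ≤ Ideal.absNorm I := by
        rw [hn]
        refine le_trans (Nat.le_of_dvd hD h2) ?_
        exact Nat.le_mul_of_pos_left _ (by positivity)
      exact_mod_cast h3
  rw [Finset.sum_congr rfl h1, ← Finset.sum_image (f := fun y : Ideal (𝓞 K) × Finset (Pl K) =>
        1 / ((Ideal.absNorm y.1 : ℕ) : ℝ) ^ 2 * Pv (fun v : Pl K => nv v) y.2) hinj]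
  have hPv : ∀ D : Finset (Pl K), 0 ≤ Pv (fun v : Pl K => nv v) D := fun D =>
    Finset.prod_nonneg fun v _ => by positivity
  refine (Finset.sum_le_sum_of_subset_of_nonneg hsub fun y _ _ =>
    mul_nonneg (by positivity) (hPv _)).trans ?_
  rw [Finset.sum_product]
  dsimp only
  rw [← Finset.sum_mul_sum]
  exact mul_le_mul (hsq _ fun I hI => (hT I hI).1) (merta_exp _)
    (Finset.sum_nonneg fun D _ => hPv D) hC.le

theorem mert_lower {K : Type} [Field K] [NumberField K] (S : Set (Pl K)) (hS : S.Finite) (w : ℝ) :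
    ∃ c : ℝ, 0 < c ∧ ∃ z₀ : ℝ, ∀ z : ℝ, z₀ ≤ z →
      c * Real.log z ≤ Real.exp (Lv (fun v : Po K S => nv v.1) (Zs S w z)) := by
  classical
  obtain ⟨c₀, hc₀, X₀, hlow⟩ := harm_lower (cb_ideals K)
  obtain ⟨C, hC, hup⟩ := merta_ideals K
  obtain ⟨B, hB⟩ : ∃ B : ℝ, B = ∑ v ∈ hS.toFinset, 1 / (nv v : ℝ) +
      ∑ v ∈ (merta_pl_finite (K := K) w).toFinset, 1 / (nv v : ℝ) := ⟨_, rfl⟩
  refine ⟨c₀ / (C * Real.exp B), by positivity, max X₀ 0, fun z hz => ?_⟩
  have h1 := (hlow z (le_trans (le_max_left _ _) hz)).trans (hup z (le_trans (le_max_right _ _) hz))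
  have h2 : ∑ v ∈ (merta_pl_finite (K := K) z).toFinset, 1 / (nv v : ℝ) ≤
      Lv (fun v : Po K S => nv v.1) (Zs S w z) + B := by
    have h3 : Lv (fun v : Po K S => nv v.1) (Zs S w z) =
        ∑ v ∈ (Zs S w z).map (Function.Embedding.subtype _), 1 / (nv v : ℝ) := by
      rw [Finset.sum_map]
      rfl
    have h4 : (merta_pl_finite (K := K) z).toFinset ⊆
        (Zs S w z).map (Function.Embedding.subtype _) ∪
          (hS.toFinset ∪ (merta_pl_finite (K := K) w).toFinset) := by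
      intro v hv
      rw [Set.Finite.mem_toFinset] at hv
      rw [Finset.mem_union, Finset.mem_union, Set.Finite.mem_toFinset, Set.Finite.mem_toFinset,
        Finset.mem_map]
      by_cases hvS : v ∈ S
      · exact Or.inr (Or.inl hvS)
      · rcases le_or_gt (nv v : ℝ) w with hw | hw
        · exact Or.inr (Or.inr hw)
        · exact Or.inl ⟨⟨v, hvS⟩, (mem_Zs S w z _).2 ⟨hv, hw⟩, rfl⟩
    have h5 : ∀ A A' : Finset (Pl K), ∑ v ∈ A ∪ A', 1 / (nv v : ℝ) ≤
        ∑ v ∈ A, 1 / (nv v : ℝ) + ∑ v ∈ A', 1 / (nv v : ℝ) := by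
      intro A A'
      rw [← Finset.sum_union_inter]
      have : 0 ≤ ∑ v ∈ A ∩ A', 1 / (nv v : ℝ) := Finset.sum_nonneg fun v _ => by positivity
      linarith
    have h6 := Finset.sum_le_sum_of_subset_of_nonneg (f := fun v : Pl K => 1 / (nv v : ℝ)) h4
      (fun v _ _ => by positivity)
    have h7 := h5 ((Zs S w z).map (Function.Embedding.subtype _))
      (hS.toFinset ∪ (merta_pl_finite (K := K) w).toFinset)
    have h8 := h5 hS.toFinset (merta_pl_finite (K := K) w).toFinset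
    rw [h3, hB]
    linarith
  have h9 : C * Real.exp (∑ v ∈ (merta_pl_finite (K := K) z).toFinset, 1 / (nv v : ℝ)) ≤
      C * (Real.exp (Lv (fun v : Po K S => nv v.1) (Zs S w z)) * Real.exp B) := by
    rw [← Real.exp_add]
    exact mul_le_mul_of_nonneg_left (Real.exp_le_exp.2 h2) hC.le
  have h10 := h1.trans h9
  rw [div_mul_eq_mul_div, div_le_iff₀ (by positivity)]
  refine h10.trans (le_of_eq ?_)
  ring

end H38.TD
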