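import Pool.Agent.H38.TD.Defs

/-!
# [H38 TD VAL] Orders at places: basic facts (80-150 lines)

`od Q e` is minus the exponent of `Q.valuationOfNeZero e`
(`IsDedekindDomain.HeightOneSpectrum.valuationOfNeZero_eq : (v.valuationOfNeZero x : ℤᵐ⁰) =
v.valuation K x`, and `valuation_of_algebraMap`, `intValuation`).  `od_mul`, `od_one`, `od_inv` are in
`Defs.lean`.  Everything here is standard.

* `od_eq_ordAt`: `ordAt` is the multiplicity in the normalized factors of `(z)`, the integral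
  valuation is defined with `Associates.count`; the bridge is
  `Associates.count_... ` / `Ideal.count_normalizedFactors_eq` / `count_associates_factors_eq` or go
  through `intValuation_if_neg`, `intValuation_le_pow_iff_dvd` (`v.intValuation r ≤ exp (-n) ↔
  v.asIdeal ^ n ∣ span {r}`) and `UniqueFactorizationMonoid.le_emultiplicity_iff_...`.
* `od_finite`: an integral element `z ≠ 0` lies in finitely many primes (the prime factors of `(z)`),
  and `e = a / b`.
* `exists_unit`: valuations of `e` and `e⁻¹` are `≤ 1` everywhere, so both are integral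
  (`IsDedekindDomain.HeightOneSpectrum.mem_integers_of_valuation_le_one`).
* `exists_int_div`: `e` is a unit of the localisation at `Q`: take `a/b = e`; the ideals `(a)`, `(b)`
  have the same power `Q^n`; choose `c ∈ 𝓞 M` with `(c) = Q^n J`..., simpler: `od Q e = 0` gives
  `Q.valuation M e = 1`, hence `e` and `e⁻¹` are in the localization at `Q` (Mathlib:
  `IsDedekindDomain.HeightOneSpectrum.exists_... `, or directly: let `I = {b : 𝓞 M | b e ∈ 𝓞 M}`, an
  ideal; it is not contained in `Q` because `e` has order `≥ 0` at `Q`: by `CRT`/approximation there is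
  `b ∉ Q` in all the primes powers needed at the finitely many other primes where `e` has negative
  order.  Then `a = b e` has order `0` at `Q`).
* `exists_unif`: an element of `Q ∖ Q²`.
* `exists_sep`: `Q ^ h` is principal for `h` the class number (`ClassGroup`, finite).
-/

open scoped NumberField Pointwise
open H38.ML

noncomputable section

namespace H38.TD

variable {M : Type} [Field M] [NumberField M]

private theorem vax_val (Q : Pl M) (e : Mˣ) :
    Q.valuation M (e : M) = WithZero.exp (-(od Q e)) := by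
  rw [← IsDedekindDomain.HeightOneSpectrum.valuationOfNeZero_eq]
  unfold od
  rw [neg_neg]
  rfl

private theorem vax_ne (z : 𝓞 M) (e : Mˣ) (h : (e : M) = z) : z ≠ 0 := by
  rintro rfl
  apply e.ne_zero
  rw [h]
  exact map_zero (algebraMap (𝓞 M) M)

theorem od_pow (Q : Pl M) (a : Mˣ) (n : ℕ) : od Q (a ^ n) = n * od Q a := by
  unfold od
  rw [map_pow, toAdd_pow, nsmul_eq_mul]
  ring

theorem od_zpow (Q : Pl M) (a : Mˣ) (n : ℤ) : od Q (a ^ n) = n * od Q a := by
  unfold od
  rw [map_zpow, toAdd_zpow, zsmul_eq_mul, Int.cast_id]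
  ring

theorem od_prod (Q : Pl M) {ι : Type} (s : Finset ι) (f : ι → Mˣ) :
    od Q (∏ i ∈ s, f i) = ∑ i ∈ s, od Q (f i) := by
  classical
  induction s using Finset.induction_on with
  | empty => rw [Finset.prod_empty, Finset.sum_empty, od_one]
  | insert a s ha ih => rw [Finset.prod_insert ha, Finset.sum_insert ha, od_mul, ih]

theorem od_eq_ordAt (Q : Pl M) (z : 𝓞 M) (e : Mˣ) (h : (e : M) = z) :
    od Q e = ordAt Q.asIdeal z := by
  have hz := vax_ne z e h
  have h1 := vax_val Q e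
  have h2 : (e : M) = algebraMap (𝓞 M) M z := h
  have hs : Ideal.span {z} ≠ (0 : Ideal (𝓞 M)) := by
    rw [Ne, Ideal.zero_eq_bot, Ideal.span_singleton_eq_bot]
    exact hz
  rw [h2, IsDedekindDomain.HeightOneSpectrum.valuation_of_algebraMap,
    Q.intValuation_if_neg hz, WithZero.exp_inj, neg_inj,
    Ideal.count_associates_factors_eq hs Q.isPrime Q.ne_bot] at h1
  rw [← h1]
  unfold ordAt
  congr!

theorem od_nonneg (Q : Pl M) (z : 𝓞 M) (e : Mˣ) (h : (e : M) = z) : 0 ≤ od Q e := by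
  rw [od_eq_ordAt Q z e h]
  exact Int.natCast_nonneg _

theorem od_pos_iff (Q : Pl M) (z : 𝓞 M) (e : Mˣ) (h : (e : M) = z) :
    0 < od Q e ↔ z ∈ Q.asIdeal := by
  rw [od_eq_ordAt Q z e h]
  have hz := vax_ne z e h
  have := Q.isPrime
  have h1 := ordAt_eq_zero_iff Q.asIdeal Q.ne_bot hz
  constructor
  · intro h2
    by_contra h3
    have := h1.2 h3
    omega
  · intro h2
    have h3 : ordAt Q.asIdeal z ≠ 0 := fun h4 => h1.1 h4 h2
    omega

theorem od_finite (e : Mˣ) : {Q : Pl M | od Q e ≠ 0}.Finite := by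
  obtain ⟨a, b, hb, hab⟩ := IsFractionRing.div_surjective (A := 𝓞 M) (e : M)
  have hb0 : b ≠ 0 := nonZeroDivisors.ne_zero hb
  have hb1 : algebraMap (𝓞 M) M b ≠ 0 := by
    rwa [Ne, FaithfulSMul.algebraMap_eq_zero_iff]
  have ha1 : algebraMap (𝓞 M) M a ≠ 0 := by
    intro h0
    rw [h0, zero_div] at hab
    exact e.ne_zero hab.symm
  have ha0 : a ≠ 0 := by
    rintro rfl
    exact ha1 (map_zero _)
  have e1 : e = Units.mk0 _ ha1 * (Units.mk0 _ hb1)⁻¹ := by
    ext
    rw [← hab]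
    simp [div_eq_mul_inv]
  have hfin : ∀ z : 𝓞 M, z ≠ 0 → {Q : Pl M | z ∈ Q.asIdeal}.Finite := by
    intro z hz
    have h1 : Ideal.span {z} ≠ (0 : Ideal (𝓞 M)) := by
      rw [Ne, Ideal.zero_eq_bot, Ideal.span_singleton_eq_bot]
      exact hz
    refine (Ideal.finite_factors h1).subset fun Q hQ => ?_
    rw [Set.mem_setOf_eq, Ideal.dvd_span_singleton]
    exact hQ
  refine ((hfin a ha0).union (hfin b hb0)).subset fun Q hQ => ?_
  rw [Set.mem_setOf_eq, e1, od_mul, od_inv] at hQ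
  by_contra hcon
  rw [Set.mem_union, not_or, Set.mem_setOf_eq, Set.mem_setOf_eq] at hcon
  have h1 := od_nonneg Q a (Units.mk0 _ ha1) rfl
  have h2 := od_nonneg Q b (Units.mk0 _ hb1) rfl
  have h3 : ¬ 0 < od Q (Units.mk0 _ ha1) := fun h => hcon.1 ((od_pos_iff Q a _ rfl).1 h)
  have h4 : ¬ 0 < od Q (Units.mk0 _ hb1) := fun h => hcon.2 ((od_pos_iff Q b _ rfl).1 h)
  apply hQ
  omega

theorem exists_unit (e : Mˣ) (h : ∀ Q : Pl M, od Q e = 0) :
    ∃ u : (𝓞 M)ˣ, ((u : 𝓞 M) : M) = e := by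
  have h1 : ∀ f : Mˣ, (∀ Q : Pl M, od Q f = 0) → ∃ u : 𝓞 M, algebraMap (𝓞 M) M u = f := by
    intro f hf
    have := IsDedekindDomain.HeightOneSpectrum.mem_integers_of_valuation_le_one (R := 𝓞 M) M (f : M)
      (fun Q => by rw [vax_val, hf Q, neg_zero, WithZero.exp_zero])
    exact this
  obtain ⟨u, hu⟩ := h1 e h
  obtain ⟨v, hv⟩ := h1 e⁻¹ (fun Q => by rw [od_inv, h Q, neg_zero])
  have huv : u * v = 1 := by
    apply FaithfulSMul.algebraMap_injective (𝓞 M) M
    rw [map_mul, hu, hv, map_one, Units.mul_inv]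
  exact ⟨⟨u, v, huv, by rw [mul_comm]; exact huv⟩, hu⟩

theorem od_unit (Q : Pl M) (u : (𝓞 M)ˣ) (e : Mˣ) (h : ((u : 𝓞 M) : M) = e) : od Q e = 0 := by
  have h1 := od_nonneg Q (u : 𝓞 M) e h.symm
  have h2 : ((e⁻¹ : Mˣ) : M) = ((u⁻¹ : (𝓞 M)ˣ) : 𝓞 M) := by
    rw [Units.val_inv_eq_inv_val, ← h, inv_eq_iff_eq_inv]
    refine eq_inv_of_mul_eq_one_left ?_
    have h4 : ((u : 𝓞 M) : M) * (((u⁻¹ : (𝓞 M)ˣ) : 𝓞 M) : M) = 1 := by
      have h5 := congrArg (algebraMap (𝓞 M) M) u.mul_inv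
      rw [map_mul, map_one] at h5
      exact h5
    exact h4
  have h3 := od_nonneg Q _ e⁻¹ h2
  rw [od_inv] at h3
  omega

theorem exists_int_div (Q : Pl M) (e : Mˣ) (h : od Q e = 0) :
    ∃ a b : 𝓞 M, a ∉ Q.asIdeal ∧ b ∉ Q.asIdeal ∧ (e : M) * b = a := by
  have hv : Q.valuation M (e : M) = 1 := by rw [vax_val, h, neg_zero, WithZero.exp_zero]
  obtain ⟨n, d, hnd⟩ := Q.exists_primeCompl_mul_eq_of_integer (K := M) (e : M) hv.le
  refine ⟨n, d, ?_, d.2, hnd⟩
  rw [← IsDedekindDomain.HeightOneSpectrum.valuation_eq_one_iff_notMem (K := M), ← hnd, map_mul, hv,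
    one_mul, IsDedekindDomain.HeightOneSpectrum.valuation_eq_one_iff_notMem]
  exact d.2

theorem exists_unif (Q : Pl M) : ∃ w : Mˣ, od Q w = 1 := by
  obtain ⟨π, hπ⟩ := Q.valuation_exists_uniformizer M
  have h0 : π ≠ 0 := by
    rintro rfl
    rw [map_zero] at hπ
    exact WithZero.exp_ne_zero hπ.symm
  refine ⟨Units.mk0 π h0, ?_⟩
  have h1 := vax_val Q (Units.mk0 π h0)
  rw [Units.val_mk0, hπ, WithZero.exp_inj] at h1
  omega

theorem exists_sep (Q : Pl M) :
    ∃ h : ℕ, 0 < h ∧ ∃ e : Mˣ, od Q e = h ∧ ∀ Q' : Pl M, Q' ≠ Q → od Q' e = 0 := by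
  classical
  have hQ0 : Q.asIdeal ∈ nonZeroDivisors (Ideal (𝓞 M)) := mem_nonZeroDivisors_of_ne_zero Q.ne_bot
  set h := Fintype.card (ClassGroup (𝓞 M)) with hh
  have hpos : 0 < h := Fintype.card_pos
  have h1 : (Q.asIdeal ^ h).IsPrincipal := by
    rw [← ClassGroup.mk0_eq_one_iff (pow_mem hQ0 h)]
    have h2 : ClassGroup.mk0 ⟨Q.asIdeal ^ h, pow_mem hQ0 h⟩ =
        ClassGroup.mk0 ⟨Q.asIdeal, hQ0⟩ ^ h := by
      rw [← map_pow]
      rfl
    rw [h2, pow_card_eq_one]
  obtain ⟨g, hg⟩ := h1.principal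
  have hg' : Ideal.span {g} = Q.asIdeal ^ h := hg.symm
  have hg0 : g ≠ 0 := by
    rintro rfl
    rw [Ideal.span_singleton_eq_bot.2 rfl] at hg'
    exact pow_ne_zero h Q.ne_bot hg'.symm
  have hg1 : algebraMap (𝓞 M) M g ≠ 0 := by
    rwa [Ne, FaithfulSMul.algebraMap_eq_zero_iff]
  refine ⟨h, hpos, Units.mk0 _ hg1, ?_, fun Q' hQ' => ?_⟩
  · rw [od_eq_ordAt Q g _ rfl]
    congr 1
    unfold ordAt
    rw [hg', UniqueFactorizationMonoid.normalizedFactors_pow, Multiset.count_nsmul,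
      UniqueFactorizationMonoid.normalizedFactors_irreducible
        (Ideal.prime_of_isPrime Q.ne_bot Q.isPrime).irreducible, normalize_eq,
      Multiset.count_singleton_self, mul_one]
  · have h3 := od_nonneg Q' g (Units.mk0 _ hg1) rfl
    have h4 : ¬ 0 < od Q' (Units.mk0 _ hg1) := by
      intro h5
      have h6 := (od_pos_iff Q' g _ rfl).1 h5
      rw [← Ideal.span_singleton_le_iff_mem, hg'] at h6
      have := Q'.isPrime
      have h7 : Q.asIdeal ≤ Q'.asIdeal := Ideal.IsPrime.le_of_pow_le h6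
      have h8 := Ring.DimensionLEOne.maximalOfPrime Q.ne_bot Q.isPrime
      apply hQ'
      ext1
      exact (h8.eq_of_le Q'.isPrime.ne_top h7).symm
    omega

end H38.TD
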