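import Pool.Agent.H38.TD.XD

/-!
# The sets of places of bounded norm (complete)
-/

open scoped NumberField Pointwise
open H38.ML

noncomputable section

namespace H38.TD

/-- The norm of a place. -/
def nv {K : Type} [Field K] [NumberField K] (v : Pl K) : ℕ := Ideal.absNorm v.asIdeal

theorem nv_pos {K : Type} [Field K] [NumberField K] (v : Pl K) : 0 < nv v :=
  Nat.pos_of_ne_zero fun h => v.ne_bot (Ideal.absNorm_eq_zero_iff.mp h)

theorem two_le_nv {K : Type} [Field K] [NumberField K] (v : Pl K) : 2 ≤ nv v := by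
  have h0 := nv_pos v
  have h1 : nv v ≠ 1 := fun h => v.isPrime.ne_top (Ideal.absNorm_eq_one_iff.mp h)
  omega

theorem po_finite {K : Type} [Field K] [NumberField K] (S : Set (Pl K)) (z : ℝ) :
    {v : Po K S | (nv v.1 : ℝ) ≤ z}.Finite := by
  have h1 : {I : Ideal (𝓞 K) | Ideal.absNorm I ≤ ⌊z⌋₊}.Finite :=
    Ideal.finite_setOfPred_absNorm_le _
  refine Set.Finite.of_finite_image (f := fun v : Po K S => v.1.asIdeal) (h1.subset ?_) ?_
  · rintro _ ⟨v, hv, rfl⟩
    exact Nat.le_floor hv
  · intro v _ v' _ h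
    exact Subtype.ext (IsDedekindDomain.HeightOneSpectrum.ext h)

open Classical in
/-- The places outside `S` with `w < norm ≤ z`. -/
def Zs {K : Type} [Field K] [NumberField K] (S : Set (Pl K)) (w z : ℝ) : Finset (Po K S) :=
  (po_finite S z).toFinset.filter fun v => w < nv v.1

theorem mem_Zs {K : Type} [Field K] [NumberField K] (S : Set (Pl K)) (w z : ℝ) (v : Po K S) :
    v ∈ Zs S w z ↔ (nv v.1 : ℝ) ≤ z ∧ w < nv v.1 := by
  classical
  simp [Zs]

end H38.TD
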