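import Pool.Agent.H38.TD.HomDefs

/-!
# [H38 TD KXE] The Kummer extension `K(x^{1/p})` inside `Ω` (three theorems, 90-150 lines)

* `kxe`: `ζ ∈ K` a primitive `p`-th root of unity, `x` not a `p`-th power in `K`.  `B ∈ Ω` with
  `B^p = x`, `M = IntermediateField.adjoin K {B}`.  `X^p - x` is irreducible
  (`X_pow_sub_C_irreducible_of_prime`), `M` is its splitting field; Mathlib's Kummer theory
  (`Mathlib/FieldTheory/KummerExtension.lean`: `isGalois_of_isSplittingField_X_pow_sub_C`,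
  `autEquivZmod`, `autAdjoinRootXPowSubCEquiv`, `isCyclic_of_isSplittingField_X_pow_sub_C`) gives that
  `M/K` is Galois with group cyclic of order `p`.  There is an automorphism `γ` with `γ B = ζ B`
  (`B` and `ζ B` are roots of the same irreducible polynomial); it has order `p` (`γ^k B = ζ^k B`) and
  generates (`Gal(M/K)` has `p` elements).
* `kdet`: if `ρ` lies over `x` and over `x'` with roots `B`, `B'` then for every `σ`,
  `σ B = ζ^k B`, `σ B' = ζ^{k'} B'` (some `k, k'`), and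
  `j a c^k = ρ σ = j a' c^{k'}`; so `c^{k} ∈ j(A) c^{k'}`, i.e. (with `k' ≤ k` after adding a multiple of
  `p` to `k`) `c^{k - k'} ∈ j(A)`, so `p ∣ k - k'` (`pd.notin`).  Hence
  `σ (B/B') = B/B'` for all `σ`, so `B/B' ∈ K` (`InfiniteGalois`/`IsGalois` fixed field of the whole
  group) and `x/x'` is a `p`-th power.
* `twist_ex`: for `π ∈ Kˣ` choose `B^p = π`; `σ B = ζ^k B` with `k ∈ ZMod p` unique; `κ σ = k` is a
  homomorphism (`ζ ∈ K`), of finite type (trivial on the group fixing `K(B)`).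
-/

open scoped NumberField Pointwise
open H38.ML

noncomputable section

namespace H38.TD

variable {K Ω : Type} [Field K] [NumberField K] [Field Ω] [Algebra K Ω] [IsAlgClosure K Ω]

theorem kxe (p : ℕ) (hp : p.Prime) (ζ : K) (hζ : IsPrimitiveRoot ζ p) (x : Kˣ)
    (hx : ∀ y : Kˣ, y ^ p ≠ x) :
    ∃ (M : IntermediateField K Ω) (_ : FiniteDimensional K M) (_ : IsGalois K M),
      Nonempty (KX K M p ζ x) := by
  classical
  have hclosed : IsAlgClosed Ω := IsAlgClosure.isAlgClosed K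
  have hp0 : NeZero p := ⟨hp.ne_zero⟩
  obtain ⟨B, hB⟩ := IsAlgClosed.exists_pow_nat_eq (algebraMap K Ω (x : K)) hp.pos
  have hirr : Irreducible (Polynomial.X ^ p - Polynomial.C (x : K)) := by
    refine X_pow_sub_C_irreducible_of_prime hp fun b hb => ?_
    have hb0 : b ≠ 0 := by
      rintro rfl
      rw [zero_pow hp.ne_zero] at hb
      exact x.ne_zero hb.symm
    exact hx (Units.mk0 b hb0) (Units.ext hb)
  let M : IntermediateField K Ω :=
    IntermediateField.adjoin K ((Polynomial.X ^ p - Polynomial.C (x : K)).rootSet Ω)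
  haveI hsplit : Polynomial.IsSplittingField K M (Polynomial.X ^ p - Polynomial.C (x : K)) :=
    IntermediateField.adjoin_rootSet_isSplittingField (IsAlgClosed.splits _)
  have hprim : (primitiveRoots p K).Nonempty := ⟨ζ, (mem_primitiveRoots hp.pos).2 hζ⟩
  have hfd : FiniteDimensional K M :=
    Polynomial.IsSplittingField.finiteDimensional M (Polynomial.X ^ p - Polynomial.C (x : K))
  have hgal : IsGalois K M := isGalois_of_isSplittingField_X_pow_sub_C hprim hirr M
  refine ⟨M, hfd, hgal, ?_⟩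
  have hBM : B ∈ M := by
    apply IntermediateField.subset_adjoin
    rw [Polynomial.mem_rootSet]
    refine ⟨hirr.ne_zero, ?_⟩
    simp [hB]
  have hβ : (⟨B, hBM⟩ : M) ^ p = algebraMap K M (x : K) := Subtype.ext hB
  have hβ0 : (⟨B, hBM⟩ : M) ≠ 0 := by
    intro h0
    rw [h0, zero_pow hp.ne_zero] at hβ
    have h1 : algebraMap K M (x : K) = algebraMap K M 0 := by rw [map_zero]; exact hβ.symm
    exact x.ne_zero ((algebraMap K M).injective h1)
  let E := autEquivZmod hirr M hζ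
  have hγ : E.symm (Multiplicative.ofAdd (1 : ZMod p)) (⟨B, hBM⟩ : M) =
      algebraMap K M ζ * ⟨B, hBM⟩ := by
    have h1 := autEquivZmod_symm_apply_natCast hirr M hβ hζ 1
    rw [Nat.cast_one, pow_one, Algebra.smul_def] at h1
    exact h1
  refine ⟨{ γ := E.symm (Multiplicative.ofAdd (1 : ZMod p))
            β := Units.mk0 _ hβ0
            gen := ?_
            ord := ?_
            pow := ?_
            act := hγ }⟩
  · intro g
    refine ⟨(Multiplicative.toAdd (E g)).val, ?_⟩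
    apply E.injective
    rw [map_pow, MulEquiv.apply_symm_apply, ← ofAdd_nsmul, nsmul_one, ZMod.natCast_zmod_val]
    rfl
  · rw [MulEquiv.orderOf_eq, orderOf_ofAdd_eq_addOrderOf, ZMod.addOrderOf_one]
  · apply Units.ext
    rw [Units.val_pow_eq_pow_val, Units.val_mk0, hβ]
    rfl

theorem kdet {A P : Type} [CommGroup A] [Group P] {p : ℕ} (pd : PD p A P) (hp : p.Prime) (ζ : K)
    (hζ : IsPrimitiveRoot ζ p) (x x' : Kˣ) (ρ : Gal(Ω/K) →* P) (h : OverX pd ζ x ρ)
    (h' : OverX pd ζ x' ρ) : ∃ y : Kˣ, x = x' * y ^ p := by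
  classical
  have hgal : IsGalois K Ω := IsAlgClosure.isGalois K Ω
  have hp0 : NeZero p := ⟨hp.ne_zero⟩
  have hz : IsPrimitiveRoot (algebraMap K Ω ζ) p :=
    hζ.map_of_injective (algebraMap K Ω).injective
  obtain ⟨B, hB, hBρ⟩ := h
  obtain ⟨B', hB', hBρ'⟩ := h'
  have hne : ∀ (x : Kˣ) (B : Ω), B ^ p = algebraMap K Ω x → B ≠ 0 := by
    intro x B hB h0
    rw [h0, zero_pow hp.ne_zero] at hB
    have h1 : algebraMap K Ω (x : K) = algebraMap K Ω 0 := by rw [map_zero]; exact hB.symm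
    exact x.ne_zero ((algebraMap K Ω).injective h1)
  have hk : ∀ (x : Kˣ) (B : Ω), B ^ p = algebraMap K Ω x → ∀ σ : Gal(Ω/K), ∃ k : ℕ,
      σ B = algebraMap K Ω ζ ^ k * B := by
    intro x B hB σ
    have h1 : (σ B) ^ p = B ^ p := by rw [← map_pow, hB, AlgEquiv.commutes]
    have h2 : (σ B / B) ^ p = 1 := by
      rw [div_pow, h1, div_self (pow_ne_zero _ (hne x B hB))]
    obtain ⟨l, -, hl⟩ := hz.eq_pow_of_pow_eq_one h2
    exact ⟨l, by rw [hl, div_mul_cancel₀ _ (hne x B hB)]⟩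
  have hB0 := hne x B hB
  have hB0' := hne x' B' hB'
  have hfix : ∀ σ : Gal(Ω/K), σ (B / B') = B / B' := by
    intro σ
    obtain ⟨k, hk1⟩ := hk x B hB σ
    obtain ⟨k', hk2⟩ := hk x' B' hB' σ
    have hzp : algebraMap K Ω ζ ^ p = 1 := hz.pow_eq_one
    have hk3 : σ B = algebraMap K Ω ζ ^ (k + p * k') * B := by
      rw [hk1, pow_add, pow_mul, hzp, one_pow, mul_one]
    obtain ⟨a, ha⟩ := hBρ σ _ hk3
    obtain ⟨a', ha'⟩ := hBρ' σ _ hk2
    have hle : k' ≤ k + p * k' := by
      have := Nat.mul_le_mul_right k' hp.one_lt.le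
      omega
    have h3 : pd.c ^ (k + p * k' - k') ∈ pd.j.range := by
      refine ⟨a⁻¹ * a', ?_⟩
      have h4 : pd.j a * pd.c ^ (k + p * k') = pd.j a' * pd.c ^ k' := ha.symm.trans ha'
      have h5 : k + p * k' = (k + p * k' - k') + k' := (Nat.sub_add_cancel hle).symm
      rw [h5, pow_add, ← mul_assoc] at h4
      have h6 := mul_right_cancel h4
      rw [map_mul, map_inv, ← h6]
      simp
    have h4 := pd.notin _ h3
    have h5 : algebraMap K Ω ζ ^ (k + p * k') = algebraMap K Ω ζ ^ k' := by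
      obtain ⟨c, hc⟩ := h4
      have h6 : k + p * k' = k' + p * c := by omega
      rw [h6, pow_add, pow_mul, hzp, one_pow, mul_one]
    rw [map_div₀, hk3, hk2, h5, mul_div_mul_left _ _ (pow_ne_zero _ (hz.ne_zero hp.ne_zero))]
  obtain ⟨y, hy⟩ := (InfiniteGalois.mem_range_algebraMap_iff_fixed (B / B')).2 hfix
  have hy0 : y ≠ 0 := by
    rintro rfl
    rw [map_zero] at hy
    exact (div_ne_zero hB0 hB0') hy.symm
  refine ⟨Units.mk0 y hy0, ?_⟩
  apply Units.ext
  apply (algebraMap K Ω).injective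
  rw [Units.val_mul, Units.val_pow_eq_pow_val, Units.val_mk0, map_mul, map_pow, hy, ← hB, ← hB',
    div_pow, mul_div_cancel₀ _ (pow_ne_zero _ hB0')]

theorem twist_ex (p : ℕ) (hp : p.Prime) (ζ : K) (hζ : IsPrimitiveRoot ζ p) (π : Kˣ) :
    ∃ (κ : Gal(Ω/K) →* Multiplicative (ZMod p)) (B : Ω), FT κ ∧ B ^ p = algebraMap K Ω π ∧
      ∀ σ, σ B = algebraMap K Ω ζ ^ (Multiplicative.toAdd (κ σ)).val * B := by
  classical
  have hclosed : IsAlgClosed Ω := IsAlgClosure.isAlgClosed K
  have hp0 : NeZero p := ⟨hp.ne_zero⟩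
  have hz : IsPrimitiveRoot (algebraMap K Ω ζ) p :=
    hζ.map_of_injective (algebraMap K Ω).injective
  have hzp : algebraMap K Ω ζ ^ p = 1 := hz.pow_eq_one
  obtain ⟨B, hB⟩ := IsAlgClosed.exists_pow_nat_eq (algebraMap K Ω (π : K)) hp.pos
  have hB0 : B ≠ 0 := by
    intro h0
    rw [h0, zero_pow hp.ne_zero] at hB
    have h1 : algebraMap K Ω (π : K) = algebraMap K Ω 0 := by rw [map_zero]; exact hB.symm
    exact π.ne_zero ((algebraMap K Ω).injective h1)
  have hkex : ∀ σ : Gal(Ω/K), ∃ k : ℕ, σ B = algebraMap K Ω ζ ^ k * B := by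
    intro σ
    have h1 : (σ B) ^ p = B ^ p := by rw [← map_pow, hB, AlgEquiv.commutes]
    have h2 : (σ B / B) ^ p = 1 := by rw [div_pow, h1, div_self (pow_ne_zero _ hB0)]
    obtain ⟨l, -, hl⟩ := hz.eq_pow_of_pow_eq_one h2
    exact ⟨l, by rw [hl, div_mul_cancel₀ _ hB0]⟩
  choose κ hκ using hkex
  have hmod : ∀ {m n : ℕ}, algebraMap K Ω ζ ^ m = algebraMap K Ω ζ ^ n →
      ((m : ℕ) : ZMod p) = ((n : ℕ) : ZMod p) := by
    intro m n h
    rw [ZMod.natCast_eq_natCast_iff]
    have h1 := (pow_eq_pow_iff_modEq (x := hz.isUnit hp.ne_zero |>.unit) (n := m) (m := n)).1 (by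
      apply Units.ext
      push_cast
      simpa using h)
    have h2 : orderOf (hz.isUnit hp.ne_zero).unit = p := by
      rw [← orderOf_units, IsUnit.unit_spec]
      exact hz.eq_orderOf.symm
    rwa [h2] at h1
  let κ' : Gal(Ω/K) →* Multiplicative (ZMod p) :=
    MonoidHom.mk' (fun σ => Multiplicative.ofAdd ((κ σ : ℕ) : ZMod p)) (by
      intro σ τ
      rw [← ofAdd_add, ← Nat.cast_add]
      congr 1
      apply hmod
      have h1 := hκ (σ * τ)
      rw [AlgEquiv.mul_apply, hκ τ, map_mul, map_pow, AlgEquiv.commutes, hκ σ, ← mul_assoc,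
        ← pow_add] at h1
      rw [add_comm (κ σ)]
      exact (mul_right_cancel₀ hB0 h1).symm)
  refine ⟨κ', B, ?_, hB, ?_⟩
  · refine ⟨IntermediateField.adjoin K {B}, ?_, ?_⟩
    · exact IntermediateField.adjoin.finiteDimensional
        ((IsAlgClosure.isAlgebraic (R := K) (K := Ω)).isAlgebraic B |>.isIntegral)
    · intro σ hσ
      rw [IntermediateField.mem_fixingSubgroup_iff] at hσ
      have h1 : σ B = B := hσ B (IntermediateField.mem_adjoin_simple_self K B)
      rw [MonoidHom.mem_ker]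
      change Multiplicative.ofAdd ((κ σ : ℕ) : ZMod p) = 1
      have h2 := hκ σ
      rw [h1] at h2
      have h3 : algebraMap K Ω ζ ^ κ σ = algebraMap K Ω ζ ^ 0 := by
        rw [pow_zero]
        exact (mul_right_cancel₀ hB0 (by rw [one_mul]; exact h2)).symm
      rw [hmod h3]
      simp
  · intro σ
    rw [hκ σ]
    congr 1
    change _ = algebraMap K Ω ζ ^ (((κ σ : ℕ) : ZMod p)).val
    rw [ZMod.val_natCast]
    conv_lhs => rw [← Nat.mod_add_div (κ σ) p]
    rw [pow_add, pow_mul, hzp, one_pow, mul_one]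

end H38.TD
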