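import Mathlib

/-!
# [H38 TD AG1] Independent elements and the index of the `p`-th powers (60-100 lines, pure algebra)

`W` a finitely generated abelian group, `w_1, …, w_m` independent over `ℤ`.  Then
`[W : W^p]` is finite and `≥ p^m`.  Proof: in additive notation `W ≅ ℤ^r ⊕ torsion`
(`AddCommGroup.equiv_free_prod_directSum_zmod`, or `Module.Finite`, `Submodule.torsion`,
`Module.finrank`); `m ≤ r` since the images of the `w_i` in `W / torsion` are independent
(`LinearIndependent.fintype_card_le_finrank`), and `W / pW` maps onto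
`(W/tors)/p(W/tors) ≅ (ℤ/p)^r`.  Finiteness: `W / pW` is a finitely generated group killed by `p`.
Alternative: `W/pW` as vector space over `ZMod p`: `W` f.g.; if `[W : pW] = p^s`, choose `s` elements
which generate `W` modulo `pW`, let `W₀` be the subgroup generated by them; then `W = W₀ + pW`, so
`W/W₀` is f.g. and `p`-divisible, hence finite of order prime to `p`; so some multiples `N w_i`
are in `W₀`, independent elements in a group with `s` generators, so `m ≤ s`.
-/

namespace H38.TD

theorem fg_index (W : Type) [CommGroup W] [Group.FG W] (p : ℕ) (hp : p.Prime) (m : ℕ)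
    (w : Fin m → W) (hw : ∀ n : Fin m → ℤ, ∏ i, w i ^ n i = 1 → n = 0) :
    (powMonoidHom p : W →* W).range.index ≠ 0 ∧
      p ^ m ≤ (powMonoidHom p : W →* W).range.index := by
  have hne : (powMonoidHom p : W →* W).range.index ≠ 0 := by
    have htor : IsMulTorsion (W ⧸ (powMonoidHom p : W →* W).range) := by
      intro x
      rw [isOfFinOrder_iff_pow_eq_one]
      refine ⟨p, hp.pos, ?_⟩
      obtain ⟨z, rfl⟩ := QuotientGroup.mk_surjective x
      rw [← QuotientGroup.mk_pow, QuotientGroup.eq_one_iff]
      exact ⟨z, rfl⟩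
    have hfin := CommGroup.finite_of_fg_isMulTorsion _ htor
    exact Subgroup.index_ne_zero_of_finite
  refine ⟨hne, ?_⟩
  have : Module.Finite ℤ (Additive W) := Module.Finite.iff_addGroup_fg.2 inferInstance
  set T := Submodule.torsion ℤ (Additive W) with hT
  have hfin : Module.Finite ℤ (Additive W ⧸ T) := inferInstance
  have hfree : Module.Free ℤ (Additive W ⧸ T) := Module.free_of_finite_type_torsion_free'
  let b := Module.finBasis ℤ (Additive W ⧸ T)
  have hsum : ∀ g : Fin m → ℤ, ∑ i, g i • Additive.ofMul (w i) = Additive.ofMul (∏ i, w i ^ g i) := by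
    intro g
    rw [ofMul_prod]
    exact Finset.sum_congr rfl fun i _ => (ofMul_zpow _ _).symm
  have hli : LinearIndependent ℤ (fun i => T.mkQ (Additive.ofMul (w i))) := by
    rw [Fintype.linearIndependent_iff]
    intro g hg i
    have h1 : T.mkQ (∑ i, g i • Additive.ofMul (w i)) = 0 := by
      rw [map_sum, ← hg]
      exact Finset.sum_congr rfl fun i _ => map_smul _ _ _
    rw [Submodule.mkQ_apply, Submodule.Quotient.mk_eq_zero, hT, Submodule.mem_torsion_iff] at h1
    obtain ⟨a, ha⟩ := h1
    have ha0 : (a : ℤ) ≠ 0 := nonZeroDivisors.coe_ne_zero a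
    have h2 : (a : ℤ) • ∑ i, g i • Additive.ofMul (w i) = 0 := ha
    have h3 : ∑ i, ((a : ℤ) * g i) • Additive.ofMul (w i) = 0 := by
      rw [← h2, Finset.smul_sum]
      exact Finset.sum_congr rfl fun i _ => mul_smul _ _ _
    rw [hsum] at h3
    have h4 := hw _ (ofMul_eq_zero.1 h3)
    have h5 := congrFun h4 i
    exact (mul_eq_zero.1 h5).resolve_left ha0
  have hm : m ≤ Module.finrank ℤ (Additive W ⧸ T) := by
    have := hli.fintype_card_le_finrank
    rwa [Fintype.card_fin] at this
  have : NeZero p := ⟨hp.ne_zero⟩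
  let φ : W →* Multiplicative (Fin (Module.finrank ℤ (Additive W ⧸ T)) → ZMod p) :=
    MonoidHom.mk' (fun x => Multiplicative.ofAdd
      (fun i => ((b.equivFun (T.mkQ (Additive.ofMul x)) i : ℤ) : ZMod p))) (by
        intro x y
        rw [← ofAdd_add]
        congr 1
        funext i
        rw [ofMul_mul, map_add, map_add, Pi.add_apply, Pi.add_apply, Int.cast_add])
  have hφ : Function.Surjective φ := by
    intro y
    obtain ⟨x, hx⟩ := T.mkQ_surjective
      (b.equivFun.symm (fun i => (((Multiplicative.toAdd y) i).val : ℤ)))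
    refine ⟨Additive.toMul x, ?_⟩
    show Multiplicative.ofAdd
      (fun i => ((b.equivFun (T.mkQ (Additive.ofMul (Additive.toMul x))) i : ℤ) : ZMod p)) = y
    rw [ofMul_toMul, hx, LinearEquiv.apply_symm_apply]
    apply Multiplicative.toAdd.injective
    rw [toAdd_ofAdd]
    funext i
    rw [Int.cast_natCast, ZMod.natCast_zmod_val]
  have hle : (powMonoidHom p : W →* W).range ≤ φ.ker := by
    rintro _ ⟨z, rfl⟩
    rw [MonoidHom.mem_ker, powMonoidHom_apply, map_pow]
    apply Multiplicative.toAdd.injective
    rw [toAdd_pow, toAdd_one]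
    funext i
    rw [Pi.smul_apply, nsmul_eq_mul, CharP.cast_eq_zero, zero_mul, Pi.zero_apply]
  have h6 := Subgroup.index_dvd_of_le hle
  have h7 : φ.ker.index = p ^ Module.finrank ℤ (Additive W ⧸ T) := by
    rw [Subgroup.index_ker, MonoidHom.range_eq_top.2 hφ, Subgroup.card_top,
      Nat.card_congr Multiplicative.toAdd, Nat.card_eq_fintype_card, Fintype.card_fun, ZMod.card,
      Fintype.card_fin]
  rw [h7] at h6
  exact (Nat.pow_le_pow_right hp.pos hm).trans (Nat.le_of_dvd (Nat.pos_of_ne_zero hne) h6)

end H38.TD
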