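import Pool.Agent.H38.TD.AG1
import Pool.Agent.H38.TD.Defs

/-!
# [H38 TD AG2] The abstract index inequality (90-150 lines, pure algebra)

`E` a finitely generated abelian group with an automorphism `γ`, `γ^p = 1`, `N = nh γ p : e ↦
∏_{k<p} γ^k e`, `W = ker N`, `t e = γ e / e`, `tE` the range of `t` (contained in `W`), `U = fx γ`.
Claim: if `W` contains `(p-1) r` elements which are independent over `ℤ`, then
`p^r ≤ [W : tE] · [N(E) : N(U)]`.  (`N(U) = U^p`, because `N u = u^p` for `u ∈ U`.)

Proof (additive notation).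
(1) `t^{p-1} W ⊆ p W`: `t^{p-1} = (γ - 1)^{p-1} = ∑_k (-1)^{p-1-k} binom(p-1,k) γ^k` and
`(-1)^{p-1-k} binom(p-1,k) ≡ 1 mod p`, so `t^{p-1} = N + p g(γ)` with an integral polynomial `g`, and
`N = 0` on `W`.  (Equivalently: in `ℤ[X]`, `(X-1)^{p-1} - (1 + X + ⋯ + X^{p-1})` is divisible by `p`
because `(X-1)^p = X^p - 1 = (X-1)(1+⋯+X^{p-1})` in `𝔽_p[X]`, a domain.)
(2) `|t^i W / t^{i+1} W| ≤ |W / tW|` (`t^i` induces a surjection), so
`|W / t^{p-1} W| ≤ |W/tW|^{p-1}`.
(3) by `fg_index` (`W` is a subgroup of a f.g. abelian group): `p^{(p-1) r} ≤ |W/pW| ≤ |W/t^{p-1}W| ≤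
|W/tW|^{p-1}`, so `p^r ≤ |W/tW|`.  Finiteness of `W/tW`: it is killed by `p`
(`N = 0` on `W` and `γ = 1` on `W/tW`, so `p = N = 0` on `W/tW`), and finitely generated.
(4) `[W : tW] = [W : tE] [tE : tW]`, and `t : E → tE` has kernel `U`, so
`tE/tW ≅ E/(W + U)`, and `N : E → N(E)` has kernel `W`, so `N(E)/N(U) ≅ E/(W + U)`.
Work with `Subgroup.relIndex` (`relIndex_mul_relIndex`, `relIndex_map_map`…); all indices here are
finite and nonzero.
-/

open H38.ML Polynomial

noncomputable section

namespace H38.TD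

/-- The homomorphism `e ↦ γ e / e`. -/
def tm {E : Type} [CommGroup E] (γ : E ≃* E) : E →* E where
  toFun e := γ e / e
  map_one' := by simp
  map_mul' a b := by rw [map_mul, mul_div_mul_comm]

/-- polynomial identity -/
theorem ag_poly (p : ℕ) (hp : p.Prime) :
    ∃ g : ℤ[X], (X - 1) ^ (p - 1) = (∑ k ∈ Finset.range p, X ^ k) + C (p : ℤ) * g := by
  have := Fact.mk hp
  have h1 : ((X : (ZMod p)[X]) - 1) ^ (p - 1) = ∑ k ∈ Finset.range p, X ^ k := by
    have h2 : ((X : (ZMod p)[X]) - 1) ≠ 0 := by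
      have := Polynomial.X_sub_C_ne_zero (1 : ZMod p)
      simpa using this
    apply mul_left_cancel₀ h2
    rw [mul_geom_sum, ← pow_succ', Nat.sub_add_cancel hp.one_le]
    have := sub_pow_char (R := (ZMod p)[X]) (p := p) X 1
    rwa [one_pow] at this
  have h3 : (C (p : ℤ) : ℤ[X]) ∣ (X - 1) ^ (p - 1) - ∑ k ∈ Finset.range p, X ^ k := by
    rw [Polynomial.C_dvd_iff_dvd_coeff]
    intro i
    rw [← ZMod.intCast_zmod_eq_zero_iff_dvd]
    have h4 : ((X - 1) ^ (p - 1) - ∑ k ∈ Finset.range p, X ^ k : ℤ[X]).map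
        (Int.castRingHom (ZMod p)) = 0 := by
      rw [Polynomial.map_sub, Polynomial.map_pow, Polynomial.map_sub, Polynomial.map_X,
        Polynomial.map_one, h1, Polynomial.map_sum]
      simp
    have h5 := congrArg (fun f => f.coeff i) h4
    simp only [Polynomial.coeff_map, Polynomial.coeff_zero] at h5
    exact h5
  obtain ⟨g, hg⟩ := h3
  exact ⟨g, by rw [← hg]; ring⟩

theorem ag_end {V : Type} [AddCommGroup V] (G : AddMonoid.End V) (p : ℕ) (hp : p.Prime)
    (hN : ∑ k ∈ Finset.range p, G ^ k = 0) :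
    ∃ H : AddMonoid.End V, (G - 1) ^ (p - 1) = p * H := by
  obtain ⟨g, hg⟩ := ag_poly p hp
  refine ⟨aeval G g, ?_⟩
  have h1 := congrArg (aeval G) hg
  rw [map_pow, map_sub, aeval_X, map_one, map_add, map_sum, map_mul] at h1
  simp only [map_pow, aeval_X] at h1
  rw [hN, zero_add, aeval_C] at h1
  simpa using h1

theorem ag_end2 {V : Type} [AddCommGroup V] (G : AddMonoid.End V) (p : ℕ)
    (hN : ∑ k ∈ Finset.range p, G ^ k = 0) :
    ∃ H : AddMonoid.End V, (p : AddMonoid.End V) = (G - 1) * H := by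
  refine ⟨-∑ k ∈ Finset.range p, ∑ j ∈ Finset.range k, G ^ j, ?_⟩
  rw [mul_neg, Finset.mul_sum]
  have h1 : ∀ k ∈ Finset.range p, (G - 1) * ∑ j ∈ Finset.range k, G ^ j = G ^ k - 1 :=
    fun k _ => mul_geom_sum G k
  rw [Finset.sum_congr rfl h1, Finset.sum_sub_distrib, hN]
  simp

theorem ag_fg {E : Type} [CommGroup E] [hE : Group.FG E] (W : Subgroup E) : Group.FG W := by
  rw [Group.fg_iff_subgroup_fg, Subgroup.fg_iff_add_fg]
  have : Module.Finite ℤ (Additive E) := Module.Finite.iff_addGroup_fg.mpr inferInstance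
  have : IsNoetherian ℤ (Additive E) := inferInstance
  have h := IsNoetherian.noetherian (AddSubgroup.toIntSubmodule (Subgroup.toAddSubgroup W))
  rwa [Submodule.fg_iff_addSubgroup_fg, AddSubgroup.toIntSubmodule_toAddSubgroup] at h

/-- iterates -/
def hit {W : Type} [CommGroup W] (s : W →* W) : ℕ → (W →* W)
  | 0 => MonoidHom.id W
  | n + 1 => (hit s n).comp s

theorem ag_iter {W : Type} [CommGroup W] (s : W →* W) (n : ℕ) :
    (hit s n).range.index ∣ s.range.index ^ n := by
  induction n with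
  | zero =>
    have h1 : (hit s 0).range = ⊤ := by
      rw [MonoidHom.range_eq_top]
      intro x
      exact ⟨x, rfl⟩
    rw [h1]
    simp
  | succ n ih =>
    have h1 : (hit s (n + 1)).range = s.range.map (hit s n) := by
      rw [MonoidHom.map_range]
      rfl
    rw [h1, Subgroup.index_map, pow_succ, mul_comm]
    exact mul_dvd_mul ih (Subgroup.index_dvd_of_le le_sup_left)

theorem ag_core {W : Type} [CommGroup W] (G s : W →* W) (hs : ∀ w, s w = G w / w) (p : ℕ)
    (hp : p.Prime) (hN : ∀ w, ∏ k ∈ Finset.range p, (hit G k) w = 1) :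
    (hit s (p - 1)).range ≤ (powMonoidHom p : W →* W).range ∧
      (powMonoidHom p : W →* W).range ≤ s.range := by
  set G' : AddMonoid.End (Additive W) := MonoidHom.toAdditive G with hG'
  have hGp : ∀ (k : ℕ) (w : W), (G' ^ k) (Additive.ofMul w) = Additive.ofMul ((hit G k) w) := by
    intro k
    induction k with
    | zero => intro w; rfl
    | succ k ih =>
      intro w
      rw [pow_succ]
      change (G' ^ k) (G' (Additive.ofMul w)) = Additive.ofMul ((hit G k) (G w))
      rw [← ih (G w)]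
      rfl
  have hS1 : ∀ w : W, (G' - 1) (Additive.ofMul w) = Additive.ofMul (s w) := by
    intro w
    rw [hs]
    rfl
  have hSp : ∀ (k : ℕ) (w : W), ((G' - 1) ^ k) (Additive.ofMul w) =
      Additive.ofMul ((hit s k) w) := by
    intro k
    induction k with
    | zero => intro w; rfl
    | succ k ih =>
      intro w
      rw [pow_succ]
      change ((G' - 1) ^ k) ((G' - 1) (Additive.ofMul w)) = Additive.ofMul ((hit s k) (s w))
      rw [← ih (s w), hS1]
  have hN' : ∑ k ∈ Finset.range p, G' ^ k = 0 := by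
    ext w
    have h0 : (∑ k ∈ Finset.range p, G' ^ k) w = ∑ k ∈ Finset.range p, (G' ^ k) w := by
      clear hN hp
      induction p with
      | zero => rfl
      | succ n ihn =>
        rw [Finset.sum_range_succ, Finset.sum_range_succ, ← ihn]
        rfl
    rw [h0]
    have h1 : ∀ k ∈ Finset.range p, (G' ^ k) w = Additive.ofMul ((hit G k) (Additive.toMul w)) :=
      fun k _ => hGp k (Additive.toMul w)
    rw [Finset.sum_congr rfl h1, ← ofMul_prod, hN]
    rfl
  obtain ⟨H, hH⟩ := ag_end G' p hp hN'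
  obtain ⟨H', hH'⟩ := ag_end2 G' p hN'
  constructor
  · rintro _ ⟨w, rfl⟩
    refine ⟨Additive.toMul (H (Additive.ofMul w)), ?_⟩
    have h1 := hSp (p - 1) w
    rw [hH] at h1
    have h2 : ((p : AddMonoid.End (Additive W)) * H) (Additive.ofMul w) =
        p • H (Additive.ofMul w) := by
      rw [← nsmul_eq_mul]
      rfl
    rw [h2] at h1
    exact congrArg Additive.toMul h1
  · rintro _ ⟨w, rfl⟩
    refine ⟨Additive.toMul (H' (Additive.ofMul w)), ?_⟩
    have h1 : ((p : AddMonoid.End (Additive W))) (Additive.ofMul w) = p • Additive.ofMul w := by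
      have : (p : AddMonoid.End (Additive W)) = p • (1 : AddMonoid.End (Additive W)) := by
        rw [nsmul_eq_mul, mul_one]
      rw [this]
      rfl
    rw [hH'] at h1
    have h2 := hS1 (Additive.toMul (H' (Additive.ofMul w)))
    exact congrArg Additive.toMul (h2.symm.trans h1)

theorem la_abs (E : Type) [CommGroup E] [Group.FG E] (γ : E ≃* E) (p : ℕ) (hp : p.Prime)
    (hγ : ∀ e : E, (γ ^ p : MulAut E) e = e) (r : ℕ) (w : Fin ((p - 1) * r) → E)
    (hw1 : ∀ i, nh γ p (w i) = 1)
    (hw : ∀ n : Fin ((p - 1) * r) → ℤ, ∏ i, w i ^ n i = 1 → n = 0) :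
    p ^ r ≤ (tm γ).range.relIndex (nh γ p).ker *
      ((fx γ).map (nh γ p)).relIndex (nh γ p).range := by
  have hshift : ∀ e : E, nh γ p (γ e) = nh γ p e := by
    intro e
    change ∏ k ∈ Finset.range p, (γ ^ k : MulAut E) (γ e) =
      ∏ k ∈ Finset.range p, (γ ^ k : MulAut E) e
    have h1 : ∀ k ∈ Finset.range p, (γ ^ k : MulAut E) (γ e) = (γ ^ (k + 1) : MulAut E) e := by
      intro k _
      rw [pow_succ]
      rfl
    rw [Finset.prod_congr rfl h1]
    have h2 := Finset.prod_range_succ (fun k => (γ ^ k : MulAut E) e) p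
    have h3 := Finset.prod_range_succ' (fun k => (γ ^ k : MulAut E) e) p
    rw [h2] at h3
    have h4 : (γ ^ p : MulAut E) e = (γ ^ 0 : MulAut E) e := by
      rw [hγ]
      rfl
    rw [h4] at h3
    exact (mul_right_cancel h3).symm
  have hker : (tm γ).ker = fx γ := by
    ext e
    rw [MonoidHom.mem_ker]
    change γ e / e = 1 ↔ γ e = e
    exact div_eq_one
  have hle : (tm γ).range ≤ (nh γ p).ker := by
    rintro _ ⟨e, rfl⟩
    rw [MonoidHom.mem_ker]
    change nh γ p (γ e / e) = 1
    rw [_root_.map_div, hshift, div_self']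
  -- the restrictions to `W`
  set W : Subgroup E := (nh γ p).ker with hW
  have hγW : ∀ w : W, γ (w : E) ∈ W := by
    intro w
    have h1 : nh γ p (w : E) = 1 := w.2
    change nh γ p (γ (w : E)) = 1
    rw [hshift, h1]
  set G : W →* W := (γ.toMonoidHom.comp W.subtype).codRestrict W hγW with hG
  set s : W →* W := ((tm γ).comp W.subtype).codRestrict W (fun w => hle ⟨w, rfl⟩) with hs
  have hGs : ∀ w, s w = G w / w := by
    intro w
    apply Subtype.ext
    rfl
  have hGk : ∀ (k : ℕ) (w : W), ((hit G k w : W) : E) = (γ ^ k : MulAut E) (w : E) := by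
    intro k
    induction k with
    | zero => intro w; rfl
    | succ k ih =>
      intro w
      rw [pow_succ]
      change ((hit G k (G w) : W) : E) = (γ ^ k : MulAut E) (γ (w : E))
      rw [ih (G w)]
      rfl
  have hNW : ∀ w : W, ∏ k ∈ Finset.range p, (hit G k) w = 1 := by
    intro w
    apply Subtype.ext
    rw [Subgroup.val_finsetProd]
    simp only [hGk]
    exact w.2
  obtain ⟨hc1, hc2⟩ := ag_core G s hGs p hp hNW
  have := ag_fg W
  have hfg := fg_index W p hp ((p - 1) * r) (fun i => ⟨w i, hw1 i⟩) (by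
    intro n hn
    apply hw n
    have h1 := congrArg (Subtype.val) hn
    simpa using h1)
  obtain ⟨hf0, hf1⟩ := hfg
  have hs0 : s.range.index ≠ 0 := by
    intro h0
    have := Subgroup.index_dvd_of_le hc2
    rw [h0] at this
    exact hf0 (zero_dvd_iff.1 this)
  have hdvd : (powMonoidHom p : W →* W).range.index ∣ s.range.index ^ (p - 1) :=
    (Subgroup.index_dvd_of_le hc1).trans (ag_iter s (p - 1))
  have hle1 : (p ^ r) ^ (p - 1) ≤ s.range.index ^ (p - 1) := by
    rw [← pow_mul, mul_comm r]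
    exact hf1.trans (Nat.le_of_dvd (pow_pos (Nat.pos_of_ne_zero hs0) _) hdvd)
  have hp1 : p - 1 ≠ 0 := by
    have := hp.two_le
    omega
  have hle2 : p ^ r ≤ s.range.index := (Nat.pow_le_pow_iff_left hp1).1 hle1
  have hsr : s.range = (W.map (tm γ)).subgroupOf W := by
    ext x
    rw [Subgroup.mem_subgroupOf]
    constructor
    · rintro ⟨y, rfl⟩
      exact ⟨y, y.2, rfl⟩
    · rintro ⟨y, hy, hyx⟩
      exact ⟨⟨y, hy⟩, Subtype.ext hyx⟩
  have hrel : s.range.index = (W.map (tm γ)).relIndex W := by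
    rw [hsr]
    rfl
  have hmul := Subgroup.relIndex_mul_relIndex (W.map (tm γ)) (tm γ).range W
    (Subgroup.map_le_range _ _) hle
  have hA : (W.map (tm γ)).relIndex (tm γ).range = (W ⊔ fx γ).index := by
    have h1 := Subgroup.relIndex_map_map (tm γ) W ⊤
    rw [← MonoidHom.range_eq_map, hker, top_sup_eq, Subgroup.relIndex_top_right] at h1
    exact h1
  have hB : ((fx γ).map (nh γ p)).relIndex (nh γ p).range = (fx γ ⊔ W).index := by
    have h1 := Subgroup.relIndex_map_map (nh γ p) (fx γ) ⊤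
    rw [← MonoidHom.range_eq_map, ← hW, top_sup_eq, Subgroup.relIndex_top_right] at h1
    exact h1
  calc p ^ r ≤ s.range.index := hle2
    _ = (W.map (tm γ)).relIndex W := hrel
    _ = (W.map (tm γ)).relIndex (tm γ).range * (tm γ).range.relIndex W := hmul.symm
    _ = (tm γ).range.relIndex W * ((fx γ).map (nh γ p)).relIndex (nh γ p).range := by
      rw [hA, hB, sup_comm, mul_comm]

end H38.TD
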