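import Pool.Agent.H38.TD.Defs

/-!
# [H38 TD GRP1] The number of classes of elements of order `p` (100-170 lines, finite group theory)

`P = j(A) ⋊ ⟨c⟩`, `θ` = conjugation by `c`, `N = nh θ p`.  Let `g i`, `i < b`, be pairwise
non-conjugate elements with `g^p = 1`, `g ≠ 1`.  Claim: `b + 1 ≤ (p-1) h + q + (V - q)/p` with
`h = #fx/#range N`, `V = #tp`, `q = #(fx ⊓ tp)`.

* elements in `j(A)`: `g = j a`, `a ∈ tp`, `a ≠ 1`.  Conjugation by `c` acts as `θ`.  The fixed ones
  (`a ∈ fx ⊓ tp`, `a ≠ 1`) are at most `q - 1`; the `θ`-orbit of a non-fixed element has exactly `p`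
  elements (`θ^p = 1`, `p` prime) and consists of conjugate elements, so there are at most `(V - q)/p`
  of them among the `g i`.
* elements outside `j(A)`: `g = j a c^k` with `p ∤ k` (`pd.gen`; `k` modulo `p`), at most `p - 1`
  values of `k` mod `p`.  Fix `k`.  `(j a c^k)^p = j (∏_{i<p} θ^{ik} a) = j (N a)` (`ik` runs through
  all residues mod `p`, `θ^p = 1`, `c^p = 1`), so `N a = 1`.  Conjugation by `j b` maps
  `j a c^k` to `j (b a (θ^k b)⁻¹) c^k`, so `a` only matters modulo the subgroup
  `{θ^k b / b} = {θ b / b} =: I` (`θ^k b / b` is a product of elements `θ(b')/b'`, and conversely as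
  `k` is invertible mod `p`).  So for every `k` there are at most `[ker N : I]` of them, and
  `[ker N : I] = #fx / #range N = h` since `#A = #ker N · #range N = #I · #fx`
  (`I` is the range of `b ↦ θ b / b`, whose kernel is `fx`).
-/

noncomputable section

namespace H38.TD

theorem grpa_it_pow {A : Type} [CommGroup A] (θ : A ≃* A) (k : ℕ) (a : A) :
    (θ ^ k : MulAut A) a = (θ : A → A)^[k] a := by
  induction k with
  | zero => simp
  | succ k ih =>
    rw [pow_succ', MulAut.mul_apply, ih, Function.iterate_succ_apply']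

theorem grpa_pd_conj_pow {A P : Type} [CommGroup A] [Group P] {p : ℕ} (pd : PD p A P) (k : ℕ) (a : A) :
    pd.c ^ k * pd.j a = pd.j ((pd.θ ^ k : MulAut A) a) * pd.c ^ k := by
  induction k with
  | zero => simp
  | succ k ih =>
    have h1 : pd.c * pd.j ((pd.θ ^ k : MulAut A) a) =
        pd.j (pd.θ ((pd.θ ^ k : MulAut A) a)) * pd.c := by
      rw [← pd.conj, inv_mul_cancel_right]
    rw [pow_succ', mul_assoc, ih, ← mul_assoc, h1, pow_succ', MulAut.mul_apply, mul_assoc]

theorem grpa_pd_theta_p {A P : Type} [CommGroup A] [Group P] {p : ℕ} (pd : PD p A P) (a : A) :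
    (pd.θ ^ p : MulAut A) a = a := by
  have h := grpa_pd_conj_pow pd p a
  rw [pd.cp, one_mul, mul_one] at h
  exact (pd.jinj h).symm

theorem grpa_fix_of_pow {A : Type} [CommGroup A] {p : ℕ} (hp : p.Prime) (θ : A ≃* A) (a : A)
    (h : (θ ^ p : MulAut A) a = a) (k : ℕ) (hk : ¬ p ∣ k) (hka : (θ ^ k : MulAut A) a = a) :
    θ a = a := by
  rw [grpa_it_pow] at h hka
  have h1 : Function.IsPeriodicPt (θ : A → A) p a := h
  have h2 : Function.IsPeriodicPt (θ : A → A) k a := hka
  have h3 := h1.gcd h2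
  rw [(Nat.Prime.coprime_iff_not_dvd hp).2 hk] at h3
  exact h3

theorem grpa_nh_theta {A : Type} [CommGroup A] {p : ℕ} (θ : A ≃* A)
    (hθ : ∀ a, (θ ^ p : MulAut A) a = a) (a : A) : nh θ p (θ a) = nh θ p a := by
  show ∏ k ∈ Finset.range p, (θ ^ k : MulAut A) (θ a) = ∏ k ∈ Finset.range p, (θ ^ k : MulAut A) a
  have h1 := Finset.prod_range_succ (fun k => (θ ^ k : MulAut A) a) p
  rw [Finset.prod_range_succ'] at h1
  simp only [pow_succ, MulAut.mul_apply, pow_zero, MulAut.one_apply, hθ a] at h1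
  exact mul_right_cancel h1

theorem grpa_nh_theta_pow {A : Type} [CommGroup A] {p : ℕ} (θ : A ≃* A)
    (hθ : ∀ a, (θ ^ p : MulAut A) a = a) (k : ℕ) (a : A) :
    nh θ p ((θ ^ k : MulAut A) a) = nh θ p a := by
  induction k with
  | zero => simp
  | succ k ih => rw [pow_succ', MulAut.mul_apply, grpa_nh_theta θ hθ, ih]

/-- the hom `b ↦ θ^k b / b` -/
def grpa_dk {A : Type} [CommGroup A] (θ : A ≃* A) (k : ℕ) : A →* A where
  toFun b := (θ ^ k : MulAut A) b / b
  map_one' := by simp
  map_mul' a b := by rw [map_mul, mul_div_mul_comm]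

theorem grpa_dk_ker {A : Type} [CommGroup A] {p : ℕ} (hp : p.Prime) (θ : A ≃* A)
    (hθ : ∀ a, (θ ^ p : MulAut A) a = a) (k : ℕ) (hk : ¬ p ∣ k) : (grpa_dk θ k).ker = fx θ := by
  ext a
  rw [MonoidHom.mem_ker]
  show (θ ^ k : MulAut A) a / a = 1 ↔ θ a = a
  rw [div_eq_one]
  constructor
  · exact grpa_fix_of_pow hp θ a (hθ a) k hk
  · intro h
    rw [grpa_it_pow]
    exact Function.iterate_fixed h k

theorem grpa_pd_pow {A P : Type} [CommGroup A] [Group P] {p : ℕ} (pd : PD p A P) (k : ℕ) (a : A)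
    (m : ℕ) : (pd.j a * pd.c ^ k) ^ m =
      pd.j (∏ i ∈ Finset.range m, (pd.θ ^ (i * k) : MulAut A) a) * pd.c ^ (m * k) := by
  induction m with
  | zero => simp
  | succ m ih =>
    rw [pow_succ, ih, Finset.prod_range_succ, map_mul, mul_assoc, ← mul_assoc (pd.c ^ (m * k)),
      grpa_pd_conj_pow, mul_assoc, mul_assoc, ← pow_add, ← mul_assoc, Nat.add_mul, one_mul]
    exact mul_assoc _ _ _

theorem grpa_pd_pow_p {A P : Type} [CommGroup A] [Group P] {p : ℕ} (hp : p.Prime) (pd : PD p A P)
    (k : ℕ) (hk : ¬ p ∣ k) (a : A) : (pd.j a * pd.c ^ k) ^ p = pd.j (nh pd.θ p a) := by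
  have hmod : ∀ m : ℕ, (pd.θ ^ m : MulAut A) a = (pd.θ ^ (m % p) : MulAut A) a := by
    intro m
    have h1 : (pd.θ ^ p : MulAut A) = 1 := by
      ext x
      exact grpa_pd_theta_p pd x
    rw [pow_eq_pow_mod m h1]
  rw [grpa_pd_pow, pow_mul, pd.cp, one_pow, mul_one]
  congr 1
  show _ = ∏ i ∈ Finset.range p, (pd.θ ^ i : MulAut A) a
  have hinj : Set.InjOn (fun i => i * k % p) (Finset.range p : Set ℕ) := by
    intro i hi i' hi' h
    rw [Finset.mem_coe, Finset.mem_range] at hi hi'
    have h1 : i * k ≡ i' * k [MOD p] := h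
    have h2 : Nat.gcd p k = 1 := (Nat.Prime.coprime_iff_not_dvd hp).2 hk
    have h3 := Nat.ModEq.cancel_right_of_coprime h2 h1
    exact Nat.ModEq.eq_of_lt_of_lt h3 hi hi'
  have himg : (Finset.range p).image (fun i => i * k % p) = Finset.range p := by
    apply Finset.eq_of_subset_of_card_le
    · intro x hx
      obtain ⟨i, _, rfl⟩ := Finset.mem_image.1 hx
      exact Finset.mem_range.2 (Nat.mod_lt _ hp.pos)
    · rw [Finset.card_image_of_injOn hinj]
  calc ∏ i ∈ Finset.range p, (pd.θ ^ (i * k) : MulAut A) a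
      = ∏ i ∈ Finset.range p, (pd.θ ^ (i * k % p) : MulAut A) a :=
        Finset.prod_congr rfl fun i _ => hmod _
    _ = ∏ i ∈ (Finset.range p).image (fun i => i * k % p), (pd.θ ^ i : MulAut A) a := by
        rw [Finset.prod_image hinj]
    _ = ∏ i ∈ Finset.range p, (pd.θ ^ i : MulAut A) a := by rw [himg]

theorem grpa_card_sub' {A : Type} [CommGroup A] [Fintype A] (H : Subgroup A)
    [DecidablePred (fun x => x ∈ H)] :
    Nat.card H = (Finset.univ.filter (fun x => x ∈ H)).card := by
  rw [Nat.card_eq_fintype_card, Fintype.card_subtype]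

theorem cls_count {A P : Type} [CommGroup A] [Finite A] [Group P] [Finite P] {p : ℕ}
    (pd : PD p A P) (hp : p.Prime) (b : ℕ) (g : Fin b → P) (hg : ∀ i, g i ^ p = 1)
    (hg1 : ∀ i, g i ≠ 1) (hnc : ∀ i i' (y : P), y * g i * y⁻¹ = g i' → i = i') :
    (b : ℝ) + 1 ≤ ((p : ℝ) - 1) *
        ((Nat.card (fx pd.θ) / Nat.card (nh pd.θ p).range : ℕ) : ℝ) +
      ((Nat.card (fx pd.θ ⊓ tp A p : Subgroup A) : ℝ) +
        ((Nat.card (tp A p) : ℝ) - Nat.card (fx pd.θ ⊓ tp A p : Subgroup A)) / p) := by
  classical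
  have : Fintype A := Fintype.ofFinite A
  have hθ := grpa_pd_theta_p pd
  set θ := pd.θ with hθd
  -- choice of the data
  have hdata : ∀ i, ∃ (a : A) (k : ℕ), k < p ∧ g i = pd.j a * pd.c ^ k := by
    intro i
    obtain ⟨a, k, h⟩ := pd.gen (g i)
    refine ⟨a, k % p, Nat.mod_lt _ hp.pos, ?_⟩
    rw [h, pow_eq_pow_mod k pd.cp]
  choose a κ hκ hga using hdata
  -- part 1
  have hj0 : ∀ i, κ i = 0 → g i = pd.j (a i) := by
    intro i hi
    rw [hga i, hi, pow_zero, mul_one]
  have htp : ∀ i, κ i = 0 → a i ∈ tp A p := by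
    intro i hi
    show a i ∈ (powMonoidHom p : A →* A).ker
    rw [MonoidHom.mem_ker, powMonoidHom_apply]
    apply pd.jinj
    rw [map_pow, map_one, ← hj0 i hi, hg]
  have ha1 : ∀ i, κ i = 0 → a i ≠ 1 := by
    intro i hi h
    apply hg1 i
    rw [hj0 i hi, h, map_one]
  set S0 := (Finset.univ : Finset (Fin b)).filter (fun i => κ i = 0 ∧ a i ∈ fx θ) with hS0
  set S1 := (Finset.univ : Finset (Fin b)).filter (fun i => κ i = 0 ∧ a i ∉ fx θ) with hS1
  have hconj : ∀ i i', κ i = 0 → κ i' = 0 → ∀ k k' : ℕ, k' ≤ k →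
      (θ ^ k : MulAut A) (a i) = (θ ^ k' : MulAut A) (a i') → i = i' := by
    intro i i' hi hi' k k' hkk h
    apply hnc i i' (pd.c ^ (k - k'))
    have h1 : (θ ^ (k - k') : MulAut A) (a i) = a i' := by
      have e : k = k' + (k - k') := by omega
      rw [e, pow_add, MulAut.mul_apply] at h
      exact (θ ^ k' : MulAut A).injective h
    rw [hj0 i hi, hj0 i' hi', grpa_pd_conj_pow, mul_inv_cancel_right]
    rw [← h1]
  have hS0c : S0.card + 1 ≤ Nat.card (fx θ ⊓ tp A p : Subgroup A) := by
    rw [grpa_card_sub']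
    have hinj : Set.InjOn a (S0 : Set (Fin b)) := by
      intro i hi i' hi' h
      have hi2 := (Finset.mem_filter.1 (Finset.mem_coe.1 hi)).2.1
      have hi2' := (Finset.mem_filter.1 (Finset.mem_coe.1 hi')).2.1
      exact hconj i i' hi2 hi2' 0 0 le_rfl (by simpa using h)
    have h1 : (1 : A) ∉ S0.image a := by
      intro h
      obtain ⟨i, hi, h2⟩ := Finset.mem_image.1 h
      exact ha1 i (Finset.mem_filter.1 hi).2.1 h2
    rw [← Finset.card_image_of_injOn hinj, ← Finset.card_insert_of_notMem h1]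
    apply Finset.card_le_card
    intro x hx
    rw [Finset.mem_filter]
    refine ⟨Finset.mem_univ _, ?_⟩
    rcases Finset.mem_insert.1 hx with rfl | hx
    · exact one_mem _
    · obtain ⟨i, hi, rfl⟩ := Finset.mem_image.1 hx
      have hi2 := (Finset.mem_filter.1 hi).2
      exact Subgroup.mem_inf.2 ⟨hi2.2, htp i hi2.1⟩
  have hS1c : p * S1.card + Nat.card (fx θ ⊓ tp A p : Subgroup A) ≤ Nat.card (tp A p) := by
    have hinj : Set.InjOn (fun x : ℕ × Fin b => (θ ^ x.1 : MulAut A) (a x.2))
        ((Finset.range p ×ˢ S1 : Finset (ℕ × Fin b)) : Set (ℕ × Fin b)) := by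
      rintro ⟨k, i⟩ hi ⟨k', i'⟩ hi' h
      rw [Finset.mem_coe, Finset.mem_product, Finset.mem_range] at hi hi'
      simp only at hi hi' h
      have hi2 := (Finset.mem_filter.1 hi.2).2
      have hi2' := (Finset.mem_filter.1 hi'.2).2
      have hii : i = i' := by
        rcases le_total k' k with hkk | hkk
        · exact hconj i i' hi2.1 hi2'.1 k k' hkk h
        · exact (hconj i' i hi2'.1 hi2.1 k' k hkk h.symm).symm
      subst hii
      have hper : Function.minimalPeriod (θ : A → A) (a i) = p := by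
        have h1 : Function.IsPeriodicPt (θ : A → A) p (a i) := by
          have := hθ (a i)
          rw [grpa_it_pow] at this
          exact this
        rcases (Nat.dvd_prime hp).1 h1.minimalPeriod_dvd with h2 | h2
        · exfalso
          apply hi2.2
          exact Function.minimalPeriod_eq_one_iff_isFixedPt.1 h2
        · exact h2
      have h2 : (θ : A → A)^[k] (a i) = (θ : A → A)^[k'] (a i) := by
        rw [← grpa_it_pow, ← grpa_it_pow]
        exact h
      have h3 := Function.iterate_injOn_Iio_minimalPeriod (f := (θ : A → A)) (x := a i)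
        (show k ∈ Set.Iio _ by rw [hper]; exact hi.1) (show k' ∈ Set.Iio _ by rw [hper]; exact hi'.1)
        h2
      rw [h3]
    have hle : (Finset.univ.filter (fun x : A => x ∈ fx θ ⊓ tp A p)) ⊆
        Finset.univ.filter (fun x : A => x ∈ tp A p) := by
      intro x hx
      rw [Finset.mem_filter] at hx ⊢
      exact ⟨hx.1, (Subgroup.mem_inf.1 hx.2).2⟩
    have hsub : (Finset.range p ×ˢ S1).image (fun x : ℕ × Fin b => (θ ^ x.1 : MulAut A) (a x.2)) ⊆
        (Finset.univ.filter (fun x : A => x ∈ tp A p)) \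
          (Finset.univ.filter (fun x : A => x ∈ fx θ ⊓ tp A p)) := by
      intro x hx
      obtain ⟨⟨k, i⟩, hi, rfl⟩ := Finset.mem_image.1 hx
      rw [Finset.mem_product] at hi
      have hi2 := (Finset.mem_filter.1 hi.2).2
      simp only at hi2 ⊢
      rw [Finset.mem_sdiff, Finset.mem_filter, Finset.mem_filter]
      refine ⟨⟨Finset.mem_univ _, ?_⟩, ?_⟩
      · have h1 := htp i hi2.1
        have h2 : a i ∈ (powMonoidHom p : A →* A).ker := h1
        show (θ ^ k : MulAut A) (a i) ∈ (powMonoidHom p : A →* A).ker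
        rw [MonoidHom.mem_ker, powMonoidHom_apply] at h2 ⊢
        rw [← map_pow, h2, map_one]
      · rintro ⟨-, h⟩
        apply hi2.2
        have h1 : θ ((θ ^ k : MulAut A) (a i)) = (θ ^ k : MulAut A) (a i) :=
          (Subgroup.mem_inf.1 h).1
        have h2 : (θ ^ k : MulAut A) (θ (a i)) = (θ ^ k : MulAut A) (a i) := by
          rw [← h1]
          rw [← MulAut.mul_apply, ← MulAut.mul_apply, ← pow_succ, ← pow_succ']
        exact (θ ^ k : MulAut A).injective h2
    have h1 := Finset.card_le_card hsub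
    rw [Finset.card_image_of_injOn hinj, Finset.card_product, Finset.card_range,
      Finset.card_sdiff_of_subset hle] at h1
    have h2 := Finset.card_le_card hle
    rw [grpa_card_sub', grpa_card_sub']
    omega
  -- part 2
  have hT : ∀ k ∈ Finset.Ico 1 p,
      ((Finset.univ : Finset (Fin b)).filter (fun i => κ i = k)).card ≤
        Nat.card (fx θ) / Nat.card (nh θ p).range := by
    intro k hk
    rw [Finset.mem_Ico] at hk
    have hkp : ¬ p ∣ k := fun h => by
      have := Nat.le_of_dvd (by omega) h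
      omega
    have hr : 0 < Nat.card (nh θ p).range := Nat.card_pos
    rw [Nat.le_div_iff_mul_le hr]
    have hI : Nat.card (fx θ) * Nat.card (grpa_dk θ k).range = Nat.card A := by
      rw [← grpa_dk_ker hp θ hθ k hkp]
      rw [← Subgroup.index_ker, Subgroup.card_mul_index]
    have hN : Nat.card (nh θ p).ker * Nat.card (nh θ p).range = Nat.card A := by
      rw [← Subgroup.index_ker, Subgroup.card_mul_index]
    have hin : ((Finset.univ : Finset (Fin b)).filter (fun i => κ i = k)).card *
        Nat.card (grpa_dk θ k).range ≤ Nat.card (nh θ p).ker := by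
      rw [grpa_card_sub', grpa_card_sub', ← Finset.card_product]
      apply Finset.card_le_card_of_injOn (fun x => a x.1 * x.2)
      · rintro ⟨i, y⟩ hx
        rw [Finset.mem_coe, Finset.mem_product, Finset.mem_filter, Finset.mem_filter] at hx
        obtain ⟨⟨-, hi⟩, -, hy⟩ := hx
        simp only at hi hy ⊢
        rw [Finset.mem_coe, Finset.mem_filter]
        refine ⟨Finset.mem_univ _, ?_⟩
        apply mul_mem
        · rw [MonoidHom.mem_ker]
          apply pd.jinj
          rw [map_one, ← grpa_pd_pow_p hp pd k hkp, ← hi, ← hga, hg]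
        · obtain ⟨z, rfl⟩ := hy
          rw [MonoidHom.mem_ker]
          show nh θ p ((θ ^ k : MulAut A) z / z) = 1
          rw [map_div, grpa_nh_theta_pow θ hθ, div_self']
      · rintro ⟨i, y⟩ hx ⟨i', y'⟩ hx' h
        rw [Finset.mem_coe, Finset.mem_product, Finset.mem_filter, Finset.mem_filter] at hx hx'
        obtain ⟨⟨-, hi⟩, -, hy⟩ := hx
        obtain ⟨⟨-, hi'⟩, -, hy'⟩ := hx'
        simp only at hi hy hi' hy' h
        obtain ⟨z, hz⟩ := mul_mem hy (inv_mem hy')
        have hz' : (θ ^ k : MulAut A) z / z = y * y'⁻¹ := hz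
        have h1 : a i' = a i * ((θ ^ k : MulAut A) z / z) := by
          rw [hz', ← mul_assoc, h, mul_inv_cancel_right]
        have hii : i = i' := by
          apply hnc i i' (pd.j z)⁻¹
          rw [hga i, hga i', hi, hi', h1, inv_inv, mul_assoc, mul_assoc, grpa_pd_conj_pow, ← mul_assoc,
            ← mul_assoc, ← map_inv, ← map_mul, ← map_mul]
          congr 2
          rw [div_eq_mul_inv]
          rw [mul_comm z⁻¹ (a i), mul_assoc, mul_comm z⁻¹]
        subst hii
        rw [mul_left_cancel h]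
    have hpos : 0 < Nat.card (grpa_dk θ k).range := Nat.card_pos
    apply Nat.le_of_mul_le_mul_left _ hpos
    calc Nat.card (grpa_dk θ k).range * (((Finset.univ : Finset (Fin b)).filter
          (fun i => κ i = k)).card * Nat.card (nh θ p).range)
        = (((Finset.univ : Finset (Fin b)).filter (fun i => κ i = k)).card *
          Nat.card (grpa_dk θ k).range) * Nat.card (nh θ p).range := by ring
      _ ≤ Nat.card (nh θ p).ker * Nat.card (nh θ p).range := Nat.mul_le_mul_right _ hin
      _ = Nat.card (grpa_dk θ k).range * Nat.card (fx θ) := by rw [hN, ← hI, mul_comm]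
  have hcard : b ≤ S0.card + S1.card +
      (p - 1) * (Nat.card (fx θ) / Nat.card (nh θ p).range) := by
    have h1 : (Finset.univ : Finset (Fin b)) ⊆ (S0 ∪ S1) ∪
        (Finset.Ico 1 p).biUnion (fun k => (Finset.univ : Finset (Fin b)).filter
          (fun i => κ i = k)) := by
      intro i _
      rw [Finset.mem_union, Finset.mem_union, Finset.mem_biUnion]
      by_cases h0 : κ i = 0
      · left
        by_cases h1 : a i ∈ fx θ
        · left
          exact Finset.mem_filter.2 ⟨Finset.mem_univ _, h0, h1⟩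
        · right
          exact Finset.mem_filter.2 ⟨Finset.mem_univ _, h0, h1⟩
      · right
        refine ⟨κ i, Finset.mem_Ico.2 ⟨by omega, hκ i⟩, ?_⟩
        exact Finset.mem_filter.2 ⟨Finset.mem_univ _, rfl⟩
    have h2 := Finset.card_le_card h1
    rw [Finset.card_univ, Fintype.card_fin] at h2
    have h3 := Finset.card_union_le (S0 ∪ S1)
      ((Finset.Ico 1 p).biUnion (fun k => (Finset.univ : Finset (Fin b)).filter
          (fun i => κ i = k)))
    have h4 := Finset.card_union_le S0 S1
    have h5 : ((Finset.Ico 1 p).biUnion (fun k => (Finset.univ : Finset (Fin b)).filter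
          (fun i => κ i = k))).card ≤
          (p - 1) * (Nat.card (fx θ) / Nat.card (nh θ p).range) := by
      refine Finset.card_biUnion_le.trans ((Finset.sum_le_sum hT).trans ?_)
      rw [Finset.sum_const, Nat.card_Ico, smul_eq_mul]
    omega
  have hp1 : 1 ≤ p := hp.one_lt.le
  have hpR : (0:ℝ) < p := by exact_mod_cast hp.pos
  have e1 : (b : ℝ) ≤ S0.card + S1.card +
      ((p : ℝ) - 1) * ((Nat.card (fx θ) / Nat.card (nh θ p).range : ℕ) : ℝ) := by
    have : ((b : ℕ) : ℝ) ≤ ((S0.card + S1.card +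
      (p - 1) * (Nat.card (fx θ) / Nat.card (nh θ p).range) : ℕ) : ℝ) := by exact_mod_cast hcard
    push_cast [Nat.cast_sub hp1] at this
    exact this
  have e2 : (S0.card : ℝ) + 1 ≤ Nat.card (fx θ ⊓ tp A p : Subgroup A) := by exact_mod_cast hS0c
  have e3 : (S1.card : ℝ) ≤
      ((Nat.card (tp A p) : ℝ) - Nat.card (fx θ ⊓ tp A p : Subgroup A)) / p := by
    rw [le_div_iff₀ hpR]
    have : (((p * S1.card + Nat.card (fx θ ⊓ tp A p : Subgroup A) : ℕ)) : ℝ) ≤
      ((Nat.card (tp A p) : ℕ) : ℝ) := by exact_mod_cast hS1c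
    push_cast at this
    linarith
  linarith

end H38.TD
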