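import Pool.Agent.H38.TD.LA3
import Pool.Agent.H38.ML.ClsRep

/-!
# [H38 TD SDATA] Generators for the places outside a finite set (40-80 lines)

By `exists_classRep` (`H38/ML/ClsRep.lean`) there is a finite set `R` of nonzero ideals such that for
every nonzero ideal `I` some `I J`, `J ∈ R`, is principal.  `S` = `S₀` together with all places
dividing the ideals in `R` (finitely many).  For `v ∉ S` let `v J = (z)`; `π_v = z`:
`od v z = 1` and `od v' z = 0` for `v' ∉ S`, `v' ≠ v` (`od_eq_ordAt`, `ordAt_of_span_mul`: the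
multiplicity of `v'` in the normalized factors of `J` is `0`).
-/

open scoped NumberField Pointwise
open H38.ML

noncomputable section

namespace H38.TD

open UniqueFactorizationMonoid in
open Classical in
private theorem sdata_ord {K : Type} [Field K] [NumberField K] (v v' : Pl K) (J : Ideal (𝓞 K))
    (hJ : J ≠ ⊥) (hv' : ¬ v'.asIdeal ∣ J) (z : 𝓞 K) (hz : Ideal.span {z} = v.asIdeal * J) :
    ordAt v'.asIdeal z = if v' = v then 1 else 0 := by
  rw [ordAt_of_span_mul v'.asIdeal v.asIdeal J v.ne_bot hJ hz]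
  have h1 : Multiset.count v'.asIdeal (normalizedFactors J) = 0 := by
    rw [Multiset.count_eq_zero]
    intro h
    exact hv' (dvd_of_mem_normalizedFactors h)
  have h2 : normalizedFactors v.asIdeal = {v.asIdeal} := by
    rw [normalizedFactors_irreducible v.irreducible, normalize_eq]
  rw [h1, h2, add_zero, Multiset.count_singleton]
  by_cases h : v' = v
  · rw [if_pos h, if_pos (by rw [h])]
  · rw [if_neg h, if_neg]
    intro h3
    exact h (IsDedekindDomain.HeightOneSpectrum.ext h3)

theorem sdata (K : Type) [Field K] [NumberField K] (S₀ : Set (Pl K)) (hS₀ : S₀.Finite) :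
    ∃ S : Set (Pl K), S.Finite ∧ S₀ ⊆ S ∧ Nonempty (SD K S) := by
  classical
  obtain ⟨R, hR0, hR⟩ := exists_classRep K
  refine ⟨S₀ ∪ ⋃ J ∈ R, {v : Pl K | v.asIdeal ∣ J}, ?_, Set.subset_union_left, ?_⟩
  · refine hS₀.union (Set.Finite.biUnion R.finite_toSet fun J hJ => ?_)
    exact Ideal.finite_factors (hR0 J hJ)
  · choose J hJ z hz0 hz using fun v : Pl K => hR v.asIdeal v.ne_bot
    have hz1 : ∀ v, (algebraMap (𝓞 K) K (z v)) ≠ 0 := by
      intro v
      rw [Ne, FaithfulSMul.algebraMap_eq_zero_iff]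
      exact hz0 v
    have hnd : ∀ v' : Pl K, v' ∉ (S₀ ∪ ⋃ J ∈ R, {v : Pl K | v.asIdeal ∣ J}) →
        ∀ v, ¬ v'.asIdeal ∣ J v := by
      intro v' hv' v h
      apply hv'
      refine Set.mem_union_right _ ?_
      simp only [Set.mem_iUnion]
      exact ⟨J v, hJ v, h⟩
    have hod : ∀ v' : Pl K, v' ∉ (S₀ ∪ ⋃ J ∈ R, {v : Pl K | v.asIdeal ∣ J}) →
        ∀ v, od v' (Units.mk0 _ (hz1 v)) = if v' = v then 1 else 0 := by
      intro v' hv' v
      rw [od_eq_ordAt v' (z v) _ rfl,
        sdata_ord v v' (J v) (hR0 _ (hJ v)) (hnd v' hv' v) (z v) (hz v)]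
      split_ifs <;> rfl
    refine ⟨⟨fun v => Units.mk0 _ (hz1 v), ?_, ?_⟩⟩
    · intro v hv
      rw [hod v hv, if_pos rfl]
    · intro v _ v' hv' hne
      rw [hod v' hv', if_neg hne]

end H38.TD
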