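import Pool.Agent.H38.TD.HomCnt
import Pool.Agent.H38.TD.SData
import Pool.Agent.H38.TD.KxE
import Pool.Agent.H38.TD.NtDefs
import Pool.Agent.H38.TD.Grp1

/-!
# [H38 TD ADATA] The abstract counting data (assembly, 120-200 lines)

`S₀' = S₀ ∪ {v | p ∈ v}` (finite: `finite_primes_below` in `H38/ML/UnrFin.lean` or directly), `S` from
`sdata`; `U, F` from `xdata`.  `o = 1`.

For `x ≠ (1, 0)` the element `xv sd F x` is not a `p`-th power (`xv_inj` with `x' = (1,0)`,
`xv sd F (1,0) = 1`), so `kxe` gives `M_x`, `D_x : KX K M_x p ζp (xv sd F x)` (choose them;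
`NumberField M_x` by `NumberField.of_module_finite K M_x`).
`Spl x v := x = (1,0) ∨ Spl D_x.γ v.1`.
`P2`: by `xv_P2` it suffices that `xv sd F x ∈ PRes p v` and `x ≠ (1,0)` imply `Spl D_x.γ v`:
`spl_of_pres` (`p ∉ v` as `v ∉ S`).
`H x R` := the set given by `homcnt` (for `supp = x.2.support`, mapped to `Finset (Pl K)` by
`Subtype.val`, `R` likewise, `sp` = the split places in `R`) if `x ≠ (1,0)`, `R` is disjoint from the
support and (`flag` or `#supp ≤ #spl`), and `∅` otherwise.  `flag` is the first alternative of `hfl`.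
The hypotheses of `homcnt`: `xv sd F x ∈ TK K (S ∪ supp)` and `¬ p ∣ od v (xv x)` on the support by
`od_xv` (`0 < (x.2 v).val < p`).
`xi ρ` := the `x` with `ρ ∈ H x R` for some `R` (if there is one), well defined: two such `x` give
`OverX` for both, so `kdet` and `xv_inj` give equality.
`r ρ` := the set of places `v ∉ S`, `v ∉ supp (xi ρ)`, with `¬ UnrAt ρ v` if this set is finite, `∅`
otherwise; for `ρ ∈ H x R` it is contained in `R`.
-/

open scoped NumberField Pointwise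
open H38.ML

noncomputable section

namespace H38.TD

variable {K Ω : Type} [Field K] [NumberField K] [Field Ω] [Algebra K Ω] [IsAlgClosure K Ω]

theorem adata_fin (K : Type) [Field K] [NumberField K] (p : ℕ) (hp : p.Prime) :
    {v : Pl K | ((p : ℕ) : 𝓞 K) ∈ v.asIdeal}.Finite := by
  have hI : Ideal.span {((p : ℕ) : 𝓞 K)} ≠ ⊥ := by
    rw [Ne, Ideal.span_singleton_eq_bot]
    exact_mod_cast hp.ne_zero
  have h := Ideal.finite_factors (R := 𝓞 K) (I := Ideal.span {((p : ℕ) : 𝓞 K)}) hI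
  refine h.subset ?_
  intro v hv
  show v.asIdeal ∣ Ideal.span {((p : ℕ) : 𝓞 K)}
  rw [Ideal.dvd_iff_le, Ideal.span_singleton_le_iff_mem]
  exact hv

theorem adata_mem_Tr {Pt Ut Ht : Type} [Fintype Ut] {p : ℕ} [NeZero p] (D : AD Pt Ut Ht p) (ρ : Ht)
    (v : Pt) : v ∈ D.Tr ρ ↔ v ∈ (D.xi ρ).2.support ∨ v ∈ D.r ρ := by
  classical
  unfold AD.Tr
  simp

theorem adata_range {A P : Type} [CommGroup A] [Group P] {p : ℕ} (pd : PD p A P) :
    (nh pd.θ p).range ≤ fx pd.θ := by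
  rintro _ ⟨a, rfl⟩
  show pd.θ (nh pd.θ p a) = nh pd.θ p a
  have h1 : pd.θ (nh pd.θ p a) = nh pd.θ p (pd.θ a) := by
    show pd.θ (∏ k ∈ Finset.range p, (pd.θ ^ k : MulAut A) a) =
      ∏ k ∈ Finset.range p, (pd.θ ^ k : MulAut A) (pd.θ a)
    rw [map_prod]
    refine Finset.prod_congr rfl fun k _ => ?_
    have h2 : pd.θ ((pd.θ ^ k : MulAut A) a) = (pd.θ ^ (k + 1) : MulAut A) a := by
      rw [pow_succ', MulAut.mul_apply]
    have h3 : (pd.θ ^ k : MulAut A) (pd.θ a) = (pd.θ ^ (k + 1) : MulAut A) a := by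
      rw [pow_succ, MulAut.mul_apply]
    rw [h2, h3]
  rw [h1]
  exact grpa_nh_theta pd.θ (grpa_pd_theta_p pd) a

theorem adata_one {S : Set (Pl K)} (sd : SD K S) {p : ℕ} {U : Type} [CommGroup U] (F : U → Kˣ)
    (hF : UD K S p U F) : xv sd F ((1, 0) : U × (Po K S →₀ ZMod p)) = 1 := by
  unfold xv
  simp [hF.one]

open Classical in
theorem adata_x {A P : Type} [CommGroup A] [Finite A] [Group P] [Finite P] {p : ℕ} [NeZero p]
    (pd : PD p A P) (hp : p.Prime) (k : ℕ) (ζ : K) (hζ : IsPrimitiveRoot ζ (p ^ k)) (ζp : K)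
    (hζp : IsPrimitiveRoot ζp p) (hA : ∀ t : A, t ^ p ^ k = 1)
    (htc : NumberField.IsTotallyComplex K) (s : ℕ)
    (hs : s + 1 ≤ Fintype.card (NumberField.InfinitePlace K)) (hs1 : 3 * Nat.card A + 1 ≤ s)
    (S : Set (Pl K)) (hS : S.Finite) (sd : SD K S)
    (hSp : ∀ v : Pl K, v ∉ S → ((p : ℕ) : 𝓞 K) ∉ v.asIdeal)
    (hfl : Subgroup.closure (((nh pd.θ p).ker : Set A) ∪ (fx pd.θ : Set A)) = ⊤ ∨
      Subgroup.closure (((nh pd.θ p).ker : Set A) ∪ (fx pd.θ : Set A) ∪ (tp A p : Set A)) = ⊤)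
    {U : Type} [CommGroup U] (F : U → Kˣ) (hF : UD K S p U F) (x : U × (Po K S →₀ ZMod p)) :
    ∃ (Sp : Po K S → Prop) (H : Finset (Po K S) → Finset (Gal(Ω/K) →* P)),
      (∀ v : Po K S, xv sd F x ∈ PRes p v.1 → Sp v) ∧
      (x ≠ (1, 0) → ∀ R : Finset (Po K S), Disjoint x.2.support R →
        (Subgroup.closure (((nh pd.θ p).ker : Set A) ∪ (fx pd.θ : Set A)) = ⊤ ∨
          x.2.support.card ≤ (R.filter Sp).card) →
        (Nat.card (fx pd.θ) / Nat.card (nh pd.θ p).range) ^ x.2.support.card *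
          (Nat.card (tp A p) ^ (R.filter Sp).card *
            Nat.card (fx pd.θ ⊓ tp A p : Subgroup A) ^ (R.card - (R.filter Sp).card)) ≤
          (H R).card) ∧
      ∀ R, ∀ ρ ∈ H R, Function.Surjective ρ ∧ FT ρ ∧ OverX pd ζp (xv sd F x) ρ ∧
        (∀ v : Po K S, v ∉ x.2.support → v ∉ R → UnrAt ρ v.1.asIdeal) ∧
        ∀ v : Po K S, SmallAt p ρ v.1.asIdeal := by
  by_cases hx : x = (1, 0)
  · refine ⟨fun _ => True, fun _ => ∅, fun _ _ => trivial, fun h => absurd hx h, ?_⟩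
    intro R ρ hρ
    simp at hρ
  have hnp : ∀ y : Kˣ, y ^ p ≠ xv sd F x := by
    intro y hy
    apply hx
    apply xv_inj sd hp F hF x (1, 0) y
    rw [adata_one sd F hF, one_mul, hy]
  obtain ⟨M, hM1, hM2, ⟨D⟩⟩ := kxe (Ω := Ω) p hp ζp hζp (xv sd F x) hnp
  have hM3 : NumberField M := NumberField.of_module_finite K M
  set Sp : Po K S → Prop := fun v => Spl D.γ v.1 with hSpdef
  set emb : Po K S ↪ Pl K := Function.Embedding.subtype _ with hemb
  set supp : Finset (Pl K) := x.2.support.map emb with hsuppdef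
  have hembv : ∀ v : Po K S, emb v = v.1 := fun v => rfl
  have hmem : ∀ (T : Finset (Po K S)) (v : Pl K), v ∈ T.map emb ↔ ∃ h : v ∉ S, (⟨v, h⟩ : Po K S) ∈ T := by
    intro T v
    rw [Finset.mem_map]
    constructor
    · rintro ⟨w, hw, rfl⟩
      exact ⟨w.2, hw⟩
    · rintro ⟨h, hw⟩
      exact ⟨⟨v, h⟩, hw, rfl⟩
  have hsuppS : ∀ v ∈ supp, v ∉ S := by
    intro v hv
    exact ((hmem _ v).1 hv).1
  have hxT : xv sd F x ∈ TK K (S ∪ (supp : Set (Pl K))) := by
    intro v hv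
    rw [Set.mem_union, not_or] at hv
    have h1 := od_xv sd F hF x ⟨v, hv.1⟩
    have h2 : (⟨v, hv.1⟩ : Po K S) ∉ x.2.support := by
      intro h3
      apply hv.2
      rw [Finset.mem_coe]
      exact (hmem _ v).2 ⟨hv.1, h3⟩
    rw [Finsupp.notMem_support_iff] at h2
    rw [h2, ZMod.val_zero] at h1
    exact_mod_cast h1
  have hram : ∀ v ∈ supp, ¬ (p : ℤ) ∣ od v (xv sd F x) := by
    intro v hv h
    obtain ⟨h1, h2⟩ := (hmem _ v).1 hv
    have h3 := od_xv sd F hF x ⟨v, h1⟩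
    have h3' : od v (xv sd F x) = ((x.2 ⟨v, h1⟩).val : ℤ) := h3
    rw [h3'] at h
    have h4 : p ∣ (x.2 ⟨v, h1⟩).val := by exact_mod_cast h
    have h5 : (x.2 ⟨v, h1⟩).val < p := ZMod.val_lt _
    have h6 : (x.2 ⟨v, h1⟩).val = 0 := Nat.eq_zero_of_dvd_of_lt h4 h5
    rw [Finsupp.mem_support_iff] at h2
    exact h2 ((ZMod.val_eq_zero _).1 h6)
  -- the sets
  have main : ∀ R : Finset (Po K S), Disjoint x.2.support R →
        (Subgroup.closure (((nh pd.θ p).ker : Set A) ∪ (fx pd.θ : Set A)) = ⊤ ∨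
          x.2.support.card ≤ (R.filter Sp).card) →
      ∃ H : Finset (Gal(Ω/K) →* P),
        (Nat.card (fx pd.θ) / Nat.card (nh pd.θ p).range) ^ x.2.support.card *
          (Nat.card (tp A p) ^ (R.filter Sp).card *
            Nat.card (fx pd.θ ⊓ tp A p : Subgroup A) ^ (R.card - (R.filter Sp).card)) ≤
          H.card ∧
        ∀ ρ ∈ H, Function.Surjective ρ ∧ FT ρ ∧ OverX pd ζp (xv sd F x) ρ ∧
        (∀ v : Po K S, v ∉ x.2.support → v ∉ R → UnrAt ρ v.1.asIdeal) ∧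
        ∀ v : Po K S, SmallAt p ρ v.1.asIdeal := by
    intro R hdis hfl'
    have hdis' : Disjoint supp (R.map emb) := by
      rw [hsuppdef, Finset.disjoint_map]
      exact hdis
    have hflag : Subgroup.closure (((nh pd.θ p).ker : Set A) ∪ (fx pd.θ : Set A)) = ⊤ ∨
      (Subgroup.closure (((nh pd.θ p).ker : Set A) ∪ (fx pd.θ : Set A) ∪ (tp A p : Set A)) = ⊤ ∧
        supp.card ≤ ((R.filter Sp).map emb).card) := by
      rcases hfl with h | h
      · exact Or.inl h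
      · rcases hfl' with h' | h'
        · exact Or.inl h'
        · refine Or.inr ⟨h, ?_⟩
          rw [hsuppdef, Finset.card_map, Finset.card_map]
          exact h'
    have hspm : ∀ v, v ∈ (R.filter Sp).map emb ↔ v ∈ R.map emb ∧ Spl D.γ v := by
      intro v
      rw [hmem, hmem]
      constructor
      · rintro ⟨h1, h2⟩
        rw [Finset.mem_filter] at h2
        exact ⟨⟨h1, h2.1⟩, h2.2⟩
      · rintro ⟨⟨h1, h2⟩, h3⟩
        exact ⟨h1, Finset.mem_filter.2 ⟨h2, h3⟩⟩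
    obtain ⟨H, hH1, hH2⟩ := homcnt pd hp k ζ hζ ζp hζp hA htc s hs hs1 S hS sd hSp (xv sd F x) M D
      supp (R.map emb) ((R.filter Sp).map emb) hsuppS (fun v hv => ((hmem _ v).1 hv).1) hdis' hxT
      hram hspm hflag
    refine ⟨H, ?_, ?_⟩
    · have e1 : supp.card = x.2.support.card := Finset.card_map _
      rw [e1, Finset.card_map, Finset.card_map] at hH2
      exact hH2
    · intro ρ hρ
      obtain ⟨h1, h2, h3, h4, h5⟩ := hH1 ρ hρ
      refine ⟨h1, h2, h3, ?_, fun v => h5 v.1 v.2⟩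
      intro v hv1 hv2
      apply h4 v.1 v.2
      · intro h
        exact hv1 ((hmem _ v.1).1 h).2
      · intro h
        exact hv2 ((hmem _ v.1).1 h).2
  refine ⟨Sp, fun R => if h : Disjoint x.2.support R ∧
    (Subgroup.closure (((nh pd.θ p).ker : Set A) ∪ (fx pd.θ : Set A)) = ⊤ ∨
          x.2.support.card ≤ (R.filter Sp).card) then (main R h.1 h.2).choose else ∅, ?_, ?_, ?_⟩
  · intro v hv
    exact spl_of_pres D hp hζp v.1 (hSp v.1 v.2) hv
  · intro _ R h1 h2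
    simp only [h1, h2, true_and, dif_pos]
    exact (main R h1 h2).choose_spec.1
  · intro R ρ hρ
    simp only at hρ
    split_ifs at hρ with h
    · exact (main R h.1 h.2).choose_spec.2 ρ hρ
    · simp at hρ

theorem adata {A P : Type} [CommGroup A] [Finite A] [Group P] [Finite P] {p : ℕ} [NeZero p]
    (pd : PD p A P) (hp : p.Prime) (k : ℕ) (ζ : K) (hζ : IsPrimitiveRoot ζ (p ^ k)) (ζp : K)
    (hζp : IsPrimitiveRoot ζp p) (hA : ∀ t : A, t ^ p ^ k = 1)
    (htc : NumberField.IsTotallyComplex K) (s : ℕ)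
    (hs : s + 1 ≤ Fintype.card (NumberField.InfinitePlace K)) (hs1 : 3 * Nat.card A + 1 ≤ s)
    (S₀ : Set (Pl K)) (hS₀ : S₀.Finite)
    (hfl : Subgroup.closure (((nh pd.θ p).ker : Set A) ∪ (fx pd.θ : Set A)) = ⊤ ∨
      (Subgroup.closure (((nh pd.θ p).ker : Set A) ∪ (fx pd.θ : Set A) ∪ (tp A p : Set A)) = ⊤ ∧
        2 * (p - 1) * (Nat.card (fx pd.θ) / Nat.card (nh pd.θ p).range) * p ≤
          Nat.card (tp A p) ∧
        Nat.card (fx pd.θ ⊓ tp A p : Subgroup A) < Nat.card (tp A p))) :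
    ∃ S : Set (Pl K), S.Finite ∧ S₀ ⊆ S ∧ (∀ v : Pl K, v ∉ S → ((p : ℕ) : 𝓞 K) ∉ v.asIdeal) ∧
      Nonempty (SD K S) ∧
      ∃ (U : Type) (_ : Fintype U) (D : AD (Po K S) U (Gal(Ω/K) →* P) p),
        (∀ v, D.N v = nv v.1) ∧
        D.h = Nat.card (fx pd.θ) / Nat.card (nh pd.θ p).range ∧
        D.q = Nat.card (fx pd.θ ⊓ tp A p : Subgroup A) ∧ D.V = Nat.card (tp A p) ∧
        ∀ x R, ∀ ρ ∈ D.H x R, Function.Surjective ρ ∧ FT ρ ∧
          (∀ v : Po K S, v ∉ D.Tr ρ → UnrAt ρ v.1.asIdeal) ∧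
          ∀ v : Po K S, SmallAt p ρ v.1.asIdeal := by
  classical
  obtain ⟨S, hS, hS0, ⟨sd⟩⟩ := sdata K (S₀ ∪ {v : Pl K | ((p : ℕ) : 𝓞 K) ∈ v.asIdeal})
    (hS₀.union (adata_fin K p hp))
  have hSp : ∀ v : Pl K, v ∉ S → ((p : ℕ) : 𝓞 K) ∉ v.asIdeal := by
    intro v hv h
    exact hv (hS0 (Or.inr h))
  obtain ⟨U, hU1, hU2, F, hF⟩ := xdata (K := K) hp hS
  have hx := adata_x (Ω := Ω) pd hp k ζ hζ ζp hζp hA htc s hs hs1 S hS sd hSp
    (hfl.imp id fun h => h.1) F hF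
  choose Sp H hSpH hcnt hH using hx
  have hdet : ∀ x x' R R' ρ, ρ ∈ H x R → ρ ∈ H x' R' → x = x' := by
    intro x x' R R' ρ h h'
    obtain ⟨y, hy⟩ := kdet pd hp ζp hζp (xv sd F x) (xv sd F x') ρ (hH x R ρ h).2.2.1
      (hH x' R' ρ h').2.2.1
    exact xv_inj sd hp F hF x x' y hy
  set xi : (Gal(Ω/K) →* P) → U × (Po K S →₀ ZMod p) := fun ρ =>
    if h : ∃ x, ∃ R, ρ ∈ H x R then h.choose else (1, 0) with hxi
  have hxi1 : ∀ x R ρ, ρ ∈ H x R → xi ρ = x := by
    intro x R ρ h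
    have h1 : ∃ x, ∃ R, ρ ∈ H x R := ⟨x, R, h⟩
    have h2 : xi ρ = h1.choose := by
      rw [hxi]
      simp only [h1, dif_pos]
    obtain ⟨R', h3⟩ := h1.choose_spec
    rw [h2]
    exact hdet _ _ R' R ρ h3 h
  set r : (Gal(Ω/K) →* P) → Finset (Po K S) := fun ρ =>
    if h : {v : Po K S | v ∉ (xi ρ).2.support ∧ ¬ UnrAt ρ v.1.asIdeal}.Finite then h.toFinset
    else ∅ with hr
  have hsub : ∀ x R ρ, ρ ∈ H x R →
      {v : Po K S | v ∉ (xi ρ).2.support ∧ ¬ UnrAt ρ v.1.asIdeal} ⊆ (R : Set (Po K S)) := by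
    intro x R ρ h v hv
    rw [Set.mem_ofPred_eq, hxi1 x R ρ h] at hv
    by_contra h1
    exact hv.2 ((hH x R ρ h).2.2.2.1 v hv.1 h1)
  have hr1 : ∀ x R ρ, ρ ∈ H x R → ∀ v : Po K S, v ∈ r ρ ↔
      v ∉ (xi ρ).2.support ∧ ¬ UnrAt ρ v.1.asIdeal := by
    intro x R ρ h v
    have h1 : {v : Po K S | v ∉ (xi ρ).2.support ∧ ¬ UnrAt ρ v.1.asIdeal}.Finite :=
      (Finset.finite_toSet R).subset (hsub x R ρ h)
    have h2 : r ρ = h1.toFinset := by
      rw [hr]
      simp only [h1, dif_pos]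
    rw [h2, Set.Finite.mem_toFinset]
    rfl
  have hcard : Nat.card (nh pd.θ p).range ≤ Nat.card (fx pd.θ) :=
    Subgroup.card_le_of_le (adata_range pd)
  refine ⟨S, hS, fun v hv => hS0 (Or.inl hv), hSp, ⟨sd⟩, U, hU2, ?_⟩
  refine ⟨{ N := fun v => nv v.1
            o := 1
            Spl := Sp
            h := Nat.card (fx pd.θ) / Nat.card (nh pd.θ p).range
            q := Nat.card (fx pd.θ ⊓ tp A p : Subgroup A)
            V := Nat.card (tp A p)
            flag := Subgroup.closure (((nh pd.θ p).ker : Set A) ∪ (fx pd.θ : Set A)) = ⊤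
            H := H
            xi := xi
            r := r
            hN := fun v => two_le_nv v.1
            hp := hp.two_le
            hh := (Nat.one_le_div_iff Nat.card_pos).2 hcard
            hq := Nat.card_pos
            hqV := Subgroup.card_le_of_le inf_le_right
            hflag := hfl.imp id fun h => h.2
            P2 := ?_
            cnt := ?_
            hH := ?_ }, fun v => rfl, rfl, rfl, rfl, ?_⟩
  · intro R v hv
    have h1 := xv_P2 sd hp F hF R v hv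
    refine h1.trans (Nat.mul_le_mul_left _ ?_)
    have h2 : Nat.card {x : U × (Po K S →₀ ZMod p) // x.2.support ⊆ R ∧ xv sd F x ∈ PRes p v.1} ≤
        Nat.card ((XR U p R).filter fun x => Sp x v : Finset (U × (Po K S →₀ ZMod p))) := by
      refine Nat.card_le_card_of_injective (fun x => ⟨x.1, ?_⟩) ?_
      · rw [Finset.mem_filter, mem_XR]
        exact ⟨x.2.1, hSpH x.1 v x.2.2⟩
      · intro a b hab
        simp only [Subtype.mk.injEq] at hab
        exact Subtype.ext hab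
    rw [Nat.card_eq_finsetCard] at h2
    convert h2 using 2
  · intro x R hx hdis hflag
    have h1 := hcnt x hx R hdis (by
      rcases hflag with h | h
      · exact Or.inl h
      · refine Or.inr ?_
        unfold spl at h
        convert h using 2)
    unfold spl
    convert h1 using 4
  · intro x R ρ hρ
    refine ⟨hxi1 x R ρ hρ, ?_⟩
    intro v hv
    have h1 := (hr1 x R ρ hρ v).1 hv
    exact_mod_cast hsub x R ρ hρ h1
  · intro x R ρ hρ
    have hρ' : ρ ∈ H x R := hρ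
    obtain ⟨h1, h2, h3, h4, h5⟩ := hH x R ρ hρ'
    refine ⟨h1, h2, ?_, h5⟩
    intro v hv
    by_contra h6
    apply hv
    rw [adata_mem_Tr]
    by_cases h7 : v ∈ (xi ρ).2.support
    · exact Or.inl h7
    · exact Or.inr ((hr1 x R ρ hρ' v).2 ⟨h7, h6⟩)

end H38.TD
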