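import Pool.Agent.H38.TD.AnaDefs

/-!
# [H38 TD ANA1] Exchanging the sums over `R` and `x` (40-80 lines)

`x ∈ XR R` means `supp x ⊆ R` (`mem_XR`), so the left side is
`∑_{x ∈ XR Z} G x ∑_{supp x ⊆ R ⊆ Z} ∏_{v ∈ R} h/N v`, and the inner sum is
`∏_{v ∈ supp x} (h/N v) · ∏_{v ∈ Z ∖ supp x} (1 + h/N v)` (`Finset.prod_add_one`/`prod_one_add`, the sets
`R ⊇ supp x` correspond to the subsets of `Z ∖ supp x`), where
`∏ (1 + h/N v) ≤ exp (h · Lv N Z)` (`Real.add_one_le_exp`, `Finset.prod_le_prod`).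
-/

noncomputable section

namespace H38.TD

open Classical in
theorem ana1_inner {Pt : Type} (Z T : Finset Pt) (hT : T ⊆ Z) (g : Pt → ℝ) (hg : ∀ v, 0 ≤ g v) :
    ∑ R ∈ Z.powerset.filter (fun R => T ⊆ R), ∏ v ∈ R, g v ≤
      Real.exp (∑ v ∈ Z, g v) * ∏ v ∈ T, g v := by
  have h1 : ∑ R ∈ Z.powerset.filter (fun R => T ⊆ R), ∏ v ∈ R, g v =
      ∑ R ∈ (Z \ T).powerset, (∏ v ∈ R, g v) * ∏ v ∈ T, g v := by
    refine Finset.sum_nbij' (fun R => R \ T) (fun R => R ∪ T) ?_ ?_ ?_ ?_ ?_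
    · intro R hR
      rw [Finset.mem_filter, Finset.mem_powerset] at hR
      rw [Finset.mem_powerset]
      exact Finset.sdiff_subset_sdiff hR.1 (Finset.Subset.refl T)
    · intro R hR
      rw [Finset.mem_powerset] at hR
      rw [Finset.mem_filter, Finset.mem_powerset]
      exact ⟨Finset.union_subset (hR.trans Finset.sdiff_subset) hT, Finset.subset_union_right⟩
    · intro R hR
      rw [Finset.mem_filter] at hR
      exact Finset.sdiff_union_of_subset hR.2
    · intro R hR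
      rw [Finset.mem_powerset] at hR
      have hd : Disjoint R T := Finset.disjoint_left.2 fun v hv hvT =>
        (Finset.mem_sdiff.1 (hR hv)).2 hvT
      show (R ∪ T) \ T = R
      rw [Finset.union_sdiff_right, Finset.sdiff_eq_self_of_disjoint hd]
    · intro R hR
      rw [Finset.mem_filter] at hR
      rw [Finset.prod_sdiff hR.2]
  rw [h1, ← Finset.sum_mul]
  refine mul_le_mul_of_nonneg_right ?_ (Finset.prod_nonneg fun v _ => hg v)
  rw [← Finset.prod_one_add]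
  calc ∏ v ∈ Z \ T, (1 + g v) ≤ ∏ v ∈ Z \ T, Real.exp (g v) := by
        refine Finset.prod_le_prod (fun v _ => ?_) fun v _ => ?_
        · linarith [hg v]
        · linarith [Real.add_one_le_exp (g v)]
    _ = Real.exp (∑ v ∈ Z \ T, g v) := (Real.exp_sum _ _).symm
    _ ≤ Real.exp (∑ v ∈ Z, g v) := by
        rw [Real.exp_le_exp]
        exact Finset.sum_le_sum_of_subset_of_nonneg Finset.sdiff_subset fun v _ _ => hg v

theorem ana1 {Pt Ut Ht : Type} [Fintype Ut] {p : ℕ} [NeZero p] (D : AD Pt Ut Ht p)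
    (Z : Finset Pt) (G : Ut × (Pt →₀ ZMod p) → ℝ) (hG : ∀ x, 0 ≤ G x) :
    ∑ R ∈ Z.powerset, (∏ v ∈ R, (D.h : ℝ) / D.N v) * ∑ x ∈ XR Ut p R, G x ≤
      Real.exp (D.h * Lv D.N Z) *
        ∑ x ∈ XR Ut p Z, G x * ∏ v ∈ x.2.support, (D.h : ℝ) / D.N v := by
  classical
  have h1 : ∀ R ∈ Z.powerset, (∏ v ∈ R, (D.h : ℝ) / D.N v) * ∑ x ∈ XR Ut p R, G x =
      ∑ x ∈ XR Ut p Z, if x.2.support ⊆ R then G x * ∏ v ∈ R, (D.h : ℝ) / D.N v else 0 := by
    intro R hR
    rw [Finset.mem_powerset] at hR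
    have h2 : XR Ut p R = (XR Ut p Z).filter fun x => x.2.support ⊆ R := by
      ext x
      rw [Finset.mem_filter, mem_XR, mem_XR]
      exact ⟨fun h => ⟨h.trans hR, h⟩, fun h => h.2⟩
    rw [← Finset.sum_filter, ← h2, Finset.mul_sum]
    exact Finset.sum_congr rfl fun x _ => mul_comm _ _
  rw [Finset.sum_congr rfl h1, Finset.sum_comm, Finset.mul_sum]
  refine Finset.sum_le_sum fun x hx => ?_
  rw [← Finset.sum_filter, ← Finset.mul_sum]
  have h3 := ana1_inner Z x.2.support ((mem_XR Z x).1 hx) (fun v => (D.h : ℝ) / D.N v)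
    (fun v => by positivity)
  have h4 : ∑ v ∈ Z, (D.h : ℝ) / D.N v = D.h * Lv D.N Z := by
    unfold Lv
    rw [Finset.mul_sum]
    exact Finset.sum_congr rfl fun v _ => by ring
  rw [h4] at h3
  calc G x * _ ≤ G x * _ := mul_le_mul_of_nonneg_left h3 (hG x)
    _ = _ := by ring

end H38.TD
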