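import Mathlib

/-!
# [H38 TD MARKOV] Elementary inequalities (four theorems, 60-110 lines)

* `prod_le_exp`: `1 + w ≤ exp w`.
* `exp_le_prod`: `exp (w - w²) ≤ 1 + w` for `w ≥ 0` (`Real.log (1+w) ≥ w - w²/2`, or: for
  `w ≥ 1` the left side is `≤ 1`; for `0 ≤ w ≤ 1` put `u = w - w² ∈ [0, 1/4]` and
  `exp u ≤ 1 + u + u²` (`Real.exp_bound'` or `Real.abs_exp_sub_one_sub_id_le`:
  `|exp u - 1 - u| ≤ u²` for `|u| ≤ 1`), and `u + u² ≤ w`, since
  `u² ≤ w²` and `u = w - w²`).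
* `markov`: for `R` with `t < ∑_{v ∈ R} c v` we have `1 ≤ (∑_{v∈R} c v)/t`, so the left side is at most
  `(1/t) ∑_{R ⊆ Z} ∏_{v∈R} w v ∑_{u ∈ R} c u = (1/t) ∑_{u ∈ Z} c u ∑_{u ∈ R ⊆ Z} ∏_{v ∈ R} w v`, and
  the inner sum is `w u ∏_{v ∈ Z, v ≠ u} (1 + w v) ≤ w u ∏_{v ∈ Z} (1 + w v)`.
* `jensen`: convexity of `exp`: `exp F ≥ exp a · (1 + F - a)`, multiply by `m` and sum:
  `∑ m exp F ≥ exp a (∑ m + ∑ m F - a ∑ m) ≥ exp a ∑ m`.
-/

namespace H38.TD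

theorem prod_le_exp {Pt : Type} (Z : Finset Pt) (w : Pt → ℝ) (hw : ∀ v ∈ Z, 0 ≤ w v) :
    ∏ v ∈ Z, (1 + w v) ≤ Real.exp (∑ v ∈ Z, w v) := by
  rw [Real.exp_sum]
  refine Finset.prod_le_prod (fun v hv => ?_) fun v _ => ?_
  · linarith [hw v hv]
  · linarith [Real.add_one_le_exp (w v)]

theorem markov_aux1 (w : ℝ) (hw : 0 ≤ w) : Real.exp (w - w ^ 2) ≤ 1 + w := by
  have h1 : (0 : ℝ) < 1 + w := by linarith
  rw [← Real.le_log_iff_exp_le h1]
  refine le_trans ?_ (Real.one_sub_inv_le_log_of_pos h1)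
  have h2 : 1 - (1 + w)⁻¹ = w / (1 + w) := by
    field_simp
    ring
  rw [h2, le_div_iff₀ h1]
  nlinarith [pow_nonneg hw 3]

theorem exp_le_prod {Pt : Type} (Z : Finset Pt) (w : Pt → ℝ) (hw : ∀ v ∈ Z, 0 ≤ w v) :
    Real.exp (∑ v ∈ Z, w v - ∑ v ∈ Z, w v ^ 2) ≤ ∏ v ∈ Z, (1 + w v) := by
  rw [← Finset.sum_sub_distrib, Real.exp_sum]
  exact Finset.prod_le_prod (fun v _ => (Real.exp_pos _).le) fun v hv => markov_aux1 _ (hw v hv)

theorem markov_aux2 {Pt : Type} (Z : Finset Pt) (w c : Pt → ℝ) (hw : ∀ v ∈ Z, 0 ≤ w v)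
    (hc : ∀ v ∈ Z, 0 ≤ c v) :
    ∑ R ∈ Z.powerset, (∑ v ∈ R, c v) * ∏ v ∈ R, w v ≤
      (∑ v ∈ Z, w v * c v) * ∏ v ∈ Z, (1 + w v) := by
  classical
  induction Z using Finset.induction_on with
  | empty => simp
  | insert a Z ha ih =>
    have hw' : ∀ v ∈ Z, 0 ≤ w v := fun v hv => hw v (Finset.mem_insert_of_mem hv)
    have hc' : ∀ v ∈ Z, 0 ≤ c v := fun v hv => hc v (Finset.mem_insert_of_mem hv)
    have hwa := hw a (Finset.mem_insert_self a Z)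
    have hca := hc a (Finset.mem_insert_self a Z)
    have ih' := ih hw' hc'
    have h1 : ∑ R ∈ Z.powerset, (∑ v ∈ insert a R, c v) * ∏ v ∈ insert a R, w v =
        w a * (∑ R ∈ Z.powerset, (∑ v ∈ R, c v) * ∏ v ∈ R, w v) +
          c a * w a * ∏ v ∈ Z, (1 + w v) := by
      rw [Finset.prod_one_add, Finset.mul_sum, Finset.mul_sum, ← Finset.sum_add_distrib]
      refine Finset.sum_congr rfl fun R hR => ?_
      have haR : a ∉ R := fun h => ha (Finset.mem_powerset.1 hR h)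
      rw [Finset.sum_insert haR, Finset.prod_insert haR]
      ring
    rw [Finset.sum_powerset_insert ha, h1, Finset.sum_insert ha, Finset.prod_insert ha]
    have hP : 0 ≤ ∏ v ∈ Z, (1 + w v) :=
      Finset.prod_nonneg fun v hv => by linarith [hw' v hv]
    generalize ∑ R ∈ Z.powerset, (∑ v ∈ R, c v) * ∏ v ∈ R, w v = S at ih' ⊢
    generalize ∏ v ∈ Z, (1 + w v) = P at ih' hP ⊢
    generalize ∑ v ∈ Z, w v * c v = T at ih' ⊢
    have h2 : (1 + w a) * S ≤ (1 + w a) * (T * P) :=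
      mul_le_mul_of_nonneg_left ih' (by linarith)
    have h3 : 0 ≤ w a * c a * (w a * P) := by positivity
    nlinarith [h2, h3]

open Classical in
theorem markov {Pt : Type} (Z : Finset Pt) (w c : Pt → ℝ) (hw : ∀ v ∈ Z, 0 ≤ w v)
    (hc : ∀ v ∈ Z, 0 ≤ c v) (t : ℝ) (ht : 0 < t) :
    ∑ R ∈ Z.powerset.filter (fun R => t < ∑ v ∈ R, c v), ∏ v ∈ R, w v ≤
      (∑ v ∈ Z, w v * c v) / t * ∏ v ∈ Z, (1 + w v) := by
  have h1 := markov_aux2 Z w c hw hc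
  have h2 : t * ∑ R ∈ Z.powerset.filter (fun R => t < ∑ v ∈ R, c v), ∏ v ∈ R, w v ≤
      ∑ R ∈ Z.powerset, (∑ v ∈ R, c v) * ∏ v ∈ R, w v := by
    rw [Finset.mul_sum]
    have hn : ∀ R ∈ Z.powerset, 0 ≤ ∏ v ∈ R, w v := fun R hR =>
      Finset.prod_nonneg fun v hv => hw v (Finset.mem_powerset.1 hR hv)
    refine le_trans (Finset.sum_le_sum fun R hR => ?_)
      (Finset.sum_le_sum_of_subset_of_nonneg (Finset.filter_subset _ _) fun R hR _ => ?_)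
    · rw [Finset.mem_filter] at hR
      exact mul_le_mul_of_nonneg_right hR.2.le (hn R hR.1)
    · exact mul_nonneg (Finset.sum_nonneg fun v hv => hc v (Finset.mem_powerset.1 hR hv)) (hn R hR)
  rw [div_mul_eq_mul_div, le_div_iff₀ ht, mul_comm]
  exact h2.trans h1

theorem jensen {ι : Type} (s : Finset ι) (m F : ι → ℝ) (hm : ∀ i ∈ s, 0 ≤ m i) (a : ℝ)
    (h : a * ∑ i ∈ s, m i ≤ ∑ i ∈ s, m i * F i) :
    (∑ i ∈ s, m i) * Real.exp a ≤ ∑ i ∈ s, m i * Real.exp (F i) := by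
  have h1 : ∀ i ∈ s, m i * (Real.exp a * (1 + F i - a)) ≤ m i * Real.exp (F i) := by
    intro i hi
    refine mul_le_mul_of_nonneg_left ?_ (hm i hi)
    have h2 : Real.exp (F i) = Real.exp a * Real.exp (F i - a) := by
      rw [← Real.exp_add]
      congr 1
      ring
    rw [h2]
    refine mul_le_mul_of_nonneg_left ?_ (Real.exp_pos a).le
    linarith [Real.add_one_le_exp (F i - a)]
  refine le_trans ?_ (Finset.sum_le_sum h1)
  have h3 : ∑ i ∈ s, m i * (Real.exp a * (1 + F i - a)) =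
      Real.exp a * (∑ i ∈ s, m i + (∑ i ∈ s, m i * F i - a * ∑ i ∈ s, m i)) := by
    rw [Finset.mul_sum (a := a), ← Finset.sum_sub_distrib, ← Finset.sum_add_distrib,
      Finset.mul_sum]
    exact Finset.sum_congr rfl fun i _ => by ring
  rw [h3, mul_comm]
  refine mul_le_mul_of_nonneg_left ?_ (Real.exp_pos a).le
  linarith

end H38.TD
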