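import Pool.Agent.H38.TD.AnaDefs
import Pool.Agent.H38.TD.Markov

/-!
# [H38 TD ANA10] From pairs `(x, R)` to homomorphisms (two theorems, 70-120 lines)

`ana9`: termwise: for `(x, R) ∈ Prs`, `D.cnt` gives `#H x R ≥ h^ω V^{#spl} q^{#R - #spl}`, and
`∏_{v∈R} f x v = V^{#spl} q^{#R - #spl}` (`spl x R` is the set of `v ∈ R` with `Spl x v`).

`ana10`: `∑_{(x,R)} #H x R · Pv (supp x) Pv R = ∑_{ρ ∈ Fs} ∑_{(x,R) ∈ Prs, ρ ∈ H x R} Pv (supp x) Pv R`.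
For given `ρ`, `x = xi ρ` and `r ρ ⊆ R ⊆ Z`, `R` disjoint from `supp x` (`D.hH`), so
`Pv (supp x) Pv R = Pv (supp x ∪ r ρ) Pv (R ∖ r ρ)` (`Tr ρ = supp ∪ r ρ`, disjoint union), and the sum
over the sets `R` of `Pv (R ∖ r ρ)` is at most `∑_{R' ⊆ Z} Pv R' = ∏ (1 + 1/N) ≤ exp (Lv N Z)`
(`R ↦ R ∖ r ρ` is injective on the `R ⊇ r ρ`).
-/

noncomputable section

namespace H38.TD

theorem ana10_Pv_nonneg {Pt : Type} (N : Pt → ℕ) (R : Finset Pt) : 0 ≤ Pv N R :=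
  Finset.prod_nonneg fun v _ => by positivity

theorem ana10_prod_div {Pt : Type} (N : Pt → ℕ) (c : Pt → ℝ) (R : Finset Pt) :
    ∏ v ∈ R, c v / (N v : ℝ) = (∏ v ∈ R, c v) * Pv N R := by
  unfold Pv
  rw [← Finset.prod_mul_distrib]
  exact Finset.prod_congr rfl fun v _ => by ring

open Classical in
theorem ana10_prod_f {Pt Ut Ht : Type} [Fintype Ut] {p : ℕ} [NeZero p] (D : AD Pt Ut Ht p)
    (x : Ut × (Pt →₀ ZMod p)) (R : Finset Pt) :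
    ∏ v ∈ R, D.f x v = (D.V : ℝ) ^ (spl D.Spl x R).card *
      (D.q : ℝ) ^ (R.card - (spl D.Spl x R).card) := by
  unfold AD.f
  rw [Finset.prod_ite, Finset.prod_const, Finset.prod_const]
  have h1 : (R.filter fun v => ¬ D.Spl x v).card = R.card - (spl D.Spl x R).card := by
    have h2 : (R.filter (D.Spl x)).card + (R.filter fun v => ¬ D.Spl x v).card = R.card :=
      Finset.card_filter_add_card_filter_not _
    unfold spl
    omega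
  rw [h1]
  rfl

theorem ana9 {Pt Ut Ht : Type} [Fintype Ut] {p : ℕ} [NeZero p] (D : AD Pt Ut Ht p)
    (Z : Finset Pt) (Λ ε : ℝ) :
    ∑ y ∈ D.Prs Z Λ ε, (∏ v ∈ y.1.2.support, (D.h : ℝ) / D.N v) *
        (∏ v ∈ y.2, D.f y.1 v / D.N v) ≤
      ∑ y ∈ D.Prs Z Λ ε, ((D.H y.1 y.2).card : ℝ) * (Pv D.N y.1.2.support * Pv D.N y.2) := by
  classical
  refine Finset.sum_le_sum fun y hy => ?_
  unfold AD.Prs at hy
  rw [Finset.mem_filter] at hy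
  obtain ⟨_, hg, _, hd, hf⟩ := hy
  have h1 := D.cnt y.1 y.2 hg.1 hd hf
  rw [ana10_prod_div D.N (fun _ => (D.h : ℝ)), ana10_prod_div, ana10_prod_f, Finset.prod_const]
  have h2 : (D.h : ℝ) ^ y.1.2.support.card * ((D.V : ℝ) ^ (spl D.Spl y.1 y.2).card *
      (D.q : ℝ) ^ (y.2.card - (spl D.Spl y.1 y.2).card)) ≤ ((D.H y.1 y.2).card : ℝ) := by
    exact_mod_cast h1
  have h3 := mul_le_mul_of_nonneg_right h2
    (mul_nonneg (ana10_Pv_nonneg D.N y.1.2.support) (ana10_Pv_nonneg D.N y.2))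
  refine le_trans (le_of_eq ?_) h3
  ring

open Classical in
theorem ana10_fib {Pt Ut Ht : Type} [Fintype Ut] {p : ℕ} [NeZero p] (D : AD Pt Ut Ht p)
    (Z : Finset Pt) (Λ ε : ℝ) (ρ : Ht) :
    ∑ y ∈ (D.Prs Z Λ ε).filter (fun y => ρ ∈ D.H y.1 y.2),
      Pv D.N y.1.2.support * Pv D.N y.2 ≤ Real.exp (Lv D.N Z) * Pv D.N (D.Tr ρ) := by
  have hmem : ∀ y ∈ (D.Prs Z Λ ε).filter (fun y => ρ ∈ D.H y.1 y.2),
      y.2 ⊆ Z ∧ Disjoint y.1.2.support y.2 ∧ D.xi ρ = y.1 ∧ D.r ρ ⊆ y.2 := by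
    intro y hy
    rw [Finset.mem_filter] at hy
    obtain ⟨hy1, hy2⟩ := hy
    unfold AD.Prs at hy1
    rw [Finset.mem_filter, Finset.mem_product] at hy1
    obtain ⟨⟨_, h2⟩, _, _, hd, _⟩ := hy1
    unfold AD.Rs at h2
    rw [Finset.mem_filter, Finset.mem_powerset] at h2
    exact ⟨h2.1, hd, (D.hH _ _ ρ hy2).1, (D.hH _ _ ρ hy2).2⟩
  have h1 : ∀ y ∈ (D.Prs Z Λ ε).filter (fun y => ρ ∈ D.H y.1 y.2),
      Pv D.N y.1.2.support * Pv D.N y.2 = Pv D.N (y.2 \ D.r ρ) * Pv D.N (D.Tr ρ) := by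
    intro y hy
    obtain ⟨_, hd, hx, hr⟩ := hmem y hy
    have h2 : Pv D.N (D.Tr ρ) = Pv D.N y.1.2.support * Pv D.N (D.r ρ) := by
      unfold AD.Tr Pv
      rw [hx, Finset.prod_union (Finset.disjoint_of_subset_right hr hd)]
    have h3 : Pv D.N y.2 = Pv D.N (y.2 \ D.r ρ) * Pv D.N (D.r ρ) := by
      unfold Pv
      rw [Finset.prod_sdiff hr]
    rw [h2, h3]
    ring
  rw [Finset.sum_congr rfl h1, ← Finset.sum_mul]
  refine mul_le_mul_of_nonneg_right ?_ (ana10_Pv_nonneg _ _)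
  have hinj : Set.InjOn (fun y : (Ut × (Pt →₀ ZMod p)) × Finset Pt => y.2 \ D.r ρ)
      ((D.Prs Z Λ ε).filter (fun y => ρ ∈ D.H y.1 y.2) :
        Set ((Ut × (Pt →₀ ZMod p)) × Finset Pt)) := by
    intro y hy y' hy' h
    obtain ⟨_, _, hx, hr⟩ := hmem y (Finset.mem_coe.1 hy)
    obtain ⟨_, _, hx', hr'⟩ := hmem y' (Finset.mem_coe.1 hy')
    refine Prod.ext (hx.symm.trans hx') ?_
    have h2 : y.2 \ D.r ρ = y'.2 \ D.r ρ := h
    rw [← Finset.sdiff_union_of_subset hr, ← Finset.sdiff_union_of_subset hr', h2]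
  have h4 := Finset.sum_image (f := fun R => Pv D.N R) hinj
  rw [← h4]
  have h5 : ((D.Prs Z Λ ε).filter (fun y => ρ ∈ D.H y.1 y.2)).image
      (fun y : (Ut × (Pt →₀ ZMod p)) × Finset Pt => y.2 \ D.r ρ) ⊆ Z.powerset := by
    intro R hR
    rw [Finset.mem_image] at hR
    obtain ⟨y, hy, rfl⟩ := hR
    rw [Finset.mem_powerset]
    exact Finset.sdiff_subset.trans (hmem y hy).1
  refine (Finset.sum_le_sum_of_subset_of_nonneg h5 fun R _ _ => ana10_Pv_nonneg _ _).trans ?_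
  unfold Pv Lv
  rw [← Finset.prod_one_add]
  exact prod_le_exp Z _ fun v _ => by positivity

theorem ana10 {Pt Ut Ht : Type} [Fintype Ut] {p : ℕ} [NeZero p] (D : AD Pt Ut Ht p)
    (Z : Finset Pt) (Λ ε : ℝ) :
    ∑ y ∈ D.Prs Z Λ ε, ((D.H y.1 y.2).card : ℝ) * (Pv D.N y.1.2.support * Pv D.N y.2) ≤
      Real.exp (Lv D.N Z) * ∑ ρ ∈ D.Fs Z Λ ε, Pv D.N (D.Tr ρ) := by
  classical
  have h1 : ∀ y ∈ D.Prs Z Λ ε,
      ((D.H y.1 y.2).card : ℝ) * (Pv D.N y.1.2.support * Pv D.N y.2) =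
      ∑ ρ ∈ D.Fs Z Λ ε, if ρ ∈ D.H y.1 y.2 then Pv D.N y.1.2.support * Pv D.N y.2 else 0 := by
    intro y hy
    have h2 : (D.Fs Z Λ ε).filter (fun ρ => ρ ∈ D.H y.1 y.2) = D.H y.1 y.2 := by
      ext ρ
      rw [Finset.mem_filter]
      refine ⟨fun h => h.2, fun h => ⟨?_, h⟩⟩
      unfold AD.Fs
      rw [Finset.mem_biUnion]
      exact ⟨y, hy, h⟩
    rw [← Finset.sum_filter, h2, Finset.sum_const, nsmul_eq_mul]
  rw [Finset.sum_congr rfl h1, Finset.sum_comm, Finset.mul_sum]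
  refine Finset.sum_le_sum fun ρ _ => ?_
  rw [← Finset.sum_filter]
  exact ana10_fib D Z Λ ε ρ

end H38.TD
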