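import Pool.Agent.H38.TD.AnaDefs
import Pool.Agent.H38.TD.Markov

/-!
# [H38 TD ANA3] The exceptional `x` (60-110 lines)

`ana3b`: for `x` with `t < ω(x) = #supp x` we have `1 ≤ (3/2)^(ω(x) - t)`.  So the left side is at most
`(3/2)^(-t) ∑_{R ⊆ Z} ∏_{v∈R}(h/N v) ∑_{x ∈ XR R} (3/2)^{ω(x)}`.  The `x ∈ XR R` with support exactly
`T ⊆ R` are `#Ut (p-1)^{#T}` many, so
`∑_{x ∈ XR R} (3/2)^{ω(x)} = #Ut ∑_{T ⊆ R} ((p-1) 3/2)^{#T} = #Ut (1 + (p-1) 3/2)^{#R}`
(or directly: `XR R = Ut × ∏_{v∈R} ZMod p` and `(3/2)^{ω} = ∏_v (if x_v = 0 then 1 else 3/2)`,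
`Finset.prod_sum`/`Finset.sum_prod_piFinset`; an induction on `R` also works).
Then `∑_{R ⊆ Z} ∏_{v∈R} (h (1 + (p-1)3/2)/N v) = ∏ (1 + …) ≤ exp (h (1 + (p-1) 3/2) · Lv N Z)`.
-/

noncomputable section

namespace H38.TD

variable {Pt Ut Ht : Type} [Fintype Ut] {p : ℕ} [NeZero p] (D : AD Pt Ut Ht p)

theorem ana3_sum (N : Pt → ℕ) (c : ℝ) (Z : Finset Pt) :
    ∑ v ∈ Z, c / (N v : ℝ) = c * Lv N Z := by
  unfold Lv
  rw [Finset.mul_sum]
  exact Finset.sum_congr rfl fun v _ => by ring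

theorem ana3_powerset (N : Pt → ℕ) (c : ℝ) (hc : 0 ≤ c) (Z : Finset Pt) :
    ∑ R ∈ Z.powerset, ∏ v ∈ R, c / (N v : ℝ) ≤ Real.exp (c * Lv N Z) := by
  rw [← Finset.prod_one_add, ← ana3_sum]
  exact prod_le_exp Z _ fun v _ => by positivity

theorem ana3a (Z : Finset Pt) :
    ∑ R ∈ Z.powerset, ∏ v ∈ R, (D.h : ℝ) / D.N v ≤ Real.exp (D.h * Lv D.N Z) :=
  ana3_powerset D.N D.h (by positivity) Z

theorem ana3_zmod (p : ℕ) [NeZero p] :
    ∑ b : ZMod p, (if b = 0 then (1 : ℝ) else 3 / 2) = 1 + 3 / 2 * ((p : ℝ) - 1) := by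
  have h1 : ∀ b : ZMod p, (if b = 0 then (1 : ℝ) else 3 / 2) =
      3 / 2 - if b = 0 then (1 / 2 : ℝ) else 0 := by
    intro b
    split_ifs <;> norm_num
  rw [Finset.sum_congr rfl fun b _ => h1 b, Finset.sum_sub_distrib, Finset.sum_ite_eq']
  simp only [Finset.sum_const, Finset.card_univ, ZMod.card, nsmul_eq_mul, Finset.mem_univ, if_true]
  ring

open Classical in
theorem ana3_count (p : ℕ) [NeZero p] (R : Finset Pt) :
    ∑ f ∈ R.finsupp (fun _ => (Finset.univ : Finset (ZMod p))), (3 / 2 : ℝ) ^ f.support.card =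
      (1 + 3 / 2 * ((p : ℝ) - 1)) ^ R.card := by
  have h1 : ∀ f : Pt →₀ ZMod p, f.support ⊆ R → (3 / 2 : ℝ) ^ f.support.card =
      ∏ v ∈ R, if f v = 0 then (1 : ℝ) else 3 / 2 := by
    intro f hf
    have h2 : f.support = R.filter fun v => ¬ f v = 0 := by
      ext v
      rw [Finset.mem_filter, Finsupp.mem_support_iff]
      exact ⟨fun h => ⟨hf (Finsupp.mem_support_iff.2 h), h⟩, fun h => h.2⟩
    rw [Finset.prod_ite, Finset.prod_const_one, one_mul, Finset.prod_const, ← h2]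
  have h3 : (1 + 3 / 2 * ((p : ℝ) - 1)) ^ R.card =
      ∏ _v ∈ R, ∑ b : ZMod p, (if b = 0 then (1 : ℝ) else 3 / 2) := by
    rw [Finset.prod_const, ana3_zmod]
  rw [h3, Finset.prod_sum, Finset.finsupp, Finset.sum_map]
  refine Finset.sum_congr rfl fun g _ => ?_
  have h4 : (Finsupp.indicator R g).support ⊆ R := Finsupp.support_indicator_subset R g
  show (3 / 2 : ℝ) ^ (Finsupp.indicator R g).support.card = _
  rw [h1 _ h4, ← Finset.prod_attach R fun v => if (Finsupp.indicator R g) v = 0 then (1 : ℝ)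
    else 3 / 2]
  refine Finset.prod_congr rfl fun v _ => ?_
  rw [Finsupp.indicator_of_mem v.2]

open Classical in
theorem ana3_XR (R : Finset Pt) :
    ∑ x ∈ XR Ut p R, (3 / 2 : ℝ) ^ x.2.support.card =
      Fintype.card Ut * (1 + 3 / 2 * ((p : ℝ) - 1)) ^ R.card := by
  have h1 : XR Ut p R = Finset.univ ×ˢ R.finsupp fun _ => Finset.univ := by
    ext x
    rw [mem_XR]
    simp [Finset.mem_finsupp_iff]
  rw [h1, Finset.sum_product]
  simp only [Finset.sum_const, Finset.card_univ, nsmul_eq_mul]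
  rw [ana3_count]

open Classical in
theorem ana3b (Z : Finset Pt) (t : ℝ) :
    ∑ R ∈ Z.powerset, (∏ v ∈ R, (D.h : ℝ) / D.N v) *
      (((XR Ut p R).filter fun x => t < (x.2.support.card : ℝ)).card : ℝ) ≤
    Fintype.card Ut * Real.exp (-(t * Real.log (3 / 2)) +
      (D.h + 3 / 2 * ((p : ℝ) - 1) * D.h) * Lv D.N Z) := by
  have hl : 0 < Real.log (3 / 2 : ℝ) := Real.log_pos (by norm_num)
  have hp : (0 : ℝ) ≤ 1 + 3 / 2 * ((p : ℝ) - 1) := by
    have : (2 : ℝ) ≤ p := by exact_mod_cast D.hp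
    linarith
  have h1 : ∀ R : Finset Pt,
      (((XR Ut p R).filter fun x => t < (x.2.support.card : ℝ)).card : ℝ) ≤
        Real.exp (-(t * Real.log (3 / 2))) *
          (Fintype.card Ut * (1 + 3 / 2 * ((p : ℝ) - 1)) ^ R.card) := by
    intro R
    rw [← ana3_XR, Finset.mul_sum, Finset.card_eq_sum_ones, Nat.cast_sum]
    refine le_trans (Finset.sum_le_sum fun x hx => ?_)
      (Finset.sum_le_sum_of_subset_of_nonneg (Finset.filter_subset _ _) fun x _ _ =>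
        mul_nonneg (Real.exp_pos _).le (by positivity))
    rw [Finset.mem_filter] at hx
    have h2 : (3 / 2 : ℝ) ^ x.2.support.card =
        Real.exp (x.2.support.card * Real.log (3 / 2)) := by
      rw [Real.exp_nat_mul, Real.exp_log (by norm_num)]
    rw [h2, ← Real.exp_add, Nat.cast_one]
    refine Real.one_le_exp ?_
    have h3 := mul_le_mul_of_nonneg_right hx.2.le hl.le
    linarith
  have h4 : ∀ R ∈ Z.powerset, (∏ v ∈ R, (D.h : ℝ) / D.N v) *
      (((XR Ut p R).filter fun x => t < (x.2.support.card : ℝ)).card : ℝ) ≤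
      Real.exp (-(t * Real.log (3 / 2))) * Fintype.card Ut *
        ∏ v ∈ R, ((1 + 3 / 2 * ((p : ℝ) - 1)) * D.h) / D.N v := by
    intro R _
    have h5 : 0 ≤ ∏ v ∈ R, (D.h : ℝ) / D.N v := Finset.prod_nonneg fun v _ => by positivity
    refine le_trans (mul_le_mul_of_nonneg_left (h1 R) h5) (le_of_eq ?_)
    have h6 : ∏ v ∈ R, ((1 + 3 / 2 * ((p : ℝ) - 1)) * D.h) / (D.N v : ℝ) =
        (1 + 3 / 2 * ((p : ℝ) - 1)) ^ R.card * ∏ v ∈ R, (D.h : ℝ) / D.N v := by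
      rw [← Finset.prod_const, ← Finset.prod_mul_distrib]
      exact Finset.prod_congr rfl fun v _ => by ring
    rw [h6]
    ring
  refine le_trans (Finset.sum_le_sum h4) ?_
  rw [← Finset.mul_sum]
  have h7 := ana3_powerset D.N ((1 + 3 / 2 * ((p : ℝ) - 1)) * D.h) (by positivity) Z
  refine le_trans (mul_le_mul_of_nonneg_left h7 (by positivity)) (le_of_eq ?_)
  have h8 : (1 + 3 / 2 * ((p : ℝ) - 1)) * D.h = D.h + 3 / 2 * ((p : ℝ) - 1) * D.h := by ring
  rw [Real.exp_add, h8]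
  ring

end H38.TD
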