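import Pool.Agent.H38.TD.AnaDefs

/-!
# [H38 TD ANA4] The mean of `F` over `XR R` (40-80 lines)

For `x ∈ XR R` the support is in `R`, so `F Z x ≥ ∑_{v ∈ Z ∖ R} f x v / N v` (`f ≥ 0`).  For fixed
`v ∈ Z ∖ R`: `∑_{x ∈ XR R} f x v = q #XR R + (V - q) #{x ∈ XR R | Spl x v} ≥ (q + (V-q)/p) #XR R`
by `D.P2` and `card_XR` (`V ≥ q`).  Sum over `v ∈ Z ∖ R`, `Lv (Z ∖ R) = Lv Z - Lv R`.
-/

noncomputable section

namespace H38.TD

theorem ana4_pt {Pt Ut Ht : Type} [Fintype Ut] {p : ℕ} [NeZero p] (D : AD Pt Ut Ht p)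
    (R : Finset Pt) (v : Pt) (hv : v ∉ R) :
    ((XR Ut p R).card : ℝ) * D.fb ≤ ∑ x ∈ XR Ut p R, D.f x v := by
  classical
  have hp : (0 : ℝ) < p := by
    have := D.hp
    exact_mod_cast lt_of_lt_of_le (by norm_num) this
  have hVq : (0 : ℝ) ≤ (D.V : ℝ) - D.q := by
    have : (D.q : ℝ) ≤ D.V := by exact_mod_cast D.hqV
    linarith
  have h1 : ∀ x : Ut × (Pt →₀ ZMod p), D.f x v =
      D.q + if D.Spl x v then (D.V : ℝ) - D.q else 0 := by
    intro x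
    unfold AD.f
    split_ifs <;> ring
  rw [Finset.sum_congr rfl fun x _ => h1 x, Finset.sum_add_distrib, ← Finset.sum_filter]
  simp only [Finset.sum_const, nsmul_eq_mul]
  have h2 : ((XR Ut p R).card : ℝ) ≤ p * (((XR Ut p R).filter fun x => D.Spl x v).card : ℝ) := by
    have h3 := D.P2 R v hv
    rw [← card_XR] at h3
    exact_mod_cast h3
  unfold AD.fb
  have h4 : ((XR Ut p R).card : ℝ) / p * ((D.V : ℝ) - D.q) ≤
      (((XR Ut p R).filter fun x => D.Spl x v).card : ℝ) * ((D.V : ℝ) - D.q) := by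
    refine mul_le_mul_of_nonneg_right ?_ hVq
    rw [div_le_iff₀ hp, mul_comm]
    exact h2
  have h5 : ((XR Ut p R).card : ℝ) * (D.q + ((D.V : ℝ) - D.q) / p) =
      (XR Ut p R).card * D.q + ((XR Ut p R).card : ℝ) / p * ((D.V : ℝ) - D.q) := by
    ring
  rw [h5]
  linarith

theorem ana4 {Pt Ut Ht : Type} [Fintype Ut] {p : ℕ} [NeZero p] (D : AD Pt Ut Ht p)
    (Z R : Finset Pt) (hR : R ⊆ Z) :
    ((XR Ut p R).card : ℝ) * (D.fb * (Lv D.N Z - Lv D.N R)) ≤ ∑ x ∈ XR Ut p R, D.F Z x := by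
  classical
  have h0 : ∀ (x : Ut × (Pt →₀ ZMod p)) (v : Pt), 0 ≤ D.f x v := by
    intro x v
    unfold AD.f
    split_ifs <;> positivity
  have h1 : ∀ x ∈ XR Ut p R, ∑ v ∈ Z \ R, D.f x v / D.N v ≤ D.F Z x := by
    intro x hx
    unfold AD.F
    refine Finset.sum_le_sum_of_subset_of_nonneg
      (Finset.sdiff_subset_sdiff (Finset.Subset.refl Z) ((mem_XR R x).1 hx)) fun v _ _ => ?_
    exact div_nonneg (h0 x v) (by positivity)
  refine le_trans ?_ (Finset.sum_le_sum h1)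
  rw [Finset.sum_comm]
  have h2 : Lv D.N Z - Lv D.N R = ∑ v ∈ Z \ R, 1 / (D.N v : ℝ) := by
    unfold Lv
    rw [← Finset.sum_sdiff hR]
    ring
  rw [h2, Finset.mul_sum, Finset.mul_sum]
  refine Finset.sum_le_sum fun v hv => ?_
  rw [← Finset.sum_div]
  have h3 := ana4_pt D R v (Finset.mem_sdiff.1 hv).2
  calc ((XR Ut p R).card : ℝ) * (D.fb * (1 / (D.N v : ℝ)))
      = ((XR Ut p R).card : ℝ) * D.fb / D.N v := by ring
    _ ≤ _ := div_le_div_of_nonneg_right h3 (by positivity)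

end H38.TD
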