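import Pool.Agent.H38.TD.AnaDefs
import Pool.Agent.H38.TD.Markov

/-!
# Elementary lemmas for `Ana6` and `Ana7`: the two Markov estimates
-/

noncomputable section

namespace H38.TD

/-- `log (3/2) ≤ 41/100` -/
theorem log_three_half_le : Real.log (3 / 2) ≤ 41 / 100 := by
  rw [Real.log_le_iff_le_exp (by norm_num)]
  have h := Real.sum_le_exp_of_nonneg (x := 41 / 100) (by norm_num) 5
  refine le_trans ?_ h
  simp only [Finset.sum_range_succ, Finset.sum_range_zero, Nat.factorial]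
  norm_num

/-- `2/5 ≤ log (3/2)` -/
theorem le_log_three_half : 2 / 5 ≤ Real.log (3 / 2) := by
  rw [Real.le_log_iff_exp_le (by norm_num)]
  have h := Real.exp_bound' (x := 2 / 5) (by norm_num) (by norm_num) (n := 5) (by norm_num)
  refine h.trans ?_
  simp only [Finset.sum_range_succ, Finset.sum_range_zero, Nat.factorial]
  norm_num

section

variable {Pt Ut Ht : Type} [Fintype Ut] {p : ℕ} [NeZero p] (D : AD Pt Ut Ht p)

theorem N_pos (v : Pt) : (0 : ℝ) < D.N v := by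
  have := D.hN v
  exact_mod_cast (by omega : 0 < D.N v)

theorem two_le_N (v : Pt) : (2 : ℝ) ≤ D.N v := by
  exact_mod_cast D.hN v

theorem log_N_pos (v : Pt) : 0 < Real.log (D.N v) :=
  Real.log_pos (by have := two_le_N D v; linarith)

theorem f_nonneg (x : Ut × (Pt →₀ ZMod p)) (v : Pt) : 0 ≤ D.f x v := by
  unfold AD.f
  split_ifs <;> positivity

theorem f_le (x : Ut × (Pt →₀ ZMod p)) (v : Pt) : D.f x v ≤ D.V := by
  unfold AD.f
  split_ifs
  · exact le_rfl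
  · exact_mod_cast D.hqV

theorem one_le_V : (1 : ℝ) ≤ D.V := by
  exact_mod_cast D.hq.trans D.hqV

theorem Lv_nonneg (Z : Finset Pt) : 0 ≤ Lv D.N Z :=
  Finset.sum_nonneg fun v _ => by
    have := N_pos D v
    positivity

theorem nonempty_of_Lv {Z : Finset Pt} (h : 0 < Lv D.N Z) : Z.Nonempty := by
  rw [Finset.nonempty_iff_ne_empty]
  rintro rfl
  simp [Lv] at h

/-- `Λ` is positive -/
theorem Lam_pos {Z : Finset Pt} {Λ : ℝ} (hL : 0 < Lv D.N Z)
    (h1 : 8 * ((p : ℝ) * D.h + D.V) * ∑ v ∈ Z, Real.log (D.N v) / D.N v ≤ Λ) : 0 < Λ := by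
  obtain ⟨v, hv⟩ := nonempty_of_Lv D hL
  refine lt_of_lt_of_le ?_ h1
  have h2 : 0 < ∑ v ∈ Z, Real.log (D.N v) / D.N v :=
    Finset.sum_pos (fun u _ => div_pos (log_N_pos D u) (N_pos D u)) ⟨v, hv⟩
  have h3 := one_le_V D
  have h4 : (0 : ℝ) ≤ (p : ℝ) * D.h := by positivity
  have h5 : (0 : ℝ) < 8 * ((p : ℝ) * D.h + D.V) := by linarith
  exact mul_pos h5 h2

/-- the two Markov estimates and the lower bound of the product, for weights `w ≤ K / N` -/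
theorem mass {Z Z' : Finset Pt} {Λ ε : ℝ} (hε : 0 < ε) (hZ : Z' ⊆ Z) (hL : 0 < Lv D.N Z)
    (h1 : 8 * ((p : ℝ) * D.h + D.V) * ∑ v ∈ Z, Real.log (D.N v) / D.N v ≤ Λ)
    (h2 : 16 * ((p : ℝ) * D.h + D.V) ^ 2 * ∑ v ∈ Z, 1 / (D.N v : ℝ) ^ 2 ≤ min ε 1)
    (w : Pt → ℝ) (hw0 : ∀ v, 0 ≤ w v) (hw : ∀ v, w v ≤ ((p : ℝ) * D.h + D.V) / D.N v) :
    Real.exp (∑ v ∈ Z', w v - 1) ≤ ∏ v ∈ Z', (1 + w v) ∧
    ∏ v ∈ Z', (1 + w v) - (1 / 8 + 1 / 16) * ∏ v ∈ Z', (1 + w v) ≤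
      ∑ R ∈ Z'.powerset with Ln D.N R ≤ Λ ∧ Lv D.N R ≤ ε, ∏ v ∈ R, w v := by
  classical
  set κ : ℝ := (p : ℝ) * D.h + D.V with hκ
  have hV := one_le_V D
  have hph : (0 : ℝ) ≤ (p : ℝ) * D.h := by positivity
  have hκ1 : 1 ≤ κ := by linarith
  have hΛ := Lam_pos D hL h1
  set P : ℝ := ∏ v ∈ Z', (1 + w v) with hP
  have hP0 : 0 ≤ P := Finset.prod_nonneg fun v _ => by linarith [hw0 v]
  have hS2 : ∑ v ∈ Z', 1 / (D.N v : ℝ) ^ 2 ≤ ∑ v ∈ Z, 1 / (D.N v : ℝ) ^ 2 :=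
    Finset.sum_le_sum_of_subset_of_nonneg hZ fun v _ _ => by positivity
  have hSl : ∑ v ∈ Z', Real.log (D.N v) / D.N v ≤ ∑ v ∈ Z, Real.log (D.N v) / D.N v :=
    Finset.sum_le_sum_of_subset_of_nonneg hZ fun v _ _ =>
      (div_pos (log_N_pos D v) (N_pos D v)).le
  have hS20 : 0 ≤ ∑ v ∈ Z, 1 / (D.N v : ℝ) ^ 2 := Finset.sum_nonneg fun v _ => by positivity
  have hκS : κ ^ 2 * ∑ v ∈ Z, 1 / (D.N v : ℝ) ^ 2 ≤ min ε 1 / 16 := by linarith
  constructor
  · have h3 := exp_le_prod Z' w fun v _ => hw0 v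
    refine le_trans ?_ h3
    rw [Real.exp_le_exp]
    have h4 : ∑ v ∈ Z', w v ^ 2 ≤ κ ^ 2 * ∑ v ∈ Z, 1 / (D.N v : ℝ) ^ 2 := by
      calc ∑ v ∈ Z', w v ^ 2 ≤ ∑ v ∈ Z', κ ^ 2 * (1 / (D.N v : ℝ) ^ 2) := by
            refine Finset.sum_le_sum fun v _ => ?_
            calc w v ^ 2 ≤ (κ / D.N v) ^ 2 := by
                  have := hw v
                  have := hw0 v
                  gcongr
              _ = _ := by rw [div_pow]; ring
        _ = κ ^ 2 * ∑ v ∈ Z', 1 / (D.N v : ℝ) ^ 2 := by rw [Finset.mul_sum]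
        _ ≤ _ := by gcongr
    have h5 : min ε 1 ≤ 1 := min_le_right _ _
    linarith
  · have hsum : P = ∑ R ∈ Z'.powerset, ∏ v ∈ R, w v := by
      rw [hP, Finset.prod_one_add]
    have hA := markov Z' w (fun v => Real.log (D.N v)) (fun v _ => hw0 v)
      (fun v _ => (log_N_pos D v).le) Λ hΛ
    have hB := markov Z' w (fun v => 1 / (D.N v : ℝ)) (fun v _ => hw0 v)
      (fun v _ => by have := N_pos D v; positivity) ε hε
    have hA' : (∑ v ∈ Z', w v * Real.log (D.N v)) / Λ ≤ 1 / 8 := by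
      rw [div_le_iff₀ hΛ]
      have : ∑ v ∈ Z', w v * Real.log (D.N v) ≤ κ * ∑ v ∈ Z', Real.log (D.N v) / D.N v := by
        rw [Finset.mul_sum]
        refine Finset.sum_le_sum fun v _ => ?_
        have h3 := hw v
        have h4 := (log_N_pos D v).le
        calc w v * Real.log (D.N v) ≤ κ / D.N v * Real.log (D.N v) := by gcongr
          _ = _ := by ring
      have h6 : κ * ∑ v ∈ Z', Real.log (D.N v) / D.N v ≤
          κ * ∑ v ∈ Z, Real.log (D.N v) / D.N v := by gcongr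
      linarith
    have hB' : (∑ v ∈ Z', w v * (1 / (D.N v : ℝ))) / ε ≤ 1 / 16 := by
      rw [div_le_iff₀ hε]
      have : ∑ v ∈ Z', w v * (1 / (D.N v : ℝ)) ≤ κ * ∑ v ∈ Z', 1 / (D.N v : ℝ) ^ 2 := by
        rw [Finset.mul_sum]
        refine Finset.sum_le_sum fun v _ => ?_
        have h3 := hw v
        have h4 := N_pos D v
        calc w v * (1 / (D.N v : ℝ)) ≤ κ / D.N v * (1 / (D.N v : ℝ)) := by gcongr
          _ = _ := by field_simp
      have h6 : κ * ∑ v ∈ Z', 1 / (D.N v : ℝ) ^ 2 ≤ κ ^ 2 * ∑ v ∈ Z, 1 / (D.N v : ℝ) ^ 2 := by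
        have : κ ≤ κ ^ 2 := by nlinarith
        gcongr
      have h5 : min ε 1 ≤ ε := min_le_left _ _
      linarith
    have hA2 : ∑ R ∈ Z'.powerset.filter (fun R => Λ < ∑ v ∈ R, Real.log (D.N v)),
        ∏ v ∈ R, w v ≤ 1 / 8 * P :=
      hA.trans (by gcongr)
    have hB2 : ∑ R ∈ Z'.powerset.filter (fun R => ε < ∑ v ∈ R, 1 / (D.N v : ℝ)),
        ∏ v ∈ R, w v ≤ 1 / 16 * P :=
      hB.trans (by gcongr)
    have hnn : ∀ R : Finset Pt, 0 ≤ ∏ v ∈ R, w v := fun R => Finset.prod_nonneg fun v _ => hw0 v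
    have hkey : ∑ R ∈ Z'.powerset, ∏ v ∈ R, w v ≤
        ∑ R ∈ Z'.powerset.filter (fun R => Ln D.N R ≤ Λ ∧ Lv D.N R ≤ ε), ∏ v ∈ R, w v +
        ∑ R ∈ Z'.powerset.filter (fun R => Λ < ∑ v ∈ R, Real.log (D.N v)), ∏ v ∈ R, w v +
        ∑ R ∈ Z'.powerset.filter (fun R => ε < ∑ v ∈ R, 1 / (D.N v : ℝ)), ∏ v ∈ R, w v := by
      rw [Finset.sum_filter, Finset.sum_filter, Finset.sum_filter, ← Finset.sum_add_distrib,
        ← Finset.sum_add_distrib]
      refine Finset.sum_le_sum fun R _ => ?_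
      have h0 := hnn R
      by_cases ha : Λ < ∑ v ∈ R, Real.log (D.N v)
      · simp only [ha, if_true]
        split_ifs <;> linarith
      · by_cases hb : ε < ∑ v ∈ R, 1 / (D.N v : ℝ)
        · simp only [hb, if_true]
          split_ifs <;> linarith
        · have hc : Ln D.N R ≤ Λ ∧ Lv D.N R ≤ ε := ⟨not_lt.mp ha, not_lt.mp hb⟩
          simp only [hc, ha, hb, if_false]
          simp
    linarith

end

end H38.TD
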