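import Pool.Agent.H38.TD.Ana3
import Pool.Agent.H38.TD.Ana4
import Pool.Agent.H38.TD.AnaMass

/-!
# [H38 TD ANA6] The sum over `R` and good `x` (100-180 lines)

Notation: `L = Lv N Z`, `m(R) = ∏_{v ∈ R} h/N v`, `w v = p h / N v`, `u = #Ut`, all constants below may
depend on `D` and `ε` but not on `Z, Λ`.  `κ = p h + V ≥ 1`.

(1) Mass: `#XR R = u p^{#R}`, so `m(R) #XR R = u ∏_{v∈R} w v`.  `∑_{R ⊆ Z} ∏ w = ∏ (1 + w) =: Π`, with
`exp (p h L - 1) ≤ Π ≤ exp (p h L)` (`exp_le_prod`, `∑ w² ≤ (p h)² ∑ 1/N² ≤ 1`).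
By `markov` (for `c = log N`, `t = Λ` [`Λ > 0` if `Z ≠ ∅`] and for `c = 1/N`, `t = ε`) and the
hypotheses, the `R` outside `Rs Z Λ ε` contribute at most `(1/8 + 1/16) Π`.  So
`𝔐 := ∑_{R ∈ Rs} m(R) #XR R ≥ (1/2) u Π ≥ c₁ exp (p h L)`.
(2) Bad `x`: let `B(R)` be the set of `x ∈ XR R` with `x = (o, 0)` or (if `¬ flag`)
`ω(x) > 13/10 (p-1) h L`.  By `ana3a`, `ana3b`:
`∑_R m(R) #B(R) ≤ exp(h L) + u exp (-(13/10) (p-1) h L log(3/2) + (h + (3/2)(p-1)h) L)`.  Since
`log (3/2) > 0.4` and `13/10 · 0.4 = 0.52 > 0.5`, this is `≤ C exp ((p h - δ) L)` with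
`δ = 0.02 (p-1) h > 0`; so it is `≤ (1/2) 𝔐` and `V L · ∑ m #B ≤ 𝔐` for `L ≥ L₀`.
(3) Let `I` be the set of pairs `(R, x)`, `R ∈ Rs`, `x ∈ XR R ∖ B(R)`, with weight `m(R)`.
`∑_I m ≤ 𝔐`, `∑_I m ≥ 𝔐/2`, and by `ana4` (`Lv R ≤ ε` for `R ∈ Rs`) and
`0 ≤ F ≤ V L`: `∑_I m F ≥ fb (L - ε) 𝔐 - V L ∑ m #B ≥ (fb (L - ε) - 1) 𝔐 ≥ (fb (L - ε) - 1) ∑_I m`
(if `fb (L - ε) ≥ 1`).  `jensen`: `∑_I m e^F ≥ (𝔐/2) exp (fb L - fb ε - 1) ≥ c₂ exp ((p h + fb) L)`.
(4) If `¬ flag`, remove the `x` with `Xs Z x < (9/10/p) L`: for them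
`F Z x = ∑_{Z ∖ supp x} q/N + (V - q) Xs ≤ (q + (V - q)(9/10)/p) L = (fb - (V-q)/(10 p)) L`, so they
contribute at most `𝔐 exp ((fb - δ') L) ≤ u exp ((p h + fb - δ') L)` with
`δ' = (V - q)/(10 p) > 0` (`q < V` from `hflag`), which is `≤ half` of the bound in (3) for `L ≥ L₀`.
The remaining `x` satisfy `gx`.
-/

noncomputable section

namespace H38.TD

section

variable {Pt Ut Ht : Type} [Fintype Ut] {p : ℕ} [NeZero p] (D : AD Pt Ut Ht p)

/-- the first exceptional set -/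
def Bd (Z : Finset Pt) (x : Ut × (Pt →₀ ZMod p)) : Prop :=
  x = (D.o, 0) ∨ (¬ D.flag ∧
    13 / 10 * ((p : ℝ) - 1) * D.h * Lv D.N Z < (x.2.support.card : ℝ))

/-- the second exceptional set -/
def Bd2 (Z : Finset Pt) (x : Ut × (Pt →₀ ZMod p)) : Prop :=
  ¬ D.flag ∧ D.Xs Z x < 9 / 10 / p * Lv D.N Z

theorem gx_iff (Z : Finset Pt) (x : Ut × (Pt →₀ ZMod p)) :
    D.gx Z x ↔ ¬ Bd D Z x ∧ ¬ Bd2 D Z x := by
  unfold AD.gx Bd Bd2
  rw [not_or, not_and, not_lt, not_and, not_lt]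
  tauto

theorem F_nonneg (Z : Finset Pt) (x : Ut × (Pt →₀ ZMod p)) : 0 ≤ D.F Z x :=
  Finset.sum_nonneg fun v _ => div_nonneg (f_nonneg D x v) (N_pos D v).le

theorem F_le (Z : Finset Pt) (x : Ut × (Pt →₀ ZMod p)) : D.F Z x ≤ D.V * Lv D.N Z := by
  classical
  unfold AD.F Lv
  rw [Finset.mul_sum]
  calc ∑ v ∈ Z \ x.2.support, D.f x v / D.N v
      ≤ ∑ v ∈ Z \ x.2.support, (D.V : ℝ) * (1 / D.N v) := by
        refine Finset.sum_le_sum fun v _ => ?_
        have h1 := f_le D x v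
        have h2 := N_pos D v
        rw [mul_one_div]
        gcongr
    _ ≤ _ := Finset.sum_le_sum_of_subset_of_nonneg Finset.sdiff_subset fun v _ _ => by
        have h2 := N_pos D v
        positivity

theorem F_bad (Z : Finset Pt) (x : Ut × (Pt →₀ ZMod p)) (h : Bd2 D Z x) :
    D.F Z x ≤ (D.fb - ((D.V : ℝ) - D.q) / (10 * p)) * Lv D.N Z := by
  classical
  have e1 : D.F Z x = D.q * Lv D.N (Z \ x.2.support) + ((D.V : ℝ) - D.q) * D.Xs Z x := by
    unfold AD.F AD.Xs Lv spl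
    rw [Finset.mul_sum, Finset.mul_sum, Finset.sum_filter, ← Finset.sum_add_distrib]
    refine Finset.sum_congr rfl fun v _ => ?_
    unfold AD.f
    split_ifs
    · ring
    · ring
  have hp : (2 : ℝ) ≤ p := by exact_mod_cast D.hp
  have h2 : Lv D.N (Z \ x.2.support) ≤ Lv D.N Z :=
    Finset.sum_le_sum_of_subset_of_nonneg Finset.sdiff_subset fun v _ _ => by
      have h2 := N_pos D v
      positivity
  have h3 : (0 : ℝ) ≤ (D.V : ℝ) - D.q := by
    have : (D.q : ℝ) ≤ D.V := by exact_mod_cast D.hqV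
    linarith
  have h4 : D.q * Lv D.N (Z \ x.2.support) ≤ D.q * Lv D.N Z := by gcongr
  have h5 : ((D.V : ℝ) - D.q) * D.Xs Z x ≤ ((D.V : ℝ) - D.q) * (9 / 10 / p * Lv D.N Z) := by
    have := h.2.le
    gcongr
  rw [e1]
  have e2 : (D.fb - ((D.V : ℝ) - D.q) / (10 * p)) * Lv D.N Z = D.q * Lv D.N Z +
      ((D.V : ℝ) - D.q) * (9 / 10 / p * Lv D.N Z) := by
    unfold AD.fb
    have : (p : ℝ) ≠ 0 := by linarith
    field_simp
    ring
  rw [e2]
  linarith

theorem one_le_card (D : AD Pt Ut Ht p) : (1 : ℝ) ≤ Fintype.card Ut := by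
  have : 0 < Fintype.card Ut := Fintype.card_pos_iff.mpr ⟨D.o⟩
  exact_mod_cast this

theorem one_le_fb : (1 : ℝ) ≤ D.fb := by
  unfold AD.fb
  have h1 : (1 : ℝ) ≤ D.q := by exact_mod_cast D.hq
  have h2 : (D.q : ℝ) ≤ D.V := by exact_mod_cast D.hqV
  have h3 : (0 : ℝ) ≤ ((D.V : ℝ) - D.q) / p := div_nonneg (by linarith) (by positivity)
  linarith

/-- the mass of one set -/
theorem mass_XR (R : Finset Pt) : (∏ v ∈ R, (D.h : ℝ) / D.N v) * ((XR Ut p R).card : ℝ) =
    Fintype.card Ut * ∏ v ∈ R, ((p : ℝ) * D.h / D.N v) := by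
  rw [card_XR]
  push_cast
  have : ∏ v ∈ R, ((p : ℝ) * D.h / D.N v) = (p : ℝ) ^ R.card * ∏ v ∈ R, (D.h : ℝ) / D.N v := by
    rw [← Finset.prod_const, ← Finset.prod_mul_distrib]
    refine Finset.prod_congr rfl fun v _ => ?_
    ring
  rw [this]
  ring

open Classical in
/-- the mass of the first exceptional set -/
theorem bad_le {Z : Finset Pt} (hL : 0 ≤ Lv D.N Z) :
    ∑ R ∈ Z.powerset, (∏ v ∈ R, (D.h : ℝ) / D.N v) *
      (((XR Ut p R).filter fun x => Bd D Z x).card : ℝ) ≤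
    2 * Fintype.card Ut * Real.exp ((p : ℝ) * D.h * Lv D.N Z - 2 / 100 * Lv D.N Z) := by
  set L : ℝ := Lv D.N Z with hLdef
  have hm : ∀ R : Finset Pt, 0 ≤ ∏ v ∈ R, (D.h : ℝ) / D.N v := fun R =>
    Finset.prod_nonneg fun v _ => by
      have := N_pos D v
      positivity
  have hp : (2 : ℝ) ≤ p := by exact_mod_cast D.hp
  have hh : (1 : ℝ) ≤ D.h := by exact_mod_cast D.hh
  have hu := one_le_card D
  have hph : (1 : ℝ) ≤ ((p : ℝ) - 1) * D.h := by nlinarith
  set t : ℝ := 13 / 10 * ((p : ℝ) - 1) * D.h * L with ht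
  have h3a := ana3a D Z
  have h3b := ana3b D Z t
  have hcard : ∀ R ∈ Z.powerset, (((XR Ut p R).filter fun x => Bd D Z x).card : ℝ) ≤
      1 + (((XR Ut p R).filter fun x => t < (x.2.support.card : ℝ)).card : ℝ) := by
    intro R _
    have hsub : ((XR Ut p R).filter fun x => Bd D Z x) ⊆
        {(D.o, 0)} ∪ ((XR Ut p R).filter fun x => t < (x.2.support.card : ℝ)) := by
      intro x hx
      rw [Finset.mem_filter] at hx
      rw [Finset.mem_union, Finset.mem_singleton, Finset.mem_filter]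
      rcases hx.2 with h | h
      · exact Or.inl h
      · exact Or.inr ⟨hx.1, h.2⟩
    have h4 := (Finset.card_le_card hsub).trans (Finset.card_union_le _ _)
    rw [Finset.card_singleton] at h4
    exact_mod_cast h4
  calc ∑ R ∈ Z.powerset, (∏ v ∈ R, (D.h : ℝ) / D.N v) *
        (((XR Ut p R).filter fun x => Bd D Z x).card : ℝ)
      ≤ ∑ R ∈ Z.powerset, (∏ v ∈ R, (D.h : ℝ) / D.N v) *
        (1 + (((XR Ut p R).filter fun x => t < (x.2.support.card : ℝ)).card : ℝ)) := by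
        refine Finset.sum_le_sum fun R hR => ?_
        exact mul_le_mul_of_nonneg_left (hcard R hR) (hm R)
    _ = ∑ R ∈ Z.powerset, (∏ v ∈ R, (D.h : ℝ) / D.N v) +
        ∑ R ∈ Z.powerset, (∏ v ∈ R, (D.h : ℝ) / D.N v) *
        (((XR Ut p R).filter fun x => t < (x.2.support.card : ℝ)).card : ℝ) := by
        rw [← Finset.sum_add_distrib]
        refine Finset.sum_congr rfl fun R _ => ?_
        ring
    _ ≤ Real.exp (D.h * L) + Fintype.card Ut * Real.exp (-(t * Real.log (3 / 2)) +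
      (D.h + 3 / 2 * ((p : ℝ) - 1) * D.h) * L) := add_le_add h3a h3b
    _ ≤ Fintype.card Ut * Real.exp ((p : ℝ) * D.h * L - 2 / 100 * L) +
        Fintype.card Ut * Real.exp ((p : ℝ) * D.h * L - 2 / 100 * L) := by
        have hk : 1 * L ≤ ((p : ℝ) - 1) * D.h * L := by gcongr
        have h5 : Real.exp (D.h * L) ≤ Real.exp ((p : ℝ) * D.h * L - 2 / 100 * L) := by
          rw [Real.exp_le_exp]
          nlinarith
        have h6 : Real.exp (-(t * Real.log (3 / 2)) + (D.h + 3 / 2 * ((p : ℝ) - 1) * D.h) * L) ≤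
            Real.exp ((p : ℝ) * D.h * L - 2 / 100 * L) := by
          rw [Real.exp_le_exp]
          have h7 := le_log_three_half
          have h8 : 0 ≤ t := by
            rw [ht]
            nlinarith
          have h9 : t * (2 / 5) ≤ t * Real.log (3 / 2) := by gcongr
          have h10 : t * (2 / 5) = 52 / 100 * (((p : ℝ) - 1) * D.h * L) := by
            rw [ht]
            ring
          have h11 : (D.h + 3 / 2 * ((p : ℝ) - 1) * D.h) * L = (p : ℝ) * D.h * L +
              1 / 2 * (((p : ℝ) - 1) * D.h * L) := by ring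
          rw [h11]
          linarith
        have h12 := Real.exp_pos ((p : ℝ) * D.h * L - 2 / 100 * L)
        gcongr
        nlinarith
    _ = _ := by ring

end

/-- elementary: large `L` -/
theorem exp_small {L V : ℝ} (hV : 1 ≤ V) (hL : 40000 * V ≤ L) :
    8 * Real.exp (-(2 / 100 * L)) ≤ 1 / 2 ∧ V * L * (8 * Real.exp (-(2 / 100 * L))) ≤ 1 := by
  have hL0 : 0 ≤ L := by linarith
  have h1 : (2 / 100 * L) ^ 2 / 2 ≤ Real.exp (2 / 100 * L) := by
    have := Real.quadratic_le_exp_of_nonneg (x := 2 / 100 * L) (by positivity)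
    have h2 : 0 ≤ 2 / 100 * L := by positivity
    linarith
  have hpos : 0 < (2 / 100 * L) ^ 2 / 2 := by
    have : 0 < L := by linarith
    positivity
  have h2 : Real.exp (-(2 / 100 * L)) ≤ ((2 / 100 * L) ^ 2 / 2)⁻¹ := by
    rw [Real.exp_neg]
    gcongr
  have h3 : V * L * (8 * ((2 / 100 * L) ^ 2 / 2)⁻¹) ≤ 1 := by
    have hL1 : 0 < L := by linarith
    have : V * L * (8 * ((2 / 100 * L) ^ 2 / 2)⁻¹) = 40000 * V / L := by
      field_simp
      norm_num
    rw [this, div_le_one hL1]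
    exact hL
  have h4 : V * L * (8 * Real.exp (-(2 / 100 * L))) ≤ 1 := by
    refine le_trans ?_ h3
    gcongr
  refine ⟨?_, h4⟩
  have h5 := Real.exp_pos (-(2 / 100 * L))
  have h6 : (2 : ℝ) ≤ V * L := by nlinarith
  nlinarith

open Classical in
theorem ana6 {Pt Ut Ht : Type} [Fintype Ut] {p : ℕ} [NeZero p] (D : AD Pt Ut Ht p) (ε : ℝ)
    (hε : 0 < ε) :
    ∃ c : ℝ, 0 < c ∧ ∃ L₀ : ℝ, ∀ (Z : Finset Pt) (Λ : ℝ),
      8 * ((p : ℝ) * D.h + D.V) * ∑ v ∈ Z, Real.log (D.N v) / D.N v ≤ Λ →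
      16 * ((p : ℝ) * D.h + D.V) ^ 2 * ∑ v ∈ Z, 1 / (D.N v : ℝ) ^ 2 ≤ min ε 1 →
      L₀ ≤ Lv D.N Z →
      c * Real.exp (((p : ℝ) * D.h + D.fb) * Lv D.N Z) ≤
        ∑ R ∈ D.Rs Z Λ ε, (∏ v ∈ R, (D.h : ℝ) / D.N v) *
          ∑ x ∈ (XR Ut p R).filter (fun x => D.gx Z x), Real.exp (D.F Z x) := by
  have hp : (2 : ℝ) ≤ p := by exact_mod_cast D.hp
  have hh : (1 : ℝ) ≤ D.h := by exact_mod_cast D.hh
  have hV := one_le_V D
  have hu := one_le_card D
  have hfb := one_le_fb D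
  have hVq : (0 : ℝ) ≤ (D.V : ℝ) - D.q := by
    have : (D.q : ℝ) ≤ D.V := by exact_mod_cast D.hqV
    linarith
  set u : ℝ := (Fintype.card Ut : ℝ) with hu'
  set δ : ℝ := ((D.V : ℝ) - D.q) / (10 * p) with hδ
  have hδ0 : 0 ≤ δ := by positivity
  refine ⟨u / 16 * Real.exp (-(D.fb * ε) - 1), by positivity,
    40000 * D.V + ε + 1 + (D.fb * ε + 4) / δ, ?_⟩
  intro Z Λ h1 h2 hL
  set L : ℝ := Lv D.N Z with hLdef
  have hδ1 : 0 ≤ (D.fb * ε + 4) / δ := by positivity
  have hL1 : 40000 * (D.V : ℝ) ≤ L := by linarith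
  have hL2 : ε + 1 ≤ L := by linarith
  have hL0 : 0 < L := by linarith
  obtain ⟨he1, he2⟩ := exp_small hV hL1
  have hm : ∀ R : Finset Pt, 0 ≤ ∏ v ∈ R, (D.h : ℝ) / D.N v := fun R =>
    Finset.prod_nonneg fun v _ => by
      have := N_pos D v
      positivity
  set w : Pt → ℝ := fun v => (p : ℝ) * D.h / D.N v with hw
  have hw0 : ∀ v, 0 ≤ w v := fun v => by
    have := N_pos D v
    simp only [hw]
    positivity
  have hwle : ∀ v, w v ≤ ((p : ℝ) * D.h + D.V) / D.N v := by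
    intro v
    have h5 := N_pos D v
    simp only [hw]
    gcongr
    linarith
  obtain ⟨hm1, hm2⟩ := mass D hε (le_refl Z) hL0 h1 h2 w hw0 hwle
  have hwsum : ∑ v ∈ Z, w v = (p : ℝ) * D.h * L := by
    simp only [hw, hLdef, Lv]
    rw [Finset.mul_sum]
    refine Finset.sum_congr rfl fun v _ => ?_
    ring
  rw [hwsum] at hm1
  have hPle : ∏ v ∈ Z, (1 + w v) ≤ Real.exp ((p : ℝ) * D.h * L) := by
    rw [← hwsum]
    exact prod_le_exp Z w fun v _ => hw0 v
  obtain ⟨P, hP⟩ : ∃ P : ℝ, P = ∏ v ∈ Z, (1 + w v) := ⟨_, rfl⟩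
  rw [← hP] at hm1 hm2 hPle
  have hP0 : 0 < P := (Real.exp_pos _).trans_le hm1
  -- the total mass
  obtain ⟨M, hM⟩ : ∃ M : ℝ, M = ∑ R ∈ D.Rs Z Λ ε, (∏ v ∈ R, (D.h : ℝ) / D.N v) *
      ((XR Ut p R).card : ℝ) := ⟨_, rfl⟩
  have hM1 : M = u * ∑ R ∈ D.Rs Z Λ ε, ∏ v ∈ R, w v := by
    rw [hM, Finset.mul_sum]
    refine Finset.sum_congr rfl fun R _ => ?_
    exact mass_XR D R
  have hRs : D.Rs Z Λ ε = Z.powerset.filter (fun R => Ln D.N R ≤ Λ ∧ Lv D.N R ≤ ε) := rfl
  have hMle : M ≤ u * Real.exp ((p : ℝ) * D.h * L) := by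
    rw [hM1]
    refine mul_le_mul_of_nonneg_left ?_ (by linarith)
    refine le_trans ?_ hPle
    rw [hP, Finset.prod_one_add, hRs]
    exact Finset.sum_le_sum_of_subset_of_nonneg (Finset.filter_subset _ _) fun R _ _ =>
      Finset.prod_nonneg fun v _ => hw0 v
  have hMge : u / 4 * Real.exp ((p : ℝ) * D.h * L) ≤ M := by
    rw [hM1, hRs]
    have h3 : 13 / 16 * P ≤ ∑ R ∈ Z.powerset with Ln D.N R ≤ Λ ∧ Lv D.N R ≤ ε, ∏ v ∈ R, w v := by
      linarith
    have h4 : 1 / 4 * Real.exp ((p : ℝ) * D.h * L) ≤ 13 / 16 * P := by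
      have h5 : Real.exp ((p : ℝ) * D.h * L - 1) =
          Real.exp ((p : ℝ) * D.h * L) * Real.exp (-1) := by
        rw [← Real.exp_add]
        rfl
      have h6 : 4 / 13 ≤ Real.exp (-1) := by
        rw [Real.exp_neg, le_inv_comm₀ (by norm_num) (Real.exp_pos _)]
        have := Real.exp_one_lt_d9
        norm_num
        linarith
      have h7 := Real.exp_pos ((p : ℝ) * D.h * L)
      rw [h5] at hm1
      have h8 : Real.exp ((p : ℝ) * D.h * L) * (4 / 13) ≤
          Real.exp ((p : ℝ) * D.h * L) * Real.exp (-1) := by gcongr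
      linarith
    calc u / 4 * Real.exp ((p : ℝ) * D.h * L) = u * (1 / 4 * Real.exp ((p : ℝ) * D.h * L)) := by
          ring
      _ ≤ u * ∑ R ∈ Z.powerset with Ln D.N R ≤ Λ ∧ Lv D.N R ≤ ε, ∏ v ∈ R, w v := by
          gcongr
          exact h4.trans h3
  have hM0 : 0 ≤ M := by
    refine le_trans ?_ hMge
    positivity
  -- the first exceptional set
  obtain ⟨B, hB⟩ : ∃ B : ℝ, B = ∑ R ∈ D.Rs Z Λ ε, (∏ v ∈ R, (D.h : ℝ) / D.N v) *
      (((XR Ut p R).filter fun x => Bd D Z x).card : ℝ) := ⟨_, rfl⟩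
  have hBle : B ≤ 8 * Real.exp (-(2 / 100 * L)) * M := by
    have h3 : B ≤ ∑ R ∈ Z.powerset, (∏ v ∈ R, (D.h : ℝ) / D.N v) *
        (((XR Ut p R).filter fun x => Bd D Z x).card : ℝ) := by
      rw [hB, hRs]
      exact Finset.sum_le_sum_of_subset_of_nonneg (Finset.filter_subset _ _) fun R _ _ =>
        mul_nonneg (hm R) (Nat.cast_nonneg _)
    have h4 := h3.trans (bad_le D hL0.le)
    have h5 : Real.exp ((p : ℝ) * D.h * L - 2 / 100 * L) =
        Real.exp (-(2 / 100 * L)) * Real.exp ((p : ℝ) * D.h * L) := by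
      rw [← Real.exp_add]
      congr 1
      ring
    rw [← hLdef, h5, ← hu'] at h4
    have h6 := Real.exp_pos (-(2 / 100 * L))
    calc B ≤ 2 * u * (Real.exp (-(2 / 100 * L)) * Real.exp ((p : ℝ) * D.h * L)) := h4
      _ = 8 * Real.exp (-(2 / 100 * L)) * (u / 4 * Real.exp ((p : ℝ) * D.h * L)) := by ring
      _ ≤ _ := by gcongr
  have hB0 : 0 ≤ B := by
    rw [hB]
    exact Finset.sum_nonneg fun R _ => mul_nonneg (hm R) (Nat.cast_nonneg _)
  have hB1 : B ≤ M / 2 := by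
    have : 8 * Real.exp (-(2 / 100 * L)) * M ≤ 1 / 2 * M := by gcongr
    linarith
  have hB2 : D.V * L * B ≤ M := by
    calc D.V * L * B ≤ D.V * L * (8 * Real.exp (-(2 / 100 * L)) * M) := by gcongr
      _ = D.V * L * (8 * Real.exp (-(2 / 100 * L))) * M := by ring
      _ ≤ 1 * M := by gcongr
      _ = M := one_mul M
  -- the pairs
  set I : Finset (Finset Pt × (Ut × (Pt →₀ ZMod p))) :=
    ((D.Rs Z Λ ε) ×ˢ (XR Ut p Z)).filter fun y => y.2 ∈ XR Ut p y.1 ∧ ¬ Bd D Z y.2 with hI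
  have hIsum : ∀ G : Finset Pt → Ut × (Pt →₀ ZMod p) → ℝ, ∑ y ∈ I, G y.1 y.2 =
      ∑ R ∈ D.Rs Z Λ ε, ∑ x ∈ (XR Ut p R).filter (fun x => ¬ Bd D Z x), G R x := by
    intro G
    rw [hI, Finset.sum_filter, Finset.sum_product]
    refine Finset.sum_congr rfl fun R hR => ?_
    rw [← Finset.sum_filter]
    refine Finset.sum_congr ?_ fun _ _ => rfl
    ext x
    rw [Finset.mem_filter, Finset.mem_filter]
    constructor
    · rintro ⟨_, h⟩
      exact h
    · intro h
      refine ⟨?_, h⟩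
      rw [mem_XR]
      have h3 := h.1
      rw [mem_XR] at h3
      refine h3.trans ?_
      rw [hRs, Finset.mem_filter, Finset.mem_powerset] at hR
      exact hR.1
  have hcardsplit : ∀ R : Finset Pt,
      (((XR Ut p R).filter fun x => ¬ Bd D Z x).card : ℝ) =
        ((XR Ut p R).card : ℝ) - (((XR Ut p R).filter fun x => Bd D Z x).card : ℝ) := by
    intro R
    have := Finset.card_filter_add_card_filter_not (s := XR Ut p R) (fun x => Bd D Z x)
    have h3 : (((XR Ut p R).filter fun x => Bd D Z x).card : ℝ) +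
        (((XR Ut p R).filter fun x => ¬ Bd D Z x).card : ℝ) = ((XR Ut p R).card : ℝ) := by
      exact_mod_cast this
    linarith
  have hIm : ∑ y ∈ I, ∏ v ∈ y.1, (D.h : ℝ) / D.N v = M - B := by
    rw [hIsum fun R _ => ∏ v ∈ R, (D.h : ℝ) / D.N v, hM, hB, ← Finset.sum_sub_distrib]
    refine Finset.sum_congr rfl fun R _ => ?_
    rw [Finset.sum_const, nsmul_eq_mul, hcardsplit]
    ring
  have hIF : (D.fb * (L - ε) - 1) * (M - B) ≤
      ∑ y ∈ I, (∏ v ∈ y.1, (D.h : ℝ) / D.N v) * D.F Z y.2 := by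
    rw [hIsum fun R x => (∏ v ∈ R, (D.h : ℝ) / D.N v) * D.F Z x]
    have h3 : ∀ R ∈ D.Rs Z Λ ε, D.fb * (L - ε) * ((∏ v ∈ R, (D.h : ℝ) / D.N v) *
          ((XR Ut p R).card : ℝ)) - D.V * L * ((∏ v ∈ R, (D.h : ℝ) / D.N v) *
          (((XR Ut p R).filter fun x => Bd D Z x).card : ℝ)) ≤
        ∑ x ∈ (XR Ut p R).filter (fun x => ¬ Bd D Z x),
          (∏ v ∈ R, (D.h : ℝ) / D.N v) * D.F Z x := by
      intro R hR
      rw [hRs, Finset.mem_filter, Finset.mem_powerset] at hR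
      have h4 := ana4 D Z R hR.1
      have h5 : ∑ x ∈ (XR Ut p R).filter (fun x => ¬ Bd D Z x), D.F Z x =
          ∑ x ∈ XR Ut p R, D.F Z x - ∑ x ∈ (XR Ut p R).filter (fun x => Bd D Z x), D.F Z x := by
        have := Finset.sum_filter_add_sum_filter_not (XR Ut p R) (fun x => Bd D Z x)
          (fun x => D.F Z x)
        linarith
      have h6 : ∑ x ∈ (XR Ut p R).filter (fun x => Bd D Z x), D.F Z x ≤
          (((XR Ut p R).filter fun x => Bd D Z x).card : ℝ) * (D.V * L) := by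
        rw [← nsmul_eq_mul]
        exact Finset.sum_le_card_nsmul _ _ _ fun x _ => F_le D Z x
      have h7 : D.fb * (L - ε) ≤ D.fb * (L - Lv D.N R) := by
        have := hR.2.2
        gcongr
      have h8 : ((XR Ut p R).card : ℝ) * (D.fb * (L - ε)) ≤
          ((XR Ut p R).card : ℝ) * (D.fb * (L - Lv D.N R)) := by gcongr
      rw [← Finset.mul_sum, h5]
      have h9 : ((XR Ut p R).card : ℝ) * (D.fb * (L - ε)) -
          (((XR Ut p R).filter fun x => Bd D Z x).card : ℝ) * (D.V * L) ≤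
          ∑ x ∈ XR Ut p R, D.F Z x - ∑ x ∈ (XR Ut p R).filter (fun x => Bd D Z x), D.F Z x := by
        linarith
      have h10 := mul_le_mul_of_nonneg_left h9 (hm R)
      linarith
    have h4 := Finset.sum_le_sum h3
    rw [Finset.sum_sub_distrib, ← Finset.mul_sum, ← Finset.mul_sum, ← hM, ← hB] at h4
    have h5 : 1 ≤ D.fb * (L - ε) := by nlinarith
    refine le_trans ?_ h4
    have h6 : (D.fb * (L - ε) - 1) * (M - B) ≤ (D.fb * (L - ε) - 1) * M := by
      have : 0 ≤ D.fb * (L - ε) - 1 := by linarith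
      gcongr
      linarith
    linarith
  have hJ := jensen I (fun y => ∏ v ∈ y.1, (D.h : ℝ) / D.N v) (fun y => D.F Z y.2)
    (fun y _ => hm y.1) (D.fb * (L - ε) - 1) (by rw [hIm]; exact hIF)
  rw [hIm, hIsum fun R x => (∏ v ∈ R, (D.h : ℝ) / D.N v) * Real.exp (D.F Z x)] at hJ
  -- the second exceptional set
  have hsec : ∑ R ∈ D.Rs Z Λ ε, (∏ v ∈ R, (D.h : ℝ) / D.N v) *
      ∑ x ∈ (XR Ut p R).filter (fun x => Bd2 D Z x), Real.exp (D.F Z x) ≤
      u / 16 * Real.exp (-(D.fb * ε) - 1) * Real.exp (((p : ℝ) * D.h + D.fb) * L) := by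
    by_cases hfl : D.flag
    · have h3 : ∀ R : Finset Pt, ((XR Ut p R).filter fun x => Bd2 D Z x) = ∅ := by
        intro R
        rw [Finset.filter_eq_empty_iff]
        rintro x _ ⟨h, _⟩
        exact h hfl
      have h4 : ∑ R ∈ D.Rs Z Λ ε, (∏ v ∈ R, (D.h : ℝ) / D.N v) *
          ∑ x ∈ (XR Ut p R).filter (fun x => Bd2 D Z x), Real.exp (D.F Z x) = 0 := by
        refine Finset.sum_eq_zero fun R _ => ?_
        rw [h3 R, Finset.sum_empty, mul_zero]
      rw [h4]
      positivity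
    · have hqV : (0 : ℝ) < (D.V : ℝ) - D.q := by
        have := (D.hflag.resolve_left hfl).2
        have : (D.q : ℝ) < D.V := by exact_mod_cast this
        linarith
      have hδp : 0 < δ := by positivity
      have hδL : D.fb * ε + 4 ≤ δ * L := by
        have : (D.fb * ε + 4) / δ ≤ L := by linarith
        rw [div_le_iff₀ hδp] at this
        linarith
      calc ∑ R ∈ D.Rs Z Λ ε, (∏ v ∈ R, (D.h : ℝ) / D.N v) *
            ∑ x ∈ (XR Ut p R).filter (fun x => Bd2 D Z x), Real.exp (D.F Z x)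
          ≤ ∑ R ∈ D.Rs Z Λ ε, (∏ v ∈ R, (D.h : ℝ) / D.N v) *
            (((XR Ut p R).card : ℝ) * Real.exp ((D.fb - δ) * L)) := by
            refine Finset.sum_le_sum fun R _ => ?_
            refine mul_le_mul_of_nonneg_left ?_ (hm R)
            calc ∑ x ∈ (XR Ut p R).filter (fun x => Bd2 D Z x), Real.exp (D.F Z x)
                ≤ (((XR Ut p R).filter fun x => Bd2 D Z x).card : ℝ) *
                    Real.exp ((D.fb - δ) * L) := by
                  rw [← nsmul_eq_mul]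
                  refine Finset.sum_le_card_nsmul _ _ _ fun x hx => ?_
                  rw [Real.exp_le_exp]
                  exact F_bad D Z x (Finset.mem_filter.mp hx).2
              _ ≤ _ := by
                  have : (((XR Ut p R).filter fun x => Bd2 D Z x).card : ℝ) ≤
                      ((XR Ut p R).card : ℝ) := by
                    exact_mod_cast Finset.card_filter_le _ _
                  gcongr
        _ = M * Real.exp ((D.fb - δ) * L) := by
            rw [hM, Finset.sum_mul]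
            refine Finset.sum_congr rfl fun R _ => ?_
            ring
        _ ≤ u * Real.exp ((p : ℝ) * D.h * L) * Real.exp ((D.fb - δ) * L) := by gcongr
        _ = u * Real.exp (-(δ * L)) * Real.exp (((p : ℝ) * D.h + D.fb) * L) := by
            have : Real.exp ((p : ℝ) * D.h * L) * Real.exp ((D.fb - δ) * L) =
                Real.exp (-(δ * L)) * Real.exp (((p : ℝ) * D.h + D.fb) * L) := by
              rw [← Real.exp_add, ← Real.exp_add]
              congr 1
              ring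
            rw [mul_assoc, this]
            ring
        _ ≤ _ := by
            have h3 : Real.exp (-(δ * L)) ≤ 1 / 16 * Real.exp (-(D.fb * ε) - 1) := by
              have h4 : Real.exp (-(δ * L)) ≤ Real.exp (-3) * Real.exp (-(D.fb * ε) - 1) := by
                rw [← Real.exp_add, Real.exp_le_exp]
                linarith
              have h5 : Real.exp (-3) ≤ 1 / 16 := by
                rw [Real.exp_neg, inv_le_comm₀ (Real.exp_pos _) (by norm_num)]
                have := Real.sum_le_exp_of_nonneg (x := 3) (by norm_num) 5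
                refine le_trans ?_ this
                simp only [Finset.sum_range_succ, Finset.sum_range_zero, Nat.factorial]
                norm_num
              refine h4.trans ?_
              gcongr
            calc u * Real.exp (-(δ * L)) * Real.exp (((p : ℝ) * D.h + D.fb) * L)
                ≤ u * (1 / 16 * Real.exp (-(D.fb * ε) - 1)) *
                  Real.exp (((p : ℝ) * D.h + D.fb) * L) := by gcongr
              _ = _ := by ring
  -- conclusion
  have hsplit : ∑ R ∈ D.Rs Z Λ ε, ∑ x ∈ (XR Ut p R).filter (fun x => ¬ Bd D Z x),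
        (∏ v ∈ R, (D.h : ℝ) / D.N v) * Real.exp (D.F Z x) ≤
      ∑ R ∈ D.Rs Z Λ ε, (∏ v ∈ R, (D.h : ℝ) / D.N v) *
        ∑ x ∈ (XR Ut p R).filter (fun x => D.gx Z x), Real.exp (D.F Z x) +
      ∑ R ∈ D.Rs Z Λ ε, (∏ v ∈ R, (D.h : ℝ) / D.N v) *
        ∑ x ∈ (XR Ut p R).filter (fun x => Bd2 D Z x), Real.exp (D.F Z x) := by
    rw [← Finset.sum_add_distrib]
    refine Finset.sum_le_sum fun R _ => ?_
    rw [← mul_add, ← Finset.mul_sum]
    refine mul_le_mul_of_nonneg_left ?_ (hm R)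
    rw [Finset.sum_filter, Finset.sum_filter, Finset.sum_filter, ← Finset.sum_add_distrib]
    refine Finset.sum_le_sum fun x _ => ?_
    have hg := gx_iff D Z x
    have he := (Real.exp_pos (D.F Z x)).le
    by_cases ha : Bd D Z x
    · simp only [ha, not_true, if_false]
      split_ifs <;> linarith
    · by_cases hb : Bd2 D Z x
      · simp only [ha, hb, not_false_eq_true, if_true]
        split_ifs <;> linarith
      · have hc : D.gx Z x := hg.mpr ⟨ha, hb⟩
        simp only [ha, hb, hc, not_false_eq_true, if_true, if_false]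
        linarith
  have hmain : 2 * (u / 16 * Real.exp (-(D.fb * ε) - 1) *
      Real.exp (((p : ℝ) * D.h + D.fb) * L)) ≤ (M - B) * Real.exp (D.fb * (L - ε) - 1) := by
    have h3 : u / 8 * Real.exp ((p : ℝ) * D.h * L) ≤ M - B := by linarith
    calc 2 * (u / 16 * Real.exp (-(D.fb * ε) - 1) * Real.exp (((p : ℝ) * D.h + D.fb) * L))
        = u / 8 * Real.exp ((p : ℝ) * D.h * L) * Real.exp (D.fb * (L - ε) - 1) := by
          have : Real.exp (-(D.fb * ε) - 1) * Real.exp (((p : ℝ) * D.h + D.fb) * L) =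
              Real.exp ((p : ℝ) * D.h * L) * Real.exp (D.fb * (L - ε) - 1) := by
            rw [← Real.exp_add, ← Real.exp_add]
            congr 1
            ring
          rw [mul_assoc (u / 16), this]
          ring
      _ ≤ _ := by gcongr
  linarith

end H38.TD
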