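import Pool.Agent.H38.TD.AnaDefs
import Pool.Agent.H38.TD.Markov
import Pool.Agent.H38.TD.AnaMass

/-!
# [H38 TD ANA7] The inner sum over `R` (90-160 lines)

`x` good, `Z' = Z ∖ supp x`, `w v = f x v / N v ≤ V / N v`, `κ = p h + V`.
(1) `Π = ∑_{R ⊆ Z'} ∏_{v∈R} w v = ∏_{Z'} (1 + w)`, `exp (F Z x - 1) ≤ Π ≤ exp (F Z x)`
(`exp_le_prod`, `∑ w² ≤ V² ∑ 1/N² ≤ 1`).
(2) by `markov` on `Z'`: the `R` with `Ln R > Λ` contribute at most `(V ∑ log N / N)/Λ · Π ≤ Π/8`
(if `Λ > 0`; if `Λ ≤ 0` then `Z'` is empty or...: `8 κ ∑_{Z} log N/N ≤ Λ` and `N ≥ 2` show `Λ > 0`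
unless `Z = ∅`, and `Z ≠ ∅` for `L₀ > 0`), those with `Lv R > ε` at most `Π/16`.
(3) if `¬ flag`: the `R` with `#spl x R < ω(x)` satisfy `#spl x R ≤ t := 13/10 (p-1) h L`, and
`∑_{R ⊆ Z', #spl ≤ t} ∏ w ≤ (3/2)^t ∑_{R ⊆ Z'} ∏_{v∈R} w v (2/3)^{[v split]}
= (3/2)^t ∏_{Z'} (1 + w v (2/3)^{[split]}) ≤ (3/2)^t exp (F - (1/3) V Xs)` with `Xs ≥ (9/10/p) L`:
the exponent is `≤ F + (13/10 (p-1) h log(3/2) - (3/10) V/p) L`, where
`(3/10) V/p ≥ 0.6 (p-1) h` (`hflag`) and `13/10 log (3/2) < 0.6` (`log (3/2) < 0.46`), so it is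
`≤ F - δ L` with `δ > 0`, hence `≤ Π/8` for `L ≥ L₀`.
(4) the remaining `R ⊆ Z'` are in the set of the statement: the sum is `≥ Π/2 ≥ c exp F`.
The sets in the statement are the `R ∈ Rs Z Λ ε` disjoint from `supp x` (so `R ⊆ Z'`) with
`flag ∨ ω(x) ≤ #spl`.
-/

noncomputable section

namespace H38.TD

open Classical in
theorem ana7 {Pt Ut Ht : Type} [Fintype Ut] {p : ℕ} [NeZero p] (D : AD Pt Ut Ht p) (ε : ℝ)
    (hε : 0 < ε) :
    ∃ c : ℝ, 0 < c ∧ ∃ L₀ : ℝ, ∀ (Z : Finset Pt) (Λ : ℝ),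
      8 * ((p : ℝ) * D.h + D.V) * ∑ v ∈ Z, Real.log (D.N v) / D.N v ≤ Λ →
      16 * ((p : ℝ) * D.h + D.V) ^ 2 * ∑ v ∈ Z, 1 / (D.N v : ℝ) ^ 2 ≤ min ε 1 →
      L₀ ≤ Lv D.N Z →
      ∀ x ∈ XR Ut p Z, D.gx Z x →
      c * Real.exp (D.F Z x) ≤
        ∑ R ∈ (D.Rs Z Λ ε).filter (fun R => Disjoint x.2.support R ∧
          (D.flag ∨ x.2.support.card ≤ (spl D.Spl x R).card)), ∏ v ∈ R, D.f x v / D.N v := by
  refine ⟨Real.exp (-1) / 2, by positivity, 100, ?_⟩
  intro Z Λ h1 h2 hL x hx hgx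
  have hL0 : 0 < Lv D.N Z := by linarith
  set L : ℝ := Lv D.N Z with hLdef
  set Z' : Finset Pt := Z \ x.2.support with hZ'
  have hZZ : Z' ⊆ Z := Finset.sdiff_subset
  set w : Pt → ℝ := fun v => D.f x v / D.N v with hw
  have hw0 : ∀ v, 0 ≤ w v := fun v => div_nonneg (f_nonneg D x v) (N_pos D v).le
  have hwle : ∀ v, w v ≤ ((p : ℝ) * D.h + D.V) / D.N v := by
    intro v
    have h3 := f_le D x v
    have h4 : (0 : ℝ) ≤ (p : ℝ) * D.h := by positivity
    have h5 := N_pos D v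
    show D.f x v / D.N v ≤ _
    gcongr
    linarith
  obtain ⟨hm1, hm2⟩ := mass D hε hZZ hL0 h1 h2 w hw0 hwle
  have hF : ∑ v ∈ Z', w v = D.F Z x := rfl
  rw [hF] at hm1
  set P : ℝ := ∏ v ∈ Z', (1 + w v) with hP
  have hnn : ∀ R : Finset Pt, 0 ≤ ∏ v ∈ R, w v := fun R => Finset.prod_nonneg fun v _ => hw0 v
  -- the third set
  have hC : ∑ R ∈ Z'.powerset.filter (fun R => ¬ (D.flag ∨
      x.2.support.card ≤ (spl D.Spl x R).card)), ∏ v ∈ R, w v ≤ 1 / 8 * P := by
    by_cases hfl : D.flag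
    · have : Z'.powerset.filter (fun R => ¬ (D.flag ∨
          x.2.support.card ≤ (spl D.Spl x R).card)) = ∅ := by
        rw [Finset.filter_eq_empty_iff]
        intro R _
        simp [hfl]
      rw [this, Finset.sum_empty]
      have : 0 ≤ P := Finset.prod_nonneg fun v _ => by linarith [hw0 v]
      linarith
    obtain ⟨hV1, hV2⟩ := D.hflag.resolve_left hfl
    obtain ⟨hx1, hx2⟩ := hgx.2.resolve_left hfl
    set t : ℝ := 13 / 10 * ((p : ℝ) - 1) * D.h * L with ht
    -- weights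
    set g : Pt → ℝ := fun v => if D.Spl x v then 2 / 3 else 1 with hg
    have hg0 : ∀ v, 0 ≤ g v := by
      intro v
      simp only [hg]
      split_ifs <;> norm_num
    have hprod : ∀ R : Finset Pt, ∏ v ∈ R, g v = (2 / 3 : ℝ) ^ (spl D.Spl x R).card := by
      intro R
      simp only [hg]
      rw [Finset.prod_ite, Finset.prod_const, Finset.prod_const_one, mul_one]
      rfl
    have hstep : ∑ R ∈ Z'.powerset.filter (fun R => ¬ (D.flag ∨
        x.2.support.card ≤ (spl D.Spl x R).card)), ∏ v ∈ R, w v ≤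
        Real.exp (t * Real.log (3 / 2)) * ∏ v ∈ Z', (1 + w v * g v) := by
      rw [Finset.prod_one_add, Finset.mul_sum, Finset.sum_filter]
      refine Finset.sum_le_sum fun R _ => ?_
      have e1 : ∏ v ∈ R, w v * g v = (∏ v ∈ R, w v) * (2 / 3 : ℝ) ^ (spl D.Spl x R).card := by
        rw [Finset.prod_mul_distrib, hprod]
      by_cases hcond : ¬ (D.flag ∨ x.2.support.card ≤ (spl D.Spl x R).card)
      · rw [if_pos hcond]
        rw [not_or, not_le] at hcond
        rw [e1]
        have h3 : ((spl D.Spl x R).card : ℝ) ≤ t := by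
          have : ((spl D.Spl x R).card : ℝ) < x.2.support.card := by exact_mod_cast hcond.2
          linarith
        have h4 : (2 / 3 : ℝ) ^ (spl D.Spl x R).card =
            Real.exp (-((spl D.Spl x R).card * Real.log (3 / 2))) := by
          rw [Real.exp_neg, mul_comm, Real.exp_mul, Real.exp_log (by norm_num),
            Real.rpow_natCast, ← inv_pow]
          norm_num
        have h5 : 1 ≤ Real.exp (t * Real.log (3 / 2)) * (2 / 3 : ℝ) ^ (spl D.Spl x R).card := by
          rw [h4, ← Real.exp_add, Real.one_le_exp_iff]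
          have h6 : 0 ≤ Real.log (3 / 2) := Real.log_nonneg (by norm_num)
          have := mul_le_mul_of_nonneg_right h3 h6
          linarith
        calc ∏ v ∈ R, w v = 1 * ∏ v ∈ R, w v := (one_mul _).symm
          _ ≤ (Real.exp (t * Real.log (3 / 2)) * (2 / 3 : ℝ) ^ (spl D.Spl x R).card) *
              ∏ v ∈ R, w v := by
            have := hnn R
            gcongr
          _ = _ := by ring
      · rw [if_neg hcond]
        have := hnn R
        rw [e1]
        positivity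
    have hexp : ∏ v ∈ Z', (1 + w v * g v) ≤
        Real.exp (D.F Z x - 1 / 3 * D.V * D.Xs Z x) := by
      refine (prod_le_exp Z' (fun v => w v * g v) fun v _ => mul_nonneg (hw0 v) (hg0 v)).trans ?_
      rw [Real.exp_le_exp]
      have e2 : D.Xs Z x = ∑ v ∈ Z', if D.Spl x v then 1 / (D.N v : ℝ) else 0 := by
        unfold AD.Xs Lv spl
        rw [Finset.sum_filter]
      rw [e2, ← hF, Finset.mul_sum, ← Finset.sum_sub_distrib]
      refine Finset.sum_le_sum fun v _ => ?_
      simp only [hw, hg, AD.f]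
      split_ifs
      · refine le_of_eq ?_
        ring
      · simp
    have hp1 : (1 : ℝ) ≤ (p : ℝ) - 1 := by
      have : (2 : ℝ) ≤ p := by exact_mod_cast D.hp
      linarith
    have hh1 : (1 : ℝ) ≤ D.h := by exact_mod_cast D.hh
    have hV3 : 2 * ((p : ℝ) - 1) * D.h * p ≤ D.V := by
      have h3 : ((2 * (p - 1) * D.h * p : ℕ) : ℝ) ≤ D.V := by exact_mod_cast hV1
      push_cast [Nat.cast_sub (by have := D.hp; omega : 1 ≤ p)] at h3
      exact h3
    have hp0 : (0 : ℝ) < p := by linarith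
    have hXs : 6 / 10 * ((p : ℝ) - 1) * D.h * L ≤ 1 / 3 * D.V * D.Xs Z x := by
      calc 6 / 10 * ((p : ℝ) - 1) * D.h * L =
          1 / 3 * (2 * ((p : ℝ) - 1) * D.h * p) * (9 / 10 / p * L) := by
            field_simp
            ring
        _ ≤ 1 / 3 * D.V * D.Xs Z x := by gcongr
    have hlog := log_three_half_le
    have hlog0 : 0 ≤ Real.log (3 / 2) := Real.log_nonneg (by norm_num)
    have hfin : t * Real.log (3 / 2) + (D.F Z x - 1 / 3 * D.V * D.Xs Z x) ≤
        D.F Z x - 6 := by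
      have h3 : t * Real.log (3 / 2) ≤ t * (41 / 100) := by
        have : 0 ≤ t := by
          rw [ht]
          positivity
        gcongr
      have h4 : t * (41 / 100) = (533 / 1000) * (((p : ℝ) - 1) * D.h * L) := by
        rw [ht]
        ring
      have h5 : (1 : ℝ) * 1 * 100 ≤ ((p : ℝ) - 1) * D.h * L := by gcongr
      have h6 : 6 / 10 * ((p : ℝ) - 1) * D.h * L = 6 / 10 * (((p : ℝ) - 1) * D.h * L) := by ring
      rw [h6] at hXs
      linarith
    calc _ ≤ Real.exp (t * Real.log (3 / 2)) * ∏ v ∈ Z', (1 + w v * g v) := hstep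
      _ ≤ Real.exp (t * Real.log (3 / 2)) *
          Real.exp (D.F Z x - 1 / 3 * D.V * D.Xs Z x) := by gcongr
      _ = Real.exp (t * Real.log (3 / 2) + (D.F Z x - 1 / 3 * D.V * D.Xs Z x)) := by
          rw [Real.exp_add]
      _ ≤ Real.exp (D.F Z x - 6) := Real.exp_le_exp.mpr hfin
      _ = Real.exp (-5) * Real.exp (D.F Z x - 1) := by
          rw [← Real.exp_add]
          congr 1
          ring
      _ ≤ 1 / 8 * P := by
          have h3 : Real.exp (-5) ≤ 1 / 8 := by
            rw [Real.exp_neg, inv_le_comm₀ (Real.exp_pos _) (by norm_num)]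
            have := Real.sum_le_exp_of_nonneg (x := 5) (by norm_num) 3
            refine le_trans ?_ this
            simp only [Finset.sum_range_succ, Finset.sum_range_zero, Nat.factorial]
            norm_num
          gcongr
  -- the remaining sets
  have hT : ∑ R ∈ Z'.powerset with Ln D.N R ≤ Λ ∧ Lv D.N R ≤ ε, ∏ v ∈ R, w v ≤
      ∑ R ∈ (D.Rs Z Λ ε).filter (fun R => Disjoint x.2.support R ∧
          (D.flag ∨ x.2.support.card ≤ (spl D.Spl x R).card)), ∏ v ∈ R, w v +
      ∑ R ∈ Z'.powerset.filter (fun R => ¬ (D.flag ∨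
        x.2.support.card ≤ (spl D.Spl x R).card)), ∏ v ∈ R, w v := by
    have hsub : (Z'.powerset.filter fun R => Ln D.N R ≤ Λ ∧ Lv D.N R ≤ ε) ⊆
        ((D.Rs Z Λ ε).filter (fun R => Disjoint x.2.support R ∧
          (D.flag ∨ x.2.support.card ≤ (spl D.Spl x R).card))) ∪
        (Z'.powerset.filter (fun R => ¬ (D.flag ∨
          x.2.support.card ≤ (spl D.Spl x R).card))) := by
      intro R hR
      rw [Finset.mem_filter, Finset.mem_powerset] at hR
      rw [Finset.mem_union]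
      by_cases hc : D.flag ∨ x.2.support.card ≤ (spl D.Spl x R).card
      · left
        rw [Finset.mem_filter, AD.Rs, Finset.mem_filter, Finset.mem_powerset]
        refine ⟨⟨hR.1.trans hZZ, hR.2⟩, ?_, hc⟩
        rw [Finset.disjoint_left]
        intro v hv hvR
        have := hR.1 hvR
        rw [hZ', Finset.mem_sdiff] at this
        exact this.2 hv
      · right
        rw [Finset.mem_filter, Finset.mem_powerset]
        exact ⟨hR.1, hc⟩
    refine (Finset.sum_le_sum_of_subset_of_nonneg hsub fun R _ _ => hnn R).trans ?_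
    rw [← Finset.sum_union_inter]
    have : 0 ≤ ∑ R ∈ ((D.Rs Z Λ ε).filter (fun R => Disjoint x.2.support R ∧
          (D.flag ∨ x.2.support.card ≤ (spl D.Spl x R).card))) ∩
        (Z'.powerset.filter (fun R => ¬ (D.flag ∨
          x.2.support.card ≤ (spl D.Spl x R).card))), ∏ v ∈ R, w v :=
      Finset.sum_nonneg fun R _ => hnn R
    linarith
  have hPe : Real.exp (-1) / 2 * Real.exp (D.F Z x) ≤ 1 / 2 * P := by
    have : Real.exp (-1) * Real.exp (D.F Z x) = Real.exp (D.F Z x - 1) := by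
      rw [← Real.exp_add]
      congr 1
      ring
    linarith
  have hP0 : 0 ≤ P := (Real.exp_pos _).le.trans hm1
  linarith

end H38.TD
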