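import Mathlib

/-!
# Definitions for the counting argument (complete)

`Pt` is the set of places, `N` the norm, `X = Ut × (Pt →₀ ZMod p)` the set of Kummer classes `x`,
`supp x = x.2.support`, `H x R` a finite set of homomorphisms over `x` which are ramified at most at
`supp x` and `R`.  All decidability is classical.
-/

noncomputable section

namespace H38.TD

/-- The elements `x` with support in `R`. -/
def XR {Pt : Type} (Ut : Type) [Fintype Ut] (p : ℕ) [NeZero p] (R : Finset Pt) :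
    Finset (Ut × (Pt →₀ ZMod p)) := by
  classical
  exact Finset.univ ×ˢ R.finsupp fun _ => Finset.univ

theorem mem_XR {Pt Ut : Type} [Fintype Ut] {p : ℕ} [NeZero p] (R : Finset Pt)
    (x : Ut × (Pt →₀ ZMod p)) : x ∈ XR Ut p R ↔ x.2.support ⊆ R := by
  classical
  simp [XR, Finset.mem_finsupp_iff]

theorem card_XR {Pt Ut : Type} [Fintype Ut] {p : ℕ} [NeZero p] (R : Finset Pt) :
    (XR Ut p R).card = Fintype.card Ut * p ^ R.card := by
  classical
  simp [XR, Finset.card_finsupp, ZMod.card]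

/-- The sum of the inverses of the norms. -/
def Lv {Pt : Type} (N : Pt → ℕ) (R : Finset Pt) : ℝ := ∑ v ∈ R, 1 / (N v : ℝ)

/-- The product of the inverses of the norms. -/
def Pv {Pt : Type} (N : Pt → ℕ) (R : Finset Pt) : ℝ := ∏ v ∈ R, 1 / (N v : ℝ)

/-- The sum of the logarithms of the norms. -/
def Ln {Pt : Type} (N : Pt → ℕ) (R : Finset Pt) : ℝ := ∑ v ∈ R, Real.log (N v)

open Classical in
/-- The split places in `R`. -/
def spl {Pt X : Type} (S : X → Pt → Prop) (x : X) (R : Finset Pt) : Finset Pt := R.filter (S x)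

open Classical in
/-- The abstract data for the counting argument. -/
structure AD (Pt Ut Ht : Type) [Fintype Ut] (p : ℕ) [NeZero p] where
  /-- the norm -/
  N : Pt → ℕ
  /-- the unit element of `Ut` -/
  o : Ut
  /-- splitting -/
  Spl : Ut × (Pt →₀ ZMod p) → Pt → Prop
  /-- the weight of the places in `supp x` -/
  h : ℕ
  /-- the weight of the nonsplit places in `R` -/
  q : ℕ
  /-- the weight of the split places in `R` -/
  V : ℕ
  /-- no condition on the number of split places is needed -/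
  flag : Prop
  /-- the homomorphisms -/
  H : Ut × (Pt →₀ ZMod p) → Finset Pt → Finset Ht
  /-- the `x` of a homomorphism -/
  xi : Ht → Ut × (Pt →₀ ZMod p)
  /-- the places outside `supp x` where the homomorphism is ramified -/
  r : Ht → Finset Pt
  hN : ∀ v, 2 ≤ N v
  hp : 2 ≤ p
  hh : 1 ≤ h
  hq : 1 ≤ q
  hqV : q ≤ V
  hflag : flag ∨ (2 * (p - 1) * h * p ≤ V ∧ q < V)
  P2 : ∀ (R : Finset Pt) (v : Pt), v ∉ R → Fintype.card Ut * p ^ R.card ≤
    p * ((XR Ut p R).filter fun x => Spl x v).card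
  cnt : ∀ (x : Ut × (Pt →₀ ZMod p)) (R : Finset Pt), x ≠ (o, 0) → Disjoint x.2.support R →
    (flag ∨ x.2.support.card ≤ (spl Spl x R).card) →
    h ^ x.2.support.card * (V ^ (spl Spl x R).card * q ^ (R.card - (spl Spl x R).card)) ≤
      (H x R).card
  hH : ∀ (x : Ut × (Pt →₀ ZMod p)) (R : Finset Pt), ∀ ρ ∈ H x R, xi ρ = x ∧ r ρ ⊆ R

namespace AD

variable {Pt Ut Ht : Type} [Fintype Ut] {p : ℕ} [NeZero p] (D : AD Pt Ut Ht p)

open Classical in
/-- The weight of a place in `R`. -/
def f (x : Ut × (Pt →₀ ZMod p)) (v : Pt) : ℝ := if D.Spl x v then D.V else D.q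

open Classical in
/-- The sum of the weights `f x v / N v` over the places in `Z` outside the support of `x`. -/
def F (Z : Finset Pt) (x : Ut × (Pt →₀ ZMod p)) : ℝ :=
  ∑ v ∈ Z \ x.2.support, D.f x v / D.N v

open Classical in
/-- The sum of `1 / N v` over the split places in `Z` outside the support of `x`. -/
def Xs (Z : Finset Pt) (x : Ut × (Pt →₀ ZMod p)) : ℝ :=
  Lv D.N (spl D.Spl x (Z \ x.2.support))

/-- The mean weight `q + (V - q)/p`. -/
def fb : ℝ := D.q + ((D.V : ℝ) - D.q) / p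

/-- The good `x`. -/
def gx (Z : Finset Pt) (x : Ut × (Pt →₀ ZMod p)) : Prop :=
  x ≠ (D.o, 0) ∧ (D.flag ∨ ((x.2.support.card : ℝ) ≤ 13 / 10 * ((p : ℝ) - 1) * D.h * Lv D.N Z ∧
    9 / 10 / p * Lv D.N Z ≤ D.Xs Z x))

open Classical in
/-- The sets `R ⊆ Z` of bounded size. -/
def Rs (Z : Finset Pt) (Λ ε : ℝ) : Finset (Finset Pt) :=
  Z.powerset.filter fun R => Ln D.N R ≤ Λ ∧ Lv D.N R ≤ ε

open Classical in
/-- The pairs `(x, R)` which are used. -/
def Prs (Z : Finset Pt) (Λ ε : ℝ) : Finset ((Ut × (Pt →₀ ZMod p)) × Finset Pt) :=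
  ((XR Ut p Z) ×ˢ (D.Rs Z Λ ε)).filter fun y => D.gx Z y.1 ∧ y.1.2.support ∈ D.Rs Z Λ ε ∧
    Disjoint y.1.2.support y.2 ∧
    (D.flag ∨ y.1.2.support.card ≤ (spl D.Spl y.1 y.2).card)

open Classical in
/-- The homomorphisms which are used. -/
def Fs (Z : Finset Pt) (Λ ε : ℝ) : Finset Ht := (D.Prs Z Λ ε).biUnion fun y => D.H y.1 y.2

open Classical in
/-- The set of places of a homomorphism. -/
def Tr (ρ : Ht) : Finset Pt := (D.xi ρ).2.support ∪ D.r ρ

end AD

end H38.TD
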