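import Pool.Agent.H38.TD.Ana1
import Pool.Agent.H38.TD.Ana6
import Pool.Agent.H38.TD.Ana7
import Pool.Agent.H38.TD.Ana10

/-!
# [H38 TD ANAM] The counting theorem (assembly, 50-100 lines)

Apply `ana1` to `G x = exp (F Z x)` if `gx Z x` and `supp x ∈ Rs Z Λ ε`, `G x = 0` otherwise.
For `R ∈ Rs` and `x ∈ XR R` the support of `x` is in `Rs` (a subset of `R`), so by `ana6` the left side
is `≥ c₁ exp ((p h + fb) L)`.  The right side is
`exp (h L) ∑_{x good, supp x ∈ Rs} exp (F Z x) ∏_{supp x} h/N`, and by `ana7`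
`exp (F Z x) ≤ c₂⁻¹ ∑_R ∏_{R} f/N` over the `R` such that `(x, R) ∈ Prs`.  So the sum over `Prs` in
`ana9` is `≥ c₁ c₂ exp ((p h + fb - h) L)`, and `ana9`, `ana10` give the claim:
`p h + fb - h - 1 = (p-1) h + fb - 1`.
-/

noncomputable section

namespace H38.TD

theorem anam_Rs_sub {Pt Ut Ht : Type} [Fintype Ut] {p : ℕ} [NeZero p] (D : AD Pt Ut Ht p)
    (Z : Finset Pt) (Λ ε : ℝ) {R T : Finset Pt} (hR : R ∈ D.Rs Z Λ ε) (hT : T ⊆ R) :
    T ∈ D.Rs Z Λ ε := by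
  classical
  unfold AD.Rs at hR ⊢
  rw [Finset.mem_filter, Finset.mem_powerset] at hR ⊢
  obtain ⟨h1, h2, h3⟩ := hR
  refine ⟨hT.trans h1, le_trans ?_ h2, le_trans ?_ h3⟩
  · refine Finset.sum_le_sum_of_subset_of_nonneg hT fun v _ _ => ?_
    refine Real.log_nonneg ?_
    have := D.hN v
    exact_mod_cast le_trans one_le_two this
  · refine Finset.sum_le_sum_of_subset_of_nonneg hT fun v _ _ => ?_
    positivity

open Classical in
/-- The function to which `ana1` is applied. -/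
def anamG {Pt Ut Ht : Type} [Fintype Ut] {p : ℕ} [NeZero p] (D : AD Pt Ut Ht p)
    (Z : Finset Pt) (Λ ε : ℝ) (x : Ut × (Pt →₀ ZMod p)) : ℝ :=
  if D.gx Z x ∧ x.2.support ∈ D.Rs Z Λ ε then Real.exp (D.F Z x) else 0

theorem anamG_nonneg {Pt Ut Ht : Type} [Fintype Ut] {p : ℕ} [NeZero p] (D : AD Pt Ut Ht p)
    (Z : Finset Pt) (Λ ε : ℝ) (x : Ut × (Pt →₀ ZMod p)) : 0 ≤ anamG D Z Λ ε x := by
  unfold anamG
  split_ifs
  · exact (Real.exp_pos _).le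
  · exact le_refl _

theorem anam_mass_nonneg {Pt Ut Ht : Type} [Fintype Ut] {p : ℕ} [NeZero p] (D : AD Pt Ut Ht p)
    (R : Finset Pt) : 0 ≤ ∏ v ∈ R, (D.h : ℝ) / D.N v :=
  Finset.prod_nonneg fun v _ => by positivity

open Classical in
theorem anam_left {Pt Ut Ht : Type} [Fintype Ut] {p : ℕ} [NeZero p] (D : AD Pt Ut Ht p)
    (Z : Finset Pt) (Λ ε : ℝ) :
    ∑ R ∈ D.Rs Z Λ ε, (∏ v ∈ R, (D.h : ℝ) / D.N v) *
          ∑ x ∈ (XR Ut p R).filter (fun x => D.gx Z x), Real.exp (D.F Z x) ≤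
    ∑ R ∈ Z.powerset, (∏ v ∈ R, (D.h : ℝ) / D.N v) * ∑ x ∈ XR Ut p R, anamG D Z Λ ε x := by
  have h1 : D.Rs Z Λ ε ⊆ Z.powerset := by
    unfold AD.Rs
    exact Finset.filter_subset _ _
  refine le_trans (Finset.sum_le_sum fun R hR => ?_)
    (Finset.sum_le_sum_of_subset_of_nonneg h1 fun R _ _ => mul_nonneg (anam_mass_nonneg D R)
      (Finset.sum_nonneg fun x _ => anamG_nonneg D Z Λ ε x))
  refine mul_le_mul_of_nonneg_left (le_of_eq ?_) (anam_mass_nonneg D R)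
  rw [Finset.sum_filter]
  refine Finset.sum_congr rfl fun x hx => ?_
  have h2 := anam_Rs_sub D Z Λ ε hR ((mem_XR R x).1 hx)
  unfold anamG
  by_cases h3 : D.gx Z x
  · rw [if_pos h3, if_pos ⟨h3, h2⟩]
  · rw [if_neg h3, if_neg fun h => h3 h.1]

theorem ana_main {Pt Ut Ht : Type} [Fintype Ut] {p : ℕ} [NeZero p] (D : AD Pt Ut Ht p) (ε : ℝ)
    (hε : 0 < ε) :
    ∃ c : ℝ, 0 < c ∧ ∃ L₀ : ℝ, ∀ (Z : Finset Pt) (Λ : ℝ),
      8 * ((p : ℝ) * D.h + D.V) * ∑ v ∈ Z, Real.log (D.N v) / D.N v ≤ Λ →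
      16 * ((p : ℝ) * D.h + D.V) ^ 2 * ∑ v ∈ Z, 1 / (D.N v : ℝ) ^ 2 ≤ min ε 1 →
      L₀ ≤ Lv D.N Z →
      c * Real.exp ((((p : ℝ) - 1) * D.h + D.fb - 1) * Lv D.N Z) ≤
        ∑ ρ ∈ D.Fs Z Λ ε, Pv D.N (D.Tr ρ) := by
  classical
  obtain ⟨c1, hc1, L1, h6⟩ := ana6 D ε hε
  obtain ⟨c2, hc2, L2, h7⟩ := ana7 D ε hε
  refine ⟨c1 * c2, mul_pos hc1 hc2, max L1 L2, ?_⟩
  intro Z Λ hA hB hL
  have a6 := h6 Z Λ hA hB (le_trans (le_max_left _ _) hL)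
  have a7 := h7 Z Λ hA hB (le_trans (le_max_right _ _) hL)
  have a1 := ana1 D Z (anamG D Z Λ ε) (anamG_nonneg D Z Λ ε)
  have a9 := ana9 D Z Λ ε
  have a10 := ana10 D Z Λ ε
  have al := anam_left D Z Λ ε
  have key : c2 * ∑ x ∈ XR Ut p Z, anamG D Z Λ ε x * ∏ v ∈ x.2.support, (D.h : ℝ) / D.N v ≤
      ∑ y ∈ D.Prs Z Λ ε, (∏ v ∈ y.1.2.support, (D.h : ℝ) / D.N v) *
        (∏ v ∈ y.2, D.f y.1 v / D.N v) := by
    unfold AD.Prs
    rw [Finset.sum_filter, Finset.sum_product, Finset.mul_sum]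
    refine Finset.sum_le_sum fun x hx => ?_
    by_cases h3 : D.gx Z x ∧ x.2.support ∈ D.Rs Z Λ ε
    · have h4 := a7 x hx h3.1
      have h5 : anamG D Z Λ ε x = Real.exp (D.F Z x) := if_pos h3
      rw [h5, ← mul_assoc]
      refine le_trans (mul_le_mul_of_nonneg_right h4 (anam_mass_nonneg D _)) (le_of_eq ?_)
      rw [mul_comm, Finset.sum_filter, Finset.mul_sum]
      refine Finset.sum_congr rfl fun R _ => ?_
      by_cases h8 : Disjoint x.2.support R ∧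
          (D.flag ∨ x.2.support.card ≤ (spl D.Spl x R).card)
      · rw [if_pos h8, if_pos ⟨h3.1, h3.2, h8.1, h8.2⟩]
      · rw [if_neg h8, if_neg fun h => h8 ⟨h.2.2.1, h.2.2.2⟩, mul_zero]
    · have h5 : anamG D Z Λ ε x = 0 := if_neg h3
      rw [h5, zero_mul, mul_zero]
      refine Finset.sum_nonneg fun R _ => ?_
      rw [if_neg fun h => h3 ⟨h.1, h.2.1⟩]
  have e1 := a6.trans (al.trans a1)
  have e2 := key.trans (a9.trans a10)
  generalize ∑ x ∈ XR Ut p Z, anamG D Z Λ ε x * ∏ v ∈ x.2.support, (D.h : ℝ) / D.N v = A at e1 e2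
  generalize ∑ ρ ∈ D.Fs Z Λ ε, Pv D.N (D.Tr ρ) = B at e2 ⊢
  generalize Lv D.N Z = L at e1 e2 ⊢
  have e3 : c1 * c2 * Real.exp (((p : ℝ) * D.h + D.fb) * L) ≤
      Real.exp (D.h * L) * (Real.exp L * B) := by
    calc c1 * c2 * Real.exp (((p : ℝ) * D.h + D.fb) * L)
        = c2 * (c1 * Real.exp (((p : ℝ) * D.h + D.fb) * L)) := by ring
      _ ≤ c2 * (Real.exp (D.h * L) * A) := mul_le_mul_of_nonneg_left e1 hc2.le
      _ = Real.exp (D.h * L) * (c2 * A) := by ring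
      _ ≤ _ := mul_le_mul_of_nonneg_left e2 (Real.exp_pos _).le
  have e4 : Real.exp (((p : ℝ) * D.h + D.fb) * L) =
      Real.exp (D.h * L) * (Real.exp L * Real.exp ((((p : ℝ) - 1) * D.h + D.fb - 1) * L)) := by
    rw [← Real.exp_add, ← Real.exp_add]
    congr 1
    ring
  rw [e4] at e3
  have e5 : Real.exp (D.h * L) * (Real.exp L *
      (c1 * c2 * Real.exp ((((p : ℝ) - 1) * D.h + D.fb - 1) * L))) ≤
      Real.exp (D.h * L) * (Real.exp L * B) := by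
    refine le_trans (le_of_eq ?_) e3
    ring
  exact le_of_mul_le_mul_left (le_of_mul_le_mul_left e5 (Real.exp_pos _)) (Real.exp_pos _)

end H38.TD
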