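import Mathlib

/-!
# [H38 TD CNTABS] Pigeonhole in a finite abelian group (30-60 lines, pure algebra)

`T` a finite commutative group, `φ i : T → A` homomorphisms with range in `B i`, `C i` subgroups of
`A`.  The number of `t` with `φ i t ∈ C i` for all `i ∈ s` is at least
`#T / ∏ [B i : B i ∩ C i]`.  Induction on `s`: if `T' ≤ T` is the subgroup of solutions for `s`, then
the solutions for `insert i s` are the kernel of
`T' → B i / (C i ∩ B i)`, of index at most `(C i).relIndex (B i)` (use
`Subgroup.relIndex`, `Subgroup.relIndex_comap`/`index_comap`…).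
-/

namespace H38.TD

theorem cnt_abs {T A I : Type} [CommGroup T] [Finite T] [CommGroup A] [Finite A]
    (s : Finset I) (φ : I → T →* A) (B C : I → Subgroup A)
    (hB : ∀ i ∈ s, (φ i).range ≤ B i) :
    Nat.card T ≤ Nat.card {t : T // ∀ i ∈ s, φ i t ∈ C i} * ∏ i ∈ s, (C i).relIndex (B i) := by
  have h1 := Subgroup.index_iInf_le (fun i : s => (C i.1).comap (φ i.1))
  have h2 : ∀ i : s, ((C i.1).comap (φ i.1)).index ≤ (C i.1).relIndex (B i.1) := by
    intro i
    rw [Subgroup.index_comap]
    exact Subgroup.relIndex_le_of_le_right (hB i.1 i.2) Subgroup.index_ne_zero_of_finite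
  have h3 : (⨅ i : s, (C i.1).comap (φ i.1)).index ≤ ∏ i ∈ s, (C i).relIndex (B i) := by
    rw [← Finset.prod_coe_sort]
    exact h1.trans (Finset.prod_le_prod' fun i _ => h2 i)
  have h4 : Nat.card {t : T // ∀ i ∈ s, φ i t ∈ C i} =
      Nat.card (⨅ i : s, (C i.1).comap (φ i.1) : Subgroup T) := by
    apply Nat.card_congr
    refine Equiv.subtypeEquivRight fun t => ?_
    rw [Subgroup.mem_iInf]
    constructor
    · intro h i
      exact h i.1 i.2
    · intro h i hi
      exact h ⟨i, hi⟩
  rw [h4, ← Subgroup.card_mul_index (⨅ i : s, (C i.1).comap (φ i.1))]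
  exact Nat.mul_le_mul_left _ h3

end H38.TD
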