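import Pool.Agent.H38.TD.TwDefs
import Pool.Agent.H38.TD.Markov

/-!
# [H38 TD CUTA] Removing the central ramification (two theorems, 120-200 lines)

`cuta`.  For `ρ ∈ F` let `D₀(ρ) = {v ∈ T ρ | Eqv ρ v}`, `ρ₁ = tw (∏_{v∈D₀} κ v)⁻¹ ρ`.
* at `v ∈ D₀`: `κ v'` is trivial on the inertia groups over `v` for `v' ≠ v` (`W.unr`), so
  `ρ₁ τ = ρ τ zc(κ v τ)⁻¹ = 1`: `ρ₁` is unramified at `v`.
* at `v ∉ D₀`: `ρ₁ τ = ρ τ` on the inertia groups over `v`.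
`F₁` = image of `F`, `T₁ ρ₁` = the set of places `v` with `¬ Un ρ₁ v` (a canonical set; it is contained
in `T ρ ∖ D₀(ρ)`, so finite; define it with `if h : Set.Finite … then h.toFinset else ∅`).
* never `Eqv ρ₁ v`: if `v ∈ D₀` or `v ∉ T ρ` then `ρ₁` is unramified at `v`, and `Eqv ρ₁ v` would give
  `zc (κ v τ) = 1` on all inertia groups over `v`, contradicting `W.ram`, `W.inj`; if
  `v ∈ T ρ ∖ D₀` then `ρ₁ = ρ` on the inertia groups over `v` and `¬ Eqv ρ v`.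
* sum: `ρ ↦ (ρ₁, D₀)` is injective (`ρ = tw (∏ κ) ρ₁`), and
  `Pv (T ρ) ≤ Pv (T₁ ρ₁) · Pv (D₀)` as `T₁ ρ₁ ∪ D₀ ⊆ T ρ` is a disjoint union and the factors
  `1/N v` are `≤ 1`.  `D₀ ⊆ Z`, so the sum is at most
  `∑_{ρ₁} Pv (T₁ ρ₁) ∑_{D ⊆ Z} Pv D = ∑ … · ∏_{Z} (1 + 1/N)` and `prod_le_exp`.

`cut_inj`: let `tw (∏_D κ) ρ₁ = tw (∏_{D'} κ) ρ₁'` with `D` disjoint from `T₁ ρ₁`, `D'` from
`T₁ ρ₁'`.  If `v ∈ D ∖ D'`: on the inertia groups over `v`, `ρ₁ = 1` (`v ∉ T₁ ρ₁`), so the left side is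
`zc (κ v τ)`, and the right side is `ρ₁' τ`; so `Eqv ρ₁' v`, excluded.  By symmetry `D = D'`, hence
`ρ₁ = ρ₁'`.
-/

noncomputable section

namespace H38.TD

variable {Γ P Pt : Type} [Group Γ] [Group P] {p : ℕ} (W : TwD Γ P Pt p)

namespace TwD

theorem cax_out {D : Finset Pt} {v : Pt} (hv : v ∉ D) {I : Subgroup Γ} (hI : I ∈ W.In v) {τ : Γ}
    (hτ : τ ∈ I) : (∏ u ∈ D, W.κ u) τ = 1 := by
  rw [MonoidHom.finsetProd_apply]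
  refine Finset.prod_eq_one fun u hu => ?_
  exact W.unr u v (fun h => hv (h ▸ hu)) I hI τ hτ

theorem cax_in {D : Finset Pt} {v : Pt} (hv : v ∈ D) {I : Subgroup Γ} (hI : I ∈ W.In v) {τ : Γ}
    (hτ : τ ∈ I) : (∏ u ∈ D, W.κ u) τ = W.κ v τ := by
  rw [MonoidHom.finsetProd_apply]
  refine Finset.prod_eq_single_of_mem v hv fun u _ hu => ?_
  exact W.unr u v hu I hI τ hτ

theorem cax_tw (ω : Γ →* Multiplicative (ZMod p)) (ρ : Γ →* P) (σ : Γ) :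
    W.tw ω ρ σ = ρ σ * W.zc (ω σ) := rfl

theorem cax_tw_one (ρ : Γ →* P) : W.tw 1 ρ = ρ := by
  ext σ
  rw [cax_tw, MonoidHom.one_apply, map_one, mul_one]

theorem cax_not_both {ρ : Γ →* P} {v : Pt} (h : W.Un ρ v) : ¬ W.Eqv ρ v := by
  intro he
  obtain ⟨I, hI, τ, hτ, hne⟩ := W.ram v
  have h1 := he I hI τ hτ
  rw [h I hI τ hτ] at h1
  exact hne (W.inj (by rw [← h1, map_one]))

end TwD

private theorem cax_Pv_nonneg {Pt : Type} (N : Pt → ℕ) (R : Finset Pt) : 0 ≤ Pv N R :=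
  Finset.prod_nonneg fun v _ => by positivity

private theorem cax_Pv_mono {Pt : Type} (N : Pt → ℕ) (hN : ∀ v, 2 ≤ N v) {S R : Finset Pt}
    (h : S ⊆ R) : Pv N R ≤ Pv N S := by
  classical
  unfold Pv
  rw [← Finset.prod_sdiff h]
  refine mul_le_of_le_one_left (cax_Pv_nonneg N S) ?_
  refine Finset.prod_le_one (fun v _ => by positivity) fun v _ => ?_
  have h2 : (2 : ℝ) ≤ N v := by exact_mod_cast hN v
  rw [div_le_one (by linarith)]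
  linarith

theorem cuta (N : Pt → ℕ) (hN : ∀ v, 2 ≤ N v) (F : Finset (Γ →* P))
    (T : (Γ →* P) → Finset Pt) (hT : ∀ ρ ∈ F, ∀ v, v ∉ T ρ → W.Un ρ v) (Z : Finset Pt)
    (hZ : ∀ ρ ∈ F, T ρ ⊆ Z) :
    ∃ (F₁ : Finset (Γ →* P)) (T₁ : (Γ →* P) → Finset Pt),
      (∀ ρ₁ ∈ F₁, ∃ ρ ∈ F, ∃ D₀ : Finset Pt, ρ₁ = W.tw (∏ v ∈ D₀, W.κ v)⁻¹ ρ ∧ D₀ ⊆ T ρ ∧
        T₁ ρ₁ ⊆ T ρ ∧ (∀ v ∈ D₀, v ∉ T₁ ρ₁)) ∧
      (∀ ρ₁ ∈ F₁, ∀ v, v ∉ T₁ ρ₁ → W.Un ρ₁ v) ∧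
      (∀ ρ₁ ∈ F₁, ∀ v, ¬ W.Eqv ρ₁ v) ∧
      ∑ ρ ∈ F, Pv N (T ρ) ≤ Real.exp (Lv N Z) * ∑ ρ₁ ∈ F₁, Pv N (T₁ ρ₁) := by
  classical
  let D0 : (Γ →* P) → Finset Pt := fun ρ => (T ρ).filter fun v => W.Eqv ρ v
  let r1 : (Γ →* P) → (Γ →* P) := fun ρ => W.tw (∏ v ∈ D0 ρ, W.κ v)⁻¹ ρ
  let T1 : (Γ →* P) → Finset Pt := fun ρ =>
    if h : {v | ¬ W.Un ρ v}.Finite then h.toFinset else ∅
  have hD0 : ∀ ρ, D0 ρ ⊆ T ρ := fun ρ => Finset.filter_subset _ _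
  -- at the places of `D0` the twist is unramified
  have hB : ∀ ρ v, v ∈ D0 ρ → W.Un (r1 ρ) v := by
    intro ρ v hv I hI τ hτ
    have h1 : W.Eqv ρ v := (Finset.mem_filter.1 hv).2
    show ρ τ * W.zc ((∏ u ∈ D0 ρ, W.κ u)⁻¹ τ) = 1
    rw [MonoidHom.inv_apply, W.cax_in hv hI hτ, h1 I hI τ hτ, map_inv, mul_inv_cancel]
  -- elsewhere it does not change on the inertia groups
  have hC : ∀ ρ v, v ∉ D0 ρ → ∀ I ∈ W.In v, ∀ τ ∈ I, r1 ρ τ = ρ τ := by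
    intro ρ v hv I hI τ hτ
    show ρ τ * W.zc ((∏ u ∈ D0 ρ, W.κ u)⁻¹ τ) = ρ τ
    rw [MonoidHom.inv_apply, W.cax_out hv hI hτ, inv_one, map_one, mul_one]
  have hsub : ∀ ρ ∈ F, ∀ v, ¬ W.Un (r1 ρ) v → v ∈ T ρ ∧ v ∉ D0 ρ := by
    intro ρ hρ v hv
    have h1 : v ∉ D0 ρ := fun h => hv (hB ρ v h)
    refine ⟨?_, h1⟩
    by_contra h2
    refine hv fun I hI τ hτ => ?_
    rw [hC ρ v h1 I hI τ hτ]
    exact hT ρ hρ v h2 I hI τ hτ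
  have hfin : ∀ ρ ∈ F, {v | ¬ W.Un (r1 ρ) v}.Finite := fun ρ hρ =>
    (T ρ).finite_toSet.subset fun v hv => (hsub ρ hρ v hv).1
  have hT1 : ∀ ρ ∈ F, ∀ v, v ∈ T1 (r1 ρ) ↔ ¬ W.Un (r1 ρ) v := by
    intro ρ hρ v
    show v ∈ (if h : {v | ¬ W.Un (r1 ρ) v}.Finite then h.toFinset else ∅) ↔ _
    rw [dif_pos (hfin ρ hρ), Set.Finite.mem_toFinset]
    rfl
  have hback : ∀ ρ, W.tw (∏ v ∈ D0 ρ, W.κ v) (r1 ρ) = ρ := by
    intro ρ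
    show W.tw _ (W.tw _ ρ) = ρ
    rw [W.tw_mul, inv_mul_cancel, W.cax_tw_one]
  refine ⟨F.image r1, T1, ?_, ?_, ?_, ?_⟩
  · intro ρ₁ h1
    obtain ⟨ρ, hρ, rfl⟩ := Finset.mem_image.1 h1
    refine ⟨ρ, hρ, D0 ρ, rfl, hD0 ρ, ?_, ?_⟩
    · intro v hv
      exact (hsub ρ hρ v ((hT1 ρ hρ v).1 hv)).1
    · intro v hv hv'
      exact (hsub ρ hρ v ((hT1 ρ hρ v).1 hv')).2 hv
  · intro ρ₁ h1 v hv
    obtain ⟨ρ, hρ, rfl⟩ := Finset.mem_image.1 h1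
    by_contra h
    exact hv ((hT1 ρ hρ v).2 h)
  · intro ρ₁ h1 v
    obtain ⟨ρ, hρ, rfl⟩ := Finset.mem_image.1 h1
    by_cases hu : W.Un (r1 ρ) v
    · exact W.cax_not_both hu
    · obtain ⟨h2, h3⟩ := hsub ρ hρ v hu
      intro he
      refine h3 (Finset.mem_filter.2 ⟨h2, fun I hI τ hτ => ?_⟩)
      rw [← hC ρ v h3 I hI τ hτ]
      exact he I hI τ hτ
  · -- the sum
    let g : (Γ →* P) → (Γ →* P) × Finset Pt := fun ρ => (r1 ρ, D0 ρ)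
    have hinj : Set.InjOn g F := by
      intro a _ b _ hab
      have e1 : r1 a = r1 b := congrArg Prod.fst hab
      have e2 : D0 a = D0 b := congrArg Prod.snd hab
      rw [← hback a, ← hback b, e1, e2]
    have hle : ∀ ρ ∈ F, Pv N (T ρ) ≤ Pv N (T1 (g ρ).1) * Pv N (g ρ).2 := by
      intro ρ hρ
      have hdis : Disjoint (T1 (r1 ρ)) (D0 ρ) := by
        rw [Finset.disjoint_left]
        intro v hv
        exact (hsub ρ hρ v ((hT1 ρ hρ v).1 hv)).2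
      have hsub2 : T1 (r1 ρ) ∪ D0 ρ ⊆ T ρ := by
        refine Finset.union_subset (fun v hv => ?_) (hD0 ρ)
        exact (hsub ρ hρ v ((hT1 ρ hρ v).1 hv)).1
      calc Pv N (T ρ) ≤ Pv N (T1 (r1 ρ) ∪ D0 ρ) := cax_Pv_mono N hN hsub2
        _ = Pv N (T1 (r1 ρ)) * Pv N (D0 ρ) := by unfold Pv; rw [Finset.prod_union hdis]
    calc ∑ ρ ∈ F, Pv N (T ρ) ≤ ∑ ρ ∈ F, Pv N (T1 (g ρ).1) * Pv N (g ρ).2 :=
          Finset.sum_le_sum hle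
      _ = ∑ y ∈ F.image g, Pv N (T1 y.1) * Pv N y.2 := by
          rw [Finset.sum_image hinj]
      _ ≤ ∑ y ∈ (F.image r1) ×ˢ Z.powerset, Pv N (T1 y.1) * Pv N y.2 := by
          refine Finset.sum_le_sum_of_subset_of_nonneg ?_ fun y _ _ =>
            mul_nonneg (cax_Pv_nonneg _ _) (cax_Pv_nonneg _ _)
          intro y hy
          obtain ⟨ρ, hρ, rfl⟩ := Finset.mem_image.1 hy
          refine Finset.mem_product.2 ⟨Finset.mem_image_of_mem _ hρ, ?_⟩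
          exact Finset.mem_powerset.2 ((hD0 ρ).trans (hZ ρ hρ))
      _ = (∑ ρ₁ ∈ F.image r1, Pv N (T1 ρ₁)) * ∑ D ∈ Z.powerset, Pv N D := by
          rw [Finset.sum_mul_sum, Finset.sum_product]
      _ = (∑ ρ₁ ∈ F.image r1, Pv N (T1 ρ₁)) * ∏ v ∈ Z, (1 + 1 / (N v : ℝ)) := by
          rw [Finset.prod_one_add]
          rfl
      _ ≤ (∑ ρ₁ ∈ F.image r1, Pv N (T1 ρ₁)) * Real.exp (Lv N Z) := by
          refine mul_le_mul_of_nonneg_left ?_ (Finset.sum_nonneg fun _ _ => cax_Pv_nonneg _ _)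
          exact prod_le_exp Z _ fun v _ => by positivity
      _ = _ := mul_comm _ _

theorem cut_inj (ρ₁ ρ₁' : Γ →* P) (T₁ T₁' : Finset Pt) (h : ∀ v, v ∉ T₁ → W.Un ρ₁ v)
    (h' : ∀ v, v ∉ T₁' → W.Un ρ₁' v) (he : ∀ v, ¬ W.Eqv ρ₁ v) (he' : ∀ v, ¬ W.Eqv ρ₁' v)
    (D D' : Finset Pt) (hD : Disjoint D T₁) (hD' : Disjoint D' T₁')
    (heq : W.tw (∏ v ∈ D, W.κ v) ρ₁ = W.tw (∏ v ∈ D', W.κ v) ρ₁') : ρ₁ = ρ₁' ∧ D = D' := by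
  have key : ∀ (a a' : Γ →* P) (S S' E E' : Finset Pt), (∀ v, v ∉ S → W.Un a v) →
      (∀ v, ¬ W.Eqv a' v) → Disjoint E S →
      W.tw (∏ v ∈ E, W.κ v) a = W.tw (∏ v ∈ E', W.κ v) a' → E ⊆ E' := by
    intro a a' S S' E E' ha hea' hES hh v hv
    by_contra hv'
    refine hea' v fun I hI τ hτ => ?_
    have e1 : a τ * W.zc ((∏ u ∈ E, W.κ u) τ) = a' τ * W.zc ((∏ u ∈ E', W.κ u) τ) :=
      DFunLike.congr_fun hh τ
    rw [W.cax_in hv hI hτ, W.cax_out hv' hI hτ, map_one, mul_one,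
      ha v (Finset.disjoint_left.1 hES hv) I hI τ hτ, one_mul] at e1
    exact e1.symm
  have h1 : D = D' := Finset.Subset.antisymm
    (key ρ₁ ρ₁' T₁ T₁' D D' h he' hD heq) (key ρ₁' ρ₁ T₁' T₁ D' D h' he hD' heq.symm)
  refine ⟨?_, h1⟩
  subst h1
  ext σ
  have e1 : ρ₁ σ * W.zc ((∏ u ∈ D, W.κ u) σ) = ρ₁' σ * W.zc ((∏ u ∈ D, W.κ u) σ) :=
    DFunLike.congr_fun heq σ
  exact mul_right_cancel e1

end H38.TD
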