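import Mathlib
import Pool.Agent.H38.TD.AnaDefs

/-!
# [H38 TD CUTB] Avoiding a sparse set of places (50-90 lines, finite combinatorics)

Let `A(t)` be the number of finite sets `D` with `∏_{v∈D} N v ≤ t`; `c t ≤ A(t)` for `t ≥ t₀` and
`A(t) ≤ C t` for `t ≥ 1` (`hup`, with finiteness).  Let `n` be a finite set with
`∑_{v ∈ n} 1/N v ≤ ε := c/(2C)`.  The sets `D` with `∏ ≤ t` which meet `n` contain some `v ∈ n`, and
`D ↦ D ∖ {v}` is injective on the `D ∋ v`, with `∏_{D ∖ v} = ∏_D / N v ≤ t/N v`: there are at most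
`A(t/N v) ≤ C t/N v` of them (if `t/N v < 1` there are none: `∏_{D∖v} ≥ 1`).  Sum over `v ∈ n`:
at most `C t ε ≤ c t/2`.  So at least `(c/2) t` sets `D` avoid `n`.
-/

noncomputable section

namespace H38.TD

open Classical in
theorem cutb_one {Pt : Type} (N : Pt → ℕ) (hN : ∀ v, 2 ≤ N v) (C : ℝ) (hC : 0 < C)
    (hup : ∀ t : ℝ, 1 ≤ t → {D : Finset Pt | ((∏ v ∈ D, N v : ℕ) : ℝ) ≤ t}.Finite ∧
      (({D : Finset Pt | ((∏ v ∈ D, N v : ℕ) : ℝ) ≤ t}.ncard : ℕ) : ℝ) ≤ C * t)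
    (t : ℝ) (ht : 0 < t) (v : Pt) :
    (({D : Finset Pt | v ∈ D ∧ ((∏ v ∈ D, N v : ℕ) : ℝ) ≤ t}.ncard : ℕ) : ℝ) ≤
      C * t * (1 / (N v : ℝ)) := by
  have hNv : (0 : ℝ) < N v := by
    have := hN v
    exact_mod_cast lt_of_lt_of_le (by norm_num) this
  have hprod : ∀ D : Finset Pt, v ∈ D → ((∏ u ∈ D, N u : ℕ) : ℝ) =
      N v * ((∏ u ∈ D.erase v, N u : ℕ) : ℝ) := by
    intro D hD
    rw [← Finset.mul_prod_erase D N hD]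
    push_cast
    ring
  have hone : ∀ D : Finset Pt, (1 : ℝ) ≤ ((∏ u ∈ D, N u : ℕ) : ℝ) := by
    intro D
    have : 1 ≤ ∏ u ∈ D, N u := Nat.one_le_iff_ne_zero.2
      (Finset.prod_ne_zero_iff.2 fun u _ => by
        have := hN u
        omega)
    exact_mod_cast this
  rcases lt_or_ge (t / N v) 1 with h | h
  · have h1 : {D : Finset Pt | v ∈ D ∧ ((∏ v ∈ D, N v : ℕ) : ℝ) ≤ t} = ∅ := by
      rw [Set.eq_empty_iff_forall_notMem]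
      rintro D ⟨hD, hDt⟩
      rw [hprod D hD] at hDt
      rw [div_lt_one hNv] at h
      have h2 := mul_le_mul_of_nonneg_left (hone (D.erase v)) hNv.le
      linarith
    rw [h1, Set.ncard_empty]
    have : 0 ≤ C * t * (1 / (N v : ℝ)) := by positivity
    simpa using this
  · obtain ⟨hfin, hcard⟩ := hup (t / N v) h
    have h1 : {D : Finset Pt | v ∈ D ∧ ((∏ v ∈ D, N v : ℕ) : ℝ) ≤ t}.ncard ≤
        {D : Finset Pt | ((∏ v ∈ D, N v : ℕ) : ℝ) ≤ t / N v}.ncard := by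
      refine Set.ncard_le_ncard_of_injOn (fun D => D.erase v) ?_ ?_ hfin
      · rintro D ⟨hD, hDt⟩
        show ((∏ u ∈ D.erase v, N u : ℕ) : ℝ) ≤ t / N v
        rw [hprod D hD] at hDt
        rw [le_div_iff₀ hNv, mul_comm]
        exact hDt
      · rintro D ⟨hD, _⟩ D' ⟨hD', _⟩ he
        have he' : D.erase v = D'.erase v := he
        rw [← Finset.insert_erase hD, ← Finset.insert_erase hD', he']
    calc (({D : Finset Pt | v ∈ D ∧ ((∏ v ∈ D, N v : ℕ) : ℝ) ≤ t}.ncard : ℕ) : ℝ)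
        ≤ (({D : Finset Pt | ((∏ v ∈ D, N v : ℕ) : ℝ) ≤ t / N v}.ncard : ℕ) : ℝ) := by
          exact_mod_cast h1
      _ ≤ C * (t / N v) := hcard
      _ = _ := by ring

open Classical in
theorem cutb {Pt : Type} (N : Pt → ℕ) (hN : ∀ v, 2 ≤ N v) (C : ℝ) (hC : 0 < C)
    (hup : ∀ t : ℝ, 1 ≤ t → {D : Finset Pt | ((∏ v ∈ D, N v : ℕ) : ℝ) ≤ t}.Finite ∧
      (({D : Finset Pt | ((∏ v ∈ D, N v : ℕ) : ℝ) ≤ t}.ncard : ℕ) : ℝ) ≤ C * t)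
    (c : ℝ) (hc : 0 < c) (t₀ : ℝ)
    (hlow : ∀ t : ℝ, t₀ ≤ t →
      c * t ≤ (({D : Finset Pt | ((∏ v ∈ D, N v : ℕ) : ℝ) ≤ t}.ncard : ℕ) : ℝ)) :
    ∃ ε : ℝ, 0 < ε ∧ ∃ t₁ : ℝ, ∀ (n : Finset Pt), Lv N n ≤ ε → ∀ t : ℝ, t₁ ≤ t →
      c / 2 * t ≤
        (({D : Finset Pt | Disjoint D n ∧ ((∏ v ∈ D, N v : ℕ) : ℝ) ≤ t}.ncard : ℕ) : ℝ) := by
  refine ⟨c / (2 * C), by positivity, max t₀ 1, fun n hn t ht => ?_⟩
  have ht0 : t₀ ≤ t := le_trans (le_max_left _ _) ht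
  have ht1 : 1 ≤ t := le_trans (le_max_right _ _) ht
  obtain ⟨hfin, _⟩ := hup t ht1
  have hl := hlow t ht0
  have hsub : {D : Finset Pt | ((∏ v ∈ D, N v : ℕ) : ℝ) ≤ t} ⊆
      {D : Finset Pt | Disjoint D n ∧ ((∏ v ∈ D, N v : ℕ) : ℝ) ≤ t} ∪
        ⋃ v ∈ n, {D : Finset Pt | v ∈ D ∧ ((∏ v ∈ D, N v : ℕ) : ℝ) ≤ t} := by
    intro D hD
    by_cases h : Disjoint D n
    · exact Or.inl ⟨h, hD⟩
    · right
      rw [Finset.not_disjoint_iff] at h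
      obtain ⟨v, hv, hvn⟩ := h
      rw [Set.mem_iUnion₂]
      exact ⟨v, hvn, hv, hD⟩
  have hf1 : {D : Finset Pt | Disjoint D n ∧ ((∏ v ∈ D, N v : ℕ) : ℝ) ≤ t}.Finite :=
    hfin.subset fun D hD => hD.2
  have hf2 : (⋃ v ∈ n, {D : Finset Pt | v ∈ D ∧ ((∏ v ∈ D, N v : ℕ) : ℝ) ≤ t}).Finite := by
    refine Set.Finite.subset hfin ?_
    intro D hD
    rw [Set.mem_iUnion₂] at hD
    obtain ⟨_, _, hD2⟩ := hD
    exact hD2.2
  have h1 := (Set.ncard_le_ncard hsub (hf1.union hf2)).trans (Set.ncard_union_le _ _)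
  have h2 : (⋃ v ∈ n, {D : Finset Pt | v ∈ D ∧ ((∏ v ∈ D, N v : ℕ) : ℝ) ≤ t}).ncard ≤
      ∑ v ∈ n, {D : Finset Pt | v ∈ D ∧ ((∏ v ∈ D, N v : ℕ) : ℝ) ≤ t}.ncard :=
    Finset.set_ncard_biUnion_le n _
  have h3 : (((⋃ v ∈ n, {D : Finset Pt | v ∈ D ∧ ((∏ v ∈ D, N v : ℕ) : ℝ) ≤ t}).ncard : ℕ) : ℝ) ≤
      C * t * Lv N n := by
    unfold Lv
    rw [Finset.mul_sum]
    refine le_trans ?_ (Finset.sum_le_sum fun v _ => cutb_one N hN C hC hup t (by linarith) v)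
    exact_mod_cast h2
  have h4 : C * t * Lv N n ≤ c / 2 * t := by
    have h5 : C * t * Lv N n ≤ C * t * (c / (2 * C)) :=
      mul_le_mul_of_nonneg_left hn (by positivity)
    have h6 : C * t * (c / (2 * C)) = c / 2 * t := by
      field_simp
    rw [h6] at h5
    exact h5
  have h7 : (({D : Finset Pt | ((∏ v ∈ D, N v : ℕ) : ℝ) ≤ t}.ncard : ℕ) : ℝ) ≤
      (({D : Finset Pt | Disjoint D n ∧ ((∏ v ∈ D, N v : ℕ) : ℝ) ≤ t}.ncard : ℕ) : ℝ) +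
      (((⋃ v ∈ n, {D : Finset Pt | v ∈ D ∧ ((∏ v ∈ D, N v : ℕ) : ℝ) ≤ t}).ncard : ℕ) : ℝ) := by
    exact_mod_cast h1
  linarith

end H38.TD
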