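import Pool.Agent.H38.TD.CutA
import Pool.Agent.H38.TD.CutB

/-!
# [H38 TD CUTC] The sharp count (assembly, 100-170 lines)

Take `F₁, T₁` from `cuta`.  For `ρ₁ ∈ F₁` put `n = T₁ ρ₁ ⊆ T ρ`: `Lv N n ≤ Lv N (T ρ) ≤ ε`, and with
`M = ∏_{v∈n} N v ≤ ∏_{v∈Tρ} N v`, `t = X / M ≥ t₁` (`hX`), so by `hcut` there are at least
`c' t = c' X · Pv N n` finite sets `D` disjoint from `n` with `∏_D N ≤ X/M` (for `hcut` the set of all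
such `D` is finite because its `ncard` is positive…; if `c' t > 0` the `ncard` is nonzero so the set is
finite; take its `toFinset`).  The homomorphisms `ρ' = tw (∏_D κ) ρ₁` are all different (`cut_inj`), so
the set `Fs` of all of them has `≥ c' X ∑_{ρ₁∈F₁} Pv N (T₁ ρ₁) ≥ c' X exp(-Lv Z) ∑_{ρ∈F} Pv N (T ρ)`
elements.  Properties of `ρ' = tw (∏_D κ) (tw (∏_{D₀} κ)⁻¹ ρ) = tw (ω) ρ` with
`ω = (∏_{D₀} κ)⁻¹ (∏_D κ)`, `D₀ ⊆ T ρ`, `D₀ ∩ T₁ ρ₁ = ∅ = D ∩ T₁ ρ₁`; `T' = T₁ ρ₁ ∪ D`: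
* `∏_{T'} N = M ∏_D N ≤ X`;
* `v ∉ T'`: on the inertia groups over `v`, `∏_D κ` is trivial (`W.unr`) and `ρ₁` is trivial, so
  `Un ρ' v`;
* `v ∈ D`: `ρ' τ = ρ₁ τ zc (κ v τ) = zc (κ v τ)` (`Eqv ρ' v`);
* `v ∈ T₁ ρ₁`: `v ∉ D₀`, `v ∉ D`, so `ρ' τ = ρ τ`.
-/

noncomputable section

namespace H38.TD

private theorem ccx_Pv {Pt : Type} (N : Pt → ℕ) (R : Finset Pt) :
    Pv N R = 1 / ((∏ v ∈ R, N v : ℕ) : ℝ) := by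
  unfold Pv
  rw [Finset.prod_div_distrib, Finset.prod_const_one]
  push_cast
  rfl

private theorem ccx_Lv {Pt : Type} (N : Pt → ℕ) {S R : Finset Pt} (h : S ⊆ R) :
    Lv N S ≤ Lv N R := by
  unfold Lv
  exact Finset.sum_le_sum_of_subset_of_nonneg h fun v _ _ => by positivity

open Classical in
theorem cutc {Γ P Pt : Type} [Group Γ] [Group P] {p : ℕ} (W : TwD Γ P Pt p)
    (N : Pt → ℕ) (hN : ∀ v, 2 ≤ N v) (F : Finset (Γ →* P))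
    (T : (Γ →* P) → Finset Pt) (hT : ∀ ρ ∈ F, ∀ v, v ∉ T ρ → W.Un ρ v) (Z : Finset Pt)
    (hZ : ∀ ρ ∈ F, T ρ ⊆ Z) (ε c' t₁ X : ℝ) (hc' : 0 < c') (ht₁ : 0 < t₁)
    (hcut : ∀ (n : Finset Pt), Lv N n ≤ ε → ∀ t : ℝ, t₁ ≤ t →
      c' * t ≤
        (({D : Finset Pt | Disjoint D n ∧ ((∏ v ∈ D, N v : ℕ) : ℝ) ≤ t}.ncard : ℕ) : ℝ))
    (hε : ∀ ρ ∈ F, Lv N (T ρ) ≤ ε)
    (hX : ∀ ρ ∈ F, t₁ * ((∏ v ∈ T ρ, N v : ℕ) : ℝ) ≤ X) :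
    ∃ Fs : Finset (Γ →* P),
      (∀ ρ' ∈ Fs, ∃ ρ ∈ F, ∃ (D₀ D T' : Finset Pt),
        ρ' = W.tw ((∏ v ∈ D₀, W.κ v)⁻¹ * ∏ v ∈ D, W.κ v) ρ ∧
        ((∏ v ∈ T', N v : ℕ) : ℝ) ≤ X ∧ (∀ v, v ∉ T' → W.Un ρ' v) ∧
        ∀ v, W.Eqv ρ' v ∨ W.Un ρ' v ∨ ∀ I ∈ W.In v, ∀ τ ∈ I, ρ' τ = ρ τ) ∧
      c' * X * Real.exp (-(Lv N Z)) * ∑ ρ ∈ F, Pv N (T ρ) ≤ (Fs.card : ℝ) := by
  have hN1 : ∀ R : Finset Pt, (1 : ℝ) ≤ ((∏ v ∈ R, N v : ℕ) : ℝ) := by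
    intro R
    have h1 : 1 ≤ ∏ v ∈ R, N v := Finset.one_le_prod' fun v _ => by have := hN v; omega
    exact_mod_cast h1
  obtain ⟨F₁, T₁, ha, hb, hc, hd⟩ := cuta W N hN F T hT Z hZ
  let A : (Γ →* P) → Set (Finset Pt) := fun ρ₁ =>
    {D : Finset Pt | Disjoint D (T₁ ρ₁) ∧
      ((∏ v ∈ D, N v : ℕ) : ℝ) ≤ X / ((∏ v ∈ T₁ ρ₁, N v : ℕ) : ℝ)}
  have hA : ∀ ρ₁ ∈ F₁, 0 < X ∧
      c' * (X / ((∏ v ∈ T₁ ρ₁, N v : ℕ) : ℝ)) ≤ (((A ρ₁).ncard : ℕ) : ℝ) ∧ (A ρ₁).Finite := by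
    intro ρ₁ h1
    obtain ⟨ρ, hρ, D₀, -, -, hsub, -⟩ := ha ρ₁ h1
    have hX1 := hX ρ hρ
    have hM := hN1 (T₁ ρ₁)
    have hMT : ((∏ v ∈ T₁ ρ₁, N v : ℕ) : ℝ) ≤ ((∏ v ∈ T ρ, N v : ℕ) : ℝ) := by
      have h2 : ∏ v ∈ T₁ ρ₁, N v ≤ ∏ v ∈ T ρ, N v :=
        Finset.prod_le_prod_of_subset_of_one_le' hsub fun v _ _ => by have := hN v; omega
      exact_mod_cast h2
    have ht : t₁ ≤ X / ((∏ v ∈ T₁ ρ₁, N v : ℕ) : ℝ) := by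
      rw [le_div_iff₀ (by linarith)]
      exact (mul_le_mul_of_nonneg_left hMT ht₁.le).trans hX1
    have hX0 : 0 < X := by
      have h3 := hN1 (T ρ)
      have h4 : 0 < t₁ * ((∏ v ∈ T ρ, N v : ℕ) : ℝ) := mul_pos ht₁ (by linarith)
      linarith
    have h5 := hcut (T₁ ρ₁) ((ccx_Lv N hsub).trans (hε ρ hρ)) _ ht
    refine ⟨hX0, h5, ?_⟩
    refine Set.finite_of_ncard_pos ?_
    have h6 : (0 : ℝ) < ((A ρ₁).ncard : ℕ) := lt_of_lt_of_le (by positivity) h5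
    exact_mod_cast h6
  let DS : (Γ →* P) → Finset (Finset Pt) := fun ρ₁ =>
    if h : (A ρ₁).Finite then h.toFinset else ∅
  have hDS : ∀ ρ₁ ∈ F₁, ∀ D, D ∈ DS ρ₁ ↔ D ∈ A ρ₁ := by
    intro ρ₁ h1 D
    show D ∈ (if h : (A ρ₁).Finite then h.toFinset else ∅) ↔ _
    rw [dif_pos (hA ρ₁ h1).2.2, Set.Finite.mem_toFinset]
  have hDSc : ∀ ρ₁ ∈ F₁, (DS ρ₁).card = (A ρ₁).ncard := by
    intro ρ₁ h1
    have hf := (hA ρ₁ h1).2.2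
    show (if h : (A ρ₁).Finite then h.toFinset else ∅).card = _
    rw [dif_pos hf]
    exact (Set.ncard_eq_toFinset_card _ hf).symm
  let S : Finset ((_ : Γ →* P) × Finset Pt) := F₁.sigma DS
  let g : ((_ : Γ →* P) × Finset Pt) → (Γ →* P) := fun y => W.tw (∏ v ∈ y.2, W.κ v) y.1
  have hinj : Set.InjOn g S := by
    rintro ⟨a, D⟩ hy ⟨a', D'⟩ hy' hg
    obtain ⟨h1, h2⟩ := Finset.mem_sigma.1 hy
    obtain ⟨h1', h2'⟩ := Finset.mem_sigma.1 hy'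
    obtain ⟨e1, e2⟩ := cut_inj W a a' (T₁ a) (T₁ a') (hb a h1) (hb a' h1') (hc a h1) (hc a' h1')
      D D' ((hDS a h1 D).1 h2).1 ((hDS a' h1' D').1 h2').1 hg
    subst e1
    subst e2
    rfl
  refine ⟨S.image g, ?_, ?_⟩
  · intro ρ' hρ'
    obtain ⟨⟨ρ₁, D⟩, hy, rfl⟩ := Finset.mem_image.1 hρ'
    obtain ⟨h1, h2⟩ := Finset.mem_sigma.1 hy
    obtain ⟨hdis, hle⟩ := (hDS ρ₁ h1 D).1 h2
    obtain ⟨ρ, hρ, D₀, hD₀, -, hsub, hD₀2⟩ := ha ρ₁ h1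
    have hout : ∀ v, v ∉ T₁ ρ₁ → v ∉ D → W.Un (g ⟨ρ₁, D⟩) v := by
      intro v hv1 hv2 I hI τ hτ
      show ρ₁ τ * W.zc ((∏ u ∈ D, W.κ u) τ) = 1
      rw [hb ρ₁ h1 v hv1 I hI τ hτ, W.cax_out hv2 hI hτ, map_one, mul_one]
    refine ⟨ρ, hρ, D₀, D, T₁ ρ₁ ∪ D, ?_, ?_, ?_, ?_⟩
    · show W.tw (∏ v ∈ D, W.κ v) ρ₁ = _
      rw [hD₀, W.tw_mul]
    · rw [Finset.prod_union hdis.symm]
      have hM := hN1 (T₁ ρ₁)
      rw [le_div_iff₀ (by linarith)] at hle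
      rw [Nat.cast_mul, mul_comm]
      exact hle
    · intro v hv
      rw [Finset.mem_union, not_or] at hv
      exact hout v hv.1 hv.2
    · intro v
      by_cases hvD : v ∈ D
      · left
        intro I hI τ hτ
        show ρ₁ τ * W.zc ((∏ u ∈ D, W.κ u) τ) = _
        have hvT : v ∉ T₁ ρ₁ := Finset.disjoint_left.1 hdis hvD
        rw [hb ρ₁ h1 v hvT I hI τ hτ, W.cax_in hvD hI hτ, one_mul]
      · right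
        by_cases hvT : v ∈ T₁ ρ₁
        · right
          intro I hI τ hτ
          have hvD0 : v ∉ D₀ := fun h => hD₀2 v h hvT
          show ρ₁ τ * W.zc ((∏ u ∈ D, W.κ u) τ) = ρ τ
          rw [W.cax_out hvD hI hτ, map_one, mul_one, hD₀]
          show ρ τ * W.zc ((∏ u ∈ D₀, W.κ u)⁻¹ τ) = ρ τ
          rw [MonoidHom.inv_apply, W.cax_out hvD0 hI hτ, inv_one, map_one, mul_one]
        · left
          exact hout v hvT hvD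
  · rw [Finset.card_image_of_injOn hinj, Finset.card_sigma]
    rcases Finset.eq_empty_or_nonempty F with hF | ⟨ρ, hρ⟩
    · rw [hF, Finset.sum_empty, mul_zero]
      exact Nat.cast_nonneg _
    · clear hinj
      clear_value S g
      have hX0 : 0 < X := by
        have h3 := hN1 (T ρ)
        have h4 : 0 < t₁ * ((∏ v ∈ T ρ, N v : ℕ) : ℝ) := mul_pos ht₁ (by linarith)
        linarith [hX ρ hρ]
      have h7 : c' * X * ∑ ρ₁ ∈ F₁, Pv N (T₁ ρ₁) ≤ ((∑ ρ₁ ∈ F₁, (DS ρ₁).card : ℕ) : ℝ) := by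
        rw [Nat.cast_sum, Finset.mul_sum]
        refine Finset.sum_le_sum fun ρ₁ h1 => ?_
        rw [hDSc ρ₁ h1, ccx_Pv]
        refine le_trans (le_of_eq ?_) (hA ρ₁ h1).2.1
        ring
      refine le_trans ?_ h7
      have h8 : 0 ≤ c' * X := by positivity
      calc c' * X * Real.exp (-(Lv N Z)) * ∑ ρ ∈ F, Pv N (T ρ)
          ≤ c' * X * Real.exp (-(Lv N Z)) *
            (Real.exp (Lv N Z) * ∑ ρ₁ ∈ F₁, Pv N (T₁ ρ₁)) := by gcongr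
        _ = c' * X * (Real.exp (-(Lv N Z)) * Real.exp (Lv N Z)) *
            ∑ ρ₁ ∈ F₁, Pv N (T₁ ρ₁) := by ring
        _ = c' * X * ∑ ρ₁ ∈ F₁, Pv N (T₁ ρ₁) := by
            rw [← Real.exp_add, neg_add_cancel, Real.exp_zero, mul_one]

end H38.TD
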