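import Pool.Agent.H38.TD.ValG

/-!
# [H38 TD CYC] The cyclic extension `M = K(β)`: elementary facts (60-110 lines)

`D : KX K M p ζ x`, `p` prime, `ζ ∈ K` a primitive `p`-th root of unity.  `γ` generates `Gal(M/K)` and
has order `p`, so `[M : K] = p` (`IsGalois.card_aut_eq_finrank`).

* `kx_pow_act`: `γ^k β = ζ^k β` by induction.
* `kx_prod`: `Gal(M/K) = {γ^k : k < p}`, so a product over `Gal(M/K)` is a product over
  `Finset.range p` (`k ↦ γ ^ k` is injective on `range p` because `orderOf γ = p`).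
* `kx_inter`: if `y^p ∈ K`, `y ∈ M`, then `(γ y / y)^p = 1`, so `γ y = ζ^l y` (primitive root), and
  `y β^{-l}` is fixed by `γ`, hence in `K`: `y = z β^l`, `y^p = z^p x^l`.
* `kx_stab`: `p` is prime, so a subgroup of `Gal(M/K)` which contains some `g ≠ 1` is everything; so if
  `γ • Q ≠ Q` then `g • Q ≠ Q` for all `g ≠ 1`; if `¬ Spl γ v` then `g • Q = Q` for all `g` and all `Q`
  over `v`.
* `kx_rep`: the homomorphisms: `Gal(M/K)` is cyclic of order `p` with generator `γ`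
  (`monoidHomOfForallMemZpowers` or `zmodCyclicMulEquiv`), so for every group `H` and `c ∈ H`
  with `c^p = 1` there is a homomorphism `Gal(M/K) → H` with `γ ↦ c`.
-/

open scoped NumberField Pointwise
open H38.ML

noncomputable section

namespace H38.TD

variable {K M : Type} [Field K] [Field M] [Algebra K M] {p : ℕ} {ζ : K} {x : Kˣ}

theorem kx_zpowers (D : KX K M p ζ x) (g : Gal(M/K)) : g ∈ Subgroup.zpowers D.γ := by
  obtain ⟨k, rfl⟩ := D.gen g
  exact Subgroup.npow_mem_zpowers D.γ k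

theorem kx_finrank [FiniteDimensional K M] [IsGalois K M] (D : KX K M p ζ x) (hp : p.Prime) :
    Module.finrank K M = p := by
  rw [← IsGalois.card_aut_eq_finrank K M, ← orderOf_eq_card_of_forall_mem_zpowers (kx_zpowers D),
    D.ord]

theorem kx_pow_act (D : KX K M p ζ x) (k : ℕ) :
    (D.γ ^ k) (D.β : M) = algebraMap K M ζ ^ k * D.β := by
  induction k with
  | zero => simp
  | succ k ih =>
    rw [pow_succ', AlgEquiv.mul_apply, ih, map_mul, map_pow, AlgEquiv.commutes, D.act]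
    ring

theorem kx_prod [FiniteDimensional K M] [IsGalois K M] (D : KX K M p ζ x) (hp : p.Prime)
    {N : Type} [CommMonoid N] (F : Gal(M/K) → N) :
    ∏ g : Gal(M/K), F g = ∏ k ∈ Finset.range p, F (D.γ ^ k) := by
  classical
  have hinj : Set.InjOn (fun k : ℕ => D.γ ^ k) (Finset.range p : Set ℕ) := by
    have h := pow_injOn_Iio_orderOf (x := D.γ)
    rw [D.ord] at h
    intro a ha b hb hab
    exact h (Finset.mem_range.1 ha) (Finset.mem_range.1 hb) hab
  have himg : (Finset.univ : Finset Gal(M/K)) = (Finset.range p).image fun k => D.γ ^ k := by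
    symm
    rw [Finset.eq_univ_iff_forall]
    intro g
    obtain ⟨k, rfl⟩ := D.gen g
    rw [Finset.mem_image]
    refine ⟨k % p, Finset.mem_range.2 (Nat.mod_lt _ hp.pos), ?_⟩
    have h1 : D.γ ^ p = 1 := orderOf_dvd_iff_pow_eq_one.1 (dvd_of_eq D.ord)
    exact (pow_eq_pow_mod k h1).symm
  rw [himg, Finset.prod_image hinj]

/-- An element of `K` which becomes a `p`-th power in `M` is `z^p x^l` with `z ∈ K`. -/
theorem kx_inter [FiniteDimensional K M] [IsGalois K M] (D : KX K M p ζ x) (hp : p.Prime)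
    (hζ : IsPrimitiveRoot ζ p) (f : Kˣ) (y : Mˣ) (h : iU K M f = y ^ p) :
    ∃ (l : ℕ) (z : Kˣ), f = x ^ l * z ^ p := by
  have hinj := (algebraMap K M).injective
  have hp0 : NeZero p := ⟨hp.ne_zero⟩
  have hζ' : IsPrimitiveRoot (algebraMap K M ζ) p := hζ.map_of_injective hinj
  have hy : (y : M) ^ p = algebraMap K M f := by
    have := congrArg (fun u : Mˣ => (u : M)) h
    simpa [iU] using this.symm
  have hy0 : (y : M) ≠ 0 := y.ne_zero
  have hβ0 : (D.β : M) ≠ 0 := D.β.ne_zero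
  have hβp : (D.β : M) ^ p = algebraMap K M x := by
    have := congrArg (fun u : Mˣ => (u : M)) D.pow
    simpa [iU] using this
  have h1 : (D.γ (y : M) / y) ^ p = 1 := by
    rw [div_pow, ← map_pow, hy, AlgEquiv.commutes, div_self]
    rw [← hy]; exact pow_ne_zero _ hy0
  obtain ⟨l, -, hl⟩ := hζ'.eq_pow_of_pow_eq_one h1
  have hγy : D.γ (y : M) = algebraMap K M ζ ^ l * y := by
    rw [hl, div_mul_cancel₀ _ hy0]
  have hζ0 : algebraMap K M ζ ≠ 0 := hζ'.ne_zero hp.ne_zero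
  have hfix : D.γ ((y : M) / (D.β : M) ^ l) = (y : M) / (D.β : M) ^ l := by
    rw [map_div₀, map_pow, hγy, D.act, mul_pow, mul_div_mul_left _ _ (pow_ne_zero _ hζ0)]
  have hfixk : ∀ k : ℕ, (D.γ ^ k) ((y : M) / (D.β : M) ^ l) = (y : M) / (D.β : M) ^ l := by
    intro k
    induction k with
    | zero => simp
    | succ k ih => rw [pow_succ, AlgEquiv.mul_apply, hfix, ih]
  have hmem : (y : M) / (D.β : M) ^ l ∈ Set.range (algebraMap K M) := by
    rw [IsGalois.mem_range_algebraMap_iff_fixed]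
    intro g
    obtain ⟨k, rfl⟩ := D.gen g
    exact hfixk k
  obtain ⟨z, hz⟩ := hmem
  have hz0 : z ≠ 0 := by
    intro h0
    rw [h0, map_zero, eq_comm, div_eq_zero_iff] at hz
    rcases hz with h2 | h2
    · exact hy0 h2
    · exact pow_ne_zero _ hβ0 h2
  refine ⟨l, Units.mk0 z hz0, ?_⟩
  apply Units.ext
  apply hinj
  rw [← hy]
  have h3 : (y : M) = algebraMap K M z * (D.β : M) ^ l := by
    rw [hz, div_mul_cancel₀ _ (pow_ne_zero _ hβ0)]
  rw [h3, mul_pow, ← pow_mul, mul_comm l p, pow_mul, hβp]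
  simp [mul_comm]

/-- `x` is not a `p`-th power in `K`. -/
theorem kx_not_pow (D : KX K M p ζ x) (hp : p.Prime) (hζ : IsPrimitiveRoot ζ p) (y : Kˣ) :
    y ^ p ≠ x := by
  intro h
  have hinj := (algebraMap K M).injective
  have hp0 : NeZero p := ⟨hp.ne_zero⟩
  have hζ' : IsPrimitiveRoot (algebraMap K M ζ) p := hζ.map_of_injective hinj
  have hβ0 : (D.β : M) ≠ 0 := D.β.ne_zero
  have hβp : (D.β : M) ^ p = algebraMap K M x := by
    have := congrArg (fun u : Mˣ => (u : M)) D.pow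
    simpa [iU] using this
  have hy0 : algebraMap K M (y : K) ≠ 0 := by
    rw [Ne, map_eq_zero_iff _ hinj]
    exact y.ne_zero
  have h1 : ((D.β : M) / algebraMap K M y) ^ p = 1 := by
    rw [div_pow, hβp, ← map_pow, ← Units.val_pow_eq_pow_val, h, div_self]
    rw [Ne, map_eq_zero_iff _ hinj]
    exact x.ne_zero
  obtain ⟨l, -, hl⟩ := hζ'.eq_pow_of_pow_eq_one h1
  have h2 : (D.β : M) = algebraMap K M (ζ ^ l * y) := by
    rw [map_mul, map_pow, hl, div_mul_cancel₀ _ hy0]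
  have h3 : D.γ (D.β : M) = D.β := by
    rw [h2, AlgEquiv.commutes]
  rw [D.act] at h3
  have h4 : algebraMap K M ζ = 1 := by
    have h5 : algebraMap K M ζ * D.β = 1 * D.β := by rw [h3, one_mul]
    exact mul_right_cancel₀ hβ0 h5
  exact hζ'.ne_one hp.one_lt h4

/-- A homomorphism from `Gal(M/K)` with prescribed value at `γ`. -/
theorem kx_rep [FiniteDimensional K M] [IsGalois K M] (D : KX K M p ζ x) (hp : p.Prime)
    {H : Type} [Group H] (c : H) (hc : c ^ p = 1) : ∃ r : Gal(M/K) →* H, r D.γ = c := by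
  have hdvd : orderOf c ∣ orderOf D.γ := by
    rw [D.ord]
    exact orderOf_dvd_of_pow_eq_one hc
  exact ⟨monoidHomOfForallMemZpowers (kx_zpowers D) hdvd,
    monoidHomOfForallMemZpowers_apply_gen _ _⟩

theorem kx_ker (D : KX K M p ζ x) (hp : p.Prime) (k : ℕ) (h : D.γ ^ k = 1) : p ∣ k := by
  rw [← D.ord]
  exact orderOf_dvd_of_pow_eq_one h

section places

variable {K M : Type} [Field K] [NumberField K] [Field M] [NumberField M] [Algebra K M]
  [IsGalois K M] {p : ℕ} {ζ : K} {x : Kˣ}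

theorem kx_stab (D : KX K M p ζ x) (hp : p.Prime) (Q : Pl M)
    (h : D.γ • Q.asIdeal ≠ Q.asIdeal) (g : Gal(M/K)) (hg : g • Q.asIdeal = Q.asIdeal) : g = 1 := by
  obtain ⟨k, rfl⟩ := D.gen g
  have hγp : D.γ ^ p = 1 := orderOf_dvd_iff_pow_eq_one.1 (dvd_of_eq D.ord)
  by_cases hk : p ∣ k
  · obtain ⟨m, rfl⟩ := hk
    rw [pow_mul, hγp, one_pow]
  · exfalso
    apply h
    have hcop : Nat.Coprime k p := ((Nat.Prime.coprime_iff_not_dvd hp).2 hk).symm
    have hmem : D.γ ^ k ∈ MulAction.stabilizer Gal(M/K) Q.asIdeal := hg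
    have hγ : D.γ ∈ MulAction.stabilizer Gal(M/K) Q.asIdeal := by
      have h1 : ((k.gcd p : ℕ) : ℤ) = k * k.gcdA p + p * k.gcdB p := Nat.gcd_eq_gcd_ab k p
      rw [Nat.Coprime.gcd_eq_one hcop] at h1
      have h2 : D.γ = (D.γ ^ k) ^ (k.gcdA p) := by
        have h3 : D.γ ^ ((1 : ℕ) : ℤ) = (D.γ ^ k) ^ (k.gcdA p) * (D.γ ^ p) ^ (k.gcdB p) := by
          rw [h1, zpow_add, zpow_mul, zpow_mul, zpow_natCast, zpow_natCast]
        rw [hγp, one_zpow, mul_one, Nat.cast_one, zpow_one] at h3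
        exact h3
      rw [h2]
      exact zpow_mem hmem _
    exact hγ

theorem kx_spl_all (D : KX K M p ζ x) (hp : p.Prime) (v : Pl K) (h : Spl D.γ v) (Q : Pl M)
    (hQ : Ov Q v) (g : Gal(M/K)) (hg : g • Q.asIdeal = Q.asIdeal) : g = 1 := by
  obtain ⟨Q₀, hQ₀, hne⟩ := h
  obtain ⟨τ, hτ⟩ := ov_trans Q₀ Q v hQ₀ hQ
  have h1 : (τ⁻¹ * g * τ) • Q₀.asIdeal = Q₀.asIdeal := by
    rw [mul_smul, mul_smul, ← hτ, hg, hτ, inv_smul_smul]
  have h2 := kx_stab D hp Q₀ hne _ h1
  have h3 : g = τ * (τ⁻¹ * g * τ) * τ⁻¹ := by group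
  rw [h3, h2, mul_one, mul_inv_cancel]

theorem kx_nspl (D : KX K M p ζ x) (v : Pl K) (h : ¬ Spl D.γ v) (Q : Pl M)
    (hQ : Ov Q v) (g : Gal(M/K)) : g • Q.asIdeal = Q.asIdeal := by
  have h1 : D.γ • Q.asIdeal = Q.asIdeal := by
    by_contra hne
    exact h ⟨Q, hQ, hne⟩
  obtain ⟨k, rfl⟩ := D.gen g
  have h2 : D.γ ∈ MulAction.stabilizer Gal(M/K) Q.asIdeal := h1
  exact pow_mem h2 k

end places

end H38.TD
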