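import Pool.Agent.H38.TD.NtDefs
import Pool.Agent.H38.ML.CountGood
import Pool.Agent.H38.ML.IdealCount

/-!
# [H38 TD DCOUNT] Counting squarefree products of places (two theorems, 70-130 lines)

Finite sets `D` of places outside `S` with `∏_{v ∈ D} N v ≤ t`.
* `dcount_upper`: `D ↦ ∏_{v∈D} v.asIdeal` is injective into the nonzero ideals of norm `≤ t`
  (unique factorization), whose number is `≤ C t` for `t ≥ 1` (`cb_ideals K`, the structure `CB` in
  `H38/ML/CB.lean`).  In particular the set is finite.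
* `dcount_lower`: `count_good` (`H38/ML/CountGood.lean`) with `b = 1`, `F = fun _ => K` and the set
  `{v.asIdeal | v ∈ S}`: there are `≥ c X` good tuples `I` with `nrm I ≤ X`; `I 0` is a nonzero
  squarefree ideal not divisible by primes in `S`, so it is the product over a finite set `D` of
  places outside `S` (`D` = the places dividing `I 0`), and `nrm I = N (I 0) = ∏_{v∈D} N v`; the map
  `I ↦ D` is injective.
-/

open scoped NumberField Pointwise
open H38.ML

noncomputable section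

namespace H38.TD

/-- the ideal of a finite set of places -/
def dcI {K : Type} [Field K] [NumberField K] {S : Set (Pl K)} (D : Finset (Po K S)) :
    Ideal (𝓞 K) := ∏ v ∈ D, v.1.asIdeal

theorem dcI_norm {K : Type} [Field K] [NumberField K] {S : Set (Pl K)} (D : Finset (Po K S)) :
    Ideal.absNorm (dcI D) = ∏ v ∈ D, nv v.1 := by
  unfold dcI nv
  rw [map_prod]

theorem dcI_ne {K : Type} [Field K] [NumberField K] {S : Set (Pl K)} (D : Finset (Po K S)) :
    dcI D ≠ ⊥ := by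
  unfold dcI
  rw [← Ideal.zero_eq_bot, Finset.prod_ne_zero_iff]
  intro v _
  rw [Ideal.zero_eq_bot]
  exact v.1.ne_bot

theorem dcI_dvd {K : Type} [Field K] [NumberField K] {S : Set (Pl K)} (D : Finset (Po K S))
    (v : Po K S) : v.1.asIdeal ∣ dcI D ↔ v ∈ D := by
  constructor
  · intro h
    unfold dcI at h
    rw [(v.1.prime).dvd_finsetProd_iff] at h
    obtain ⟨w, hw, hvw⟩ := h
    have h1 : Associated v.1.asIdeal w.1.asIdeal :=
      (v.1.prime).associated_of_dvd (w.1.prime) hvw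
    rw [associated_iff_eq] at h1
    have h2 : v = w := Subtype.ext (IsDedekindDomain.HeightOneSpectrum.ext h1)
    rw [h2]
    exact hw
  · intro h
    unfold dcI
    exact Finset.dvd_prod_of_mem (fun v : Po K S => v.1.asIdeal) h

theorem dcI_inj {K : Type} [Field K] [NumberField K] {S : Set (Pl K)} {D D' : Finset (Po K S)}
    (h : dcI D = dcI D') : D = D' := by
  ext v
  rw [← dcI_dvd D v, ← dcI_dvd D' v, h]

theorem dcount_upper (K : Type) [Field K] [NumberField K] (S : Set (Pl K)) :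
    ∃ C : ℝ, 0 < C ∧ ∀ t : ℝ, 1 ≤ t →
      {D : Finset (Po K S) | ((∏ v ∈ D, nv v.1 : ℕ) : ℝ) ≤ t}.Finite ∧
      (({D : Finset (Po K S) | ((∏ v ∈ D, nv v.1 : ℕ) : ℝ) ≤ t}.ncard : ℕ) : ℝ) ≤ C * t := by
  have hcb := cb_ideals K
  obtain ⟨C, hC, hu⟩ := hcb.upper
  refine ⟨C, hC, fun t ht => ?_⟩
  have hmaps : ∀ D ∈ {D : Finset (Po K S) | ((∏ v ∈ D, nv v.1 : ℕ) : ℝ) ≤ t},
      dcI D ∈ {I : Ideal (𝓞 K) | I ≠ ⊥ ∧ ((Ideal.absNorm I : ℕ) : ℝ) ≤ t} := by
    intro D hD
    refine ⟨dcI_ne D, ?_⟩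
    rw [dcI_norm]
    exact hD
  have hinj : Set.InjOn (fun D : Finset (Po K S) => dcI D)
      {D : Finset (Po K S) | ((∏ v ∈ D, nv v.1 : ℕ) : ℝ) ≤ t} :=
    fun D _ D' _ h => dcI_inj h
  have hfin : {D : Finset (Po K S) | ((∏ v ∈ D, nv v.1 : ℕ) : ℝ) ≤ t}.Finite := by
    refine Set.Finite.of_finite_image (f := fun D : Finset (Po K S) => dcI D)
      ((hcb.fin t).subset ?_) hinj
    rintro _ ⟨D, hD, rfl⟩
    exact hmaps D hD
  refine ⟨hfin, ?_⟩
  have h1 : {D : Finset (Po K S) | ((∏ v ∈ D, nv v.1 : ℕ) : ℝ) ≤ t}.ncard ≤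
      {I : Ideal (𝓞 K) | I ≠ ⊥ ∧ ((Ideal.absNorm I : ℕ) : ℝ) ≤ t}.ncard :=
    Set.ncard_le_ncard_of_injOn (fun D : Finset (Po K S) => dcI D) hmaps hinj (hcb.fin t)
  rw [← cg_ncard] at h1
  have h2 := hu t ht
  rw [pow_zero, mul_one] at h2
  refine le_trans ?_ h2
  exact_mod_cast h1

open Classical in
/-- the places outside `S` dividing an ideal -/
def dcD {K : Type} [Field K] [NumberField K] (S : Set (Pl K)) (I : Ideal (𝓞 K)) :
    Finset (Po K S) :=
  if h : {v : Po K S | v.1.asIdeal ∣ I}.Finite then h.toFinset else ∅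

theorem mem_dcD {K : Type} [Field K] [NumberField K] (S : Set (Pl K)) {I : Ideal (𝓞 K)}
    (hI : I ≠ ⊥) (v : Po K S) : v ∈ dcD S I ↔ v.1.asIdeal ∣ I := by
  have hfin : {v : Po K S | v.1.asIdeal ∣ I}.Finite := by
    have h1 := Ideal.finite_factors (I := I) (by rwa [Ideal.zero_eq_bot])
    refine Set.Finite.of_finite_image (f := fun v : Po K S => v.1) (h1.subset ?_) ?_
    · rintro _ ⟨v, hv, rfl⟩
      exact hv
    · intro v _ v' _ h
      exact Subtype.ext h
  unfold dcD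
  rw [dif_pos hfin, Set.Finite.mem_toFinset]
  exact Iff.rfl

theorem dcI_dcD {K : Type} [Field K] [NumberField K] (S : Set (Pl K)) {I : Ideal (𝓞 K)}
    (hI : I ≠ ⊥) (hS : ∀ v : Pl K, v.asIdeal ∣ I → v ∉ S)
    (hsq : ∀ V : Ideal (𝓞 K), V.IsPrime → ¬ V ^ 2 ∣ I) : dcI (dcD S I) = I := by
  classical
  have hdvd : dcI (dcD S I) ∣ I := by
    unfold dcI
    have h1 : ∏ v ∈ dcD S I, v.1.asIdeal =
        ∏ P ∈ (dcD S I).image (fun v : Po K S => v.1.asIdeal), P := by
      rw [Finset.prod_image]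
      intro v _ v' _ h
      exact Subtype.ext (IsDedekindDomain.HeightOneSpectrum.ext h)
    rw [h1]
    apply Finset.prod_primes_dvd
    · intro P hP
      rw [Finset.mem_image] at hP
      obtain ⟨v, _, rfl⟩ := hP
      exact v.1.prime
    · intro P hP
      rw [Finset.mem_image] at hP
      obtain ⟨v, hv, rfl⟩ := hP
      exact (mem_dcD S hI v).1 hv
  obtain ⟨J, hJ⟩ := hdvd
  by_cases hJ1 : J = ⊤
  · rw [hJ1, ← Ideal.one_eq_top, mul_one] at hJ
    exact hJ.symm
  · exfalso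
    obtain ⟨P, hPmax, hJP⟩ := Ideal.exists_le_maximal J hJ1
    have hPJ : P ∣ J := Ideal.dvd_iff_le.2 hJP
    have hPI : P ∣ I := by
      rw [hJ]
      exact Dvd.dvd.mul_left hPJ _
    have hP0 : P ≠ ⊥ := by
      intro h
      rw [h, ← Ideal.zero_eq_bot, zero_dvd_iff, Ideal.zero_eq_bot] at hPI
      exact hI hPI
    let v : Pl K := ⟨P, hPmax.isPrime, hP0⟩
    have hv : v ∉ S := hS v hPI
    have hvD : (⟨v, hv⟩ : Po K S) ∈ dcD S I := (mem_dcD S hI ⟨v, hv⟩).2 hPI
    have hvd : P ∣ dcI (dcD S I) := (dcI_dvd (dcD S I) ⟨v, hv⟩).2 hvD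
    apply hsq P hPmax.isPrime
    rw [hJ, pow_two]
    exact mul_dvd_mul hvd hPJ

theorem dcount_lower (K : Type) [Field K] [NumberField K] (S : Set (Pl K)) (hS : S.Finite) :
    ∃ c : ℝ, 0 < c ∧ ∃ t₀ : ℝ, ∀ t : ℝ, t₀ ≤ t →
      c * t ≤ (({D : Finset (Po K S) | ((∏ v ∈ D, nv v.1 : ℕ) : ℝ) ≤ t}.ncard : ℕ) : ℝ) := by
  classical
  obtain ⟨C, hC, hup⟩ := dcount_upper K S
  obtain ⟨c, hc, X₀, hl⟩ := count_good (K := K) (b := 1) (F := fun _ => K) one_pos
    ((fun v : Pl K => v.asIdeal) '' S) (hS.image _)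
  refine ⟨c, hc, max X₀ 1, fun t ht => ?_⟩
  obtain ⟨Ts, hTs, hcard⟩ := hl t ((le_max_left _ _).trans ht)
  rw [Nat.sub_self, pow_zero, mul_one] at hcard
  refine hcard.trans ?_
  obtain ⟨hfin, -⟩ := hup t ((le_max_right _ _).trans ht)
  have hgood : ∀ I ∈ Ts, I 0 ≠ ⊥ ∧ dcI (dcD S (I 0)) = I 0 := by
    intro I hI
    obtain ⟨hG, -⟩ := hTs I hI
    have hne : I 0 ≠ ⊥ := hG.ne 0
    refine ⟨hne, dcI_dcD S hne ?_ ?_⟩
    · intro v hv hvS
      have h1 := hG.notMem 0 v.asIdeal v.isPrime hv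
      apply h1
      refine ⟨v, hvS, ?_⟩
      ext x
      rw [Ideal.under_def, Ideal.mem_comap]
      exact Iff.rfl
    · intro V hV hV2
      exact hG.sq 0 V hV hV2
  rw [Set.ncard_eq_toFinset_card _ hfin]
  have h1 : Ts.card ≤ hfin.toFinset.card := by
    apply Finset.card_le_card_of_injOn (fun I => dcD S (I 0))
    · intro I hI
      rw [Finset.mem_coe, Set.Finite.mem_toFinset]
      have h2 := (hgood I hI).2
      have h3 := (hTs I hI).2
      have h4 : nrm I = Ideal.absNorm (I 0) := by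
        unfold nrm
        rw [Fin.prod_univ_one]
      rw [h4, ← h2, dcI_norm] at h3
      exact h3
    · intro I hI I' hI' h
      have h2 := (hgood I hI).2
      have h3 := (hgood I' hI').2
      have h4 : dcD S (I 0) = dcD S (I' 0) := h
      have h5 : I 0 = I' 0 := by rw [← h2, ← h3, h4]
      funext i
      have hi : i = 0 := Subsingleton.elim _ _
      rw [hi]
      exact h5
  exact_mod_cast h1

end H38.TD
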