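import Pool.Agent.H38.TD.ValG

/-!
# [H38 TD FGU] `T`-units are finitely generated (40-80 lines)

`T` a finite set of places of `K`.  The unit group `(𝓞 M)ˣ` is finitely generated (Dirichlet, Mathlib:
search `Units` `FG`, e.g. `NumberField.Units.instFGUnits...` / `Monoid.FG (𝓞 K)ˣ`; or from
`NumberField.Units.basisModTorsion` and finiteness of the torsion).  The homomorphism
`TU K M T → (W → Multiplicative ℤ)`, `e ↦ (od Q e)_{Q ∈ W}`, `W` the finite set of places of `M` over
`T` (`ov_finite`), has kernel the image of `(𝓞 M)ˣ` (`exists_unit`), and its range is a subgroup of a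
finitely generated abelian group, hence finitely generated.  So `TU K M T` is finitely generated
(extension of f.g. by f.g.: `Group.fg_of_...`, or with `Additive` and
`Module.Finite ℤ`: `Module.Finite.of_submodule_quotient`, `ℤ` is Noetherian).
`tk_fg`: the same for `K` (or apply the first with `M = K`, `iU_mem_TU_iff`).
-/

open scoped NumberField Pointwise
open H38.ML

noncomputable section

namespace H38.TD

theorem tu_fg (K M : Type) [Field K] [NumberField K] [Field M] [NumberField M] [Algebra K M]
    (T : Set (Pl K)) (hT : T.Finite) : Group.FG (TU K M T) := by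
  classical
  let W : Type := {Q : Pl M // ∃ v ∈ T, Ov Q v}
  have hWfin : {Q : Pl M | ∃ v ∈ T, Ov Q v}.Finite := by
    have h1 : {Q : Pl M | ∃ v ∈ T, Ov Q v} = ⋃ v ∈ T, {Q : Pl M | Ov Q v} := by
      ext Q
      simp
    rw [h1]
    exact hT.biUnion fun v _ => ov_finite v
  have hW : Finite W := hWfin.to_subtype
  let f : Additive (TU K M T) →+ (W → ℤ) :=
    AddMonoidHom.mk' (fun e w => od w.1 ((Additive.toMul e : TU K M T) : Mˣ)) (by
      intro a b
      funext w
      rw [Pi.add_apply, toMul_add, Subgroup.coe_mul, od_mul])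
  let coeU : (𝓞 M)ˣ →* Mˣ := Units.map (algebraMap (𝓞 M) M : 𝓞 M →* M)
  have hcoe : ∀ u : (𝓞 M)ˣ, ∀ Q : Pl M, od Q (coeU u) = 0 := by
    intro u Q
    exact od_unit Q u (coeU u) rfl
  let g0 : (𝓞 M)ˣ →* TU K M T := coeU.codRestrict (TU K M T) (fun u Q _ => hcoe u Q)
  let g : Additive (𝓞 M)ˣ →+ Additive (TU K M T) := MonoidHom.toAdditive g0
  have hker : (⊤ : Submodule ℤ (Additive (TU K M T))) ⊓ LinearMap.ker f.toIntLinearMap =
      LinearMap.range g.toIntLinearMap := by
    rw [top_inf_eq]
    ext e
    constructor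
    · intro he
      have he1 : f e = 0 := he
      have he2 : ∀ Q : Pl M, od Q ((Additive.toMul e : TU K M T) : Mˣ) = 0 := by
        intro Q
        by_cases hQ : ∃ v ∈ T, Ov Q v
        · exact congrFun he1 ⟨Q, hQ⟩
        · push Not at hQ
          exact (Additive.toMul e : TU K M T).2 Q hQ
      obtain ⟨u, hu⟩ := exists_unit _ he2
      refine ⟨Additive.ofMul u, ?_⟩
      have h3 : g0 u = (Additive.toMul e : TU K M T) := by
        apply Subtype.ext
        apply Units.ext
        exact hu
      change Additive.ofMul (g0 u) = e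
      rw [h3]
      rfl
    · rintro ⟨u, rfl⟩
      change f (g u) = 0
      funext w
      exact hcoe (Additive.toMul u) w.1
  have hfin : Module.Finite ℤ (Additive (TU K M T)) := by
    refine ⟨Submodule.fg_of_fg_map_of_fg_inf_ker f.toIntLinearMap ?_ ?_⟩
    · exact IsNoetherian.noetherian _
    · rw [hker]
      exact Submodule.fg_range _
  rw [GroupFG.iff_add_fg, ← Module.Finite.iff_addGroup_fg]
  exact hfin

theorem tk_fg (K : Type) [Field K] [NumberField K] (T : Set (Pl K)) (hT : T.Finite) :
    Group.FG (TK K T) := by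
  have h1 : TK K T = TU K K T := by
    ext f
    rw [← iU_mem_TU_iff (M := K)]
    have h2 : iU K K f = f := by
      apply Units.ext
      rfl
    rw [h2]
  rw [h1]
  exact tu_fg K K T hT

end H38.TD
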