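import Pool.Agent.H38.TD.Cyc
import Pool.Agent.H38.TD.AG2

/-!
# The Galois action on `T`-units (complete)
-/

open scoped NumberField Pointwise
open H38.ML

noncomputable section

namespace H38.TD

variable {K M : Type} [Field K] [NumberField K] [Field M] [NumberField M] [Algebra K M]

theorem gU_inv_mul (g : Gal(M/K)) (e : Mˣ) : gU g⁻¹ (gU g e) = e := by
  rw [← gU_mul, inv_mul_cancel]
  rfl

/-- The automorphism of the group of `T`-units induced by `g`. -/
def gT (T : Set (Pl K)) (g : Gal(M/K)) : TU K M T ≃* TU K M T where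
  toFun e := ⟨gU g e, gU_mem_TU T g e e.2⟩
  invFun e := ⟨gU g⁻¹ e, gU_mem_TU T g⁻¹ e e.2⟩
  left_inv e := Subtype.ext (gU_inv_mul g _)
  right_inv e := Subtype.ext (by
    have h := gU_inv_mul g⁻¹ (e : Mˣ)
    rwa [inv_inv] at h)
  map_mul' a b := Subtype.ext (map_mul (gU g) _ _)

theorem gT_coe (T : Set (Pl K)) (g : Gal(M/K)) (e : TU K M T) :
    ((gT T g e : TU K M T) : Mˣ) = gU g (e : Mˣ) := rfl

theorem gT_pow_coe (T : Set (Pl K)) (g : Gal(M/K)) (k : ℕ) (e : TU K M T) :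
    (((gT T g ^ k : MulAut (TU K M T)) e : TU K M T) : Mˣ) = gU (g ^ k) (e : Mˣ) := by
  induction k generalizing e with
  | zero => rw [pow_zero, pow_zero]; rfl
  | succ k ih =>
    rw [pow_succ, pow_succ, gU_mul, MulAut.mul_apply, ih]
    rfl

/-- The norm in `la_abs` is the norm of `M/K`. -/
theorem nh_gT [IsGalois K M] {p : ℕ} {ζ : K} {x : Kˣ} (D : KX K M p ζ x) (hp : p.Prime)
    (T : Set (Pl K)) (e : TU K M T) :
    ((nh (gT T D.γ) p e : TU K M T) : Mˣ) = iU K M (nU K M (e : Mˣ)) := by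
  rw [iU_nU, kx_prod D hp]
  change ((∏ k ∈ Finset.range p, (gT T D.γ ^ k : MulAut (TU K M T)) e : TU K M T) : Mˣ) = _
  rw [Subgroup.val_finsetProd]
  exact Finset.prod_congr rfl fun k _ => gT_pow_coe T D.γ k e

end H38.TD
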