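import Pool.Agent.H38.TD.Defs
import Pool.Agent.H38.TD.Grp1

/-!
# [H38 TD GRP2] Structure of `P` (two theorems, 100-160 lines, finite group theory)

`P` a finite `p`-group, `A₀` a commutative subgroup of index `p`, `P` generated by its centre and the
elements with `g^p = 1`, `P` not commutative.

* `grp2`: `A₀` is normal (`Subgroup.normal_of_index_eq_minFac_card` or: a subgroup of index `p` in a
  `p`-group; Mathlib: `IsPGroup`… `Subgroup.IsMaximal.normal`/`Sylow`).  The centre is contained in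
  `A₀` (if `z ∉ A₀` is central then `P = A₀ ⟨z⟩` is commutative).  If all elements with `g^p = 1` were in
  `A₀` then `P = A₀`, impossible; let `c ∉ A₀`, `c^p = 1`.  `A = A₀` (with the commutative group
  structure), `j` the inclusion, `θ` = conjugation by `c` (`MulAut.conjNormal c`).  `gen`: `P/A₀` has
  order `p` and is generated by the class of `c`.  `notin`: `c^k ∈ A₀` implies `p ∣ k`.
  `hgen`: let `B ≤ A` be the subgroup generated by `ker N`, `fx θ`, `tp`.  It is stable under `θ`, so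
  `j(B)⟨c⟩` is a subgroup; it contains the centre (`⊆ j(fx θ)`), the elements `j a` with
  `a^p = 1`, and the elements `g = j a c^k` with `p ∤ k`, `g^p = 1`: here
  `1 = g^p = j(N a)` (as in GRP1), `a ∈ ker N`.  So `j(B)⟨c⟩ = P` and `B = A`.
* `grp2z`: `θ ≠ 1` because `P` is not commutative.  Let `I = {θ b / b}`, a nontrivial `θ`-stable
  subgroup of the `p`-group `A`, so (`θ` acts on the `p`-group `I` through a group of order `p`; number
  of fixed points divisible by `p`) there is `z ∈ I`, `z ≠ 1`, `θ z = z`; replace `z` by a power with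
  `z^p = 1`.  `z = θ b/b`, `j z = c j(b) c⁻¹ j(b)⁻¹` is a commutator, so it lies in the Frattini
  subgroup of the `p`-group `P` and can be removed from any generating set: let `H ⊔ ⟨j z⟩ = ⊤`.
  `j z` is central, so `H` is normal (normalized by `H` and by `j z`), `P/H` is cyclic (generated by
  the image of `j z`), hence commutative, so the commutator `j z ∈ H`, `H = ⊤`.
-/

noncomputable section

namespace H38.TD

theorem grpb_rep {P : Type} [Group P] {p : ℕ} (hp : p.Prime) (A₀ : Subgroup P) [A₀.Normal]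
    (hi : A₀.index = p) (c : P) (hc : c ∉ A₀) (g : P) : ∃ a ∈ A₀, ∃ k : ℕ, g = a * c ^ k := by
  have : Fact p.Prime := ⟨hp⟩
  have hcard : Nat.card (P ⧸ A₀) = p := hi
  have hc1 : (QuotientGroup.mk c : P ⧸ A₀) ≠ 1 := by
    intro h
    exact hc ((QuotientGroup.eq_one_iff c).1 h)
  obtain ⟨k, hk⟩ := mem_powers_of_prime_card hcard (g' := (QuotientGroup.mk g : P ⧸ A₀)) hc1
  refine ⟨g * (c ^ k)⁻¹, ?_, k, by rw [inv_mul_cancel_right]⟩
  rw [← QuotientGroup.eq_one_iff, QuotientGroup.mk_mul, QuotientGroup.mk_inv,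
    QuotientGroup.mk_pow, ← hk, mul_inv_cancel]

theorem grpb_pow_mem {P : Type} [Group P] {p : ℕ} (hp : p.Prime) (A₀ : Subgroup P) [A₀.Normal]
    (hi : A₀.index = p) (c : P) (hc : c ∉ A₀) (k : ℕ) (h : c ^ k ∈ A₀) : p ∣ k := by
  have : Fact p.Prime := ⟨hp⟩
  have hcard : Nat.card (P ⧸ A₀) = p := hi
  have hc1 : (QuotientGroup.mk c : P ⧸ A₀) ≠ 1 := by
    intro h
    exact hc ((QuotientGroup.eq_one_iff c).1 h)
  have h1 : orderOf (QuotientGroup.mk c : P ⧸ A₀) = p := by
    apply orderOf_eq_prime _ hc1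
    rw [← hcard]
    exact pow_card_eq_one'
  rw [← h1]
  apply orderOf_dvd_of_pow_eq_one
  rw [← QuotientGroup.mk_pow]
  exact (QuotientGroup.eq_one_iff _).2 h

theorem grpb_gen {A P : Type} [CommGroup A] [Group P] {p : ℕ} (hp : p.Prime) (pd : PD p A P)
    (hcen : Subgroup.center P ≤ pd.j.range)
    (hgen : Subgroup.center P ⊔ Subgroup.closure {g : P | g ^ p = 1} = ⊤) :
    Subgroup.closure (((nh pd.θ p).ker : Set A) ∪ (fx pd.θ : Set A) ∪ (tp A p : Set A)) = ⊤ := by
  have hθ := grpa_pd_theta_p pd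
  set S : Set A := ((nh pd.θ p).ker : Set A) ∪ (fx pd.θ : Set A) ∪ (tp A p : Set A) with hS
  set B := Subgroup.closure S with hB
  have hstab : ∀ a ∈ B, pd.θ a ∈ B := by
    have h1 : B ≤ B.comap (pd.θ : A →* A) := by
      rw [hB, Subgroup.closure_le]
      intro a ha
      rw [SetLike.mem_coe, Subgroup.mem_comap]
      apply Subgroup.subset_closure
      rcases ha with (ha | ha) | ha
      · left; left
        rw [SetLike.mem_coe, MonoidHom.mem_ker] at ha ⊢
        rw [← ha]
        exact grpa_nh_theta pd.θ hθ a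
      · left; right
        have h2 : pd.θ a = a := ha
        show pd.θ (pd.θ a) = pd.θ a
        rw [h2]
        exact h2
      · right
        have h2 : a ∈ (powMonoidHom p : A →* A).ker := ha
        show pd.θ a ∈ (powMonoidHom p : A →* A).ker
        rw [MonoidHom.mem_ker, powMonoidHom_apply] at h2 ⊢
        rw [← map_pow, h2, map_one]
    intro a ha
    exact h1 ha
  have hstabk : ∀ (k : ℕ), ∀ a ∈ B, (pd.θ ^ k : MulAut A) a ∈ B := by
    intro k
    induction k with
    | zero => intro a ha; simpa using ha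
    | succ k ih =>
      intro a ha
      rw [pow_succ', MulAut.mul_apply]
      exact hstab _ (ih a ha)
  have hinvc : ∀ k : ℕ, (pd.c ^ k)⁻¹ = pd.c ^ (k * (p - 1)) := by
    intro k
    rw [inv_eq_iff_mul_eq_one, ← pow_add]
    have : k + k * (p - 1) = p * k := by
      have h1 := hp.one_lt
      obtain ⟨q, rfl⟩ : ∃ q, p = q + 1 := ⟨p - 1, by omega⟩
      rw [Nat.add_sub_cancel]
      ring
    rw [this, pow_mul, pd.cp, one_pow]
  let Q : Subgroup P :=
    { carrier := {g | ∃ b ∈ B, ∃ k : ℕ, g = pd.j b * pd.c ^ k}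
      one_mem' := ⟨1, one_mem _, 0, by simp⟩
      mul_mem' := by
        rintro x y ⟨b, hb, k, rfl⟩ ⟨b', hb', k', rfl⟩
        refine ⟨b * (pd.θ ^ k : MulAut A) b', mul_mem hb (hstabk k b' hb'), k + k', ?_⟩
        rw [mul_assoc, ← mul_assoc (pd.c ^ k), grpa_pd_conj_pow, map_mul, pow_add, mul_assoc,
          mul_assoc]
      inv_mem' := by
        rintro x ⟨b, hb, k, rfl⟩
        refine ⟨(pd.θ ^ (k * (p - 1)) : MulAut A) b⁻¹, hstabk _ _ (inv_mem hb), k * (p - 1), ?_⟩
        rw [mul_inv_rev, hinvc, ← map_inv, grpa_pd_conj_pow] }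
  have hQ : Q = ⊤ := by
    rw [eq_top_iff, ← hgen]
    apply sup_le
    · intro z hz
      obtain ⟨a, rfl⟩ := hcen hz
      refine ⟨a, ?_, 0, by simp⟩
      apply Subgroup.subset_closure
      left; right
      show pd.θ a = a
      apply pd.jinj
      rw [← pd.conj, (Subgroup.mem_center_iff.1 hz pd.c), mul_inv_cancel_right]
    · rw [Subgroup.closure_le]
      intro g hg
      have hg1 : g ^ p = 1 := hg
      obtain ⟨a, k, h⟩ := pd.gen g
      by_cases hk : p ∣ k
      · obtain ⟨m, rfl⟩ := hk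
        rw [pow_mul, pd.cp, one_pow, mul_one] at h
        refine ⟨a, ?_, 0, by rw [h]; simp⟩
        apply Subgroup.subset_closure
        right
        show a ∈ (powMonoidHom p : A →* A).ker
        rw [MonoidHom.mem_ker, powMonoidHom_apply]
        apply pd.jinj
        rw [map_pow, ← h, hg1, map_one]
      · refine ⟨a, ?_, k, h⟩
        apply Subgroup.subset_closure
        left; left
        rw [SetLike.mem_coe, MonoidHom.mem_ker]
        apply pd.jinj
        rw [← grpa_pd_pow_p hp pd k hk, ← h, hg1, map_one]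
  rw [eq_top_iff]
  intro a _
  have h1 : pd.j a ∈ Q := by rw [hQ]; exact Subgroup.mem_top _
  obtain ⟨b, hb, k, h2⟩ := h1
  have h3 : pd.c ^ k ∈ pd.j.range := by
    refine ⟨b⁻¹ * a, ?_⟩
    rw [map_mul, map_inv, h2, inv_mul_cancel_left]
  obtain ⟨m, rfl⟩ := pd.notin k h3
  rw [pow_mul, pd.cp, one_pow, mul_one] at h2
  rw [pd.jinj h2]
  exact hb

theorem grp2 {P : Type} [Group P] [Finite P] {p : ℕ} (hp : p.Prime) (hP : IsPGroup p P)
    (A₀ : Subgroup P) (hi : A₀.index = p) (hcomm : ∀ a ∈ A₀, ∀ b ∈ A₀, a * b = b * a)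
    (hgen : Subgroup.center P ⊔ Subgroup.closure {g : P | g ^ p = 1} = ⊤)
    (hnc : ∃ a b : P, a * b ≠ b * a) :
    ∃ (A : Type) (_ : CommGroup A) (_ : Finite A) (pd : PD p A P),
      Subgroup.closure (((nh pd.θ p).ker : Set A) ∪ (fx pd.θ : Set A) ∪ (tp A p : Set A)) = ⊤ := by
  have hFp : Fact p.Prime := ⟨hp⟩
  -- normality
  have hnorm : A₀.Normal := by
    apply Subgroup.normal_of_index_eq_minFac_card
    obtain ⟨n, hn⟩ := IsPGroup.iff_card.1 hP
    have hn0 : n ≠ 0 := by
      rintro rfl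
      have h1 : A₀.index ∣ Nat.card P := Subgroup.index_dvd_card A₀
      rw [hi, hn, pow_zero, Nat.dvd_one] at h1
      exact hp.one_lt.ne' h1
    rw [hi, hn, Nat.Prime.pow_minFac hp hn0]
  have hcen : Subgroup.center P ≤ A₀ := by
    intro z hz
    by_contra hzA
    obtain ⟨a, b, hab⟩ := hnc
    apply hab
    obtain ⟨x, hx, k, rfl⟩ := grpb_rep hp A₀ hi z hzA a
    obtain ⟨y, hy, l, rfl⟩ := grpb_rep hp A₀ hi z hzA b
    have hzk : ∀ (k : ℕ) (w : P), z ^ k * w = w * z ^ k := by
      intro k w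
      have : z ^ k ∈ Subgroup.center P := pow_mem hz k
      exact (Subgroup.mem_center_iff.1 this w).symm
    calc x * z ^ k * (y * z ^ l) = x * (z ^ k * y) * z ^ l := by group
      _ = x * (y * z ^ k) * z ^ l := by rw [hzk]
      _ = (x * y) * (z ^ k * z ^ l) := by group
      _ = (y * x) * (z ^ l * z ^ k) := by rw [hcomm x hx y hy, hzk]
      _ = y * (x * z ^ l) * z ^ k := by group
      _ = y * (z ^ l * x) * z ^ k := by rw [hzk]
      _ = y * z ^ l * (x * z ^ k) := by group
  have hex : ∃ c : P, c ∉ A₀ ∧ c ^ p = 1 := by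
    by_contra hcon
    push Not at hcon
    have h1 : Subgroup.center P ⊔ Subgroup.closure {g : P | g ^ p = 1} ≤ A₀ := by
      apply sup_le hcen
      rw [Subgroup.closure_le]
      intro g hg
      by_contra hgA
      exact hcon g hgA hg
    rw [hgen, top_le_iff] at h1
    rw [h1, Subgroup.index_top] at hi
    exact hp.one_lt.ne hi
  obtain ⟨c, hc, hcp⟩ := hex
  let instC : CommGroup A₀ :=
    { (inferInstance : Group A₀) with
      mul_comm := fun a b => Subtype.ext (hcomm a a.2 b b.2) }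
  have hfin : Finite A₀ := inferInstance
  let pd : @PD p A₀ P instC _ :=
    { θ := (MulAut.conjNormal c : MulAut A₀)
      j := A₀.subtype
      c := c
      jinj := Subtype.val_injective
      cp := hcp
      conj := fun a => rfl
      gen := fun g => by
        obtain ⟨a, ha, k, h⟩ := grpb_rep hp A₀ hi c hc g
        exact ⟨⟨a, ha⟩, k, h⟩
      notin := fun k hk => by
        obtain ⟨a, ha⟩ := hk
        apply grpb_pow_mem hp A₀ hi c hc k
        rw [← ha]
        exact a.2 }
  refine ⟨A₀, instC, hfin, pd, ?_⟩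
  refine grpb_gen hp pd ?_ hgen
  intro z hz
  exact ⟨⟨z, hcen hz⟩, rfl⟩

theorem grp2z {A P : Type} [CommGroup A] [Finite A] [Group P] [Finite P] {p : ℕ} (hp : p.Prime)
    (hP : IsPGroup p P) (pd : PD p A P) (hnc : ∃ a b : P, a * b ≠ b * a) :
    ∃ z : A, pd.θ z = z ∧ z ^ p = 1 ∧ z ≠ 1 ∧
      ∀ H : Subgroup P, H ⊔ Subgroup.zpowers (pd.j z) = ⊤ → H = ⊤ := by
  classical
  have hFp : Fact p.Prime := ⟨hp⟩
  have hθp := grpa_pd_theta_p pd
  have hA : IsPGroup p A := hP.of_injective pd.j pd.jinj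
  set I : Subgroup A := (grpa_dk pd.θ 1).range with hI
  have hIp : IsPGroup p I := hA.to_subgroup I
  have hdk : ∀ b, grpa_dk pd.θ 1 b = pd.θ b / b := by
    intro b
    show (pd.θ ^ 1 : MulAut A) b / b = _
    rw [pow_one]
  have hstab : ∀ x ∈ I, pd.θ x ∈ I := by
    rintro x ⟨b, rfl⟩
    refine ⟨pd.θ b, ?_⟩
    rw [hdk, hdk, map_div]
  -- I is not trivial
  have hI1 : Nat.card I ≠ 1 := by
    intro h
    have hbot : I = ⊥ := Subgroup.card_eq_one.1 h
    have hfix : ∀ b, pd.θ b = b := by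
      intro b
      have h1 : grpa_dk pd.θ 1 b ∈ I := ⟨b, rfl⟩
      rw [hbot, Subgroup.mem_bot, hdk, div_eq_one] at h1
      exact h1
    have hfixk : ∀ (k : ℕ) (b : A), (pd.θ ^ k : MulAut A) b = b := by
      intro k b
      rw [grpa_it_pow]
      exact Function.iterate_fixed (hfix b) k
    obtain ⟨a, b, hab⟩ := hnc
    apply hab
    obtain ⟨x, k, rfl⟩ := pd.gen a
    obtain ⟨y, l, rfl⟩ := pd.gen b
    have e : ∀ (x y : A) (k l : ℕ), pd.j x * pd.c ^ k * (pd.j y * pd.c ^ l) =
        pd.j (x * y) * pd.c ^ (k + l) := by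
      intro x y k l
      rw [mul_assoc, ← mul_assoc (pd.c ^ k), grpa_pd_conj_pow, hfixk, map_mul, pow_add, mul_assoc,
          mul_assoc]
    rw [e, e, mul_comm x y, add_comm k l]
  have hpI : p ∣ Nat.card I := by
    rcases hIp.card_eq_or_dvd with h | h
    · exact absurd h hI1
    · exact h
  -- a fixed point
  have hfix : ∃ z ∈ I, z ≠ 1 ∧ pd.θ z = z := by
    let f : Function.End I := fun x => ⟨pd.θ x, hstab x x.2⟩
    have hfk : ∀ (k : ℕ) (x : I), (((f ^ k) x : I) : A) = (pd.θ ^ k : MulAut A) x := by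
      intro k
      induction k with
      | zero => intro x; rfl
      | succ k ih =>
        intro x
        rw [pow_succ', pow_succ', MulAut.mul_apply, ← ih]
        rfl
    have hf1 : f ^ p ^ 1 = 1 := by
      funext x
      apply Subtype.ext
      rw [hfk, pow_one, hθp]
      rfl
    have : Fintype I := Fintype.ofFinite I
    have h1 := Equiv.Perm.card_fixedPoints_modEq hf1
    have h2 : p ∣ Fintype.card (Function.fixedPoints f) := by
      rw [← Nat.modEq_zero_iff_dvd]
      refine h1.symm.trans ?_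
      rw [Nat.modEq_zero_iff_dvd, ← Nat.card_eq_fintype_card]
      exact hpI
    have hone : (1 : I) ∈ Function.fixedPoints f := by
      show f 1 = 1
      apply Subtype.ext
      show pd.θ ((1 : I) : A) = ((1 : I) : A)
      rw [OneMemClass.coe_one, map_one]
    have h3 : 1 < Fintype.card (Function.fixedPoints f) := by
      have h4 : 0 < Fintype.card (Function.fixedPoints f) :=
        Fintype.card_pos_iff.2 ⟨⟨1, hone⟩⟩
      exact lt_of_lt_of_le hp.one_lt (Nat.le_of_dvd h4 h2)
    obtain ⟨z, hz⟩ := Fintype.exists_ne_of_one_lt_card h3 ⟨1, hone⟩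
    refine ⟨((z : I) : A), (z : I).2, ?_, ?_⟩
    · intro h
      apply hz
      apply Subtype.ext
      apply Subtype.ext
      exact h
    · exact congrArg Subtype.val z.2
  obtain ⟨z0, hz0I, hz01, hz0⟩ := hfix
  have hpo : p ∣ orderOf z0 := by
    obtain ⟨k, hk⟩ := IsPGroup.iff_orderOf.1 hA z0
    rcases Nat.eq_zero_or_pos k with rfl | h
    · rw [pow_zero, orderOf_eq_one_iff] at hk
      exact absurd hk hz01
    · rw [hk]
      exact dvd_pow_self p (by omega)
  have hz1 := orderOf_pow_orderOf_div (orderOf_pos z0).ne' hpo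
  set z := z0 ^ (orderOf z0 / p) with hz
  have hzI : z ∈ I := pow_mem hz0I _
  have hzθ : pd.θ z = z := by rw [hz, map_pow, hz0]
  refine ⟨z, hzθ, ?_, ?_, ?_⟩
  · rw [← hz1]
    exact pow_orderOf_eq_one z
  · intro h
    rw [h, orderOf_one] at hz1
    exact hp.one_lt.ne hz1
  · intro H hH
    obtain ⟨b, hb⟩ := hzI
    rw [hdk] at hb
    have hcenter : pd.j z ∈ Subgroup.center P := by
      rw [Subgroup.mem_center_iff]
      intro g
      obtain ⟨a, k, rfl⟩ := pd.gen g
      rw [mul_assoc, grpa_pd_conj_pow, grpa_it_pow, Function.iterate_fixed hzθ k, ← mul_assoc,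
        ← map_mul, mul_comm a z, map_mul, mul_assoc]
    have hzn : (Subgroup.zpowers (pd.j z)).Normal := by
      have h1 : Subgroup.zpowers (pd.j z) ≤ Subgroup.center P := Subgroup.zpowers_le.2 hcenter
      constructor
      intro n hn g
      rw [Subgroup.mem_center_iff.1 (h1 hn) g, mul_inv_cancel_right]
      exact hn
    have hrep : ∀ g : P, ∃ h ∈ H, ∃ u ∈ Subgroup.center P, g = h * u := by
      intro g
      have h1 : g ∈ H ⊔ Subgroup.zpowers (pd.j z) := by rw [hH]; exact Subgroup.mem_top _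
      obtain ⟨y, hy, u, hu, h2⟩ := Subgroup.mem_sup_of_normal_right.1 h1
      exact ⟨y, hy, u, (Subgroup.zpowers_le.2 hcenter) hu, h2.symm⟩
    have hzH : pd.j z ∈ H := by
      obtain ⟨h1, hh1, u1, hu1, e1⟩ := hrep pd.c
      obtain ⟨h2, hh2, u2, hu2, e2⟩ := hrep (pd.j b)
      have e3 : pd.j z = pd.c * pd.j b * pd.c⁻¹ * (pd.j b)⁻¹ := by
        rw [pd.conj, ← hb, map_div, div_eq_mul_inv]
      have e4 : pd.j z = h1 * h2 * h1⁻¹ * h2⁻¹ := by
        rw [e3, e1, e2]
        have c1 : ∀ w : P, u1 * w = w * u1 := fun w => (Subgroup.mem_center_iff.1 hu1 w).symm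
        have c2 : ∀ w : P, u2 * w = w * u2 := fun w => (Subgroup.mem_center_iff.1 hu2 w).symm
        calc h1 * u1 * (h2 * u2) * (h1 * u1)⁻¹ * (h2 * u2)⁻¹
            = h1 * (u1 * (h2 * (u2 * (u1⁻¹ * (h1⁻¹ * (u2⁻¹ * h2⁻¹)))))) := by group
          _ = h1 * (h2 * (h1⁻¹ * h2⁻¹)) := by
            rw [c1, c2]
            have c3 : u1⁻¹ * (h1⁻¹ * (u2⁻¹ * h2⁻¹)) * u2 = u1⁻¹ * (h1⁻¹ * h2⁻¹) := by
              have : u2⁻¹ * h2⁻¹ * u2 = h2⁻¹ := by
                rw [mul_assoc, ← c2, inv_mul_cancel_left]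
              rw [mul_assoc, mul_assoc, this]
            rw [c3, mul_assoc h2, ← c1, mul_inv_cancel_left]
          _ = h1 * h2 * h1⁻¹ * h2⁻¹ := by group
      rw [e4]
      exact mul_mem (mul_mem (mul_mem hh1 hh2) (inv_mem hh1)) (inv_mem hh2)
    rw [← hH]
    exact (sup_eq_left.2 (Subgroup.zpowers_le.2 hzH)).symm

end H38.TD
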