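import Pool.Agent.H38.TD.Defs
import Pool.Agent.H38.TD.Grp1

/-!
# [H38 TD GRP3] The numerical condition in the second case (100-160 lines, finite group theory)

`A` a finite abelian `p`-group with an automorphism `θ`, `θ^p = 1`, `N = nh θ p`, `V = tp A p`
(a vector space over `𝔽_p`), `F = fx θ`, `A` generated by `ker N ∪ F ∪ V`.  Claim: either
`ker N ∪ F` generates `A`, or `2 (p-1) h p ≤ #V` and `#(F ∩ V) < #V`, where `h = #F/#range N`.

Suppose `B = ⟨ker N, F⟩ ≠ A`; then there is `v₀ ∈ V`, `v₀ ∉ B`.  Write `A` additively, `t = θ - 1`.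
(1) On `V`, `N = t^{p-1}` (`(X-1)^{p-1} ≡ 1 + X + ⋯ + X^{p-1}` mod `p`) and `t^p = 0`.
`N v₀ ≠ 0` since `v₀ ∉ ker N`.  `J = ` span of `v₀, t v₀, …, t^{p-1} v₀`, of dimension `p`
(independent because `t^{p-1} v₀ ≠ 0 = t^p v₀`), `J ∩ F = ⟨t^{p-1} v₀⟩`.
(2) `#(F ∩ V) ≤ p^{1-p} #V`, i.e. `p^{p-1} #(F ∩ V) ≤ #V`: the map `(J/(J∩F)) `: choose
`C = ⟨v₀, t v₀, …, t^{p-2} v₀⟩` (dimension `p - 1`); `C ∩ F = 0` (a nonzero element of `C` is
`t^i v₀ ·(unit) + higher`, `i ≤ p-2`, and `t` of it is nonzero); so `#C · #(F ∩ V) ≤ #V`, `#C = p^{p-1}`.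
In particular `#(F∩V) < #V`.
(3) `h ≤ #(F∩V)/p`, i.e. `p h ≤ #(F ∩ V)`: `range N ⊇ pF` (`N f = p f` for `f ∈ F`), `[F : pF] = #F[p] =
#(F ∩ V)` (`#(F/pF) = #F[p]` for a finite abelian group), and `N v₀ ∈ range N`, `N v₀ ∉ pF` (if
`N v₀ = p f = N f` with `f ∈ F` then `v₀ - f ∈ ker N`, `v₀ ∈ B`); so `[range N : pF] ≥ p`
(it is a power of `p`, or: `N v₀` has order `p` and generates a subgroup meeting `pF` trivially) and
`h = [F : range N] ≤ #(F∩V)/p`.
(4) `2 (p-1) h p ≤ 2 (p-1) #(F∩V) ≤ p^{p-1} #(F∩V) ≤ #V`: `2(p-1) ≤ p^{p-1}` for `p ≥ 2`.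
-/

noncomputable section

namespace H38.TD

theorem grpc_card_map {A : Type} [CommGroup A] [Finite A] (t : A →* A) (W : Subgroup A) :
    Nat.card W = Nat.card (W ⊓ t.ker : Subgroup A) * Nat.card (W.map t) := by
  rw [← Subgroup.relIndex_ker]
  have h1 := Subgroup.card_mul_index (t.ker.subgroupOf W)
  rw [← h1]
  congr 1
  rw [← Subgroup.inf_subgroupOf_left]
  exact Nat.card_congr (Subgroup.subgroupOfEquivOfLe inf_le_left).toEquiv

theorem grpc_poly {p : ℕ} (hp : p.Prime) : ∃ Q : Polynomial ℤ,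
    ∑ i ∈ Finset.range p, (Polynomial.X : Polynomial ℤ) ^ i =
      (Polynomial.X - 1) ^ (p - 1) + Polynomial.C (p : ℤ) * Q := by
  have : Fact p.Prime := ⟨hp⟩
  have h1 : Polynomial.C (p : ℤ) ∣ (∑ i ∈ Finset.range p, (Polynomial.X : Polynomial ℤ) ^ i) -
      (Polynomial.X - 1) ^ (p - 1) := by
    rw [Polynomial.C_dvd_iff_dvd_coeff]
    intro i
    rw [← ZMod.intCast_zmod_eq_zero_iff_dvd]
    have h2 := Polynomial.cyclotomic_mul_prime_eq_pow_of_not_dvd (ZMod p) (p := p) (n := 1)
      (fun h => hp.one_lt.ne' (Nat.dvd_one.1 h))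
    rw [one_mul, Polynomial.cyclotomic_prime, Polynomial.cyclotomic_one] at h2
    have h3 : ((∑ i ∈ Finset.range p, (Polynomial.X : Polynomial ℤ) ^ i) -
        (Polynomial.X - 1) ^ (p - 1)).map (Int.castRingHom (ZMod p)) = 0 := by
      simp only [Polynomial.map_sub, Polynomial.map_sum, Polynomial.map_pow, Polynomial.map_X,
        Polynomial.map_one, h2, sub_self]
    have h4 := congrArg (fun P => P.coeff i) h3
    simp only [Polynomial.coeff_map, Polynomial.coeff_zero, eq_intCast] at h4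
    exact h4
  obtain ⟨Q, hQ⟩ := h1
  exact ⟨Q, by rw [← hQ]; ring⟩

theorem grpc_N {A : Type} [CommGroup A] {p : ℕ} (hp : p.Prime) (θ : A ≃* A) (v : A)
    (hv : v ^ p = 1) : nh θ p v = (grpa_dk θ 1)^[p - 1] v := by
  let E := AddMonoid.End (Additive A)
  let θ' : AddMonoid.End (Additive A) := MonoidHom.toAdditive (θ : A →* A)
  let T : AddMonoid.End (Additive A) := MonoidHom.toAdditive (grpa_dk θ 1)
  have hT : T = θ' - 1 := by
    ext x
    change Additive.ofMul ((θ ^ 1 : MulAut A) x.toMul / x.toMul) =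
      Additive.ofMul (θ x.toMul / x.toMul)
    rw [pow_one]
  have hθk : ∀ (k : ℕ) (x : A), (θ' ^ k) (Additive.ofMul x) =
      Additive.ofMul ((θ ^ k : MulAut A) x) := by
    intro k
    induction k with
    | zero => intro x; rfl
    | succ k ih =>
      intro x
      rw [pow_succ', pow_succ', MulAut.mul_apply]
      show θ' ((θ' ^ k) (Additive.ofMul x)) = _
      rw [ih]
      rfl
  have hTk : ∀ (k : ℕ) (x : A), (T ^ k) (Additive.ofMul x) =
      Additive.ofMul ((grpa_dk θ 1)^[k] x) := by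
    intro k
    induction k with
    | zero => intro x; rfl
    | succ k ih =>
      intro x
      rw [pow_succ', Function.iterate_succ_apply']
      show T ((T ^ k) (Additive.ofMul x)) = _
      rw [ih]
      rfl
  obtain ⟨Q, hQ⟩ := grpc_poly hp
  have h1 := congrArg (fun P => (Polynomial.aeval θ' P : AddMonoid.End (Additive A))) hQ
  simp only [map_sum, map_pow, map_add, map_sub, map_mul, Polynomial.aeval_X, map_one,
    Polynomial.aeval_C] at h1
  rw [← hT] at h1
  have h2 := DFunLike.congr_fun h1 (Additive.ofMul v)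
  have h3 : ((∑ i ∈ Finset.range p, θ' ^ i : AddMonoid.End (Additive A))) (Additive.ofMul v) =
      Additive.ofMul (nh θ p v) := by
    have e : ((∑ i ∈ Finset.range p, θ' ^ i : AddMonoid.End (Additive A))) (Additive.ofMul v) =
        ∑ i ∈ Finset.range p, (θ' ^ i) (Additive.ofMul v) :=
      map_sum (AddMonoidHom.mk' (fun f : AddMonoid.End (Additive A) => f (Additive.ofMul v))
        (fun _ _ => rfl)) (fun i => θ' ^ i) (Finset.range p)
    rw [e]
    show _ = Additive.ofMul (∏ k ∈ Finset.range p, (θ ^ k : MulAut A) v)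
    rw [ofMul_prod]
    exact Finset.sum_congr rfl fun i _ => hθk i v
  rw [h3] at h2
  have h4 : ((T ^ (p - 1) + (algebraMap ℤ (AddMonoid.End (Additive A))) (p : ℤ) *
      (Polynomial.aeval θ') Q : AddMonoid.End (Additive A))) (Additive.ofMul v) =
      (T ^ (p - 1)) (Additive.ofMul v) := by
    have e : ((T ^ (p - 1) + (algebraMap ℤ (AddMonoid.End (Additive A))) (p : ℤ) *
      (Polynomial.aeval θ') Q : AddMonoid.End (Additive A))) (Additive.ofMul v) =
      (T ^ (p - 1)) (Additive.ofMul v) +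
        ((algebraMap ℤ (AddMonoid.End (Additive A))) (p : ℤ) : AddMonoid.End (Additive A))
          (((Polynomial.aeval θ') Q : AddMonoid.End (Additive A)) (Additive.ofMul v)) := rfl
    have e2 : ((algebraMap ℤ (AddMonoid.End (Additive A))) (p : ℤ) : AddMonoid.End (Additive A))
          (((Polynomial.aeval θ') Q : AddMonoid.End (Additive A)) (Additive.ofMul v)) = 0 := by
      rw [eq_intCast, Int.cast_natCast, AddMonoid.End.natCast_apply, ← map_nsmul, ← ofMul_pow, hv,
        ofMul_one, map_zero]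
    rw [e, e2, add_zero]
  rw [h4, hTk] at h2
  exact Additive.ofMul.injective h2

theorem grpc_chain {A : Type} [CommGroup A] [Finite A] {p : ℕ} (hp : p.Prime) (t : A →* A)
    (m : ℕ) : ∀ (W : Subgroup A) (v : A), (∀ x ∈ W, t x ∈ W) → v ∈ W → t^[m] v ≠ 1 →
      (t^[m] v) ^ p = 1 → t^[m + 1] v = 1 → p ^ (m + 1) ≤ Nat.card W := by
  have hFp : Fact p.Prime := ⟨hp⟩
  have hbig : ∀ (W : Subgroup A) (w : A), w ∈ W → w ≠ 1 → w ^ p = 1 → p ≤ Nat.card W := by
    intro W w hw hw1 hwp
    have h1 : orderOf w = p := orderOf_eq_prime hwp hw1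
    have h2 : orderOf w ∣ Nat.card W := by
      rw [← Subgroup.orderOf_mk w hw]
      exact orderOf_dvd_natCard _
    rw [← h1]
    exact Nat.le_of_dvd Nat.card_pos h2
  induction m with
  | zero =>
    intro W v _ hv h1 h2 _
    rw [zero_add, pow_one]
    exact hbig W v hv h1 h2
  | succ m ih =>
    intro W v hW hv h1 h2 h3
    rw [grpc_card_map t W, pow_succ, mul_comm]
    have hit : ∀ (k : ℕ) (x : A), x ∈ W → t^[k] x ∈ W := by
      intro k
      induction k with
      | zero => intro x hx; exact hx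
      | succ k ih =>
        intro x hx
        rw [Function.iterate_succ_apply']
        exact hW _ (ih x hx)
    apply Nat.mul_le_mul
    · apply hbig (W ⊓ t.ker) (t^[m + 1] v) _ h1 h2
      refine Subgroup.mem_inf.2 ⟨hit _ v hv, ?_⟩
      rw [MonoidHom.mem_ker, ← Function.iterate_succ_apply' t]
      exact h3
    · apply ih (W.map t) (t v)
      · rintro x ⟨y, hy, rfl⟩
        exact ⟨t y, hW y hy, rfl⟩
      · exact ⟨v, hv, rfl⟩
      · rw [← Function.iterate_succ_apply]; exact h1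
      · rw [← Function.iterate_succ_apply]; exact h2
      · rw [← Function.iterate_succ_apply]; exact h3

theorem grp3 {A : Type} [CommGroup A] [Finite A] {p : ℕ} (hp : p.Prime) (θ : A ≃* A)
    (hθ : ∀ a, (θ ^ p : MulAut A) a = a)
    (h : Subgroup.closure (((nh θ p).ker : Set A) ∪ (fx θ : Set A) ∪ (tp A p : Set A)) = ⊤) :
    Subgroup.closure (((nh θ p).ker : Set A) ∪ (fx θ : Set A)) = ⊤ ∨
      (Subgroup.closure (((nh θ p).ker : Set A) ∪ (fx θ : Set A) ∪ (tp A p : Set A)) = ⊤ ∧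
        2 * (p - 1) * (Nat.card (fx θ) / Nat.card (nh θ p).range) * p ≤
          Nat.card (tp A p) ∧
        Nat.card (fx θ ⊓ tp A p : Subgroup A) < Nat.card (tp A p)) := by
  have hFp : Fact p.Prime := ⟨hp⟩
  by_cases hB : Subgroup.closure (((nh θ p).ker : Set A) ∪ (fx θ : Set A)) = ⊤
  · left; exact hB
  right
  set B := Subgroup.closure (((nh θ p).ker : Set A) ∪ (fx θ : Set A)) with hBd
  have hkerB : (nh θ p).ker ≤ B := by
    intro x hx
    exact Subgroup.subset_closure (Or.inl hx)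
  have hfxB : fx θ ≤ B := by
    intro x hx
    exact Subgroup.subset_closure (Or.inr hx)
  -- an element of order p outside B
  have hv : ∃ v : A, v ^ p = 1 ∧ v ∉ B := by
    by_contra hcon
    push Not at hcon
    apply hB
    rw [eq_top_iff, ← h, Subgroup.closure_le]
    rintro x ((hx | hx) | hx)
    · exact hkerB hx
    · exact hfxB hx
    · have h2 : x ∈ (powMonoidHom p : A →* A).ker := hx
      rw [MonoidHom.mem_ker, powMonoidHom_apply] at h2
      exact hcon x h2
  obtain ⟨v, hvp, hvB⟩ := hv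
  have mem_tp : ∀ x : A, x ∈ tp A p ↔ x ^ p = 1 := by
    intro x
    show x ∈ (powMonoidHom p : A →* A).ker ↔ _
    rw [MonoidHom.mem_ker, powMonoidHom_apply]
  have hNfix : ∀ a : A, θ (nh θ p a) = nh θ p a := by
    intro a
    have e : θ (nh θ p a) = nh θ p (θ a) := by
      show θ (∏ k ∈ Finset.range p, (θ ^ k : MulAut A) a) =
        ∏ k ∈ Finset.range p, (θ ^ k : MulAut A) (θ a)
      rw [map_prod]
      refine Finset.prod_congr rfl fun k _ => ?_
      show (θ * θ ^ k : MulAut A) a = (θ ^ k * θ : MulAut A) a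
      rw [← pow_succ', ← pow_succ]
    rw [e, grpa_nh_theta θ hθ a]
  set t := grpa_dk θ 1 with ht
  have htker : t.ker = fx θ := grpa_dk_ker hp θ hθ 1 (fun h => hp.one_lt.ne' (Nat.dvd_one.1 h))
  have htfix : ∀ x, θ x = x → t x = 1 := by
    intro x hx
    rw [← MonoidHom.mem_ker, htker]
    exact hx
  set w := nh θ p v with hw
  have hwt : w = t^[p - 1] v := grpc_N hp θ v hvp
  have hw1 : w ≠ 1 := fun h => hvB (hkerB (MonoidHom.mem_ker.2 h))
  have hwp : w ^ p = 1 := by rw [hw, ← map_pow, hvp, map_one]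
  have hwfix : θ w = w := hNfix v
  have htw : t w = 1 := htfix w hwfix
  have hp2 : 2 ≤ p := hp.two_le
  -- step 2
  have htpstab : ∀ x ∈ tp A p, t x ∈ tp A p := by
    intro x hx
    rw [mem_tp] at hx ⊢
    rw [← map_pow, hx, map_one]
  have hvtp : v ∈ tp A p := (mem_tp v).2 hvp
  have e1 : p - 1 = (p - 2) + 1 := by omega
  have hmap : p ^ (p - 1) ≤ Nat.card ((tp A p).map t) := by
    have hc := grpc_chain hp t (p - 2) ((tp A p).map t) (t v) (by
      rintro x ⟨y, hy, rfl⟩
      exact ⟨t y, htpstab y hy, rfl⟩) ⟨v, hvtp, rfl⟩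
      (by rw [← Function.iterate_succ_apply, Nat.succ_eq_add_one, ← e1, ← hwt]; exact hw1)
      (by rw [← Function.iterate_succ_apply, Nat.succ_eq_add_one, ← e1, ← hwt]; exact hwp)
      (by rw [← Function.iterate_succ_apply, Function.iterate_succ_apply', ← e1, ← hwt]; exact htw)
    rw [← e1] at hc
    exact hc
  have hstep2 : p ^ (p - 1) * Nat.card (fx θ ⊓ tp A p : Subgroup A) ≤ Nat.card (tp A p) := by
    rw [grpc_card_map t (tp A p), htker, inf_comm, mul_comm]
    exact Nat.mul_le_mul_left _ hmap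
  -- step 3
  have hpF : Nat.card (fx θ) = Nat.card (fx θ ⊓ tp A p : Subgroup A) *
      Nat.card ((fx θ).map (powMonoidHom p : A →* A)) :=
    grpc_card_map (powMonoidHom p : A →* A) (fx θ)
  have hNf : ∀ f : A, θ f = f → nh θ p f = f ^ p := by
    intro f hf
    show ∏ k ∈ Finset.range p, (θ ^ k : MulAut A) f = f ^ p
    rw [Finset.prod_congr rfl (fun k _ => by
      rw [grpa_it_pow, Function.iterate_fixed hf k]), Finset.prod_const, Finset.card_range]
  have hwF : w ∉ (fx θ).map (powMonoidHom p : A →* A) := by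
    rintro ⟨f, hf, hfw⟩
    have hff : θ f = f := hf
    rw [powMonoidHom_apply] at hfw
    apply hvB
    have h1 : v * f⁻¹ ∈ B := by
      apply hkerB
      rw [MonoidHom.mem_ker, map_mul, map_inv, hNf f hff, hfw, ← hw, mul_inv_cancel]
    have h2 := mul_mem h1 (hfxB hf)
    rw [inv_mul_cancel_right] at h2
    exact h2
  have hdisj : Disjoint (Subgroup.zpowers w) ((fx θ).map (powMonoidHom p : A →* A)) := by
    rw [Subgroup.disjoint_def]
    intro x hx hxF
    obtain ⟨k, rfl⟩ := Subgroup.mem_zpowers_iff.1 hx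
    by_cases hk : (p : ℤ) ∣ k
    · obtain ⟨m, rfl⟩ := hk
      rw [zpow_mul, zpow_natCast, hwp, one_zpow]
    · exfalso
      apply hwF
      obtain ⟨a, b, hab⟩ := (Nat.prime_iff_prime_int.1 hp).coprime_iff_not_dvd.2 hk
      have h1 : w = (w ^ k) ^ b := by
        have h2 : w ^ (a * (p : ℤ) + b * k) = w := by rw [hab, zpow_one]
        rw [zpow_add, mul_comm a, zpow_mul, zpow_natCast, hwp, one_zpow, one_mul, mul_comm b,
          zpow_mul] at h2
        exact h2.symm
      rw [h1]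
      exact zpow_mem hxF b
  have hR : p * Nat.card ((fx θ).map (powMonoidHom p : A →* A)) ≤ Nat.card (nh θ p).range := by
    have hzc : Nat.card (Subgroup.zpowers w) = p := by
      rw [Nat.card_zpowers]
      exact orderOf_eq_prime hwp hw1
    have hprod : p * Nat.card ((fx θ).map (powMonoidHom p : A →* A)) =
        Nat.card ((Subgroup.zpowers w) × ((fx θ).map (powMonoidHom p : A →* A))) := by
      rw [Nat.card_prod, hzc]
    rw [hprod]
    have hmem : ∀ g : (Subgroup.zpowers w) × ((fx θ).map (powMonoidHom p : A →* A)),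
        (g.1 * g.2 : A) ∈ (nh θ p).range := by
      rintro ⟨⟨x, hx⟩, ⟨y, hy⟩⟩
      apply mul_mem
      · exact (Subgroup.zpowers_le.2 (show w ∈ (nh θ p).range from ⟨v, rfl⟩)) hx
      · obtain ⟨f, hf, rfl⟩ := hy
        exact ⟨f, hNf f hf⟩
    apply Nat.card_le_card_of_injective (fun g => (⟨(g.1 * g.2 : A), hmem g⟩ : (nh θ p).range))
    intro g g' hgg
    exact Subgroup.mul_injective_of_disjoint hdisj (congrArg Subtype.val hgg)
  have hstep3 : Nat.card (fx θ) / Nat.card (nh θ p).range * p ≤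
      Nat.card (fx θ ⊓ tp A p : Subgroup A) := by
    have hpos : 0 < Nat.card ((fx θ).map (powMonoidHom p : A →* A)) := Nat.card_pos
    apply Nat.le_of_mul_le_mul_right _ hpos
    calc Nat.card (fx θ) / Nat.card (nh θ p).range * p *
          Nat.card ((fx θ).map (powMonoidHom p : A →* A))
        = Nat.card (fx θ) / Nat.card (nh θ p).range *
          (p * Nat.card ((fx θ).map (powMonoidHom p : A →* A))) := by ring
      _ ≤ Nat.card (fx θ) / Nat.card (nh θ p).range * Nat.card (nh θ p).range :=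
          Nat.mul_le_mul_left _ hR
      _ ≤ Nat.card (fx θ) := Nat.div_mul_le_self _ _
      _ = _ := hpF
  -- step 4
  have hpp : 2 * (p - 1) ≤ p ^ (p - 1) := by
    have h1 : 2 ^ (p - 1) ≤ p ^ (p - 1) := Nat.pow_le_pow_left hp2 _
    have h2 : p - 2 < 2 ^ (p - 2) := Nat.lt_two_pow_self
    have h3 : 2 ^ (p - 1) = 2 * 2 ^ (p - 2) := by rw [e1, pow_succ, mul_comm]
    omega
  have hpos : 0 < Nat.card (fx θ ⊓ tp A p : Subgroup A) := Nat.card_pos
  refine ⟨h, ?_, ?_⟩
  · calc 2 * (p - 1) * (Nat.card (fx θ) / Nat.card (nh θ p).range) * p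
        = 2 * (p - 1) * (Nat.card (fx θ) / Nat.card (nh θ p).range * p) := by ring
      _ ≤ p ^ (p - 1) * Nat.card (fx θ ⊓ tp A p : Subgroup A) := Nat.mul_le_mul hpp hstep3
      _ ≤ _ := hstep2
  · have h1 : 2 ≤ p ^ (p - 1) := by
      have : 2 * 1 ≤ 2 * (p - 1) := Nat.mul_le_mul_left _ (by omega)
      omega
    have h2 : 2 * Nat.card (fx θ ⊓ tp A p : Subgroup A) ≤ Nat.card (tp A p) :=
      (Nat.mul_le_mul_right _ h1).trans hstep2
    omega

end H38.TD
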