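import Pool.Agent.H38.TD.HomDefs
import Pool.Agent.H38.ML.KumEx
import Pool.Agent.H38.ML.LayerDef

/-!
# [H38 TD HOMEX] Existence of the homomorphism (80-140 lines)

Use `exists_kumOut` (`H38/ML/KumEx.lean`) for `M`, `H = P`, `j = pd.j`, `ρb`, with the finite
`Gal(M/K)`-set `X = SigX U` (`H38/ML/LayerDef.lean`: disjoint union of the `G ⧸ U i`), where
`i ∈ J ⊕ J'`, `U (inl j) = ⊥`, `U (inr j') = ⊤`; the functions `α : X → M`, `a : X → A` are
`sigLift`s: `α ⟨inl j, g⟩ = g (e j)`, `α ⟨inr j', _⟩ = f j'`, `a ⟨inl j, g⟩ = tb g (a j)`,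
`a ⟨inr j', _⟩ = b j'` (fixed by all `tb g` because `hb` and `g = γ^k`: `D.gen`, `htb`).
The equivariance `j (a (g • x)) = ρb g * j (a x) * (ρb g)⁻¹` is `hconj`.
(Instead of `SigX` one may define an action of `Gal(M/K)` on the structure type
`(J × Gal(M/K)) ⊕ J'` by hand.)

The output `O : KumOut` has `O.ρ σ = j (∏ x, a (res M σ • x) ^ κ σ x) * ρb (res M σ)` with
`σ (β x) = ζ ^ κ σ x * β (res M σ • x)`, `β x ^ q = α x`.  This gives `ft` and `modA`.  For `val`: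
if `res M σ = 1` then `σ (β x) = ζ ^ κ σ x * β x`, and the hypothesis of `val` for `B = β x` gives
`ζ ^ κ σ x = ζ ^ n_x` (`β x ≠ 0`), so `κ σ x ≡ n_x mod q` (`IsPrimitiveRoot.zpow_eq_one_iff_dvd`), and
`a x ^ κ σ x = a x ^ n_x` because `A^q = 1`.  The product over `SigX` is the product over
`J × Gal(M/K)` and over `J'` (`Fintype.prod_sigma`, `G ⧸ ⊥ ≃ G`, `G ⧸ ⊤` has one element).
-/

open scoped NumberField Pointwise
open H38.ML

noncomputable section

namespace H38.TD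

variable {K Ω : Type} [Field K] [NumberField K] [Field Ω] [Algebra K Ω] [IsAlgClosure K Ω]

omit [NumberField K] [IsAlgClosure K Ω] in
lemma hx_pow {A : Type} [Group A] {t : A} {q : ℕ} (hq : 0 < q) (ht : t ^ q = 1) {z : Ω}
    (hz : IsPrimitiveRoot z q) {k : ℕ} {n : ℤ} {y : Ω} (hy : y ≠ 0)
    (h : z ^ k * y = z ^ n * y) : t ^ k = t ^ n := by
  have hz0 : z ≠ 0 := hz.ne_zero hq.ne'
  have h1 : z ^ (k : ℤ) = z ^ n := by
    rw [zpow_natCast]
    exact mul_right_cancel₀ hy h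
  have h2 : z ^ ((k : ℤ) - n) = 1 := by
    rw [zpow_sub₀ hz0, h1, div_self (zpow_ne_zero _ hz0)]
  have h3 : (q : ℤ) ∣ (k : ℤ) - n := (hz.zpow_eq_one_iff_dvd _).1 h2
  obtain ⟨c, hc⟩ := h3
  have h4 : (k : ℤ) = n + q * c := by linarith
  rw [← zpow_natCast, h4, zpow_add, zpow_mul, zpow_natCast, ht, one_zpow, mul_one]

theorem homex (M : IntermediateField K Ω) [FiniteDimensional K M] [IsGalois K M]
    {A P J J' : Type} [CommGroup A] [Group P] [Fintype J] [Fintype J'] {p : ℕ} (pd : PD p A P)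
    {ζp : K} {x : Kˣ} (D : KX K M p ζp x) (q : ℕ) (hq : 0 < q) (ζ : K) (hζ : IsPrimitiveRoot ζ q)
    (hA : ∀ t : A, t ^ q = 1) (ρb : Gal(M/K) →* P) (tb : Gal(M/K) →* MulAut A)
    (htb : tb D.γ = pd.θ)
    (hconj : ∀ (g : Gal(M/K)) (t : A), pd.j (tb g t) = ρb g * pd.j t * (ρb g)⁻¹)
    (e : J → Mˣ) (f : J' → Kˣ) (a : J → A) (b : J' → A) (hb : ∀ j, pd.θ (b j) = b j) :
    ∃ ρ : Gal(Ω/K) →* P, IsKum M pd q ζ ρb tb e f a b ρ := by
  classical
  have hz : IsPrimitiveRoot (algebraMap K Ω ζ) q :=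
    hζ.map_of_injective (algebraMap K Ω).injective
  have hbfix : ∀ (g : Gal(M/K)) j, tb g (b j) = b j := by
    intro g j
    obtain ⟨k, rfl⟩ := D.gen g
    rw [map_pow]
    induction k with
    | zero => simp
    | succ k ih => rw [pow_succ, MulAut.mul_apply, htb, hb j, ← htb, ih]
  letI act : MulAction Gal(M/K) ((J × Gal(M/K)) ⊕ J') :=
    { smul := fun g x => Sum.elim (fun y => Sum.inl (y.1, g * y.2)) (fun j => Sum.inr j) x
      one_smul := by
        rintro (⟨j, h⟩ | j)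
        · change Sum.inl (j, 1 * h) = _
          rw [one_mul]
        · rfl
      mul_smul := by
        rintro g g' (⟨j, h⟩ | j)
        · change Sum.inl (j, g * g' * h) = Sum.inl (j, g * (g' * h))
          rw [mul_assoc]
        · rfl }
  let a' : (J × Gal(M/K)) ⊕ J' → A := Sum.elim (fun y => tb y.2 (a y.1)) b
  let α' : (J × Gal(M/K)) ⊕ J' → M :=
    Sum.elim (fun y => ((gU y.2 (e y.1) : Mˣ) : M)) (fun j => ((iU K M (f j) : Mˣ) : M))
  have hα : ∀ x, α' x ≠ 0 := by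
    rintro (⟨j, h⟩ | j)
    · exact Units.ne_zero _
    · exact Units.ne_zero _
  have hαM : ∀ (g : Gal(M/K)) x, α' (g • x) = g (α' x) := by
    rintro g (⟨j, h⟩ | j)
    · rfl
    · change algebraMap K M (f j) = g (algebraMap K M (f j))
      exact (AlgEquiv.commutes g _).symm
  have ha : ∀ (g : Gal(M/K)) x, pd.j (a' (g • x)) = ρb g * pd.j (a' x) * (ρb g)⁻¹ := by
    rintro g (⟨j, h⟩ | j)
    · change pd.j (tb (g * h) (a j)) = ρb g * pd.j (tb h (a j)) * (ρb g)⁻¹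
      rw [map_mul, MulAut.mul_apply, hconj]
    · change pd.j (b j) = ρb g * pd.j (b j) * (ρb g)⁻¹
      rw [← hconj, hbfix]
  obtain ⟨O⟩ := exists_kumOut M ρb pd.j q hq ζ hζ hA a' α' hα hαM ha
  have hβ0 : ∀ x, O.β x ≠ 0 := by
    intro x h0
    have h1 := O.hβ x
    rw [h0, zero_pow hq.ne'] at h1
    exact hα x (by exact_mod_cast h1.symm)
  refine ⟨O.ρ, O.ft, fun σ => ⟨_, O.hρ σ⟩, ?_⟩
  intro σ n m hres h1 h2
  have hk : ∀ x, σ (O.β x) = algebraMap K Ω ζ ^ O.κ σ x * O.β x := by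
    intro x
    have h3 := O.hκ σ x
    rwa [hres, one_smul] at h3
  rw [O.hρ σ, hres, map_one, mul_one]
  congr 1
  simp only [one_smul]
  rw [Fintype.prod_sum_type, Fintype.prod_prod_type, kv]
  congr 1
  · refine Finset.prod_congr rfl fun j _ => Finset.prod_congr rfl fun g _ => ?_
    refine hx_pow hq (hA _) hz (hβ0 (Sum.inl (j, g))) ?_
    rw [← hk, ← h1 j g _ (O.hβ (Sum.inl (j, g)))]
  · refine Finset.prod_congr rfl fun j _ => ?_
    refine hx_pow hq (hA _) hz (hβ0 (Sum.inr j)) ?_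
    rw [← hk]
    exact h2 j _ (O.hβ (Sum.inr j))

end H38.TD
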