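import Pool.Agent.H38.TD.HomSI
import Pool.Agent.H38.TD.LocT
import Pool.Agent.H38.ML.LayerInert

/-!
# [H38 TD HOMLOC] The homomorphism has small inertia groups (60-100 lines)

`ρ` from `IsKum`.  `hnu1`: `nu Q = 1` for all `Q` over places outside `S ∪ R`; `hnuR`:
`(nu Q)^p = 1` for `Q` over `R`.  Outside `S ∪ supp` the order of `x` is divisible by `p`, so inertia
groups act trivially on `M` (`inert_res`).

* `v ∉ S`, `v ∉ supp`, `v ∉ R`: for `τ` in the inertia group of `𝔓` over `v`: `res M τ = 1`, and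
  `kum_inert` gives `ρ τ = j (1^t) = 1`.
* `v ∈ R` (so `v ∉ supp`): `ρ τ = j (nu Q^t)`: the image of the inertia group is contained in the
  cyclic group generated by `j (nu Q)`, which has order `≤ p` (`orderOf_le_of_pow_eq_one`).
* `v ∈ supp`: if `τ` is in the inertia group `I` and `res M τ = 1` then `ρ τ = j(nu Q^t) = 1`.
  So `ρ τ` only depends on `res M τ` for `τ ∈ I`: the image `ρ(I)` is a quotient of `res M (I)`,
  which has at most `#Gal(M/K) = p` elements.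
* the place `Q` below `𝔓`: `𝔓.under (𝓞 M)` is a nonzero prime over `v`
  (see `layerInert_ne_bot` in `H38/ML/LayerInert.lean`); `p ∉ 𝔓` because `p ∉ v`.
-/

open scoped NumberField Pointwise
open H38.ML

noncomputable section

namespace H38.TD

variable {K Ω : Type} [Field K] [NumberField K] [Field Ω] [Algebra K Ω] [IsAlgClosure K Ω]
  {M : IntermediateField K Ω} [FiniteDimensional K M] [IsGalois K M] [NumberField M]
  {A P J J' : Type} [CommGroup A] [Group P] [Fintype J] [Fintype J'] {p : ℕ} {pd : PD p A P}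
  {ζp : K} {x : Kˣ} {k : ℕ} {ζ : K} {ρb : Gal(M/K) →* P} {tb : Gal(M/K) →* MulAut A}
  {e : J → Mˣ} {f : J' → Kˣ}

theorem homloc [Finite P] (hp : p.Prime) (hζ : IsPrimitiveRoot ζ (p ^ k))
    (hζp : IsPrimitiveRoot ζp p)
    (D : KX K M p ζp x) (a : J → A) (b : J' → A) (ρ : Gal(Ω/K) →* P)
    (h : IsKum M pd (p ^ k) ζ ρb tb e f a b ρ) (S : Set (Pl K))
    (hSp : ∀ v : Pl K, v ∉ S → ((p : ℕ) : 𝓞 K) ∉ v.asIdeal) (supp R : Finset (Pl K))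
    (hdis : Disjoint supp R) (hx : ∀ v, v ∉ S → v ∉ supp → (p : ℤ) ∣ od v x)
    (hnu1 : ∀ v, v ∉ S → v ∉ R → ∀ Q : Pl M, Ov Q v → nu tb e f a b Q = 1)
    (hnuR : ∀ v ∈ R, ∀ Q : Pl M, Ov Q v → nu tb e f a b Q ^ p = 1) :
    (∀ v, v ∉ S → v ∉ supp → v ∉ R → UnrAt ρ v.asIdeal) ∧
      ∀ v, v ∉ S → SmallAt p ρ v.asIdeal := by
  classical
  -- the place below
  have hbelow : ∀ (v : Pl K) (𝔓 : Ideal (𝓞 Ω)), 𝔓.IsPrime → 𝔓.under (𝓞 K) = v.asIdeal →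
      ∃ Q : Pl M, 𝔓.under (𝓞 M) = Q.asIdeal ∧ Ov Q v := by
    intro v 𝔓 h𝔓 h𝔓v
    have h1 : (𝔓.under (𝓞 M)).IsPrime := inferInstance
    have h2 : 𝔓.under (𝓞 M) ≠ ⊥ := layerInert_ne_bot 𝔓 v.asIdeal v.ne_bot h𝔓v
    exact ⟨⟨𝔓.under (𝓞 M), h1, h2⟩, rfl, layerInert_under 𝔓 v.asIdeal h𝔓v⟩
  have hp𝔓 : ∀ (v : Pl K) (𝔓 : Ideal (𝓞 Ω)), v ∉ S → 𝔓.under (𝓞 K) = v.asIdeal →
      ((p : ℕ) : 𝓞 Ω) ∉ 𝔓 := by
    intro v 𝔓 hv h𝔓v hmem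
    apply hSp v hv
    rw [← h𝔓v]
    change algebraMap (𝓞 K) (𝓞 Ω) ((p : ℕ) : 𝓞 K) ∈ 𝔓
    rw [map_natCast]
    exact hmem
  have hunr : ∀ v, v ∉ S → v ∉ supp → v ∉ R → UnrAt ρ v.asIdeal := by
    intro v hv hvs hvR 𝔓 h𝔓 h𝔓v τ hτ
    have hres := inert_res p hp ζp hζp v (hSp v hv) 𝔓 h𝔓 h𝔓v x (hx v hv hvs) M D τ hτ
    obtain ⟨Q, hQ, hQv⟩ := hbelow v 𝔓 h𝔓 h𝔓v
    obtain ⟨t, ht⟩ := kum_inert hp hζ a b ρ h 𝔓 h𝔓 (hp𝔓 v 𝔓 hv h𝔓v) Q hQ τ hτ hres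
    rw [ht, hnu1 v hv hvR Q hQv, one_zpow, map_one]
  refine ⟨hunr, ?_⟩
  intro v hv 𝔓 h𝔓 h𝔓v
  obtain ⟨Q, hQ, hQv⟩ := hbelow v 𝔓 h𝔓 h𝔓v
  by_cases hvR : v ∈ R
  · have hvs : v ∉ supp := fun hs => (Finset.disjoint_left.1 hdis hs) hvR
    have hsub : ((𝔓.inertia Gal(Ω/K)).map ρ : Set P) ⊆
        (Subgroup.zpowers (pd.j (nu tb e f a b Q)) : Set P) := by
      rintro _ ⟨τ, hτ, rfl⟩
      have hres := inert_res p hp ζp hζp v (hSp v hv) 𝔓 h𝔓 h𝔓v x (hx v hv hvs) M D τ hτ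
      obtain ⟨t, ht⟩ := kum_inert hp hζ a b ρ h 𝔓 h𝔓 (hp𝔓 v 𝔓 hv h𝔓v) Q hQ τ hτ hres
      exact ⟨t, by rw [ht, map_zpow]⟩
    have h1 : Nat.card ((𝔓.inertia Gal(Ω/K)).map ρ) ≤
        Nat.card (Subgroup.zpowers (pd.j (nu tb e f a b Q))) :=
      Nat.card_mono (Set.toFinite _) hsub
    refine h1.trans ?_
    rw [Nat.card_zpowers]
    exact orderOf_le_of_pow_eq_one hp.pos (by rw [← map_pow, hnuR v hvR Q hQv, map_one])
  by_cases hvs : v ∈ supp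
  · have hone : ∀ τ ∈ 𝔓.inertia Gal(Ω/K), res M τ = 1 → ρ τ = 1 := by
      intro τ hτ hres
      obtain ⟨t, ht⟩ := kum_inert hp hζ a b ρ h 𝔓 h𝔓 (hp𝔓 v 𝔓 hv h𝔓v) Q hQ τ hτ hres
      rw [ht, hnu1 v hv hvR Q hQv, one_zpow, map_one]
    have hcard : Nat.card Gal(M/K) = p := by
      rw [IsGalois.card_aut_eq_finrank, kx_finrank D hp]
    rw [← hcard]
    have hex : ∀ g : (𝔓.inertia Gal(Ω/K)).map ρ, ∃ τ ∈ 𝔓.inertia Gal(Ω/K), ρ τ = g.1 :=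
      fun g => g.2
    choose τ hτ hτg using hex
    refine Nat.card_le_card_of_injective (fun g => res M (τ g)) ?_
    intro g g' hgg'
    apply Subtype.ext
    rw [← hτg g, ← hτg g']
    have h1 : (τ g)⁻¹ * τ g' ∈ 𝔓.inertia Gal(Ω/K) := mul_mem (inv_mem (hτ g)) (hτ g')
    have h2 : res M ((τ g)⁻¹ * τ g') = 1 := by
      have h3 : res M (τ g) = res M (τ g') := hgg'
      rw [map_mul, map_inv, h3, inv_mul_cancel]
    have h4 := hone _ h1 h2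
    rw [map_mul, map_inv, inv_mul_eq_one] at h4
    exact h4
  · have h1 : (𝔓.inertia Gal(Ω/K)).map ρ = ⊥ := by
      rw [eq_bot_iff]
      rintro _ ⟨τ, hτ, rfl⟩
      exact Subgroup.mem_bot.2 (hunr v hv hvs hvR 𝔓 h𝔓 h𝔓v τ hτ)
    rw [h1, Subgroup.card_bot]
    exact hp.one_lt.le

end H38.TD
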