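import Pool.Agent.H38.TD.Cyc

/-!
# [H38 TD INDU] Independence of the conjugates modulo `p`-th powers (100-160 lines)

Let the norms `nU (e j)` and the elements `f j'` be independent modulo `⟨x⟩ (Kˣ)^p`.  Then the
conjugates `g (e j)` (`j ∈ J`, `g ∈ Gal(M/K)`) and the `iU (f j')` are independent modulo `(Mˣ)^p`.

Proof.  Let `∏_{j,g} (g e_j)^{n_{j,g}} ∏ (iU f_j')^{m_j'} = y^p`.  Write
`a_j(k) = n_{j, γ^k}` for `k ∈ ZMod p` (or `k ∈ ℤ` periodic), as a function with values in `ZMod p`.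
Applying `γ` to the relation and dividing gives the relation for the functions
`(T a_j)(k) = a_j(k-1) - a_j(k)` and `m = 0` (and `y` replaced by `γ y / y`).  `T = shift - 1` on
functions `ZMod p → ZMod p` satisfies `T^p = shift^p - 1 = 0` (Frobenius; or
`sub_pow_char` in the ring `Module.End` / the group algebra, the two operators commute), and `T a = 0`
iff `a` is constant.
Suppose some `a_j ≠ 0`.  Let `d ≥ 0` be the largest number with `T^d a_j ≠ 0` for some `j` (`d < p`).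
Then `T^{d+1} a_j = 0` for all `j`, so all `T^d a_j` are constant, `= c_j`, not all zero.
After `d` steps the relation is `∏_j ∏_g (g e_j)^{c_j} · (∏ f^{m} if d = 0) = y'^p`
up to `p`-th powers (integers congruent modulo `p` give the same class modulo `p`-th powers), i.e.
`iU (∏_j nU(e_j)^{c_j} · ∏ f^{m'}) = y''^p` (`iU_nU`).  By `kx_inter`,
`∏_j nU(e_j)^{c_j} ∏ f^{m'} = x^l z^p`, so by the hypothesis `p ∣ c_j` for all `j`, a contradiction.
So all `a_j = 0`, i.e. `p ∣ n_{j,g}`; then `iU (∏ f^m)` is a `p`-th power, so `∏ f^m = x^l z^p` and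
`p ∣ m_{j'}`.

Suggestion: work in `V = Additive (Mˣ ⧸ (p-th powers))` as a `ZMod p`-module with the endomorphism
induced by `γ`; or prove by induction on `d` the statement: if `T^d a_j = 0` for all `j` and the
relation holds then all `a_j = 0` and `p ∣ m`.  (Induction step: for `d ≥ 1` the functions `T a_j`
satisfy `T^{d-1} (T a_j) = 0` and the relation with `m = 0`, so `T a_j = 0`, so `a_j` is constant
`c_j`; then as above `c_j = 0`.)  `d = p` is always possible.
-/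

open scoped NumberField Pointwise
open H38.ML Polynomial

noncomputable section

namespace H38.TD

/-- polynomial identity -/
theorem indu_poly (p : ℕ) (hp : p.Prime) :
    ∃ g : ℤ[X], (X - 1) ^ p = X ^ p - 1 + C (p : ℤ) * g := by
  have := Fact.mk hp
  have h1 : ((X : (ZMod p)[X]) - 1) ^ p = X ^ p - 1 := by
    have := sub_pow_char (R := (ZMod p)[X]) (p := p) X 1
    rwa [one_pow] at this
  have h3 : (C (p : ℤ) : ℤ[X]) ∣ (X - 1) ^ p - (X ^ p - 1) := by
    rw [Polynomial.C_dvd_iff_dvd_coeff]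
    intro i
    rw [← ZMod.intCast_zmod_eq_zero_iff_dvd]
    have h4 : ((X - 1) ^ p - (X ^ p - 1) : ℤ[X]).map (Int.castRingHom (ZMod p)) = 0 := by
      rw [Polynomial.map_sub, Polynomial.map_pow, Polynomial.map_sub, Polynomial.map_X,
        Polynomial.map_one, h1]
      simp
    have h5 := congrArg (fun f => f.coeff i) h4
    simp only [Polynomial.coeff_map, Polynomial.coeff_zero] at h5
    exact h5
  obtain ⟨g, hg⟩ := h3
  exact ⟨g, by rw [← hg]; ring⟩

/-- the shift of functions on the group -/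
def shf (Γ : Type) [Group Γ] (γ : Γ) : AddMonoid.End (Γ → ℤ) where
  toFun f g := f (γ⁻¹ * g)
  map_zero' := rfl
  map_add' _ _ := rfl

theorem shf_pow (Γ : Type) [Group Γ] (γ : Γ) (k : ℕ) (f : Γ → ℤ) (g : Γ) :
    ((shf Γ γ) ^ k) f g = f ((γ ^ k)⁻¹ * g) := by
  induction k generalizing f with
  | zero =>
    rw [pow_zero, pow_zero, inv_one, one_mul]
    rfl
  | succ k ih =>
    rw [pow_succ]
    change ((shf Γ γ) ^ k) (shf Γ γ f) g = _
    rw [ih]
    change f (γ⁻¹ * ((γ ^ k)⁻¹ * g)) = _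
    rw [← mul_assoc, ← mul_inv_rev, ← pow_succ]

theorem shf_dvd (Γ : Type) [Group Γ] (γ : Γ) (p : ℕ) (hp : p.Prime) (hγ : γ ^ p = 1)
    (f : Γ → ℤ) (g : Γ) : (p : ℤ) ∣ ((shf Γ γ - 1) ^ p) f g := by
  obtain ⟨q, hq⟩ := indu_poly p hp
  have h1 := congrArg (aeval (shf Γ γ)) hq
  simp only [map_pow, map_sub, aeval_X, map_one, map_add, map_mul, aeval_C] at h1
  have h2 : (shf Γ γ) ^ p = 1 := by
    ext f' g'
    rw [shf_pow, hγ, inv_one, one_mul]
    rfl
  rw [h2, sub_self, zero_add] at h1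
  rw [h1]
  have h3 : (algebraMap ℤ (AddMonoid.End (Γ → ℤ))) (p : ℤ) = p • (1 : AddMonoid.End (Γ → ℤ)) := by
    simp
  rw [h3, smul_mul_assoc, one_mul]
  refine ⟨(aeval (shf Γ γ) q) f g, ?_⟩
  change (p • ((aeval (shf Γ γ) q) f)) g = _
  rw [Pi.smul_apply, nsmul_eq_mul]

section
variable {K M : Type} [Field K] [Field M] [Algebra K M]
  [FiniteDimensional K M] [IsGalois K M]

omit [FiniteDimensional K M] [IsGalois K M] in
theorem indu_gU_mul (g g' : Gal(M/K)) (e : Mˣ) : gU (g * g') e = gU g (gU g' e) :=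
  Units.ext rfl

omit [FiniteDimensional K M] [IsGalois K M] in
theorem indu_gU_iU (g : Gal(M/K)) (f : Kˣ) : gU g (iU K M f) = iU K M f :=
  Units.ext (g.commutes (f : K))

theorem indu_iU_nU (e : Mˣ) : iU K M (nU K M e) = ∏ g : Gal(M/K), gU g e := by
  apply Units.ext
  rw [Units.coe_prod]
  exact Algebra.norm_eq_prod_automorphisms K (e : M)

/-- the step: apply `γ` and divide -/
theorem indu_step (γ : Gal(M/K)) {p : ℕ} {J J' : Type} [Fintype J] [Fintype J'] (e : J → Mˣ)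
    (f : J' → Kˣ) (n : J → Gal(M/K) → ℤ) (m : J' → ℤ) (y : Mˣ)
    (h : (∏ j, ∏ g : Gal(M/K), gU g (e j) ^ n j g) * (∏ j, iU K M (f j) ^ m j) = y ^ p) :
    (∏ j, ∏ g : Gal(M/K), gU g (e j) ^ ((shf Gal(M/K) γ - 1) (n j)) g) *
      (∏ j : J', iU K M (f j) ^ (0 : ℤ)) = (gU γ y / y) ^ p := by
  have h1 := congrArg (gU γ) h
  rw [map_mul, map_prod, map_prod, map_pow] at h1
  simp only [map_prod, map_zpow, indu_gU_iU] at h1
  have h2 : ∀ j, ∏ g : Gal(M/K), gU γ (gU g (e j)) ^ n j g =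
      ∏ g : Gal(M/K), gU g (e j) ^ n j (γ⁻¹ * g) := by
    intro j
    refine Fintype.prod_equiv (Equiv.mulLeft γ) _ _ (fun g => ?_)
    rw [Equiv.coe_mulLeft, inv_mul_cancel_left, indu_gU_mul]
  simp only [h2] at h1
  rw [div_pow, ← h1, ← h]
  simp only [zpow_zero, Finset.prod_const_one, mul_one]
  rw [mul_div_mul_right_eq_div, ← Finset.prod_div_distrib]
  refine Finset.prod_congr rfl (fun j _ => ?_)
  rw [← Finset.prod_div_distrib]
  refine Finset.prod_congr rfl (fun g _ => ?_)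
  rw [div_eq_mul_inv, ← zpow_sub]
  rfl

end

variable {K M : Type} [Field K] [Field M] [Algebra K M]
  [FiniteDimensional K M] [IsGalois K M] {p : ℕ} {ζ : K} {x : Kˣ}

/-- the constant case -/
theorem indu_const (D : KX K M p ζ x) (hp : p.Prime) (hζ : IsPrimitiveRoot ζ p)
    {J J' : Type} [Fintype J] [Fintype J'] (e : J → Mˣ) (f : J' → Kˣ)
    (hind : ∀ (n : J → ℤ) (m : J' → ℤ) (l : ℤ) (y : Kˣ),
      (∏ j, nU K M (e j) ^ n j) * (∏ j, f j ^ m j) = x ^ l * y ^ p →
        (∀ j, (p : ℤ) ∣ n j) ∧ (∀ j, (p : ℤ) ∣ m j))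
    (n : J → Gal(M/K) → ℤ) (m : J' → ℤ) (y : Mˣ)
    (h : (∏ j, ∏ g : Gal(M/K), gU g (e j) ^ n j g) * (∏ j, iU K M (f j) ^ m j) = y ^ p)
    (hc : ∀ j g, (p : ℤ) ∣ n j g - n j 1) :
    (∀ j g, (p : ℤ) ∣ n j g) ∧ (∀ j, (p : ℤ) ∣ m j) := by
  choose q hq using hc
  have h1 : (∏ j, ∏ g : Gal(M/K), gU g (e j) ^ n j g) =
      iU K M (∏ j, nU K M (e j) ^ n j 1) * (∏ j, ∏ g : Gal(M/K), gU g (e j) ^ q j g) ^ p := by
    rw [map_prod, ← Finset.prod_pow, ← Finset.prod_mul_distrib]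
    refine Finset.prod_congr rfl (fun j _ => ?_)
    rw [map_zpow, indu_iU_nU, ← Finset.prod_zpow, ← Finset.prod_pow, ← Finset.prod_mul_distrib]
    refine Finset.prod_congr rfl (fun g _ => ?_)
    rw [← zpow_natCast, ← zpow_mul, ← zpow_add]
    congr 1
    have := hq j g
    linarith
  have h2 : iU K M ((∏ j, nU K M (e j) ^ n j 1) * (∏ j, f j ^ m j)) =
      (y / ∏ j, ∏ g : Gal(M/K), gU g (e j) ^ q j g) ^ p := by
    rw [map_mul, map_prod (iU K M) (fun j => f j ^ m j), div_pow, ← h, h1]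
    simp only [map_zpow]
    rw [eq_div_iff_mul_eq']
    exact mul_right_comm _ _ _
  obtain ⟨l, z, hlz⟩ := kx_inter D hp hζ _ _ h2
  have h3 := hind (fun j => n j 1) m (l : ℤ) z (by rw [hlz, zpow_natCast])
  refine ⟨fun j g => ?_, h3.2⟩
  have h4 := h3.1 j
  have h5 : n j g = n j 1 + p * q j g := by
    have := hq j g
    linarith
  rw [h5]
  exact dvd_add h4 (dvd_mul_right _ _)

theorem ind_units (D : KX K M p ζ x) (hp : p.Prime) (hζ : IsPrimitiveRoot ζ p)
    {J J' : Type} [Fintype J] [Fintype J'] (e : J → Mˣ) (f : J' → Kˣ)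
    (hind : ∀ (n : J → ℤ) (m : J' → ℤ) (l : ℤ) (y : Kˣ),
      (∏ j, nU K M (e j) ^ n j) * (∏ j, f j ^ m j) = x ^ l * y ^ p →
        (∀ j, (p : ℤ) ∣ n j) ∧ (∀ j, (p : ℤ) ∣ m j))
    (n : J → Gal(M/K) → ℤ) (m : J' → ℤ) (y : Mˣ)
    (h : (∏ j, ∏ g : Gal(M/K), gU g (e j) ^ n j g) * (∏ j, iU K M (f j) ^ m j) = y ^ p) :
    (∀ j g, (p : ℤ) ∣ n j g) ∧ (∀ j, (p : ℤ) ∣ m j) := by
  have key : ∀ (d : ℕ) (n : J → Gal(M/K) → ℤ) (m : J' → ℤ) (y : Mˣ),
      (∏ j, ∏ g : Gal(M/K), gU g (e j) ^ n j g) * (∏ j, iU K M (f j) ^ m j) = y ^ p →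
      (∀ j g, (p : ℤ) ∣ ((shf Gal(M/K) D.γ - 1) ^ d) (n j) g) →
      (∀ j g, (p : ℤ) ∣ n j g) ∧ (∀ j, (p : ℤ) ∣ m j) := by
    intro d
    induction d with
    | zero =>
      intro n m y h hd
      have hd' : ∀ j g, (p : ℤ) ∣ n j g := hd
      exact indu_const D hp hζ e f hind n m y h (fun j g => dvd_sub (hd' j g) (hd' j 1))
    | succ d ih =>
      intro n m y h hd
      have h1 := indu_step D.γ e f n m y h
      have h2 := (ih (fun j => (shf Gal(M/K) D.γ - 1) (n j)) (fun _ => 0) _ h1 (by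
        intro j g
        have := hd j g
        rw [pow_succ] at this
        exact this)).1
      have h3 : ∀ j (k : ℕ), (p : ℤ) ∣ n j (D.γ ^ k) - n j 1 := by
        intro j k
        induction k with
        | zero => simp
        | succ k ihk =>
          have h4 : (p : ℤ) ∣ n j (D.γ⁻¹ * D.γ ^ (k + 1)) - n j (D.γ ^ (k + 1)) :=
            h2 j (D.γ ^ (k + 1))
          rw [pow_succ', inv_mul_cancel_left, ← pow_succ'] at h4
          have h5 := dvd_sub ihk h4
          have h6 : n j (D.γ ^ k) - n j 1 - (n j (D.γ ^ k) - n j (D.γ ^ (k + 1))) =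
              n j (D.γ ^ (k + 1)) - n j 1 := by ring
          rwa [h6] at h5
      refine indu_const D hp hζ e f hind n m y h (fun j g => ?_)
      obtain ⟨k, rfl⟩ := D.gen g
      exact h3 j k
  refine key p n m y h (fun j g => ?_)
  refine shf_dvd _ D.γ p hp ?_ (n j) g
  have h7 := pow_orderOf_eq_one D.γ
  rwa [D.ord] at h7

end H38.TD
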