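import Pool.Agent.H38.TD.Cyc

/-!
# [H38 TD RAMF] Unramified and totally ramified places of `K(β)/K` (100-170 lines)

`v` a place of `K` with `p ∉ v`, `Q` over `v`.

`ramf_unr` (`p ∣ od v x`): the index `r` in `od_iU` is `1`.  First replace `β` by
`β' = β / π^{n/p}` with `n = od v x` and `π ∈ K` of order one at `v` (`exists_unif`): `β'` has
`β'^p = x π^{-n}`, of order `0`, and `γ β' = ζ β'`.  So `od Q β' = 0` (since `p · od Q β' = 0`).
The ramification index is the order of the inertia group `Q.asIdeal.inertia Gal(M/K)`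
(`Ideal.card_inertia_eq_ramificationIdxIn` or the statement used in `H38/ML`).  The inertia group is
trivial: `g = γ^k` in it; write `β' = a / b`, `a, b ∈ 𝓞 M ∖ Q` (`exists_int_div`); then
`g a b - a g b ∈ Q` and (`g β' = ζ^k β'`) `g a · b = ζ^k a · g b`, so `(ζ^k - 1) a (g b) ∈ Q`, with
`g b ≡ b ∉ Q`: `ζ^k - 1 ∈ Q`, which for `p ∤ k` gives `p ∈ Q` (`∏_{0<k<p} (1 - ζ^k) = p`), a
contradiction; so `p ∣ k`, `g = 1`.  Alternatively use
`H38.ML.pow_eq_one_of_inertia`-type arguments.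

`ramf_ram` (`¬ p ∣ od v x`): `p · od Q β = od Q (iU x) = r · od v x`, so `p ∣ r`.  Since
`#(places over v) · r · f = [M:K] = p` (`Ideal.ncard_primesOver_mul_ramificationIdxIn_mul_inertiaDegIn`),
`r = p` and `Q` is the only place over `v`.
(If it is easier to identify `r`: `r` is the multiplicity of `Q` in `v 𝓞 M`.)
-/

open scoped NumberField Pointwise
open H38.ML

noncomputable section

namespace H38.TD

/-- a power of a primitive root of unity which is `1` modulo a prime not containing the order -/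
theorem ramf_dvd {R : Type} [CommRing R] [IsDomain R] {q : ℕ} (hq : 0 < q) {z : R}
    (hz : IsPrimitiveRoot z q) (Q : Ideal R) (hqQ : ((q : ℕ) : R) ∉ Q) (k : ℕ)
    (h : z ^ k - 1 ∈ Q) : q ∣ k := by
  by_contra hnd
  obtain ⟨n, rfl⟩ : ∃ n, q = n + 1 := ⟨q - 1, by omega⟩
  have hprod := hz.prod_one_sub_pow_eq_order
  have hmod : k % (n + 1) ≠ 0 := fun h0 => hnd (Nat.dvd_of_mod_eq_zero h0)
  have hlt : k % (n + 1) < n + 1 := Nat.mod_lt _ hq
  have hzk : z ^ k = z ^ (k % (n + 1)) := by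
    rw [← pow_mod_orderOf, ← hz.eq_orderOf]
  have hmem : k % (n + 1) - 1 ∈ Finset.range n := Finset.mem_range.2 (by omega)
  have hdvd : (1 - z ^ (k % (n + 1) - 1 + 1)) ∣ ∏ k ∈ Finset.range n, (1 - z ^ (k + 1)) :=
    Finset.dvd_prod_of_mem (fun k => 1 - z ^ (k + 1)) hmem
  rw [Nat.sub_add_cancel (by omega), hprod, ← hzk] at hdvd
  apply hqQ
  obtain ⟨c, hc⟩ := hdvd
  have : ((n + 1 : ℕ) : R) = (z ^ k - 1) * (-c) := by
    push_cast
    rw [hc]; ring
  rw [this]
  exact Q.mul_mem_right _ h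

variable {K M : Type} [Field K] [NumberField K] [Field M] [NumberField M] [Algebra K M]
  [IsGalois K M] {p : ℕ} {ζ : K} {x : Kˣ}

/-- the orders on `K` and on `M` differ by the order of the inertia group -/
theorem od_iU_card (Q : Pl M) (v : Pl K) (h : Ov Q v) (f : Kˣ) :
    od Q (iU K M f) = (Nat.card (Q.asIdeal.inertia Gal(M/K)) : ℤ) * od v f := by
  have hl : Q.asIdeal.LiesOver v.asIdeal := ⟨h.symm⟩
  have hv := v.isPrime
  have hQ := Q.isPrime
  have he : v.asIdeal.ramificationIdx' Q.asIdeal = Nat.card (Q.asIdeal.inertia Gal(M/K)) := by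
    rw [Ideal.ramificationIdx'_eq_ramificationIdx v.asIdeal Q.asIdeal v.ne_bot,
      ← Ideal.ramificationIdxIn_eq_ramificationIdx v.asIdeal Q.asIdeal Gal(M/K),
      ← Ideal.card_inertia_eq_ramificationIdxIn (G := Gal(M/K)) v.asIdeal Q.asIdeal]
  have h1 := IsDedekindDomain.HeightOneSpectrum.valuation_liesOver (K := K) M v Q (f : K)
  have h2 : ((v.valuationOfNeZero f : Multiplicative ℤ) : WithZero (Multiplicative ℤ))
      = v.valuation K (f : K) := IsDedekindDomain.HeightOneSpectrum.valuationOfNeZero_eq v f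
  have h3 : ((Q.valuationOfNeZero (iU K M f) : Multiplicative ℤ) : WithZero (Multiplicative ℤ))
      = Q.valuation M (algebraMap K M (f : K)) :=
    IsDedekindDomain.HeightOneSpectrum.valuationOfNeZero_eq Q (iU K M f)
  rw [← h2, ← h3, ← WithZero.coe_pow, WithZero.coe_inj, he] at h1
  unfold od
  rw [← h1, toAdd_pow]
  simp

theorem ramf_unr (D : KX K M p ζ x) (hp : p.Prime) (hζ : IsPrimitiveRoot ζ p) (v : Pl K)
    (hv : ((p : ℕ) : 𝓞 K) ∉ v.asIdeal) (hx : (p : ℤ) ∣ od v x) (Q : Pl M) (hQ : Ov Q v) (f : Kˣ) :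
    od Q (iU K M f) = od v f := by
  have hQp := Q.isPrime
  have hp0 : (p : ℤ) ≠ 0 := by exact_mod_cast hp.ne_zero
  have hNZ : NeZero p := ⟨hp.ne_zero⟩
  obtain ⟨m, hm⟩ := hx
  obtain ⟨π, hπ⟩ := exists_unif v
  set β' : Mˣ := D.β * iU K M π ^ (-m) with hβ'
  have hβ'p : β' ^ p = iU K M (x * π ^ (-(p : ℤ) * m)) := by
    rw [hβ', mul_pow, D.pow, map_mul, map_zpow, ← zpow_natCast (iU K M π ^ (-m)) p, ← zpow_mul]
    congr 2
    ring
  have hod : od Q β' = 0 := by
    have h1 : (p : ℤ) * od Q β' = 0 := by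
      rw [← od_pow, hβ'p, od_iU_card Q v hQ, od_mul, od_zpow, hπ, hm]
      ring
    exact (mul_eq_zero.1 h1).resolve_left hp0
  obtain ⟨a, b, ha, hb, hab⟩ := exists_int_div Q β' hod
  have hζM : IsPrimitiveRoot (algebraMap K M ζ) p := hζ.map_of_injective (algebraMap K M).injective
  have hz := hζM.toInteger_isPrimitiveRoot
  set z : 𝓞 M := hζM.toInteger with hzdef
  have hzc : (z : M) = algebraMap K M ζ := rfl
  have hpQ : ((p : ℕ) : 𝓞 M) ∉ Q.asIdeal := by
    intro h
    apply hv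
    have hQ' : Q.asIdeal.under (𝓞 K) = v.asIdeal := hQ
    rw [← hQ', Ideal.mem_under, map_natCast]
    exact h
  have hin : ∀ g ∈ Q.asIdeal.inertia Gal(M/K), g = 1 := by
    intro g hg
    obtain ⟨k, rfl⟩ := D.gen g
    have hgβ : (D.γ ^ k) (β' : M) = algebraMap K M ζ ^ k * β' := by
      have h1 : ((D.γ ^ k : Gal(M/K))) (((iU K M π ^ (-m) : Mˣ)) : M) =
          ((iU K M π ^ (-m) : Mˣ) : M) := by
        have h2 := gU_iU (D.γ ^ k) (π ^ (-m))
        have h3 := congrArg (fun u : Mˣ => (u : M)) h2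
        rw [map_zpow] at h3
        exact h3
      rw [hβ', Units.val_mul, map_mul, kx_pow_act, h1]
      ring
    have h4 : (D.γ ^ k • a) * b = z ^ k * a * (D.γ ^ k • b) := by
      apply NumberField.RingOfIntegers.ext
      change (D.γ ^ k) (a : M) * (b : M) = (z : M) ^ k * (a : M) * (D.γ ^ k) (b : M)
      rw [← hab, map_mul, hgβ, hzc]
      ring
    have h5 : D.γ ^ k • a - a ∈ Q.asIdeal := hg a
    have h6 : D.γ ^ k • b - b ∈ Q.asIdeal := hg b
    have h7 : (z ^ k - 1) * (a * b) ∈ Q.asIdeal := by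
      have e : (z ^ k - 1) * (a * b) = (D.γ ^ k • a - a) * b -
          z ^ k * a * (D.γ ^ k • b - b) + (z ^ k * a * (D.γ ^ k • b) - (D.γ ^ k • a) * b) := by
        ring
      rw [e, h4, sub_self, add_zero]
      exact Q.asIdeal.sub_mem (Ideal.mul_mem_right _ _ h5) (Ideal.mul_mem_left _ _ h6)
    rcases hQp.mem_or_mem h7 with h8 | h8
    · have h9 := ramf_dvd hp.pos hz Q.asIdeal hpQ k h8
      obtain ⟨l, rfl⟩ := h9
      have hγp : D.γ ^ p = 1 := orderOf_dvd_iff_pow_eq_one.1 (dvd_of_eq D.ord)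
      rw [pow_mul, hγp, one_pow]
    · rcases hQp.mem_or_mem h8 with h9 | h9
      · exact absurd h9 ha
      · exact absurd h9 hb
  have hbot : Q.asIdeal.inertia Gal(M/K) = ⊥ := by
    rw [Subgroup.eq_bot_iff_forall]
    exact hin
  rw [od_iU_card Q v hQ f, hbot, Subgroup.card_bot]
  simp

theorem ramf_ram (D : KX K M p ζ x) (hp : p.Prime) (hζ : IsPrimitiveRoot ζ p) (v : Pl K)
    (hx : ¬ (p : ℤ) ∣ od v x) (Q : Pl M) (hQ : Ov Q v) :
    (∀ f : Kˣ, od Q (iU K M f) = p * od v f) ∧ ∀ Q' : Pl M, Ov Q' v → Q' = Q := by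
  have hQp := Q.isPrime
  set r := Nat.card (Q.asIdeal.inertia Gal(M/K)) with hr
  have hcard : Nat.card Gal(M/K) = p := by
    rw [IsGalois.card_aut_eq_finrank, kx_finrank D hp]
  have hr_dvd : r ∣ p := by
    rw [← hcard]
    exact Subgroup.card_subgroup_dvd_card _
  have hpr : p ∣ r := by
    have h1 : (p : ℤ) * od Q D.β = (r : ℤ) * od v x := by
      rw [← od_pow, D.pow, od_iU_card Q v hQ]
    have h2 : (p : ℤ) ∣ (r : ℤ) * od v x := ⟨_, h1.symm⟩
    have h3 := (Nat.prime_iff_prime_int.1 hp).dvd_or_dvd h2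
    rcases h3 with h3 | h3
    · exact_mod_cast h3
    · exact absurd h3 hx
  have hrp : r = p := Nat.dvd_antisymm hr_dvd hpr
  have htop : Q.asIdeal.inertia Gal(M/K) = ⊤ := by
    apply Subgroup.eq_top_of_card_eq
    rw [← hr, hrp, hcard]
  refine ⟨fun f => by rw [od_iU_card Q v hQ f, ← hr, hrp], fun Q' hQ' => ?_⟩
  obtain ⟨g, hg⟩ := ov_trans Q Q' v hQ hQ'
  have hgi : g ∈ Q.asIdeal.inertia Gal(M/K) := by rw [htop]; trivial
  have hgs : g • Q.asIdeal = Q.asIdeal := Ideal.inertia_le_stabilizer Q.asIdeal hgi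
  exact IsDedekindDomain.HeightOneSpectrum.ext (hg.trans hgs)

end H38.TD
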