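import Pool.Agent.H38.TD.HomDefs
import Pool.Agent.H38.TD.RamF

/-!
# [H38 TD NU] The element `nu` (80-140 lines)

`nu tb e f a b Q = ∏_{j,g} (g a_j)^{od Q (g e_j)} ∏ b_j^{od Q (f_j)}`, `θ = tb γ`, `θ b_j = b_j`.

* `nu_smul`: if `Q' = g₀ • Q` then `od Q' (g e) = od Q (g₀⁻¹ g e)` (`od_gal`, `gU_mul`), reindex the
  product over `g`; `tb g₀` fixes `b_j` (it is a power of `θ`).
* `nu_fix`: if all `g` fix `Q` then `nu Q` is fixed by `θ` (from `nu_smul`).
* `nu_ram`: if all `g` fix `Q`, then `od Q (g e) = od Q e`, so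
  `∏_g (g a)^{od Q (g e)} = (∏_g g a)^{od Q e} = nh θ p (a^{od Q e})` (`kx_prod`, `tb (γ^k) = θ^k`);
  and if `od Q (iU f) = p · od v f` then `b^{od Q (iU f)} = (b^{od v f})^p = nh θ p (b^{od v f})` for
  fixed `b`.  So `nu Q` is in the range of `nh θ p`.
* `nu_one`: if all orders are zero then `nu Q = 1`.
* `nu_sum`: splitting of the index sets.
* `nu_mul`: multiplicativity in `(a, b)`.
-/

open scoped NumberField Pointwise
open H38.ML

noncomputable section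

namespace H38.TD

variable {K M : Type} [Field K] [NumberField K] [Field M] [NumberField M] [Algebra K M]
  [IsGalois K M] {p : ℕ} {ζ : K} {x : Kˣ} {A : Type} [CommGroup A]
  {J J' J₁ J₁' : Type} [Fintype J] [Fintype J'] [Fintype J₁] [Fintype J₁']

omit [IsGalois K M] in
lemma nu_tbfix (D : KX K M p ζ x) (tb : Gal(M/K) →* MulAut A) (c : A) (hc : tb D.γ c = c)
    (g : Gal(M/K)) : tb g c = c := by
  obtain ⟨k, rfl⟩ := D.gen g
  rw [map_pow]
  induction k with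
  | zero => simp
  | succ k ih => rw [pow_succ, MulAut.mul_apply, hc, ih]

omit [IsGalois K M] in
lemma nu_eq (tb : Gal(M/K) →* MulAut A) (e : J → Mˣ) (f : J' → Kˣ)
    (a : J → A) (b : J' → A) (Q : Pl M) : nu tb e f a b Q =
      (∏ j, ∏ g : Gal(M/K), tb g (a j) ^ od Q (gU g (e j))) * ∏ j, b j ^ od Q (iU K M (f j)) := rfl

theorem nu_smul (D : KX K M p ζ x) (tb : Gal(M/K) →* MulAut A) (e : J → Mˣ) (f : J' → Kˣ)
    (a : J → A) (b : J' → A) (hb : ∀ j, tb D.γ (b j) = b j) (g : Gal(M/K)) (Q Q' : Pl M)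
    (h : Q'.asIdeal = g • Q.asIdeal) : nu tb e f a b Q' = tb g (nu tb e f a b Q) := by
  simp only [nu_eq]
  rw [map_mul, map_prod, map_prod]
  congr 1
  · refine Finset.prod_congr rfl fun j _ => ?_
    rw [map_prod]
    rw [← Equiv.prod_comp (Equiv.mulLeft g)]
    refine Finset.prod_congr rfl fun h' _ => ?_
    rw [Equiv.coe_mulLeft, map_zpow, map_mul, MulAut.mul_apply, gU_mul, od_gal g Q Q' h]
  · refine Finset.prod_congr rfl fun j _ => ?_
    rw [map_zpow, nu_tbfix D tb (b j) (hb j) g]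
    congr 1
    rw [← od_gal g Q Q' h (iU K M (f j)), gU_iU]

theorem nu_fix (D : KX K M p ζ x) (tb : Gal(M/K) →* MulAut A) (e : J → Mˣ) (f : J' → Kˣ)
    (a : J → A) (b : J' → A) (hb : ∀ j, tb D.γ (b j) = b j) (Q : Pl M)
    (h : ∀ g : Gal(M/K), g • Q.asIdeal = Q.asIdeal) :
    nu tb e f a b Q ∈ fx (tb D.γ : A ≃* A) :=
  (nu_smul D tb e f a b hb D.γ Q Q (h D.γ).symm).symm

theorem nu_ram (D : KX K M p ζ x) (hp : p.Prime) (tb : Gal(M/K) →* MulAut A) (e : J → Mˣ)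
    (f : J' → Kˣ) (a : J → A) (b : J' → A) (hb : ∀ j, tb D.γ (b j) = b j) (v : Pl K) (Q : Pl M)
    (h : ∀ g : Gal(M/K), g • Q.asIdeal = Q.asIdeal)
    (hv : ∀ f : Kˣ, od Q (iU K M f) = p * od v f) :
    nu tb e f a b Q ∈ (nh (tb D.γ : A ≃* A) p).range := by
  simp only [nu_eq]
  refine mul_mem (prod_mem fun j _ => ?_) (prod_mem fun j _ => ?_)
  · refine ⟨a j ^ od Q (e j), ?_⟩
    rw [kx_prod D hp]
    change ∏ k ∈ Finset.range p, ((tb D.γ) ^ k : MulAut A) (a j ^ od Q (e j)) = _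
    refine Finset.prod_congr rfl fun k _ => ?_
    rw [map_zpow, ← map_pow, od_gal (D.γ ^ k) Q Q (h _).symm]
  · refine ⟨b j ^ od v (f j), ?_⟩
    change ∏ k ∈ Finset.range p, ((tb D.γ) ^ k : MulAut A) (b j ^ od v (f j)) = _
    rw [hv, mul_comm, zpow_mul, zpow_natCast]
    rw [Finset.prod_congr rfl (g := fun _ => b j ^ od v (f j)), Finset.prod_const,
      Finset.card_range]
    intro k _
    rw [map_zpow, ← map_pow, nu_tbfix D tb (b j) (hb j)]

theorem nu_one (tb : Gal(M/K) →* MulAut A) (e : J → Mˣ) (f : J' → Kˣ)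
    (a : J → A) (b : J' → A) (Q : Pl M) (he : ∀ j (g : Gal(M/K)), od Q (gU g (e j)) = 0)
    (hf : ∀ j, od Q (iU K M (f j)) = 0) : nu tb e f a b Q = 1 := by
  simp only [nu_eq]
  simp [he, hf]

theorem nu_sum (tb : Gal(M/K) →* MulAut A) (e : J ⊕ J₁ → Mˣ) (f : J' ⊕ J₁' → Kˣ)
    (a : J ⊕ J₁ → A) (b : J' ⊕ J₁' → A) (Q : Pl M) :
    nu tb e f a b Q =
      nu tb (e ∘ Sum.inl) (f ∘ Sum.inl) (a ∘ Sum.inl) (b ∘ Sum.inl) Q *
        nu tb (e ∘ Sum.inr) (f ∘ Sum.inr) (a ∘ Sum.inr) (b ∘ Sum.inr) Q := by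
  simp only [nu_eq]
  rw [Fintype.prod_sum_type, Fintype.prod_sum_type]
  simp only [Function.comp_apply]
  exact mul_mul_mul_comm _ _ _ _

theorem nu_mul (tb : Gal(M/K) →* MulAut A) (e : J → Mˣ) (f : J' → Kˣ)
    (a a' : J → A) (b b' : J' → A) (Q : Pl M) :
    nu tb e f (a * a') (b * b') Q = nu tb e f a b Q * nu tb e f a' b' Q := by
  simp only [nu_eq]
  simp only [Pi.mul_apply, map_mul, mul_zpow, Finset.prod_mul_distrib]
  exact mul_mul_mul_comm _ _ _ _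

end H38.TD
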