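import Pool.Agent.H38.TD.Sel
import Pool.Agent.H38.TD.IndU
import Pool.Agent.H38.TD.HomEx
import Pool.Agent.H38.TD.HomLoc
import Pool.Agent.H38.TD.Nu
import Pool.Agent.H38.TD.CntAbs

/-!
# [H38 TD HOMCNT] Counting the homomorphisms over `x` (assembly, 200-300 lines)

`θ = pd.θ`, `N = nh θ p`.  `θ^p = 1` (from `pd.conj`, `pd.cp`, `pd.jinj`).  By `kx_rep` there are
`ρb : Gal(M/K) →* P`, `γ ↦ c` and `tb : Gal(M/K) →* MulAut A`, `γ ↦ θ`; `hconj` of `homex` holds for
`γ^k` by induction, so for all `g` (`D.gen`).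

Index types: `J1 = ker N`, `J3 = fx θ` (as types, `Fintype.ofFinite`), `J2 = tp A p` in the second
case of `hflag` and `J2 = Empty` (or `PEmpty`) in the first.  All have at most `#A` elements, so
`#J1 + #J2 + #J3 + 1 ≤ s` by `hs1`.  Take `e, f` from `sel` and `hind` from `ind_units`.

For `t = (a₁, b₁) ∈ T = (Fin #sp → A) × (Fin k'' → fx θ)` (`k'' = #supp + #R - #sp`) let
`a = Sum.elim (Sum.elim Subtype.val Subtype.val) a₁`, `b = Sum.elim Subtype.val (fun i => b₁ i)`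
(the seeds `J1, J2, J3` get their own value as an element of `A`), and `ρ_t` from `homex`.

`nu` of the pair is (`nu_sum`) the product of the seed part `ν₀ Q` and the free part `ν_t Q`
(a homomorphism in `t`, `nu_mul`).
Seed part, `Q` over `v`:
* `v ∉ S ∪ supp ∪ R`: all orders are `0` (`gU_mem_TU`, definition of `TU`, `ov_unique`,
  `exists_below`), `ν₀ = 1`, and also `ν_t Q = 1`.
* `v ∈ supp`: `J2`: orders `0` (`v ∉ S ∪ R` by disjointness); `J3`: orders `0`;
  `J1`: all `g` fix `Q` (`ramf_ram`: `Q` is the only place over `v`), so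
  `od Q (g e) = od Q e` (`od_gal`) and the factor is `∏_g (g a)^{od Q e} = N(a)^{od Q e} = 1`
  (`kx_prod`).  So `ν₀ Q = 1`.
* `v ∈ R`: `J1`, `J3`: orders `0`; `J2`: `a^p = 1` so the factor is killed by `p`.  So `ν₀ Q^p = 1`.
For each `v ∈ supp ∪ R` choose `Q_v` over `v` (`exists_ov`).  Apply `cnt_abs` with `s = supp ∪ R`,
`φ v t = ν_t Q_v`, and
* `v ∈ supp`: `B = range N` (`nu_ram`), `C = ⊥`; `C.relIndex B = #range N`;
* `v ∈ sp`: `B = ⊤`, `C = tp A p`; `C.relIndex ⊤ = #A / #tp`;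
* `v ∈ R ∖ sp`: `B = fx θ` (`nu_fix`, `kx_nspl`), `C = tp A p`; `relIndex = #fx / #(fx ⊓ tp)`.
`#T = #A^#sp · #fx^{#supp + #R - #sp}`, so the number of good `t` is at least
`(#fx/#range N)^#supp (#tp)^#sp (#(fx ⊓ tp))^{#R-#sp}` (`range N ≤ fx θ`).
For good `t` the conditions of `homloc` hold at all `Q` over the places (`ov_trans`, `nu_smul`:
`nu (g • Q) = tb g (nu Q)`).  `kum_surj'`: the range of `a` contains `ker N` (and `tp A p` in the second
case), the range of `b` contains `fx θ`; `hflag`.  `kum_inj'`: `t ↦ ρ_t` is injective, so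
`H = image` has as many elements as there are good `t`.
`OverX`: take `B = β`; `IsKum.modA` gives `ρ σ = j a' * ρb (res M σ)`, and if
`σ β = ζp^k β` then `res M σ = γ^l` with `l ≡ k mod p` (`kx_pow_act`, `β ≠ 0`, `hζp`), so
`ρb (res M σ) = c^l = c^k`.
-/

open scoped NumberField Pointwise
open H38.ML

noncomputable section

namespace H38.TD

variable {K Ω : Type} [Field K] [NumberField K] [Field Ω] [Algebra K Ω] [IsAlgClosure K Ω]

section grp

variable {A P : Type} [CommGroup A] [Group P] {p : ℕ}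

/-- conjugation by a power of `c` -/
theorem hc_conj (pd : PD p A P) (k : ℕ) (a : A) :
    pd.j ((pd.θ ^ k : MulAut A) a) = pd.c ^ k * pd.j a * (pd.c ^ k)⁻¹ := by
  induction k with
  | zero => simp
  | succ k ih =>
    rw [pow_succ', MulAut.mul_apply]
    have h1 := pd.conj ((pd.θ ^ k : MulAut A) a)
    rw [ih] at h1
    calc pd.j (pd.θ ((pd.θ ^ k : MulAut A) a))
        = pd.c * (pd.c ^ k * pd.j a * (pd.c ^ k)⁻¹) * pd.c⁻¹ := h1.symm
      _ = pd.c ^ (k + 1) * pd.j a * (pd.c ^ (k + 1))⁻¹ := by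
          rw [pow_succ', mul_inv_rev]
          simp only [mul_assoc]

theorem hc_theta_pow (pd : PD p A P) : (pd.θ : MulAut A) ^ p = 1 := by
  ext a
  apply pd.jinj
  rw [hc_conj, pd.cp]
  simp

theorem hc_range_le (θ : MulAut A) (hθ : θ ^ p = 1) : (nh (θ : A ≃* A) p).range ≤ fx θ := by
  rintro _ ⟨a, rfl⟩
  change (θ : MulAut A) (∏ k ∈ Finset.range p, (θ ^ k : MulAut A) a) =
    ∏ k ∈ Finset.range p, (θ ^ k : MulAut A) a
  rw [map_prod]
  have h1 : ∀ k, (θ : MulAut A) ((θ ^ k : MulAut A) a) = (θ ^ (k + 1) : MulAut A) a := by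
    intro k
    rw [pow_succ', MulAut.mul_apply]
  rw [Finset.prod_congr rfl fun k _ => h1 k]
  have h2 := Finset.prod_range_succ' (fun k => (θ ^ k : MulAut A) a) p
  have h3 := Finset.prod_range_succ (fun k => (θ ^ k : MulAut A) a) p
  rw [h2] at h3
  rw [hθ, pow_zero] at h3
  exact mul_right_cancel h3

/-- the counting part -/
theorem hc_count {T A I : Type} [CommGroup T] [Finite T] [CommGroup A] [Finite A]
    (supp R sp : Finset I) (hdis : Disjoint supp R) (hspR : sp ⊆ R) (N F Tp : Subgroup A)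
    (hNF : N ≤ F) (φ : I → T →* A) (h1 : ∀ v ∈ supp, (φ v).range ≤ N)
    (h2 : ∀ v ∈ R, v ∉ sp → (φ v).range ≤ F)
    (hT : Nat.card T = Nat.card A ^ sp.card * Nat.card F ^ (supp.card + R.card - sp.card)) :
    (Nat.card F / Nat.card N) ^ supp.card * (Nat.card Tp ^ sp.card *
      Nat.card (F ⊓ Tp : Subgroup A) ^ (R.card - sp.card)) ≤
      Nat.card {t : T // (∀ v ∈ supp, φ v t = 1) ∧ ∀ v ∈ R, φ v t ∈ Tp} := by
  classical
  set B : I → Subgroup A := fun v => if v ∈ supp then N else if v ∈ sp then ⊤ else F with hB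
  set C : I → Subgroup A := fun v => if v ∈ supp then ⊥ else Tp with hC
  have hcnt := cnt_abs (supp ∪ R) φ B C (by
    intro v hv
    by_cases hvs : v ∈ supp
    · simp only [hB, if_pos hvs]
      exact h1 v hvs
    · simp only [hB, if_neg hvs]
      have hvR : v ∈ R := by
        rcases Finset.mem_union.1 hv with h | h
        · exact absurd h hvs
        · exact h
      by_cases hvsp : v ∈ sp
      · rw [if_pos hvsp]; exact le_top
      · rw [if_neg hvsp]; exact h2 v hvR hvsp)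
  have hRs : ∀ v ∈ R, v ∉ supp := fun v hv hs => Finset.disjoint_left.1 hdis hs hv
  have hgood : Nat.card {t : T // ∀ i ∈ supp ∪ R, φ i t ∈ C i} =
      Nat.card {t : T // (∀ v ∈ supp, φ v t = 1) ∧ ∀ v ∈ R, φ v t ∈ Tp} := by
    refine Nat.card_congr (Equiv.subtypeEquivRight fun t => ?_)
    constructor
    · intro h
      refine ⟨fun v hv => ?_, fun v hv => ?_⟩
      · have h3 := h v (Finset.mem_union_left _ hv)
        simp only [hC, if_pos hv] at h3
        exact Subgroup.mem_bot.1 h3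
      · have h3 := h v (Finset.mem_union_right _ hv)
        simp only [hC, if_neg (hRs v hv)] at h3
        exact h3
    · rintro ⟨h3, h4⟩ v hv
      by_cases hvs : v ∈ supp
      · simp only [hC, if_pos hvs]
        exact Subgroup.mem_bot.2 (h3 v hvs)
      · simp only [hC, if_neg hvs]
        rcases Finset.mem_union.1 hv with h | h
        · exact absurd h hvs
        · exact h4 v h
  have hprod : ∏ i ∈ supp ∪ R, (C i).relIndex (B i) =
      Nat.card N ^ supp.card * (Tp.index ^ sp.card * Tp.relIndex F ^ (R.card - sp.card)) := by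
    rw [Finset.prod_union hdis]
    congr 1
    · rw [Finset.prod_congr rfl (g := fun _ => Nat.card N), Finset.prod_const]
      intro v hv
      simp only [hB, hC, if_pos hv, Subgroup.relIndex_bot_left]
    · rw [← Finset.prod_sdiff hspR, mul_comm]
      congr 1
      · rw [Finset.prod_congr rfl (g := fun _ => Tp.index), Finset.prod_const]
        intro v hv
        simp only [hB, hC, if_neg (hRs v (hspR hv)), if_pos hv, Subgroup.relIndex_top_right]
      · rw [Finset.prod_congr rfl (g := fun _ => Tp.relIndex F), Finset.prod_const,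
          Finset.card_sdiff_of_subset hspR]
        intro v hv
        rw [Finset.mem_sdiff] at hv
        simp only [hB, hC, if_neg (hRs v hv.1), if_neg hv.2]
  rw [hgood, hprod] at hcnt
  have ha : Nat.card A = Nat.card Tp * Tp.index := (Subgroup.card_mul_index Tp).symm
  have hf : Nat.card F = Nat.card (F ⊓ Tp : Subgroup A) * Tp.relIndex F := by
    have h3 := Subgroup.relIndex_mul_relIndex (⊥ : Subgroup A) (Tp ⊓ F) F bot_le inf_le_right
    rw [Subgroup.relIndex_bot_left, Subgroup.relIndex_bot_left, Subgroup.inf_relIndex_right,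
      inf_comm] at h3
    exact h3.symm
  have hr : Nat.card F = Nat.card N * (Nat.card F / Nat.card N) :=
    (Nat.mul_div_cancel' (Subgroup.card_dvd_of_le hNF)).symm
  have hsc : sp.card ≤ R.card := Finset.card_le_card hspR
  have hexp : supp.card + R.card - sp.card = supp.card + (R.card - sp.card) := by omega
  have hpos : 0 < Nat.card N ^ supp.card * (Tp.index ^ sp.card *
      Tp.relIndex F ^ (R.card - sp.card)) := by
    have h3 : 0 < Nat.card N := Nat.card_pos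
    have h4 : 0 < Tp.index := Nat.pos_of_ne_zero Subgroup.index_ne_zero_of_finite
    have h5 : 0 < Tp.relIndex F := by
      rcases Nat.eq_zero_or_pos (Tp.relIndex F) with h | h
      · rw [h, mul_zero] at hf
        have : 0 < Nat.card F := Nat.card_pos
        omega
      · exact h
    positivity
  refine Nat.le_of_mul_le_mul_right (le_of_eq_of_le ?_ hcnt) hpos
  rw [hT, hexp, pow_add]
  set q' := Nat.card F / Nat.card N
  have e1 : Nat.card F ^ supp.card = Nat.card N ^ supp.card * q' ^ supp.card := by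
    conv_lhs => rw [hr]
    rw [mul_pow]
  have e2 : Nat.card F ^ (R.card - sp.card) = Nat.card (F ⊓ Tp : Subgroup A) ^
      (R.card - sp.card) * Tp.relIndex F ^ (R.card - sp.card) := by
    conv_lhs => rw [hf]
    rw [mul_pow]
  rw [e1, e2, ha, mul_pow]
  ring

end grp

section core

variable {M : IntermediateField K Ω} [FiniteDimensional K M] [IsGalois K M] [NumberField M]
  {A P : Type} [CommGroup A] [Group P] {p : ℕ} {ζp : K} {x : Kˣ}

/-- orders of `T`-units at places outside `T` -/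
theorem hc_ord {M : Type} [Field M] [NumberField M] [Algebra K M] {T : Set (Pl K)} {e : Mˣ}
    (he : e ∈ TU K M T) {v : Pl K} (hv : v ∉ T) {Q : Pl M} (hQ : Ov Q v) : od Q e = 0 :=
  he Q fun v' hv' hov => hv (ov_unique Q v v' hQ hov ▸ hv')

theorem hc_over {J J' : Type} [Fintype J] [Fintype J'] (pd : PD p A P) (hp : p.Prime)
    (hζp : IsPrimitiveRoot ζp p) (D : KX K M p ζp x) {q : ℕ} {ζ : K} {ρb : Gal(M/K) →* P}
    {tb : Gal(M/K) →* MulAut A} {e : J → Mˣ} {f : J' → Kˣ} {a : J → A} {b : J' → A}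
    {ρ : Gal(Ω/K) →* P} (h : IsKum M pd q ζ ρb tb e f a b ρ) (hρb : ρb D.γ = pd.c) :
    OverX pd ζp x ρ := by
  have hz : IsPrimitiveRoot (algebraMap K Ω ζp) p :=
    hζp.map_of_injective (algebraMap K Ω).injective
  refine ⟨((D.β : M) : Ω), ?_, ?_⟩
  · have h1 := congrArg (fun u : Mˣ => (((u : Mˣ) : M) : Ω)) D.pow
    simpa [iU] using h1
  · intro σ l hσ
    obtain ⟨a', ha'⟩ := h.modA σ
    refine ⟨a', ?_⟩
    rw [ha']
    congr 1
    obtain ⟨m, hm⟩ := D.gen (res M σ)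
    rw [hm, map_pow, hρb]
    have h1 : (((res M σ) (D.β : M) : M) : Ω) = σ ((D.β : M) : Ω) :=
      AlgEquiv.restrictNormal_commutes σ M (D.β : M)
    rw [hm, kx_pow_act, hσ] at h1
    have h2 : algebraMap K Ω ζp ^ m * ((D.β : M) : Ω) =
        algebraMap K Ω ζp ^ (l : ℤ) * ((D.β : M) : Ω) := by
      rw [zpow_natCast, ← h1]
      rfl
    have hβ0 : ((D.β : M) : Ω) ≠ 0 := by
      intro h0
      exact D.β.ne_zero (by exact_mod_cast h0)
    have h3 := hx_pow hp.pos pd.cp hz hβ0 h2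
    rw [h3, zpow_natCast]

end core

theorem homcnt_core {A P : Type} [CommGroup A] [Finite A] [Group P] [Finite P] {p : ℕ}
    (pd : PD p A P) (hp : p.Prime) (k : ℕ) (ζ : K) (hζ : IsPrimitiveRoot ζ (p ^ k)) (ζp : K)
    (hζp : IsPrimitiveRoot ζp p) (hA : ∀ t : A, t ^ p ^ k = 1)
    (htc : NumberField.IsTotallyComplex K) (s : ℕ)
    (hs : s + 1 ≤ Fintype.card (NumberField.InfinitePlace K)) (hs1 : 3 * Nat.card A + 1 ≤ s)
    (S : Set (Pl K)) (hS : S.Finite)
    (sd : SD K S) (hSp : ∀ v : Pl K, v ∉ S → ((p : ℕ) : 𝓞 K) ∉ v.asIdeal)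
    (x : Kˣ) (M : IntermediateField K Ω) [FiniteDimensional K M] [IsGalois K M] [NumberField M]
    (D : KX K M p ζp x)
    (supp R sp : Finset (Pl K)) (hsupp : ∀ v ∈ supp, v ∉ S) (hR : ∀ v ∈ R, v ∉ S)
    (hdis : Disjoint supp R) (hx : x ∈ TK K (S ∪ (supp : Set (Pl K))))
    (hram : ∀ v ∈ supp, ¬ (p : ℤ) ∣ od v x)
    (hsp : ∀ v, v ∈ sp ↔ v ∈ R ∧ Spl D.γ v)
    {J2 : Type} [Fintype J2] (c2 : J2 → A) (hc2 : ∀ j, c2 j ^ p = 1)
    (hJ2 : Fintype.card J2 ≤ Nat.card A) (hfl : IsEmpty J2 ∨ supp.card ≤ sp.card)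
    (hgen : Subgroup.closure (((nh pd.θ p).ker : Set A) ∪ (fx pd.θ : Set A) ∪ Set.range c2) = ⊤) :
    ∃ H : Finset (Gal(Ω/K) →* P),
      (∀ ρ ∈ H, Function.Surjective ρ ∧ FT ρ ∧ OverX pd ζp x ρ ∧
        (∀ v, v ∉ S → v ∉ supp → v ∉ R → UnrAt ρ v.asIdeal) ∧
        ∀ v, v ∉ S → SmallAt p ρ v.asIdeal) ∧
      (Nat.card (fx pd.θ) / Nat.card (nh pd.θ p).range) ^ supp.card *
          (Nat.card (tp A p) ^ sp.card *
            Nat.card (fx pd.θ ⊓ tp A p : Subgroup A) ^ (R.card - sp.card)) ≤ H.card := by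
  classical
  obtain ⟨ρb, hρb⟩ := kx_rep D hp pd.c pd.cp
  obtain ⟨tb, htb⟩ := kx_rep D hp (pd.θ : MulAut A) (hc_theta_pow pd)
  have hconj : ∀ (g : Gal(M/K)) (t : A), pd.j (tb g t) = ρb g * pd.j t * (ρb g)⁻¹ := by
    intro g t
    obtain ⟨l, rfl⟩ := D.gen g
    rw [map_pow, map_pow, hρb, htb]
    exact hc_conj pd l t
  letI : Fintype (nh pd.θ p).ker := Fintype.ofFinite _
  letI : Fintype (fx pd.θ) := Fintype.ofFinite _
  have hJ : Fintype.card (nh pd.θ p).ker + Fintype.card J2 + Fintype.card (fx pd.θ) + 1 ≤ s := by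
    have h1 : Fintype.card (nh pd.θ p).ker ≤ Nat.card A := by
      rw [← Nat.card_eq_fintype_card]
      exact Subgroup.card_le_card_group _
    have h2 : Fintype.card (fx pd.θ) ≤ Nat.card A := by
      rw [← Nat.card_eq_fintype_card]
      exact Subgroup.card_le_card_group _
    omega
  obtain ⟨e, f, he1, he2, he3, hf1, hf2, hind0⟩ := sel (J1 := (nh pd.θ p).ker) (J2 := J2)
    (J3 := fx pd.θ) D hp hζp htc s hs S hS sd hSp supp R sp hsupp hR hdis hx hsp hJ hfl
  have hind := ind_units D hp hζp e f hind0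
  -- the parameters
  let a : ((Fin sp.card → A) × (Fin (supp.card + R.card - sp.card) → fx pd.θ)) →
      (((nh pd.θ p).ker ⊕ J2) ⊕ Fin sp.card) → A :=
    fun t => Sum.elim (Sum.elim Subtype.val c2) t.1
  let b : ((Fin sp.card → A) × (Fin (supp.card + R.card - sp.card) → fx pd.θ)) →
      (fx pd.θ ⊕ Fin (supp.card + R.card - sp.card)) → A :=
    fun t => Sum.elim Subtype.val (fun i => (t.2 i : A))
  have hb : ∀ t j, pd.θ (b t j) = b t j := by
    rintro t (j | j)
    · exact j.2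
    · exact (t.2 j).2
  have hb' : ∀ t j, tb D.γ (b t j) = b t j := by
    intro t j
    rw [htb]
    exact hb t j
  have hρex : ∀ t, ∃ ρ : Gal(Ω/K) →* P, IsKum M pd (p ^ k) ζ ρb tb e f (a t) (b t) ρ := fun t =>
    homex M pd D (p ^ k) (pow_pos hp.pos k) ζ hζ hA ρb tb htb hconj e f (a t) (b t) (hb t)
  choose ρ hρ using hρex
  let φ : Pl M → ((Fin sp.card → A) × (Fin (supp.card + R.card - sp.card) → fx pd.θ)) →* A :=
    fun Q => MonoidHom.mk'
      (fun t => nu tb (e ∘ Sum.inr) (f ∘ Sum.inr) t.1 (fun i => (t.2 i : A)) Q) (by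
        intro t t'
        exact nu_mul tb _ _ t.1 t'.1 (fun i => (t.2 i : A)) (fun i => (t'.2 i : A)) Q)
  let ν₀ : Pl M → A := fun Q =>
    nu tb (e ∘ Sum.inl) (f ∘ Sum.inl) (Sum.elim Subtype.val c2) Subtype.val Q
  have hsplit : ∀ t Q, nu tb e f (a t) (b t) Q = ν₀ Q * φ Q t := by
    intro t Q
    rw [nu_sum]
    rfl
  have hbR : ∀ (t : (Fin sp.card → A) × (Fin (supp.card + R.card - sp.card) → fx pd.θ)) j,
      tb D.γ ((t.2 j : A)) = (t.2 j : A) := by
    intro t j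
    rw [htb]
    exact (t.2 j).2
  -- orders
  have hout : ∀ v, v ∉ S → v ∉ supp → v ∉ R → ∀ Q : Pl M, Ov Q v → ∀ t,
      nu tb e f (a t) (b t) Q = 1 := by
    intro v h1 h2 h3 Q hQ t
    have h4 : v ∉ S ∪ (supp : Set (Pl K)) ∪ (R : Set (Pl K)) := by
      rintro ((h | h) | h)
      · exact h1 h
      · exact h2 h
      · exact h3 h
    refine nu_one tb e f (a t) (b t) Q (fun j g => ?_) (fun j => ?_)
    · exact hc_ord (gU_mem_TU _ g _ (he3 j)) h4 hQ
    · exact hc_ord ((iU_mem_TU_iff _ (f j)).2 (hf2 j)) h4 hQ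
  have hS3 : ∀ (j : fx pd.θ) v, v ∉ S → ∀ Q : Pl M, Ov Q v →
      od Q (iU K M (f (Sum.inl j))) = 0 := fun j v h1 Q hQ =>
    hc_ord ((iU_mem_TU_iff _ (f (Sum.inl j))).2 (hf1 j)) h1 hQ
  have hQR : ∀ v ∈ supp, ∀ Q : Pl M, Ov Q v → ∀ g : Gal(M/K), g • Q.asIdeal = Q.asIdeal := by
    intro v hv Q hQ g
    obtain ⟨Q', hQ'⟩ := exists_smul_pl g Q
    rw [← hQ', (ramf_ram D hp hζp v (hram v hv) Q hQ).2 Q' (ov_smul g Q Q' v hQ' hQ)]
  have hsupp0 : ∀ v ∈ supp, ∀ Q : Pl M, Ov Q v → ν₀ Q = 1 := by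
    intro v hv Q hQ
    have hvR : v ∉ R := fun h => Finset.disjoint_left.1 hdis hv h
    have hgal : ∀ (g : Gal(M/K)) (y : Mˣ), od Q (gU g y) = od Q y := fun g y =>
      od_gal g Q Q (hQR v hv Q hQ g).symm y
    change nu tb (e ∘ Sum.inl) (f ∘ Sum.inl) (Sum.elim Subtype.val c2) Subtype.val Q = 1
    rw [nu_eq, Fintype.prod_sum_type]
    have e1 : ∏ j : (nh pd.θ p).ker, ∏ g : Gal(M/K),
        tb g (Sum.elim Subtype.val c2 (Sum.inl j)) ^ od Q (gU g ((e ∘ Sum.inl) (Sum.inl j))) = 1 := by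
      refine Finset.prod_eq_one fun j _ => ?_
      have h1 : ∀ g : Gal(M/K), tb g (Sum.elim (Subtype.val : (nh pd.θ p).ker → A) c2 (Sum.inl j)) ^
          od Q (gU g ((e ∘ Sum.inl) (Sum.inl j))) =
          (tb g (j : A)) ^ od Q (e (Sum.inl (Sum.inl j))) := by
        intro g
        rw [hgal]
        rfl
      rw [Finset.prod_congr rfl fun g _ => h1 g, Finset.prod_zpow, kx_prod D hp]
      have h2 : ∏ l ∈ Finset.range p, tb (D.γ ^ l) (j : A) = nh pd.θ p (j : A) := by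
        change _ = ∏ l ∈ Finset.range p, (pd.θ ^ l : MulAut A) (j : A)
        refine Finset.prod_congr rfl fun l _ => ?_
        rw [map_pow, htb]
      rw [h2, MonoidHom.mem_ker.1 j.2, one_zpow]
    have e2 : ∏ j : J2, ∏ g : Gal(M/K), tb g (Sum.elim (Subtype.val : (nh pd.θ p).ker → A) c2
        (Sum.inr j)) ^ od Q (gU g ((e ∘ Sum.inl) (Sum.inr j))) = 1 := by
      refine Finset.prod_eq_one fun j _ => Finset.prod_eq_one fun g _ => ?_
      have h1 : od Q (gU g (e (Sum.inl (Sum.inr j)))) = 0 := by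
        refine hc_ord (gU_mem_TU _ g _ (he2 j)) ?_ hQ
        rintro (h | h)
        · exact hsupp v hv h
        · exact hvR h
      change _ ^ od Q (gU g (e (Sum.inl (Sum.inr j)))) = 1
      rw [h1, zpow_zero]
    have e3 : ∏ j : fx pd.θ, (j : A) ^ od Q (iU K M ((f ∘ Sum.inl) j)) = 1 := by
      refine Finset.prod_eq_one fun j _ => ?_
      change _ ^ od Q (iU K M (f (Sum.inl j))) = 1
      rw [hS3 j v (hsupp v hv) Q hQ, zpow_zero]
    rw [e1, e2, e3, mul_one, mul_one]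
  have hR0 : ∀ v ∈ R, ∀ Q : Pl M, Ov Q v → ν₀ Q ^ p = 1 := by
    intro v hv Q hQ
    have hvs : v ∉ supp := fun h => Finset.disjoint_left.1 hdis h hv
    change nu tb (e ∘ Sum.inl) (f ∘ Sum.inl) (Sum.elim Subtype.val c2) Subtype.val Q ^ p = 1
    rw [nu_eq, Fintype.prod_sum_type]
    have e1 : ∏ j : (nh pd.θ p).ker, ∏ g : Gal(M/K),
        tb g (Sum.elim Subtype.val c2 (Sum.inl j)) ^ od Q (gU g ((e ∘ Sum.inl) (Sum.inl j))) = 1 := by
      refine Finset.prod_eq_one fun j _ => Finset.prod_eq_one fun g _ => ?_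
      have h1 : od Q (gU g (e (Sum.inl (Sum.inl j)))) = 0 := by
        refine hc_ord (gU_mem_TU _ g _ (he1 j)) ?_ hQ
        rintro (h | h)
        · exact hR v hv h
        · exact hvs h
      change _ ^ od Q (gU g (e (Sum.inl (Sum.inl j)))) = 1
      rw [h1, zpow_zero]
    have e3 : ∏ j : fx pd.θ, (j : A) ^ od Q (iU K M ((f ∘ Sum.inl) j)) = 1 := by
      refine Finset.prod_eq_one fun j _ => ?_
      change _ ^ od Q (iU K M (f (Sum.inl j))) = 1
      rw [hS3 j v (hR v hv) Q hQ, zpow_zero]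
    rw [e1, e3, mul_one, one_mul, ← Finset.prod_pow]
    refine Finset.prod_eq_one fun j _ => ?_
    rw [← Finset.prod_pow]
    refine Finset.prod_eq_one fun g _ => ?_
    rw [← zpow_natCast, ← zpow_mul, mul_comm, zpow_mul, zpow_natCast, ← map_pow]
    change tb g (c2 j ^ p) ^ _ = 1
    rw [hc2, map_one, one_zpow]
  have hφs : ∀ v ∈ supp, ∀ Q : Pl M, Ov Q v → (φ Q).range ≤ (nh pd.θ p).range := by
    intro v hv Q hQ
    rintro _ ⟨t, rfl⟩
    have h1 := nu_ram D hp tb (e ∘ Sum.inr) (f ∘ Sum.inr) t.1 (fun i => (t.2 i : A)) (hbR t) v Q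
      (hQR v hv Q hQ) (ramf_ram D hp hζp v (hram v hv) Q hQ).1
    rw [htb] at h1
    exact h1
  have hφR : ∀ v ∈ R, v ∉ sp → ∀ Q : Pl M, Ov Q v → (φ Q).range ≤ fx pd.θ := by
    intro v hv hvs Q hQ
    rintro _ ⟨t, rfl⟩
    have h1 := nu_fix D tb (e ∘ Sum.inr) (f ∘ Sum.inr) t.1 (fun i => (t.2 i : A)) (hbR t) Q
      (fun g => kx_nspl D v (fun h => hvs ((hsp v).2 ⟨hv, h⟩)) Q hQ g)
    rw [htb] at h1
    exact h1
  choose Qv hQv using fun v : Pl K => exists_ov M v
  have hcount := hc_count supp R sp hdis (fun v hv => ((hsp v).1 hv).1) (nh pd.θ p).range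
    (fx pd.θ) (tp A p) (hc_range_le (pd.θ : MulAut A) (hc_theta_pow pd)) (fun v => φ (Qv v))
    (fun v hv => hφs v hv _ (hQv v)) (fun v hv hvs => hφR v hv hvs _ (hQv v)) (by
      rw [Nat.card_prod, Nat.card_fun, Nat.card_fun, Nat.card_fin, Nat.card_fin])
  -- good parameters
  set Gd : ((Fin sp.card → A) × (Fin (supp.card + R.card - sp.card) → fx pd.θ)) → Prop :=
    fun t => (∀ v ∈ supp, φ (Qv v) t = 1) ∧ ∀ v ∈ R, φ (Qv v) t ∈ tp A p with hGd
  letI : Fintype {t // Gd t} := Fintype.ofFinite _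
  have hnu1 : ∀ t, Gd t → ∀ v, v ∉ S → v ∉ R → ∀ Q : Pl M, Ov Q v →
      nu tb e f (a t) (b t) Q = 1 := by
    intro t ht v hvS hvR Q hQ
    by_cases hvs : v ∈ supp
    · have hQe : Q = Qv v := (ramf_ram D hp hζp v (hram v hvs) (Qv v) (hQv v)).2 Q hQ
      rw [hsplit, hsupp0 v hvs Q hQ, one_mul, hQe]
      exact ht.1 v hvs
    · exact hout v hvS hvs hvR Q hQ t
  have hnuR : ∀ t, Gd t → ∀ v ∈ R, ∀ Q : Pl M, Ov Q v → nu tb e f (a t) (b t) Q ^ p = 1 := by
    intro t ht v hvR Q hQ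
    obtain ⟨g, hg⟩ := ov_trans (Qv v) Q v (hQv v) hQ
    rw [nu_smul D tb e f (a t) (b t) (hb' t) g (Qv v) Q hg, ← map_pow, hsplit, mul_pow,
      hR0 v hvR _ (hQv v), one_mul]
    have h1 : φ (Qv v) t ^ p = 1 := ht.2 v hvR
    rw [h1, map_one]
  have hinj : Function.Injective fun t : {t // Gd t} => ρ t.1 := by
    intro t t' htt
    have h1 := hρ t.1
    have h2 := hρ t'.1
    have h3 : ρ t.1 = ρ t'.1 := htt
    rw [← h3] at h2
    obtain ⟨h4, h5⟩ := kum_inj' hp hζ hind (a t.1) (a t'.1) (b t.1) (b t'.1) (ρ t.1) h1 h2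
    apply Subtype.ext
    apply Prod.ext
    · funext i
      exact congrFun h4 (Sum.inr i)
    · funext i
      exact Subtype.ext (congrFun h5 (Sum.inr i))
  refine ⟨Finset.univ.image fun t : {t // Gd t} => ρ t.1, ?_, ?_⟩
  · intro r hr
    obtain ⟨⟨t, ht⟩, -, rfl⟩ := Finset.mem_image.1 hr
    have hloc := homloc hp hζ hζp D (a t) (b t) (ρ t) (hρ t) S hSp supp R hdis (by
      intro v h1 h2
      have h3 : od v x = 0 := by
        apply hx v
        rintro (h | h)
        · exact h1 h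
        · exact h2 h
      rw [h3]
      exact dvd_zero _) (hnu1 t ht) (hnuR t ht)
    refine ⟨?_, (hρ t).ft, hc_over pd hp hζp D (hρ t) hρb, hloc.1, hloc.2⟩
    refine kum_surj' hp hζ D hρb hind (a t) (b t) (ρ t) (hρ t) ?_
    rw [eq_top_iff, ← hgen]
    apply Subgroup.closure_mono
    rintro y ((hy | hy) | ⟨j, rfl⟩)
    · exact Or.inl ⟨Sum.inl (Sum.inl ⟨y, hy⟩), rfl⟩
    · exact Or.inr ⟨Sum.inl ⟨y, hy⟩, rfl⟩
    · exact Or.inl ⟨Sum.inl (Sum.inr j), rfl⟩
  · rw [Finset.card_image_of_injective _ hinj, Finset.card_univ, ← Nat.card_eq_fintype_card]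
    exact hcount

theorem homcnt {A P : Type} [CommGroup A] [Finite A] [Group P] [Finite P] {p : ℕ}
    (pd : PD p A P) (hp : p.Prime) (k : ℕ) (ζ : K) (hζ : IsPrimitiveRoot ζ (p ^ k)) (ζp : K)
    (hζp : IsPrimitiveRoot ζp p) (hA : ∀ t : A, t ^ p ^ k = 1)
    (htc : NumberField.IsTotallyComplex K) (s : ℕ)
    (hs : s + 1 ≤ Fintype.card (NumberField.InfinitePlace K)) (hs1 : 3 * Nat.card A + 1 ≤ s)
    (S : Set (Pl K)) (hS : S.Finite)
    (sd : SD K S) (hSp : ∀ v : Pl K, v ∉ S → ((p : ℕ) : 𝓞 K) ∉ v.asIdeal)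
    (x : Kˣ) (M : IntermediateField K Ω) [FiniteDimensional K M] [IsGalois K M] [NumberField M]
    (D : KX K M p ζp x)
    (supp R sp : Finset (Pl K)) (hsupp : ∀ v ∈ supp, v ∉ S) (hR : ∀ v ∈ R, v ∉ S)
    (hdis : Disjoint supp R) (hx : x ∈ TK K (S ∪ (supp : Set (Pl K))))
    (hram : ∀ v ∈ supp, ¬ (p : ℤ) ∣ od v x)
    (hsp : ∀ v, v ∈ sp ↔ v ∈ R ∧ Spl D.γ v)
    (hflag : Subgroup.closure (((nh pd.θ p).ker : Set A) ∪ (fx pd.θ : Set A)) = ⊤ ∨
      (Subgroup.closure (((nh pd.θ p).ker : Set A) ∪ (fx pd.θ : Set A) ∪ (tp A p : Set A)) = ⊤ ∧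
        supp.card ≤ sp.card)) :
    ∃ H : Finset (Gal(Ω/K) →* P),
      (∀ ρ ∈ H, Function.Surjective ρ ∧ FT ρ ∧ OverX pd ζp x ρ ∧
        (∀ v, v ∉ S → v ∉ supp → v ∉ R → UnrAt ρ v.asIdeal) ∧
        ∀ v, v ∉ S → SmallAt p ρ v.asIdeal) ∧
      (Nat.card (fx pd.θ) / Nat.card (nh pd.θ p).range) ^ supp.card *
          (Nat.card (tp A p) ^ sp.card *
            Nat.card (fx pd.θ ⊓ tp A p : Subgroup A) ^ (R.card - sp.card)) ≤ H.card := by
  rcases hflag with h1 | ⟨h1, h2⟩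
  · refine homcnt_core pd hp k ζ hζ ζp hζp hA htc s hs hs1 S hS sd hSp x M D supp R sp hsupp hR
      hdis hx hram hsp (J2 := Empty) (fun j => j.elim) (fun j => j.elim) (by simp)
      (Or.inl inferInstance) ?_
    rw [Set.range_eq_empty, Set.union_empty]
    exact h1
  · letI : Fintype (tp A p) := Fintype.ofFinite _
    refine homcnt_core pd hp k ζ hζ ζp hζp hA htc s hs hs1 S hS sd hSp x M D supp R sp hsupp hR
      hdis hx hram hsp (J2 := tp A p) Subtype.val (fun j => j.2) (by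
        rw [← Nat.card_eq_fintype_card]
        exact Subgroup.card_le_card_group _) (Or.inr h2) ?_
    rw [Subtype.range_coe_subtype]
    exact h1

end H38.TD
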