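import Pool.Agent.H38.TD.Cyc
import Pool.Agent.H38.ML.Basic

/-!
# Definitions for the Kummer construction of homomorphisms to `P = A ⋊ ⟨c⟩` (complete)
-/

open scoped NumberField Pointwise
open H38.ML

noncomputable section

namespace H38.TD

section val

variable {G A J J' : Type} [Group G] [Fintype G] [CommGroup A] [Fintype J] [Fintype J']

/-- `∏_{j,g} (g a_j)^{n_{j,g}} ∏_{j'} b_{j'}^{m_{j'}}`. -/
def kv (tb : G →* MulAut A) (a : J → A) (b : J' → A) (n : J → G → ℤ) (m : J' → ℤ) : A :=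
  (∏ j, ∏ g, tb g (a j) ^ n j g) * ∏ j, b j ^ m j

end val

section num

variable {K M A J J' : Type} [Field K] [NumberField K] [Field M] [NumberField M] [Algebra K M]
  [CommGroup A] [Fintype J] [Fintype J']

/-- The order at `Q` of the element `∑ g e_j ⊗ g a_j + ∑ f_{j'} ⊗ b_{j'}` of `Mˣ ⊗ A`. -/
def nu (tb : Gal(M/K) →* MulAut A) (e : J → Mˣ) (f : J' → Kˣ) (a : J → A) (b : J' → A)
    (Q : Pl M) : A :=
  kv tb a b (fun j g => od Q (gU g (e j))) (fun j => od Q (iU K M (f j)))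

end num

section kum

variable {K Ω : Type} [Field K] [NumberField K] [Field Ω] [Algebra K Ω]

/-- `ρ : Gal(Ω/K) → P` is the homomorphism attached to `e, f, a, b` (determined on the elements which
are trivial on `M`). `q` is a power of `p` with `A^q = 1`, `ζ` a primitive `q`-th root of unity. -/
structure IsKum (M : IntermediateField K Ω) [FiniteDimensional K M] [Normal K M]
    {A P J J' : Type} [CommGroup A] [Group P] [Fintype J] [Fintype J'] {p : ℕ} (pd : PD p A P)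
    (q : ℕ) (ζ : K) (ρb : Gal(M/K) →* P) (tb : Gal(M/K) →* MulAut A) (e : J → Mˣ) (f : J' → Kˣ)
    (a : J → A) (b : J' → A) (ρ : Gal(Ω/K) →* P) : Prop where
  ft : FT ρ
  modA : ∀ σ, ∃ a' : A, ρ σ = pd.j a' * ρb (res M σ)
  val : ∀ (σ : Gal(Ω/K)) (n : J → Gal(M/K) → ℤ) (m : J' → ℤ), res M σ = 1 →
    (∀ j g (B : Ω), B ^ q = (((gU g (e j) : Mˣ) : M) : Ω) → σ B = algebraMap K Ω ζ ^ n j g * B) →
    (∀ j (B : Ω), B ^ q = algebraMap K Ω (f j) → σ B = algebraMap K Ω ζ ^ m j * B) →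
    ρ σ = pd.j (kv tb a b n m)

/-- `ρ` modulo `j(A)` is the Kummer character of `x`: there is a root `B^p = x` such that
`ρ σ ∈ j(A) c^k` whenever `σ B = ζp^k B`. -/
def OverX {A P : Type} [CommGroup A] [Group P] {p : ℕ} (pd : PD p A P) (ζp : K) (x : Kˣ)
    (ρ : Gal(Ω/K) →* P) : Prop :=
  ∃ B : Ω, B ^ p = algebraMap K Ω x ∧ ∀ (σ : Gal(Ω/K)) (k : ℕ),
    σ B = algebraMap K Ω ζp ^ k * B → ∃ a : A, ρ σ = pd.j a * pd.c ^ k

end kum

end H38.TD
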