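import Pool.Agent.H38.TD.Defs
import Pool.Agent.H38.ML.KumEx
import Pool.Agent.H38.ML.KumSurj

/-!
# [H38 TD KAP] Surjectivity of the Kummer pairing (80-130 lines)

`M/K` finite Galois inside `Ω`, `q = p^k`, `ζ ∈ K` a primitive `q`-th root of unity, `α_x ∈ Mˣ`
(`x ∈ X` finite) independent modulo `(Mˣ)^p`, `B_x ∈ Ω` with `B_x^q = α_x`.  For every `t : X → ℕ`
there is `σ ∈ Gal(Ω/K)`, trivial on `M`, with `σ B_x = ζ^{t x} B_x` for all `x`.

Proof.  For `σ` trivial on `M` let `κ(σ) ∈ (ZMod q)^X` with `σ B_x = ζ^{κ(σ)_x} B_x`.  `κ` is a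
homomorphism from `Gal(Ω/M)` (`M.fixingSubgroup`) to `(ZMod q)^X`.  If it is not surjective, its
image `I` is a proper subgroup of the finite abelian `p`-group `(ZMod q)^X`, so it is contained in
the kernel of a nontrivial homomorphism to `ZMod p` (for instance: `I + p (ZMod q)^X` is still
proper (Nakayama / Burnside), then a linear form over `ZMod p`); the homomorphisms
`(ZMod q)^X → ZMod p` are `t ↦ ∑ m_x t_x mod p` with `m_x` not all divisible by `p`.  (In
`H38/ML/KumSurj.lean`, theorem `kum_surj`, the same argument is done with characters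
`A →* Kˣ`; one may apply that method with `A = Multiplicative (X → ZMod q)`.)
Then `b = ∏ (B_x^{q/p})^{m_x}` satisfies `σ b = ∏ ζ^{(q/p) m_x κ(σ)_x} b = b` for all `σ` trivial on
`M` (`ζ^{q/p}` has order `p`), so `b ∈ M` (`InfiniteGalois` /
`IntermediateField.fixedField_fixingSubgroup`, as in `H38/ML/KumSurj.lean`), and
`b^p = ∏ α_x^{m_x}`, so `p ∣ m_x` for all `x`, a contradiction.
-/

open scoped NumberField Pointwise
open H38.ML

noncomputable section

namespace H38.TD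

variable {K Ω : Type} [Field K] [NumberField K] [Field Ω] [Algebra K Ω] [IsAlgClosure K Ω]

/-- The standard generators of `X → ZMod q` (written multiplicatively). -/
def ksgen {X : Type} [DecidableEq X] (q : ℕ) (x : X) : X → Multiplicative (ZMod q) :=
  Pi.mulSingle x (Multiplicative.ofAdd 1)

lemma ksgen_prod {X : Type} [Fintype X] [DecidableEq X] (q : ℕ) (n : X → ℕ) (x₀ : X) :
    (∏ x, ksgen q x ^ n x) x₀ = Multiplicative.ofAdd ((n x₀ : ZMod q)) := by
  rw [Finset.prod_apply, Finset.prod_eq_single x₀]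
  · rw [Pi.pow_apply, ksgen, Pi.mulSingle_eq_same, ← ofAdd_nsmul, nsmul_one]
  · intro x _ hx
    rw [Pi.pow_apply, ksgen, Pi.mulSingle_eq_of_ne (Ne.symm hx), one_pow]
  · intro h
    exact absurd (Finset.mem_univ _) h

lemma ksgen_all {X : Type} [Fintype X] [DecidableEq X] (q : ℕ) [NeZero q]
    (s : X → Multiplicative (ZMod q)) :
    s = ∏ x, ksgen q x ^ (Multiplicative.toAdd (s x)).val := by
  funext x₀
  rw [ksgen_prod, ZMod.natCast_zmod_val]
  rfl

theorem kap (M : IntermediateField K Ω) [FiniteDimensional K M] [IsGalois K M]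
    (p k : ℕ) (hp : p.Prime) (ζ : K) (hζ : IsPrimitiveRoot ζ (p ^ k)) {X : Type} [Fintype X]
    (α : X → Mˣ) (hα : ∀ (n : X → ℤ) (y : Mˣ), ∏ x, α x ^ n x = y ^ p → ∀ x, (p : ℤ) ∣ n x)
    (B : X → Ω) (hB : ∀ x, B x ^ p ^ k = ((α x : M) : Ω)) (t : X → ℕ) :
    ∃ σ : Gal(Ω/K), res M σ = 1 ∧ ∀ x, σ (B x) = algebraMap K Ω ζ ^ t x * B x := by
  classical
  have hgal : IsGalois K Ω := IsAlgClosure.isGalois K Ω
  set q := p ^ k with hqdef
  have hq : 0 < q := pow_pos hp.pos k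
  have hq0 : NeZero q := ⟨hq.ne'⟩
  have hz : IsPrimitiveRoot (algebraMap K Ω ζ) q :=
    hζ.map_of_injective (algebraMap K Ω).injective
  have hB0 : ∀ x, B x ≠ 0 := by
    intro x h0
    have h1 := hB x
    rw [h0, zero_pow hq.ne'] at h1
    exact (α x).ne_zero (by exact_mod_cast h1.symm)
  have hzinj : ∀ {m n : ℕ}, (algebraMap K Ω ζ) ^ m = (algebraMap K Ω ζ) ^ n → m ≡ n [MOD q] := by
    intro m n h
    have h1 := (pow_eq_pow_iff_modEq (x := hz.isUnit hq.ne' |>.unit) (n := m) (m := n)).1 (by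
      apply Units.ext
      push_cast
      simpa using h)
    have h2 : orderOf (hz.isUnit hq.ne').unit = q := by
      rw [← orderOf_units, IsUnit.unit_spec]
      exact hz.eq_orderOf.symm
    rwa [h2] at h1
  have hzpow : ∀ {m n : ℕ}, m ≡ n [MOD q] → (algebraMap K Ω ζ) ^ m = (algebraMap K Ω ζ) ^ n := by
    intro m n h
    have h1 : (algebraMap K Ω ζ) ^ q = 1 := hz.pow_eq_one
    rw [← Nat.mod_add_div m q, ← Nat.mod_add_div n q, pow_add, pow_add, pow_mul, pow_mul, h1,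
      one_pow, one_pow]
    have h2 : m % q = n % q := h
    rw [h2]
  have hκex : ∀ σ : M.fixingSubgroup, ∀ x, ∃ l : ℕ,
      (σ : Gal(Ω/K)) (B x) = algebraMap K Ω ζ ^ l * B x := by
    intro σ x
    have h0 : (σ : Gal(Ω/K)) ((α x : M) : Ω) = ((α x : M) : Ω) :=
      (IntermediateField.mem_fixingSubgroup_iff _ _).1 σ.2 _ (α x : M).2
    have h1 : ((σ : Gal(Ω/K)) (B x)) ^ q = (B x) ^ q := by
      rw [← map_pow, hB, h0]
    have h2 : ((σ : Gal(Ω/K)) (B x) / B x) ^ q = 1 := by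
      rw [div_pow, h1, div_self (pow_ne_zero _ (hB0 _))]
    obtain ⟨l, -, hl⟩ := hz.eq_pow_of_pow_eq_one h2
    exact ⟨l, by rw [hl, div_mul_cancel₀ _ (hB0 _)]⟩
  choose κ hκ using hκex
  have hA : ∀ s : X → Multiplicative (ZMod q), s ^ q = 1 := by
    intro s
    funext x
    rw [Pi.pow_apply, Pi.one_apply]
    apply Multiplicative.toAdd.injective
    rw [toAdd_pow, toAdd_one]
    simp
  have hpowA : ∀ (s : X → Multiplicative (ZMod q)) {m n : ℕ}, m ≡ n [MOD q] → s ^ m = s ^ n := by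
    intro s m n h
    rw [pow_eq_pow_iff_modEq]
    exact h.of_dvd (orderOf_dvd_of_pow_eq_one (hA s))
  let c : M.fixingSubgroup →* (X → Multiplicative (ZMod q)) :=
    MonoidHom.mk' (fun σ => ∏ x, ksgen q x ^ κ σ x) (by
    intro σ τ
    rw [← Finset.prod_mul_distrib]
    refine Finset.prod_congr rfl fun x _ => ?_
    rw [← pow_add]
    apply hpowA
    apply hzinj
    have h1 := hκ (σ * τ) x
    have h2 : ((σ * τ : M.fixingSubgroup) : Gal(Ω/K)) (B x) = σ.1 (τ.1 (B x)) := rfl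
    rw [h2, hκ τ, map_mul, map_pow, AlgEquiv.commutes, hκ σ, ← mul_assoc, ← pow_add] at h1
    rw [add_comm (κ σ x)]
    exact (mul_right_cancel₀ (hB0 _) h1).symm)
  have hc : ∀ σ : M.fixingSubgroup, c σ = ∏ x, ksgen q x ^ κ σ x := fun σ => rfl
  by_cases ht : (∏ x, ksgen q x ^ t x) ∈ c.range
  · obtain ⟨σ, hσ⟩ := ht
    refine ⟨σ.1, ksu_res M σ.2, fun x => ?_⟩
    rw [hκ σ x]
    have h1 := congrFun hσ x
    rw [hc, ksgen_prod, ksgen_prod] at h1
    have h2 : ((κ σ x : ℕ) : ZMod q) = ((t x : ℕ) : ZMod q) := Multiplicative.ofAdd.injective h1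
    rw [ZMod.natCast_eq_natCast_iff] at h2
    rw [hzpow h2]
  exfalso
  set t' := ∏ x, ksgen q x ^ t x with ht'
  -- a character trivial on the range
  have hexp : Monoid.exponent ((X → Multiplicative (ZMod q)) ⧸ c.range) ∣ q := by
    refine Monoid.exponent_dvd_of_forall_pow_eq_one fun s => ?_
    obtain ⟨s, rfl⟩ := QuotientGroup.mk_surjective s
    rw [← QuotientGroup.mk_pow, hA, QuotientGroup.mk_one]
  have hen : HasEnoughRootsOfUnity K q := ⟨⟨ζ, hζ⟩, inferInstance⟩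
  have hen2 : HasEnoughRootsOfUnity K
      (Monoid.exponent ((X → Multiplicative (ZMod q)) ⧸ c.range)) :=
    HasEnoughRootsOfUnity.of_dvd K hexp
  have htne : (QuotientGroup.mk t' : (X → Multiplicative (ZMod q)) ⧸ c.range) ≠ 1 := by
    intro h
    exact ht ((QuotientGroup.eq_one_iff t').1 h)
  obtain ⟨χ0, hχ0⟩ := CommGroup.exists_apply_ne_one_of_hasEnoughRootsOfUnity
    ((X → Multiplicative (ZMod q)) ⧸ c.range) K htne
  let χ1 : (X → Multiplicative (ZMod q)) →* Kˣ := χ0.comp (QuotientGroup.mk' c.range)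
  have hχ1t : χ1 t' ≠ 1 := hχ0
  have hχ1c : ∀ s ∈ c.range, χ1 s = 1 := by
    intro s hs
    change χ0 (QuotientGroup.mk s) = 1
    rw [(QuotientGroup.eq_one_iff s).2 hs, map_one]
  have hχ1q : χ1 ^ q = 1 := by
    apply MonoidHom.ext
    intro s
    rw [MonoidHom.pow_apply, ← map_pow, hA, map_one, MonoidHom.one_apply]
  have hr1 : orderOf χ1 ≠ 1 := by
    intro h
    rw [orderOf_eq_one_iff] at h
    exact hχ1t (by rw [h]; rfl)
  have hrq : orderOf χ1 ∣ q := orderOf_dvd_of_pow_eq_one hχ1q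
  have hr0 : 0 < orderOf χ1 := Nat.pos_of_dvd_of_pos hrq hq
  have hpr : p ∣ orderOf χ1 := by
    have h1 : (orderOf χ1).minFac ∣ p ^ k := (Nat.minFac_dvd _).trans hrq
    have h2 : (orderOf χ1).minFac.Prime := Nat.minFac_prime hr1
    have h3 : (orderOf χ1).minFac ∣ p := h2.dvd_of_dvd_pow h1
    have h4 : (orderOf χ1).minFac = p := (Nat.prime_dvd_prime_iff_eq h2 hp).1 h3
    rw [← h4]
    exact Nat.minFac_dvd _
  have hpq : p ∣ q := hpr.trans hrq
  set χ : (X → Multiplicative (ZMod q)) →* Kˣ := χ1 ^ (orderOf χ1 / p) with hχ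
  have hχp : χ ^ p = 1 := by
    have h1 : χ1 ^ orderOf χ1 = 1 := pow_orderOf_eq_one χ1
    apply MonoidHom.ext
    intro s
    have h2 := DFunLike.congr_fun h1 s
    rw [MonoidHom.pow_apply, MonoidHom.one_apply] at h2
    rw [hχ, MonoidHom.pow_apply, MonoidHom.pow_apply, ← pow_mul, Nat.div_mul_cancel hpr, h2,
      MonoidHom.one_apply]
  have hχ1' : χ ≠ 1 := by
    intro h
    have h1 : orderOf χ1 ∣ orderOf χ1 / p := orderOf_dvd_of_pow_eq_one h
    have h2 := Nat.le_of_dvd (Nat.div_pos (Nat.le_of_dvd hr0 hpr) hp.pos) h1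
    have h3 := Nat.div_lt_self hr0 hp.one_lt
    omega
  have hχt : ∀ s, χ s ^ p = 1 := by
    intro s
    have := DFunLike.congr_fun hχp s
    rwa [MonoidHom.pow_apply, MonoidHom.one_apply] at this
  have hχc : ∀ s ∈ c.range, χ s = 1 := by
    intro s hs
    rw [hχ, MonoidHom.pow_apply, hχ1c s hs, one_pow]
  have hq' : q = q / p * p := (Nat.div_mul_cancel hpq).symm
  have hζp : IsPrimitiveRoot (ζ ^ (q / p)) p := hζ.pow hq hq'
  have hp0 : NeZero p := ⟨hp.ne_zero⟩
  have hmex : ∀ x, ∃ m : ℕ, ((χ (ksgen q x) : Kˣ) : K) = (ζ ^ (q / p)) ^ m := by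
    intro x
    have h1 : ((χ (ksgen q x) : Kˣ) : K) ^ p = 1 := by
      rw [← Units.val_pow_eq_pow_val, hχt, Units.val_one]
    obtain ⟨i, -, hi⟩ := hζp.eq_pow_of_pow_eq_one h1
    exact ⟨i, hi.symm⟩
  choose m hm using hmex
  set y : Ω := ∏ x, B x ^ ((q / p) * m x) with hy
  have hy0 : y ≠ 0 := Finset.prod_ne_zero_iff.2 fun x _ => pow_ne_zero _ (hB0 x)
  have hyfix : ∀ σ ∈ M.fixingSubgroup, σ y = y := by
    intro σ hσ
    have h1 : σ y = (∏ x, (algebraMap K Ω ζ ^ κ ⟨σ, hσ⟩ x) ^ ((q / p) * m x)) * y := by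
      rw [hy, map_prod, ← Finset.prod_mul_distrib]
      refine Finset.prod_congr rfl fun x _ => ?_
      have h3 : σ (B x) = algebraMap K Ω ζ ^ κ ⟨σ, hσ⟩ x * B x := hκ ⟨σ, hσ⟩ x
      rw [map_pow, h3, mul_pow]
    have h2 : (∏ x, (algebraMap K Ω ζ ^ κ ⟨σ, hσ⟩ x) ^ ((q / p) * m x)) =
        algebraMap K Ω ((χ (c ⟨σ, hσ⟩) : Kˣ) : K) := by
      rw [hc, map_prod, Units.coe_prod, map_prod]
      refine Finset.prod_congr rfl fun x _ => ?_
      rw [map_pow, Units.val_pow_eq_pow_val, hm, map_pow, map_pow, map_pow, ← pow_mul, ← pow_mul,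
        ← pow_mul]
      congr 1
      ring
    rw [h1, h2, hχc _ ⟨_, rfl⟩, Units.val_one, map_one, one_mul]
  have hyM : y ∈ M := by
    rw [← InfiniteGalois.fixedField_fixingSubgroup M, IntermediateField.mem_fixedField_iff]
    exact hyfix
  have hyne : (⟨y, hyM⟩ : M) ≠ 0 := fun h => hy0 (congrArg Subtype.val h)
  have hfin := hα (fun x => (m x : ℤ)) (Units.mk0 (⟨y, hyM⟩ : M) hyne) (by
    apply Units.ext
    apply Subtype.ext
    rw [Units.val_pow_eq_pow_val, Units.val_mk0]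
    have h1 : (((⟨y, hyM⟩ : M) ^ p : M) : Ω) = y ^ p := rfl
    have h2 : (((∏ x, α x ^ ((m x : ℕ) : ℤ) : Mˣ) : M) : Ω) = ∏ x, ((α x : M) : Ω) ^ m x := by
      simp only [zpow_natCast]
      push_cast
      rfl
    rw [h1, h2, hy, ← Finset.prod_pow]
    refine Finset.prod_congr rfl fun x _ => ?_
    rw [← hB x, ← pow_mul, ← pow_mul]
    congr 1
    conv_lhs => rw [hq']
    ring)
  apply hχ1'
  have hχa : ∀ x, χ (ksgen q x) = 1 := by
    intro x
    apply Units.ext
    rw [hm x, Units.val_one]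
    exact (hζp.pow_eq_one_iff_dvd _).2 (by exact_mod_cast hfin x)
  apply MonoidHom.ext
  intro s
  rw [ksgen_all q s, map_prod, MonoidHom.one_apply]
  exact Finset.prod_eq_one fun x _ => by rw [map_pow, hχa, one_pow]

end H38.TD
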