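import Pool.Agent.H38.TD.HomDefs
import Pool.Agent.H38.TD.Kap
import Pool.Agent.H38.TD.Tame

/-!
# [H38 TD HOMSI] Surjectivity, injectivity, inertia (100-160 lines)

`hind`: the elements `g (e j)` and `f j'` are independent modulo `(Mˣ)^p`.

By `kap` (with `X = (J × Gal(M/K)) ⊕ J'`; choose roots `B_x` of order `q = p^k`, `Ω` is algebraically
closed) for every `n : J → Gal(M/K) → ℕ`, `m : J' → ℕ` there is `σ`, trivial on `M`, with
`σ B_x = ζ^{n_x} B_x`; then the same holds for every root `B` of the same element (it differs from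
`B_x` by a power of `ζ`, which `σ` fixes).  So `IsKum.val` gives `ρ σ = j (kv tb a b n m)`.

* `kum_inj'`: take `n` the indicator function of `(j, 1)`, `m = 0`: `kv = a j` for both `(a,b)` and
  `(a',b')`; similarly for `b`.  `pd.jinj`.
* `kum_surj'`: the elements `j (tb g (a j))`, `j (b j')` are in the range of `ρ`; by `hgen` so is
  `j(A)`.  For `g ∈ P`, `g = j a' * c^k` (`pd.gen`); let `σ` be a lift of `γ^k` (`res M` is
  surjective, `AlgEquiv.restrictNormalHom_surjective`); `ρ σ = j a'' * ρb (γ^k) = j a'' * c^k`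
  (`modA`, `hρb`), so `g` is in the range.
* `kum_inert`: let `τ` be in the inertia group of `𝔓`, trivial on `M`, and `t` from `tame`; `IsKum.val`
  with `n j g = t * od Q (gU g (e j))`, `m j = t * od Q (iU K M (f j))` gives
  `ρ τ = j (kv … ) = j (nu … Q ^ t)`.
-/

open scoped NumberField Pointwise
open H38.ML

noncomputable section

namespace H38.TD

variable {K Ω : Type} [Field K] [NumberField K] [Field Ω] [Algebra K Ω] [IsAlgClosure K Ω]
  {M : IntermediateField K Ω} [FiniteDimensional K M] [IsGalois K M] [NumberField M]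
  {A P J J' : Type} [CommGroup A] [Group P] [Fintype J] [Fintype J'] {p : ℕ} {pd : PD p A P}
  {ζp : K} {x : Kˣ} {k : ℕ} {ζ : K} {ρb : Gal(M/K) →* P} {tb : Gal(M/K) →* MulAut A}
  {e : J → Mˣ} {f : J' → Kˣ}

theorem kum_sel (hp : p.Prime) (hζ : IsPrimitiveRoot ζ (p ^ k))
    (hind : ∀ (n : J → Gal(M/K) → ℤ) (m : J' → ℤ) (y : Mˣ),
      (∏ j, ∏ g : Gal(M/K), gU g (e j) ^ n j g) * (∏ j, iU K M (f j) ^ m j) = y ^ p →
        (∀ j g, (p : ℤ) ∣ n j g) ∧ (∀ j, (p : ℤ) ∣ m j))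
    (n : J → Gal(M/K) → ℕ) (m : J' → ℕ) :
    ∃ σ : Gal(Ω/K), res M σ = 1 ∧
      (∀ j g (B : Ω), B ^ (p ^ k) = (((gU g (e j) : Mˣ) : M) : Ω) →
        σ B = algebraMap K Ω ζ ^ ((n j g : ℕ) : ℤ) * B) ∧
      (∀ j (B : Ω), B ^ (p ^ k) = algebraMap K Ω (f j) →
        σ B = algebraMap K Ω ζ ^ ((m j : ℕ) : ℤ) * B) := by
  classical
  have hclosed : IsAlgClosed Ω := IsAlgClosure.isAlgClosed K
  have hq : 0 < p ^ k := pow_pos hp.pos k
  have hq0 : NeZero (p ^ k) := ⟨hq.ne'⟩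
  have hz : IsPrimitiveRoot (algebraMap K Ω ζ) (p ^ k) :=
    hζ.map_of_injective (algebraMap K Ω).injective
  let α : (J × Gal(M/K)) ⊕ J' → Mˣ :=
    Sum.elim (fun y => gU y.2 (e y.1)) (fun j => iU K M (f j))
  have hBex : ∀ x, ∃ b : Ω, b ^ (p ^ k) = ((α x : M) : Ω) := fun x =>
    IsAlgClosed.exists_pow_nat_eq ((α x : M) : Ω) hq
  choose B hB using hBex
  have hα : ∀ (n : (J × Gal(M/K)) ⊕ J' → ℤ) (y : Mˣ), ∏ x, α x ^ n x = y ^ p →
      ∀ x, (p : ℤ) ∣ n x := by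
    intro n y h
    rw [Fintype.prod_sum_type, Fintype.prod_prod_type] at h
    obtain ⟨h1, h2⟩ := hind (fun j g => n (Sum.inl (j, g))) (fun j => n (Sum.inr j)) y h
    rintro (⟨j, g⟩ | j)
    · exact h1 j g
    · exact h2 j
  have hB0 : ∀ x, B x ≠ 0 := by
    intro x h0
    have h1 := hB x
    rw [h0, zero_pow hq.ne'] at h1
    exact (α x).ne_zero (by exact_mod_cast h1.symm)
  obtain ⟨σ, hσ, hσB⟩ := kap M p k hp ζ hζ α hα B hB
    (Sum.elim (fun y => n y.1 y.2) m)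
  have key : ∀ x (C : Ω), C ^ (p ^ k) = ((α x : M) : Ω) →
      σ C = algebraMap K Ω ζ ^ (Sum.elim (fun y : J × Gal(M/K) => n y.1 y.2) m x) * C := by
    intro x C hC
    have h2 : (C / B x) ^ (p ^ k) = 1 := by
      rw [div_pow, hC, hB, div_self]
      rw [← hB x]
      exact pow_ne_zero _ (hB0 x)
    obtain ⟨l, -, hl⟩ := hz.eq_pow_of_pow_eq_one h2
    have h3 : C = algebraMap K Ω ζ ^ l * B x := by
      rw [hl, div_mul_cancel₀ _ (hB0 x)]
    rw [h3, map_mul, map_pow, AlgEquiv.commutes, hσB]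
    ring
  refine ⟨σ, hσ, fun j g C hC => ?_, fun j C hC => ?_⟩
  · rw [zpow_natCast]
    exact key (Sum.inl (j, g)) C hC
  · rw [zpow_natCast]
    exact key (Sum.inr j) C (by rw [hC]; rfl)

omit [NumberField K] [IsAlgClosure K Ω] [NumberField M] [FiniteDimensional K M] [IsGalois K M] in
lemma kv_one_left [Fintype Gal(M/K)] [DecidableEq J] [DecidableEq Gal(M/K)]
    (a : J → A) (b : J' → A) (j₀ : J) :
    kv tb a b (fun j g => (((if j = j₀ ∧ g = 1 then 1 else 0 : ℕ)) : ℤ)) (fun _ => ((0 : ℕ) : ℤ))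
      = a j₀ := by
  unfold kv
  rw [Finset.prod_eq_single j₀, Finset.prod_eq_single (1 : Gal(M/K))]
  · simp
  · intro g _ hg
    simp [hg]
  · intro h
    exact absurd (Finset.mem_univ _) h
  · intro j _ hj
    simp [hj]
  · intro h
    exact absurd (Finset.mem_univ _) h

omit [NumberField K] [IsAlgClosure K Ω] [NumberField M] [FiniteDimensional K M] [IsGalois K M] in
lemma kv_one_right [Fintype Gal(M/K)] [DecidableEq J'] (a : J → A) (b : J' → A) (j₀ : J') :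
    kv tb a b (fun _ _ => ((0 : ℕ) : ℤ)) (fun j => (((if j = j₀ then 1 else 0 : ℕ)) : ℤ))
      = b j₀ := by
  unfold kv
  rw [Finset.prod_eq_single (s := (Finset.univ : Finset J')) j₀]
  · simp
  · intro j _ hj
    simp [hj]
  · intro h
    exact absurd (Finset.mem_univ _) h

theorem kum_inj' (hp : p.Prime) (hζ : IsPrimitiveRoot ζ (p ^ k))
    (hind : ∀ (n : J → Gal(M/K) → ℤ) (m : J' → ℤ) (y : Mˣ),
      (∏ j, ∏ g : Gal(M/K), gU g (e j) ^ n j g) * (∏ j, iU K M (f j) ^ m j) = y ^ p →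
        (∀ j g, (p : ℤ) ∣ n j g) ∧ (∀ j, (p : ℤ) ∣ m j))
    (a a' : J → A) (b b' : J' → A) (ρ : Gal(Ω/K) →* P)
    (h : IsKum M pd (p ^ k) ζ ρb tb e f a b ρ) (h' : IsKum M pd (p ^ k) ζ ρb tb e f a' b' ρ) :
    a = a' ∧ b = b' := by
  classical
  constructor
  · funext j₀
    obtain ⟨σ, h0, h1, h2⟩ := kum_sel (Ω := Ω) hp hζ hind
      (fun j g => if j = j₀ ∧ g = 1 then 1 else 0) (fun _ => 0)
    have e1 := h.val σ _ _ h0 h1 h2
    have e2 := h'.val σ _ _ h0 h1 h2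
    rw [kv_one_left] at e1 e2
    exact pd.jinj (e1.symm.trans e2)
  · funext j₀
    obtain ⟨σ, h0, h1, h2⟩ := kum_sel (Ω := Ω) hp hζ hind
      (fun _ _ => 0) (fun j => if j = j₀ then 1 else 0)
    have e1 := h.val σ _ _ h0 h1 h2
    have e2 := h'.val σ _ _ h0 h1 h2
    rw [kv_one_right] at e1 e2
    exact pd.jinj (e1.symm.trans e2)

theorem kum_surj' (hp : p.Prime) (hζ : IsPrimitiveRoot ζ (p ^ k)) (D : KX K M p ζp x)
    (hρb : ρb D.γ = pd.c)
    (hind : ∀ (n : J → Gal(M/K) → ℤ) (m : J' → ℤ) (y : Mˣ),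
      (∏ j, ∏ g : Gal(M/K), gU g (e j) ^ n j g) * (∏ j, iU K M (f j) ^ m j) = y ^ p →
        (∀ j g, (p : ℤ) ∣ n j g) ∧ (∀ j, (p : ℤ) ∣ m j))
    (a : J → A) (b : J' → A) (ρ : Gal(Ω/K) →* P)
    (h : IsKum M pd (p ^ k) ζ ρb tb e f a b ρ)
    (hgen : Subgroup.closure (Set.range a ∪ Set.range b) = ⊤) : Function.Surjective ρ := by
  classical
  have hA : ∀ t : A, pd.j t ∈ ρ.range := by
    intro t
    have ht : t ∈ Subgroup.closure (Set.range a ∪ Set.range b) := by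
      rw [hgen]
      exact Subgroup.mem_top t
    have hle : Subgroup.closure (Set.range a ∪ Set.range b) ≤ ρ.range.comap pd.j := by
      rw [Subgroup.closure_le]
      rintro _ (⟨j₀, rfl⟩ | ⟨j₀, rfl⟩)
      · obtain ⟨σ, h0, h1, h2⟩ := kum_sel (Ω := Ω) hp hζ hind
          (fun j g => if j = j₀ ∧ g = 1 then 1 else 0) (fun _ => 0)
        have e1 := h.val σ _ _ h0 h1 h2
        rw [kv_one_left] at e1
        exact ⟨σ, e1⟩
      · obtain ⟨σ, h0, h1, h2⟩ := kum_sel (Ω := Ω) hp hζ hind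
          (fun _ _ => 0) (fun j => if j = j₀ then 1 else 0)
        have e1 := h.val σ _ _ h0 h1 h2
        rw [kv_one_right] at e1
        exact ⟨σ, e1⟩
    exact hle ht
  have hclosed : IsAlgClosed Ω := IsAlgClosure.isAlgClosed K
  intro g
  change g ∈ ρ.range
  obtain ⟨a₁, l, rfl⟩ := pd.gen g
  obtain ⟨σ, hσ⟩ : ∃ σ : Gal(Ω/K), res M σ = D.γ ^ l := by
    haveI : Normal K Ω := by
      haveI : IsAlgClosure K Ω := inferInstance
      exact IsAlgClosure.normal K Ω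
    exact AlgEquiv.restrictNormalHom_surjective Ω (D.γ ^ l)
  obtain ⟨a₂, ha₂⟩ := h.modA σ
  rw [hσ, map_pow, hρb] at ha₂
  have h3 : pd.j a₁ * pd.c ^ l = pd.j (a₁ * a₂⁻¹) * ρ σ := by
    rw [ha₂, map_mul, map_inv]
    group
  rw [h3]
  exact mul_mem (hA _) ⟨σ, rfl⟩

theorem kum_inert (hp : p.Prime) (hζ : IsPrimitiveRoot ζ (p ^ k))
    (a : J → A) (b : J' → A) (ρ : Gal(Ω/K) →* P)
    (h : IsKum M pd (p ^ k) ζ ρb tb e f a b ρ) (𝔓 : Ideal (𝓞 Ω)) (h𝔓 : 𝔓.IsPrime)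
    (hq𝔓 : ((p : ℕ) : 𝓞 Ω) ∉ 𝔓) (Q : Pl M) (hQ : 𝔓.under (𝓞 M) = Q.asIdeal) (τ : Gal(Ω/K))
    (hτ : τ ∈ 𝔓.inertia Gal(Ω/K)) (hres : res M τ = 1) :
    ∃ t : ℤ, ρ τ = pd.j (nu tb e f a b Q ^ t) := by
  have hq : 0 < p ^ k := pow_pos hp.pos k
  have hq' : (((p ^ k : ℕ)) : 𝓞 Ω) ∉ 𝔓 := by
    rw [Nat.cast_pow]
    intro hmem
    exact hq𝔓 (h𝔓.mem_of_pow_mem _ hmem)
  obtain ⟨t, ht⟩ := tame M (p ^ k) hq ζ hζ 𝔓 hq' Q hQ τ hτ hres
  refine ⟨t, ?_⟩
  rw [h.val τ (fun j g => t * od Q (gU g (e j))) (fun j => t * od Q (iU K M (f j))) hres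
    (fun j g B hB => ht _ B hB) (fun j B hB => ht _ B (by rw [hB]; rfl))]
  congr 1
  unfold nu kv
  rw [mul_zpow, ← Finset.prod_zpow, ← Finset.prod_zpow]
  congr 1
  · refine Finset.prod_congr rfl fun j _ => ?_
    rw [← Finset.prod_zpow]
    refine Finset.prod_congr rfl fun g _ => ?_
    rw [← zpow_mul, mul_comm]
  · refine Finset.prod_congr rfl fun j _ => ?_
    rw [← zpow_mul, mul_comm]

end H38.TD
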