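import Pool.Agent.H38.TD.GT
import Pool.Agent.H38.ML.IndepUnits

/-!
# [H38 TD LA2] Independent elements of norm one (120-200 lines)

`K` totally complex with at least `s + 1` infinite places, `sp` a finite set of places in `T` which
split in `M/K`.  We need `(p-1)(s + #sp)` elements of the group of `T`-units of norm one which are
independent over `ℤ`.

* `indep_units K M` (file `H38/ML/IndepUnits.lean`) gives units `η_i`, `i < s`, whose conjugates
  `γ^k η_i` (`i < s`, `k < p`) are independent (translate the product over `Gal(M/K)` to a product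
  over `range p` with `kx_prod`, `g = γ^k`).
* for `v ∈ sp` choose `Q_v` over `v` with `γ Q_v ≠ Q_v` and, by `exists_sep`, `y_v ∈ Mˣ` with
  `od Q_v y_v = h_v > 0` and `od Q y_v = 0` for `Q ≠ Q_v`.  The places `γ^k Q_v`, `k < p`, are all
  different (`kx_stab`), and different for different `v`.
* put `Δ_{i,k} = γ^{k+1} η_i / γ^k η_i` and `Δ_{v,k} = γ^{k+1} y_v / γ^k y_v` for `0 ≤ k ≤ p - 2`.
  They are `T`-units and their norm is one (`nh (γ e) = nh e`, reindexing the product modulo `p`; or: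
  `nh_gT` and `nU_gU`).
* independence: let `∏ Δ_{i,k}^{n_{i,k}} ∏ Δ_{v,k}^{n_{v,k}} = 1`.  The order at `γ^k Q_v`
  (`od_gal`) is `h_v (n_{v,k-1} - n_{v,k})` for `1 ≤ k ≤ p - 2`, `- h_v n_{v,0}` for `k = 0`; so
  `n_{v,0} = 0` and then all `n_{v,k} = 0`.  Then `∏ (γ^k η_i)^{n_{i,k-1} - n_{i,k}} = 1` (with
  `n_{i,-1} = n_{i,p-1} = 0`) gives `n = 0`.

It is convenient to work with the index type `(Fin s ⊕ sp) × Fin (p - 1)` and to reindex at the end
(`finProdFinEquiv`, `Fintype.equivFinOfCardEq`).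
-/

open scoped NumberField Pointwise
open H38.ML

noncomputable section

namespace H38.TD

variable {K M : Type} [Field K] [NumberField K] [Field M] [NumberField M] [Algebra K M]
  [IsGalois K M] {p : ℕ} {ζ : K} {x : Kˣ}

private theorem la2_abel {G : Type*} [CommGroup G] (f : ℕ → G) (m c : ℕ → ℤ)
    (h0 : c 0 = -m 0) (hc : ∀ k, c (k + 1) = m k - m (k + 1)) (N : ℕ) :
    (∏ k ∈ Finset.range N, (f (k + 1) / f k) ^ m k) * f N ^ (-m N) =
      ∏ k ∈ Finset.range (N + 1), f k ^ c k := by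
  induction N with
  | zero => simp [h0]
  | succ N ih =>
    rw [Finset.prod_range_succ _ (N + 1), ← ih, Finset.prod_range_succ, hc, zpow_sub, div_zpow,
      zpow_neg, zpow_neg]
    rw [mul_assoc, mul_assoc]
    congr 1
    rw [div_eq_mul_inv, mul_comm (f (N + 1) ^ m N), mul_assoc]

omit [NumberField K] [NumberField M] [IsGalois K M] in
private theorem la2_pow_inj (D : KX K M p ζ x) {j k : ℕ} (hj : j < p) (hk : k < p)
    (h : D.γ ^ j = D.γ ^ k) : j = k := by
  rw [pow_eq_pow_iff_modEq, D.ord] at h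
  have h2 : j % p = k % p := h
  rwa [Nat.mod_eq_of_lt hj, Nat.mod_eq_of_lt hk] at h2

private theorem la2_strong (D : KX K M p ζ x) (hp : p.Prime) {s : ℕ} (η : Fin s → (𝓞 M)ˣ)
    (hη : ∀ n : Fin s → Gal(M/K) → ℤ,
      (∏ i, ∏ σ : Gal(M/K), (σ ((η i : 𝓞 M) : M)) ^ n i σ) = 1 → n = 0)
    (sp : Finset (Pl K)) (Qv : sp → Pl M) (hQ : ∀ v, Ov (Qv v) v.1)
    (hst : ∀ v, D.γ • (Qv v).asIdeal ≠ (Qv v).asIdeal) (h : sp → ℕ) (hh : ∀ v, 0 < h v)
    (y : sp → Mˣ) (hy : ∀ v, od (Qv v) (y v) = h v)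
    (hy' : ∀ v, ∀ Q' : Pl M, Q' ≠ Qv v → od Q' (y v) = 0) (E : Fin s ⊕ sp → Mˣ)
    (hE1 : ∀ i, ((η i : 𝓞 M) : M) = (E (Sum.inl i) : M)) (hE2 : ∀ v, E (Sum.inr v) = y v)
    (c : Fin s ⊕ sp → ℕ → ℤ)
    (hprod : ∏ a, ∏ k ∈ Finset.range p, gU (D.γ ^ k) (E a) ^ c a k = 1) :
    ∀ a, ∀ k < p, c a k = 0 := by
  classical
  have hr : ∀ v : sp, ∀ j < p, c (Sum.inr v) j = 0 := by
    intro v j hj
    obtain ⟨Q', hQ'⟩ := exists_smul_pl (D.γ ^ j) (Qv v)
    have h1 : od Q' (∏ a, ∏ k ∈ Finset.range p, gU (D.γ ^ k) (E a) ^ c a k) = 0 := by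
      rw [hprod, od_one]
    rw [od_prod] at h1
    have h2 : ∀ a : Fin s ⊕ sp, od Q' (∏ k ∈ Finset.range p, gU (D.γ ^ k) (E a) ^ c a k) =
        if a = Sum.inr v then c (Sum.inr v) j * h v else 0 := by
      intro a
      rw [od_prod]
      have h3 : ∀ k ∈ Finset.range p, od Q' (gU (D.γ ^ k) (E a) ^ c a k) =
          if a = Sum.inr v then (if k = j then c (Sum.inr v) j * h v else 0) else 0 := by
        intro k hk
        rw [Finset.mem_range] at hk
        obtain ⟨Q2, hQ2⟩ := exists_smul_pl (D.γ ^ k)⁻¹ Q'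
        have h4 : Q'.asIdeal = (D.γ ^ k) • Q2.asIdeal := by
          rw [hQ2, smul_inv_smul]
        rw [od_zpow, od_gal (D.γ ^ k) Q2 Q' h4]
        rcases a with i | v'
        · rw [if_neg (by simp), od_unit Q2 (η i) _ (hE1 i), mul_zero]
        · rw [hE2]
          have h5 : Q2.asIdeal = ((D.γ ^ k)⁻¹ * D.γ ^ j) • (Qv v).asIdeal := by
            rw [hQ2, hQ', mul_smul]
          by_cases hv : v' = v
          · subst hv
            rw [if_pos rfl]
            by_cases hkj : k = j
            · subst hkj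
              rw [if_pos rfl]
              have h6 : Q2 = Qv v' := by
                apply IsDedekindDomain.HeightOneSpectrum.ext
                rw [h5, inv_mul_cancel, one_smul]
              rw [h6, hy]
            · rw [if_neg hkj, hy' v' Q2, mul_zero]
              intro h6
              rw [h6] at h5
              have h7 := kx_stab D hp (Qv v') (hst v') _ h5.symm
              have h8 : D.γ ^ k = D.γ ^ j := inv_mul_eq_one.1 h7
              exact hkj (la2_pow_inj D hk hj h8)
          · rw [if_neg (fun h6 => hv (Sum.inr.inj h6)), hy' v' Q2, mul_zero]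
            intro h6
            have h7 : Ov Q2 v.1 := ov_smul _ (Qv v) Q2 v.1 h5 (hQ v)
            rw [h6] at h7
            exact hv (Subtype.ext (ov_unique _ _ _ (hQ v') h7))
      rw [Finset.sum_congr rfl h3]
      by_cases ha : a = Sum.inr v
      · simp only [if_pos ha]
        rw [Finset.sum_ite_eq' (Finset.range p) j (fun _ => c (Sum.inr v) j * (h v : ℤ)),
          if_pos (Finset.mem_range.2 hj)]
      · simp only [if_neg ha, Finset.sum_const_zero]
    rw [Finset.sum_congr rfl fun a _ => h2 a,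
      Finset.sum_ite_eq' Finset.univ (Sum.inr v) (fun _ => c (Sum.inr v) j * (h v : ℤ)),
      if_pos (Finset.mem_univ _)] at h1
    rcases mul_eq_zero.1 h1 with h3 | h3
    · exact h3
    · exact absurd h3 (by exact_mod_cast (hh v).ne')
  have hl : ∀ i : Fin s, ∀ j < p, c (Sum.inl i) j = 0 := by
    rw [Fintype.prod_sum_type] at hprod
    have h1 : ∏ v : sp, ∏ k ∈ Finset.range p,
        gU (D.γ ^ k) (E (Sum.inr v)) ^ c (Sum.inr v) k = 1 := by
      refine Finset.prod_eq_one fun v _ => Finset.prod_eq_one fun k hk => ?_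
      rw [hr v k (Finset.mem_range.1 hk), zpow_zero]
    rw [h1, mul_one] at hprod
    choose idx hidx using D.gen
    have hidx2 : ∀ k < p, idx (D.γ ^ k) % p = k := by
      intro k hk
      have h2 := hidx (D.γ ^ k)
      rw [pow_eq_pow_iff_modEq, D.ord] at h2
      have h3 : k % p = idx (D.γ ^ k) % p := h2
      rw [← h3, Nat.mod_eq_of_lt hk]
    have h4 := hη (fun i σ => c (Sum.inl i) (idx σ % p)) ?_
    · intro i j hj
      have h5 := congrFun (congrFun h4 i) (D.γ ^ j)
      simp only [hidx2 j hj, Pi.zero_apply] at h5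
      exact h5
    · have h5 := congrArg (Units.val : Mˣ → M) hprod
      rw [Units.val_one, Units.coe_prod] at h5
      rw [← h5]
      refine Finset.prod_congr rfl fun i _ => ?_
      rw [kx_prod D hp, Units.coe_prod]
      refine Finset.prod_congr rfl fun k hk => ?_
      rw [hidx2 k (Finset.mem_range.1 hk), Units.val_zpow_eq_zpow_val, hE1]
      rfl
  rintro (i | v) k hk
  · exact hl i k hk
  · exact hr v k hk

theorem la2 (D : KX K M p ζ x) (hp : p.Prime) (htc : NumberField.IsTotallyComplex K) (s : ℕ)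
    (hs : s + 1 ≤ Fintype.card (NumberField.InfinitePlace K)) (T : Set (Pl K))
    (sp : Finset (Pl K)) (hsp : ∀ v ∈ sp, v ∈ T ∧ Spl D.γ v) :
    ∃ w : Fin ((p - 1) * (s + sp.card)) → TU K M T, (∀ i, nh (gT T D.γ) p (w i) = 1) ∧
      ∀ n : Fin ((p - 1) * (s + sp.card)) → ℤ, ∏ i, w i ^ n i = 1 → n = 0 := by
  classical
  obtain ⟨η, hη⟩ := indep_units K M htc s hs
  have hchoose : ∀ v : sp, ∃ Q : Pl M, Ov Q v.1 ∧ D.γ • Q.asIdeal ≠ Q.asIdeal := fun v =>
    (hsp v.1 v.2).2
  choose Qv hQ hst using hchoose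
  choose h hh y hy hy' using fun v : sp => exists_sep (Qv v)
  set E : Fin s ⊕ sp → Mˣ := Sum.elim
    (fun i => Units.map (algebraMap (𝓞 M) M : 𝓞 M →* M) (η i)) y with hE
  have hE1 : ∀ i, ((η i : 𝓞 M) : M) = (E (Sum.inl i) : M) := fun i => rfl
  have hE2 : ∀ v, E (Sum.inr v) = y v := fun v => rfl
  have hET : ∀ a, E a ∈ TU K M T := by
    rintro (i | v)
    · intro Q _
      exact od_unit Q (η i) _ (hE1 i)
    · intro Q hQT
      rw [hE2]
      apply hy' v Q
      intro h1
      rw [h1] at hQT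
      exact hQT v.1 (hsp v.1 v.2).1 (hQ v)
  have hcard : Fintype.card ((Fin s ⊕ sp) × Fin (p - 1)) = (p - 1) * (s + sp.card) := by
    rw [Fintype.card_prod, Fintype.card_sum, Fintype.card_fin, Fintype.card_fin,
      Fintype.card_coe, mul_comm]
  set eq := Fintype.equivFinOfCardEq hcard with heq
  set W : (Fin s ⊕ sp) × Fin (p - 1) → TU K M T := fun a =>
    gT T (D.γ ^ ((a.2 : ℕ) + 1)) ⟨E a.1, hET a.1⟩ / gT T (D.γ ^ (a.2 : ℕ)) ⟨E a.1, hET a.1⟩
    with hW
  refine ⟨fun i => W (eq.symm i), fun i => ?_, fun n hn => ?_⟩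
  · apply Subtype.ext
    rw [nh_gT D hp]
    have h1 : ((W (eq.symm i) : TU K M T) : Mˣ) =
        gU (D.γ ^ (((eq.symm i).2 : ℕ) + 1)) (E (eq.symm i).1) /
          gU (D.γ ^ ((eq.symm i).2 : ℕ)) (E (eq.symm i).1) := rfl
    rw [h1, map_div, nU_gU, nU_gU, div_self', map_one]
    rfl
  · have hpos : 0 < p - 1 := by
      have := hp.two_le
      omega
    have h1 : ∏ a : (Fin s ⊕ sp) × Fin (p - 1), W a ^ n (eq a) = 1 := by
      rw [← hn]
      refine Fintype.prod_equiv eq _ _ fun a => ?_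
      show W a ^ n (eq a) = W (eq.symm (eq a)) ^ n (eq a)
      rw [Equiv.symm_apply_apply]
    have h2 := congrArg (Subtype.val : TU K M T → Mˣ) h1
    rw [Subgroup.val_finsetProd, Fintype.prod_prod_type] at h2
    set m : Fin s ⊕ sp → ℕ → ℤ := fun a k => if hk : k < p - 1 then n (eq (a, ⟨k, hk⟩)) else 0
      with hm
    set c : Fin s ⊕ sp → ℕ → ℤ := fun a k => match k with
      | 0 => -m a 0
      | k + 1 => m a k - m a (k + 1) with hc
    have h3 : ∀ a, ∏ k : Fin (p - 1), ((W (a, k) ^ n (eq (a, k)) : TU K M T) : Mˣ) =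
        ∏ k ∈ Finset.range p, gU (D.γ ^ k) (E a) ^ c a k := by
      intro a
      have h4 := la2_abel (fun k => gU (D.γ ^ k) (E a)) (m a) (c a) rfl (fun k => rfl) (p - 1)
      have h5 : m a (p - 1) = 0 := by
        simp only [hm]
        rw [dif_neg (lt_irrefl _)]
      rw [h5, neg_zero, zpow_zero, mul_one, Nat.sub_add_cancel hp.one_le] at h4
      rw [← h4, Finset.prod_range]
      refine Finset.prod_congr rfl fun k _ => ?_
      have h6 : m a (k : ℕ) = n (eq (a, k)) := by
        simp only [hm]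
        rw [dif_pos k.2]
      rw [h6]
      rfl
    have h4 : ∏ a, ∏ k ∈ Finset.range p, gU (D.γ ^ k) (E a) ^ c a k = 1 := by
      rw [← Finset.prod_congr rfl fun a _ => h3 a]
      exact h2
    have h5 := la2_strong D hp η hη sp Qv hQ hst h hh y hy hy' E hE1 hE2 c h4
    have h6 : ∀ a, ∀ k < p, m a k = 0 := by
      intro a k
      induction k with
      | zero =>
        intro hk
        have h7 : -m a 0 = 0 := h5 a 0 hk
        omega
      | succ k ih =>
        intro hk
        have h7 : m a k - m a (k + 1) = 0 := h5 a (k + 1) hk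
        have h8 := ih (by omega)
        omega
    funext i
    have h7 := h6 (eq.symm i).1 (eq.symm i).2 (lt_of_lt_of_le (eq.symm i).2.2 (Nat.sub_le _ _))
    simp only [hm] at h7
    rw [dif_pos (eq.symm i).2.2] at h7
    have h8 : eq ((eq.symm i).1, ⟨((eq.symm i).2 : ℕ), (eq.symm i).2.2⟩) = i := by
      exact eq.apply_symm_apply i
    rw [h8] at h7
    exact h7

end H38.TD
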