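import Pool.Agent.H38.TD.GT
import Pool.Agent.H38.TD.RamF

/-!
# [H38 TD LA3] The index of `(γ - 1) E` in the norm one elements (100-170 lines)

`E = TU K M T`, `S ⊆ T`, every place outside `S` has a generator (`SD`), `t` a finite set of places
which contains all places outside `T` at which the order of `x` is not divisible by `p` (the ramified
ones).  Claim: `[ker N : (γ-1)E] ≤ p^#t`.

Proof.  Let `w ∈ E` with `N w = 1`.  Hilbert 90 (`groupCohomology...`, Mathlib: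
`groupCohomology.exists_div_of_norm_eq_one` /
`exists_mul_galRestrict_of_norm_eq_one`; search `norm_eq_one`): `w = γ m / m` with `m ∈ Mˣ`
(Mathlib may give `m / γ m`; take the inverse).  For `v ∉ T` and `Q` over `v`: `od Q (γ m) = od Q m`
(as `od Q w = 0`), and so, by `od_gal`, `od (γ Q) m = od Q m`; hence `od Q m` is the same number `n_v`
for all `Q` over `v` (`ov_trans`, `gen`).  Only finitely many `n_v ≠ 0` (`od_finite`).
The map `w ↦ (n_v mod p)_{v ∈ t ∖ T}` is well defined: `m` is unique up to `Kˣ` (if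
`γ m / m = γ m' / m'` then `m/m'` is fixed, `fixed_iU`), and for ramified `v` `od Q (iU f) = p · od v f`
(`ramf_ram`); at the places of `t` outside `T` which are not ramified we use the value `0` instead of
`n_v` (or shrink `t` to the ramified places outside `T`).  It is a homomorphism
from `ker N` to `t → ZMod p`.
If the image of `w` is zero: `m` can be multiplied by elements of `Kˣ` so that it becomes a `T`-unit:
for `v ∉ T` unramified multiply by `π_v^{-n_v}` (`od Q (iU π_v) = 1` by `ramf_unr`), for ramified `v`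
multiply by `π_v^{-n_v/p}` (`od Q (iU π_v) = p`); `π_v` has order `0` at the other places outside `S`.
So `w = γ m' / m'` with `m' ∈ E`.
Hence `ker N / (γ-1)E` injects into `t → ZMod p` (`Subgroup.relIndex`, `Nat.card_le_card_of_injective`).
-/

open scoped NumberField Pointwise
open H38.ML

noncomputable section

namespace H38.TD

/-- Generators for the places outside `S`. -/
structure SD (K : Type) [Field K] [NumberField K] (S : Set (Pl K)) where
  /-- the generators -/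
  π : Pl K → Kˣ
  h1 : ∀ v, v ∉ S → od v (π v) = 1
  h0 : ∀ v, v ∉ S → ∀ v', v' ∉ S → v' ≠ v → od v' (π v) = 0

variable {K M : Type} [Field K] [NumberField K] [Field M] [NumberField M] [Algebra K M]
  [IsGalois K M] {p : ℕ} {ζ : K} {x : Kˣ}

/-- Hilbert 90 -/
theorem la3_h90 (D : KX K M p ζ x) (hp : p.Prime) (T : Set (Pl K)) (w : TU K M T)
    (hw : nh (gT T D.γ) p w = 1) : ∃ m : Mˣ, gU D.γ m = (w : Mˣ) * m := by
  have h1 := nh_gT D hp T w
  rw [hw] at h1
  have h3 : algebraMap K M (Algebra.norm K ((w : Mˣ) : M)) = 1 := by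
    have h2 := congrArg (fun u : Mˣ => (u : M)) h1
    exact h2.symm
  have h4 : Algebra.norm K ((w : Mˣ) : M) = 1 := by
    apply (algebraMap K M).injective
    rw [h3, map_one]
  have hgen : ∀ g : Gal(M/K), g ∈ Subgroup.zpowers D.γ := by
    intro g
    obtain ⟨k, rfl⟩ := D.gen g
    exact Subgroup.npow_mem_zpowers _ _
  haveI : IsCyclic (M ≃ₐ[K] M) := ⟨⟨D.γ, hgen⟩⟩
  obtain ⟨y, hy⟩ := groupCohomology.exists_div_of_norm_eq_one (g := D.γ) hgen h4
  refine ⟨y⁻¹, ?_⟩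
  apply Units.ext
  change D.γ ((y⁻¹ : Mˣ) : M) = ((w : Mˣ) : M) * ((y⁻¹ : Mˣ) : M)
  rw [← hy, Units.val_inv_eq_inv_val, map_inv₀]
  have hy0 : (y : M) ≠ 0 := y.ne_zero
  have hy1 : D.γ (y : M) ≠ 0 := (map_ne_zero D.γ).2 hy0
  field_simp

theorem la3_inv (D : KX K M p ζ x) (T : Set (Pl K)) (w : Mˣ) (hw : w ∈ TU K M T) (m : Mˣ)
    (hm : gU D.γ m = w * m) (v : Pl K) (hv : v ∉ T) (Q Q' : Pl M) (hQ : Ov Q v)
    (hQ' : Ov Q' v) : od Q m = od Q' m := by
  have h0 : ∀ Q : Pl M, Ov Q v → od Q w = 0 := by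
    intro Q hQ
    apply hw Q
    intro v' hv' h'
    exact hv (ov_unique Q v v' hQ h' ▸ hv')
  have h1 : ∀ (k : ℕ) (Q Q' : Pl M), Ov Q v → Q'.asIdeal = (D.γ ^ k) • Q.asIdeal →
      od Q' m = od Q m := by
    intro k
    induction k with
    | zero =>
      intro Q Q' _ h
      rw [pow_zero, one_smul] at h
      have h2 : Q' = Q := IsDedekindDomain.HeightOneSpectrum.ext h
      rw [h2]
    | succ k ih =>
      intro Q Q' hQ h
      obtain ⟨Q1, hQ1⟩ := exists_smul_pl (D.γ ^ k) Q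
      have hov1 := ov_smul (D.γ ^ k) Q Q1 v hQ1 hQ
      rw [pow_succ', mul_smul, ← hQ1] at h
      have hov := ov_smul D.γ Q1 Q' v h hov1
      have e1 := od_gal D.γ Q1 Q' h m
      rw [hm, od_mul, h0 Q' hov, zero_add] at e1
      rw [e1]
      exact ih Q Q1 hQ hQ1
  obtain ⟨g, hg⟩ := ov_trans Q Q' v hQ hQ'
  obtain ⟨k, rfl⟩ := D.gen g
  exact (h1 k Q Q' hQ hg).symm

theorem la3_key (D : KX K M p ζ x) (hp : p.Prime) (hζ : IsPrimitiveRoot ζ p) (S : Set (Pl K))
    (sd : SD K S) (hSp : ∀ v : Pl K, v ∉ S → ((p : ℕ) : 𝓞 K) ∉ v.asIdeal) (T : Set (Pl K))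
    (hST : S ⊆ T) (w : TU K M T) (m : Mˣ) (hm : gU D.γ m = (w : Mˣ) * m)
    (hd : ∀ v, v ∉ T → ¬ (p : ℤ) ∣ od v x → ∀ Q : Pl M, Ov Q v → (p : ℤ) ∣ od Q m) :
    w ∈ (tm (gT T D.γ)).range := by
  classical
  choose Qv hQv using (exists_ov (K := K) M)
  have hn : ∀ v, v ∉ T → ∀ Q : Pl M, Ov Q v → od Q m = od (Qv v) m := fun v hv Q hQ =>
    la3_inv D T w w.2 m hm v hv Q (Qv v) hQ (hQv v)
  have hfin : {v : Pl K | od (Qv v) m ≠ 0}.Finite := by
    refine Set.Finite.of_injOn (f := Qv) (t := {Q | od Q m ≠ 0}) ?_ ?_ (od_finite m)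
    · intro v hv
      exact hv
    · intro v _ v' _ h
      exact ov_unique (Qv v) v v' (hQv v) (h ▸ hQv v')
  obtain ⟨a, ha⟩ : ∃ a : Pl K → ℤ, ∀ v, a v =
      if (p : ℤ) ∣ od v x then od (Qv v) m else od (Qv v) m / p := ⟨_, fun _ => rfl⟩
  obtain ⟨G, hG⟩ : ∃ G : Finset (Pl K), ∀ v, v ∈ G ↔ od (Qv v) m ≠ 0 ∧ v ∉ T :=
    ⟨hfin.toFinset.filter (fun v => v ∉ T), fun v => by simp⟩
  obtain ⟨f, hf⟩ : ∃ f : Kˣ, f = ∏ v ∈ G, sd.π v ^ (a v) := ⟨_, rfl⟩
  have hodf : ∀ v, v ∉ T → od v f = a v := by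
    intro v hv
    rw [hf, od_prod]
    have hvS : v ∉ S := fun h => hv (hST h)
    have hz : ∀ v' ∈ G, v' ≠ v → od v (sd.π v' ^ a v') = 0 := by
      intro v' hv' hne
      have h1 : v' ∉ S := fun h => ((hG v').1 hv').2 (hST h)
      rw [od_zpow, sd.h0 v' h1 v hvS (Ne.symm hne), mul_zero]
    by_cases hvG : v ∈ G
    · rw [Finset.sum_eq_single_of_mem v hvG hz, od_zpow, sd.h1 v hvS, mul_one]
    · have h1 : od (Qv v) m = 0 := by
        by_contra h1
        exact hvG ((hG v).2 ⟨h1, hv⟩)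
      rw [Finset.sum_eq_zero (fun v' hv' => hz v' hv' (fun h => hvG (h ▸ hv'))), ha, h1]
      simp
  have he : m * (iU K M f)⁻¹ ∈ TU K M T := by
    intro Q hQ
    obtain ⟨v, hv⟩ := exists_below K Q
    have hvT : v ∉ T := fun h => hQ v h hv
    have hvS : v ∉ S := fun h => hvT (hST h)
    rw [od_mul, od_inv, hn v hvT Q hv]
    by_cases hpx : (p : ℤ) ∣ od v x
    · rw [ramf_unr D hp hζ v (hSp v hvS) hpx Q hv f, hodf v hvT, ha, if_pos hpx]
      ring
    · rw [(ramf_ram D hp hζ v hpx Q hv).1 f, hodf v hvT, ha, if_neg hpx]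
      have h1 := Int.mul_ediv_cancel' (hd v hvT hpx (Qv v) (hQv v))
      rw [h1]
      ring
  refine ⟨⟨_, he⟩, ?_⟩
  apply Subtype.ext
  change gU D.γ (m * (iU K M f)⁻¹) / (m * (iU K M f)⁻¹) = (w : Mˣ)
  rw [map_mul, map_inv, gU_iU, hm, mul_assoc, mul_div_assoc, div_self', mul_one]

theorem la3 (D : KX K M p ζ x) (hp : p.Prime) (hζ : IsPrimitiveRoot ζ p) (S : Set (Pl K))
    (sd : SD K S) (hSp : ∀ v : Pl K, v ∉ S → ((p : ℕ) : 𝓞 K) ∉ v.asIdeal) (T : Set (Pl K))
    (hST : S ⊆ T) (t : Finset (Pl K)) (ht : ∀ v, v ∉ T → v ∉ t → (p : ℤ) ∣ od v x) :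
    (tm (gT T D.γ)).range.relIndex (nh (gT T D.γ) p).ker ≤ p ^ t.card := by
  classical
  have h1 : ∀ w : (nh (gT T D.γ) p).ker, ∃ m : Mˣ, gU D.γ m = ((w : TU K M T) : Mˣ) * m :=
    fun w => la3_h90 D hp T w.1 w.2
  choose mm hmm using h1
  choose Qv hQv using (exists_ov (K := K) M)
  haveI : Fact p.Prime := ⟨hp⟩
  obtain ⟨φ, hφ⟩ : ∃ φ : (nh (gT T D.γ) p).ker → (t → ZMod p), ∀ w v, φ w v =
      ((od (Qv v.1) (mm w) : ℤ) : ZMod p) := ⟨fun w v => _, fun _ _ => rfl⟩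
  have key : ∀ w w', φ w = φ w' →
      w⁻¹ * w' ∈ (tm (gT T D.γ)).range.subgroupOf (nh (gT T D.γ) p).ker := by
    intro w w' h
    rw [Subgroup.mem_subgroupOf]
    refine la3_key D hp hζ S sd hSp T hST _ ((mm w)⁻¹ * mm w') ?_ ?_
    · rw [map_mul, map_inv, hmm, hmm]
      change _ = (((w : TU K M T) : Mˣ)⁻¹ * ((w' : TU K M T) : Mˣ)) * ((mm w)⁻¹ * mm w')
      rw [mul_inv, mul_mul_mul_comm]
    · intro v hvT hpx Q hQ
      have hvt : v ∈ t := by
        by_contra hvt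
        exact hpx (ht v hvT hvt)
      have h2 := congrFun h ⟨v, hvt⟩
      rw [hφ, hφ] at h2
      have h3 := (ZMod.intCast_eq_intCast_iff_dvd_sub _ _ _).1 h2
      have e1 := la3_inv D T _ w.1.2 (mm w) (hmm w) v hvT Q (Qv v) hQ (hQv v)
      have e2 := la3_inv D T _ w'.1.2 (mm w') (hmm w') v hvT Q (Qv v) hQ (hQv v)
      rw [od_mul, od_inv, e1, e2]
      have h4 : -od (Qv v) (mm w) + od (Qv v) (mm w') =
          od (Qv v) (mm w') - od (Qv v) (mm w) := by ring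
      rw [h4]
      exact h3
  have h3 : Nat.card ((nh (gT T D.γ) p).ker ⧸
      (tm (gT T D.γ)).range.subgroupOf (nh (gT T D.γ) p).ker) ≤ Nat.card (t → ZMod p) := by
    apply Nat.card_le_card_of_injective (fun q => φ q.out)
    intro q q' h
    have h4 := key _ _ h
    rw [← QuotientGroup.out_eq' q, ← QuotientGroup.out_eq' q']
    exact QuotientGroup.eq.2 h4
  have h4 : Nat.card (t → ZMod p) = p ^ t.card := by
    rw [Nat.card_eq_fintype_card, Fintype.card_fun, ZMod.card, Fintype.card_coe]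
  rw [h4] at h3
  exact h3

end H38.TD
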