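import Pool.Agent.H38.TD.LA2
import Pool.Agent.H38.TD.LA3
import Pool.Agent.H38.TD.Fgu

/-!
# [H38 TD LA4] The group of norms is large (60-110 lines)

`QXs p x = ⟨x⟩ (Kˣ)^p`.  Put `E = TU K M T`, `T` finite, so `E` is finitely generated (`tu_fg`).  By
`la_abs` (with `γ = gT T D.γ`, `γ^p = 1` by `D.ord`, and the elements of `la2`) and `la3`:
`p^(s + #sp) ≤ p^#t · [N E : N U]`, `U = fx γ`.  It remains to see
`[N E : N U] ≤ p · #(image of nU E in Kˣ / QXs p x)`.
Elements of `N E` are (as elements of `Mˣ`) `iU (nU e)` (`nh_gT`).  Consider the homomorphism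
`N E → Kˣ / QXs`, `iU (nU e) ↦ [nU e]` (`iU` is injective), with image the image of `nU E` and kernel
`B = {iU f ∈ N E | f = x^l y^p}`.  `[B : N U] ≤ p`: if `f = x^l y^p`, `f' = x^{l'} y'^p` with
`l ≡ l' mod p` then `f / f' = z^p` with `z ∈ Kˣ`, `z` is a `T`-unit because `z^p` is one
(`od` is torsion free), so `iU z ∈ U` and `iU (f/f') = N (iU z)` (the norm of a fixed element is its
`p`-th power).  So `B / N U` injects into... (choose `l` mod `p`): it has at most `p` elements.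
-/

open scoped NumberField Pointwise
open H38.ML

noncomputable section

namespace H38.TD

/-- The subgroup `⟨x⟩ (Kˣ)^p`. -/
def QXs {K : Type} [Field K] (p : ℕ) (x : Kˣ) : Subgroup Kˣ :=
  Subgroup.zpowers x ⊔ (powMonoidHom p : Kˣ →* Kˣ).range

variable {K M : Type} [Field K] [NumberField K] [Field M] [NumberField M] [Algebra K M]
  [IsGalois K M] {p : ℕ} {ζ : K} {x : Kˣ}

omit [IsGalois K M] in
private theorem la4_sat (hp0 : p ≠ 0) (T : Set (Pl K)) (e : Mˣ) (h : e ^ p ∈ TU K M T) :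
    e ∈ TU K M T := by
  intro Q hQ
  have h1 := h Q hQ
  rw [od_pow] at h1
  rcases mul_eq_zero.1 h1 with h2 | h2
  · exact absurd (by exact_mod_cast h2) hp0
  · exact h2

private theorem la4_mem {K : Type} [Field K] (p : ℕ) (x f : Kˣ) (h : f ∈ QXs p x) :
    ∃ (l : ℤ) (z : Kˣ), f = x ^ l * z ^ p := by
  obtain ⟨y, hy, z, hz, hyz⟩ := Subgroup.mem_sup.1 h
  obtain ⟨l, rfl⟩ := Subgroup.mem_zpowers_iff.1 hy
  obtain ⟨w, rfl⟩ := hz
  exact ⟨l, w, hyz.symm⟩

theorem la4 (D : KX K M p ζ x) (hp : p.Prime) (hζ : IsPrimitiveRoot ζ p)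
    (htc : NumberField.IsTotallyComplex K) (s : ℕ)
    (hs : s + 1 ≤ Fintype.card (NumberField.InfinitePlace K)) (S : Set (Pl K))
    (sd : SD K S) (hSp : ∀ v : Pl K, v ∉ S → ((p : ℕ) : 𝓞 K) ∉ v.asIdeal) (T : Set (Pl K))
    (hT : T.Finite) (hST : S ⊆ T) (t : Finset (Pl K))
    (ht : ∀ v, v ∉ T → v ∉ t → (p : ℤ) ∣ od v x) (sp : Finset (Pl K))
    (hsp : ∀ v ∈ sp, v ∈ T ∧ Spl D.γ v) :
    p ^ (s + sp.card) ≤ p ^ (t.card + 1) *
      Nat.card (((TU K M T).map (nU K M)).map (QuotientGroup.mk' (QXs p x))) := by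
  classical
  have hfg := tu_fg K M T hT
  obtain ⟨w, hw1, hw⟩ := la2 D hp htc s hs T sp hsp
  have hγ1 : D.γ ^ p = 1 := orderOf_dvd_iff_pow_eq_one.1 (dvd_of_eq D.ord)
  have hγp : ∀ e : TU K M T, (gT T D.γ ^ p : MulAut (TU K M T)) e = e := by
    intro e
    apply Subtype.ext
    rw [gT_pow_coe, hγ1]
    rfl
  have habs := la_abs (TU K M T) (gT T D.γ) p hp hγp (s + sp.card) w hw1 hw
  have h3 := la3 D hp hζ S sd hSp T hST t ht
  obtain ⟨N, hN⟩ : ∃ N : TU K M T →* TU K M T, N = nh (gT T D.γ) p := ⟨_, rfl⟩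
  obtain ⟨U, hU⟩ : ∃ U : Subgroup (TU K M T), U = fx (gT T D.γ) := ⟨_, rfl⟩
  rw [← hN] at habs h3
  rw [← hU] at habs
  have hNe : ∀ e : TU K M T, ((N e : TU K M T) : Mˣ) = iU K M (nU K M (e : Mˣ)) := by
    intro e
    rw [hN]
    exact nh_gT D hp T e
  set Φ : TU K M T →* Kˣ ⧸ QXs p x :=
    (QuotientGroup.mk' (QXs p x)).comp ((nU K M).comp (TU K M T).subtype) with hΦ
  have hΦr : Φ.range = ((TU K M T).map (nU K M)).map (QuotientGroup.mk' (QXs p x)) := by
    rw [hΦ, ← MonoidHom.map_range, ← MonoidHom.map_range, Subgroup.range_subtype]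
  rw [← hΦr]
  have hΦk : ∀ e : TU K M T, e ∈ Φ.ker ↔ nU K M (e : Mˣ) ∈ QXs p x := by
    intro e
    rw [MonoidHom.mem_ker]
    exact QuotientGroup.eq_one_iff _
  -- the kernel has finite index
  have hfin0 : Φ.ker.index ≠ 0 := by
    have h4 := (fg_index (TU K M T) p hp 0 (fun i => Fin.elim0 i) (fun n _ => by
      funext i
      exact Fin.elim0 i)).1
    have h5 : (powMonoidHom p : TU K M T →* TU K M T).range ≤ Φ.ker := by
      rintro _ ⟨e, rfl⟩
      rw [hΦk]
      have h6 : nU K M (((powMonoidHom p) e : TU K M T) : Mˣ) = nU K M (e : Mˣ) ^ p := by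
        rw [← map_pow]
        rfl
      rw [h6]
      exact Subgroup.mem_sup_right ⟨_, rfl⟩
    intro h0
    have h6 := Subgroup.index_dvd_of_le h5
    rw [h0] at h6
    exact h4 (zero_dvd_iff.1 h6)
  -- `U N.ker` is contained in the kernel
  have hle : U ⊔ N.ker ≤ Φ.ker := by
    refine sup_le ?_ ?_
    · intro u hu
      rw [hΦk]
      rw [hU] at hu
      have hu1 : gT T D.γ u = u := hu
      have hu2 : gU D.γ (u : Mˣ) = (u : Mˣ) := congrArg Subtype.val hu1
      have hu3 : ∀ g : Gal(M/K), gU g (u : Mˣ) = (u : Mˣ) := by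
        intro g
        obtain ⟨k, rfl⟩ := D.gen g
        induction k with
        | zero => rw [pow_zero]; rfl
        | succ k ih => rw [pow_succ, gU_mul, hu2, ih]
      obtain ⟨f, hf⟩ := fixed_iU (u : Mˣ) hu3
      rw [← hf, nU_iU, kx_finrank D hp]
      exact Subgroup.mem_sup_right ⟨_, rfl⟩
    · intro e he
      rw [hΦk]
      rw [MonoidHom.mem_ker] at he
      have h1 := hNe e
      rw [he] at h1
      have h2 : nU K M (e : Mˣ) = 1 := by
        apply valg_iU_inj (K := K) (M := M)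
        rw [← h1, map_one]
        rfl
      rw [h2]
      exact one_mem _
  have h4 : ∀ e : Φ.ker, ∃ (l : ℤ) (z : Kˣ), nU K M ((e : TU K M T) : Mˣ) = x ^ l * z ^ p :=
    fun e => la4_mem p x _ ((hΦk _).1 e.2)
  choose l z hlz using h4
  have key : ∀ e e' : Φ.ker, ((l e : ℤ) : ZMod p) = ((l e' : ℤ) : ZMod p) →
      e⁻¹ * e' ∈ (U ⊔ N.ker).subgroupOf Φ.ker := by
    intro e e' h
    rw [Subgroup.mem_subgroupOf]
    obtain ⟨k, hk⟩ := (ZMod.intCast_eq_intCast_iff_dvd_sub _ _ _).1 h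
    set b : TU K M T := ((e⁻¹ * e' : Φ.ker) : TU K M T) with hb
    set f : Kˣ := x ^ k * ((z e)⁻¹ * z e') with hf
    have h5 : nU K M (b : Mˣ) = f ^ p := by
      have h6 : nU K M (b : Mˣ) = (nU K M ((e : TU K M T) : Mˣ))⁻¹ *
          nU K M ((e' : TU K M T) : Mˣ) := by
        rw [← map_inv, ← map_mul]
        rfl
      rw [h6, hlz, hlz, hf, mul_pow, ← zpow_natCast (x ^ k), ← zpow_mul, mul_comm k (p : ℤ), ← hk,
        zpow_sub, mul_pow, inv_pow, mul_inv]
      rw [mul_mul_mul_comm, mul_comm (x ^ l e)⁻¹ (x ^ l e')]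
    have h7 : iU K M f ∈ TU K M T := by
      apply la4_sat hp.ne_zero T
      rw [← map_pow, ← h5, ← hNe]
      exact (N b).2
    have h8 : N ⟨iU K M f, h7⟩ = N b := by
      apply Subtype.ext
      rw [hNe, hNe, h5, nU_iU, kx_finrank D hp]
    have h9 : (⟨iU K M f, h7⟩ : TU K M T) ∈ U := by
      rw [hU]
      change gT T D.γ ⟨iU K M f, h7⟩ = ⟨iU K M f, h7⟩
      apply Subtype.ext
      rw [gT_coe]
      exact gU_iU D.γ f
    refine Subgroup.mem_sup.2 ⟨_, h9, (⟨iU K M f, h7⟩ : TU K M T)⁻¹ * b, ?_, ?_⟩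
    · rw [MonoidHom.mem_ker, map_mul, map_inv, h8, inv_mul_cancel]
    · rw [mul_inv_cancel_left]
  have hrel : (U ⊔ N.ker).relIndex Φ.ker ≤ p := by
    have : Fact p.Prime := ⟨hp⟩
    have h5 : Nat.card (Φ.ker ⧸ (U ⊔ N.ker).subgroupOf Φ.ker) ≤ Nat.card (ZMod p) := by
      apply Nat.card_le_card_of_injective (fun q => ((l q.out : ℤ) : ZMod p))
      intro q q' h
      have h6 := key _ _ h
      rw [← QuotientGroup.out_eq' q, ← QuotientGroup.out_eq' q']
      exact QuotientGroup.eq.2 h6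
    rw [Nat.card_zmod] at h5
    exact h5
  have hB : (U.map N).relIndex N.range = (U ⊔ N.ker).index := by
    have h1 := Subgroup.relIndex_map_map N U ⊤
    rw [← MonoidHom.range_eq_map, top_sup_eq, Subgroup.relIndex_top_right] at h1
    exact h1
  have hC := Subgroup.relIndex_mul_index hle
  rw [hB, ← hC, Subgroup.index_ker] at habs
  calc p ^ (s + sp.card)
      ≤ (tm (gT T D.γ)).range.relIndex N.ker *
        ((U ⊔ N.ker).relIndex Φ.ker * Nat.card Φ.range) := habs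
    _ ≤ p ^ t.card * (p * Nat.card Φ.range) :=
        Nat.mul_le_mul h3 (Nat.mul_le_mul_right _ hrel)
    _ = p ^ (t.card + 1) * Nat.card Φ.range := by ring

end H38.TD
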