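import Pool.Agent.H38.TD.RamF

/-!
# [H38 TD PRES] Power residues and splitting (two parts, 100-170 lines)

`One1 v` is the group of elements of `Kˣ` which are `≡ 1` modulo `v`, written as `a / b` with
`a, b ∈ 𝓞 K ∖ v`, `a - b ∈ v`.  `PRes p v = One1 v ⊔ (p-th powers)`.

* `pres_index`: for a finite group `B` and a homomorphism `φ : B → Kˣ ⧸ (p-th powers)` such that
  `p ∣ od v` of all values (i.e. for every `b` there is a representative of order `0`: multiply by a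
  `p`-th power of a uniformizer), `#B ≤ p · #{b | φ b ∈ image of PRes}`.  Proof: the group
  `Z = {x | p ∣ od v x}` modulo `PRes p v` is a quotient of `k^× / (k^×)^p`, `k = 𝓞 K ⧸ v` (a finite
  field; `k^×` is cyclic, so `k^× / (k^×)^p` has at most `p` elements): an element of `Z` is
  `x = y^p a / b` with `a, b ∉ v` (`exists_unif`, `exists_int_div`) and we send it to the class of
  `a/b`.  More concretely: let `g ∈ 𝓞 K ∖ v` be a lift of a generator of `k^×`; every `x ∈ Z` is in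
  `g^i PRes` for some `0 ≤ i < p`: `a ≡ b g^n`, `n = i + p m`.  So the fibres: the map
  `B → Kˣ ⧸ PRes p v` (a homomorphism) has image contained in the cyclic group generated by `g`,
  which has order dividing `p` (as `g^p ∈ PRes`), and `#B = #image · #kernel`.
* `spl_of_pres`: `D : KX K M p ζ x`, `p ∉ v`, `od v x = 0` (or only `p ∣ od v x`), `x ∈ PRes p v`:
  then `v` splits.  Write `x = y^p a / b`.  `β' = β / y` has `β'^p = a / b`.  Let `Q` be over `v`;
  `β'^p ≡ 1` modulo `Q` in the sense that `b β'^p = a`, `a - b ∈ v ⊆ Q`, `b ∉ Q`.  Write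
  `β' = s / t`, `s, t ∈ 𝓞 M ∖ Q`; then `s^p - t^p = ∏_k (s - ζ^k t) ∈ Q` (because
  `b (s^p - t^p) = (a - b) t^p ∈ Q`), so `s - ζ^k t ∈ Q` for some `k`, i.e. `β' ≡ ζ^k` mod `Q`.
  Let `Q' = γ • Q`: `γ s - ζ^k γ t ∈ Q'`, where `γ s / γ t = γ β' = ζ β' = ζ s/t`.  If `Q' = Q` then
  modulo `Q`: `γ s = ζ^k γ t` and `t γ s = ζ s γ t`, so `t ζ^k γ t ≡ ζ s γ t`, `γ t ∉ Q`, so
  `ζ^k t ≡ ζ s ≡ ζ^{k+1} t`, so `ζ^k (ζ - 1) t ∈ Q`, `ζ - 1 ∈ Q`, `p ∈ Q`, contradiction.
-/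

open scoped NumberField Pointwise
open H38.ML

noncomputable section

namespace H38.TD

/-- The elements of `Kˣ` which are congruent to `1` modulo `v`. -/
def One1 {K : Type} [Field K] [NumberField K] (v : Pl K) : Subgroup Kˣ where
  carrier := {x | ∃ a b : 𝓞 K, a ∉ v.asIdeal ∧ b ∉ v.asIdeal ∧ a - b ∈ v.asIdeal ∧
    (x : K) * b = a}
  one_mem' := by
    refine ⟨1, 1, ?_, ?_, ?_, ?_⟩
    · exact fun h => v.isPrime.ne_top ((Ideal.eq_top_iff_one _).mpr h)
    · exact fun h => v.isPrime.ne_top ((Ideal.eq_top_iff_one _).mpr h)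
    · simp
    · simp
  mul_mem' := by
    rintro x y ⟨a, b, ha, hb, hab, h⟩ ⟨a', b', ha', hb', hab', h'⟩
    refine ⟨a * a', b * b', ?_, ?_, ?_, ?_⟩
    · exact fun h => (v.isPrime.mem_or_mem h).elim ha ha'
    · exact fun h => (v.isPrime.mem_or_mem h).elim hb hb'
    · have : a * a' - b * b' = (a - b) * a' + b * (a' - b') := by ring
      rw [this]
      exact v.asIdeal.add_mem (Ideal.mul_mem_right _ _ hab) (Ideal.mul_mem_left _ _ hab')
    · push_cast
      linear_combination (y : K) * (b' : K) * h + (a : K) * h'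
  inv_mem' := by
    rintro x ⟨a, b, ha, hb, hab, h⟩
    refine ⟨b, a, hb, ha, ?_, ?_⟩
    · have : b - a = -(a - b) := by ring
      rw [this]
      exact v.asIdeal.neg_mem hab
    · rw [← h]
      rw [← mul_assoc, ← Units.val_mul, inv_mul_cancel]
      simp

/-- The elements which are `p`-th powers modulo `v` (up to `p`-th powers). -/
def PRes {K : Type} [Field K] [NumberField K] (p : ℕ) (v : Pl K) : Subgroup Kˣ :=
  One1 v ⊔ (powMonoidHom p : Kˣ →* Kˣ).range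

theorem pres_index {K : Type} [Field K] [NumberField K] {p : ℕ} (hp : p.Prime) (v : Pl K)
    {B : Type} [CommGroup B] [Finite B] (F : B → Kˣ)
    (hF : ∀ b b' : B, ∃ y : Kˣ, F (b * b') = F b * F b' * y ^ p)
    (hod : ∀ b, (p : ℤ) ∣ od v (F b)) :
    Nat.card B ≤ p * Nat.card {b : B // F b ∈ PRes p v} := by
  classical
  have hvp := v.isPrime
  have hvm : v.asIdeal.IsMaximal := v.isMaximal
  let _ : Field (𝓞 K ⧸ v.asIdeal) := Ideal.Quotient.field v.asIdeal
  have hfin : Finite (𝓞 K ⧸ v.asIdeal) := Ideal.finiteQuotientOfFreeOfNeBot v.asIdeal v.ne_bot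
  obtain ⟨u, hu⟩ := IsCyclic.exists_generator (α := (𝓞 K ⧸ v.asIdeal)ˣ)
  obtain ⟨g₀, hg₀⟩ := Ideal.Quotient.mk_surjective (u : 𝓞 K ⧸ v.asIdeal)
  have hg₀v : g₀ ∉ v.asIdeal := by
    intro h
    rw [Ideal.Quotient.eq_zero_iff_mem.2 h] at hg₀
    exact u.ne_zero hg₀.symm
  have hg₀0 : (g₀ : K) ≠ 0 := by
    intro h
    apply hg₀v
    have h1 : g₀ = 0 := NumberField.RingOfIntegers.ext h
    rw [h1]
    exact v.asIdeal.zero_mem
  set g : Kˣ := Units.mk0 (g₀ : K) hg₀0 with hg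
  obtain ⟨π, hπ⟩ := exists_unif v
  have hpow : ∀ y : Kˣ, y ^ p ∈ PRes p v := fun y => Subgroup.mem_sup_right ⟨y, rfl⟩
  -- every element of order divisible by `p` is in `g ^ n PRes`
  have key : ∀ x : Kˣ, (p : ℤ) ∣ od v x → ∃ n : ℕ, x * (g ^ n)⁻¹ ∈ PRes p v := by
    rintro x ⟨m, hm⟩
    set x' : Kˣ := x * (π ^ (-m)) ^ p with hx'
    have hod0 : od v x' = 0 := by
      rw [hx', od_mul, od_pow, od_zpow, hπ, hm]
      ring
    obtain ⟨a, b, ha, hb, hab⟩ := exists_int_div v x' hod0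
    have ha' : (Ideal.Quotient.mk v.asIdeal a) ≠ 0 := by
      rwa [Ne, Ideal.Quotient.eq_zero_iff_mem]
    have hb' : (Ideal.Quotient.mk v.asIdeal b) ≠ 0 := by
      rwa [Ne, Ideal.Quotient.eq_zero_iff_mem]
    have hmem := hu (Units.mk0 _ ha' * (Units.mk0 _ hb')⁻¹)
    rw [← mem_powers_iff_mem_zpowers] at hmem
    obtain ⟨n, hn⟩ := hmem
    have h1 : Ideal.Quotient.mk v.asIdeal (g₀ ^ n * b) = Ideal.Quotient.mk v.asIdeal a := by
      have h2 := congrArg (fun w : (𝓞 K ⧸ v.asIdeal)ˣ => (w : 𝓞 K ⧸ v.asIdeal)) hn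
      simp only [Units.val_pow_eq_pow_val, Units.val_mul, Units.val_inv_eq_inv_val,
        Units.val_mk0] at h2
      rw [map_mul, map_pow, hg₀, h2, mul_assoc, inv_mul_cancel₀ hb', mul_one]
    have h3 : a - g₀ ^ n * b ∈ v.asIdeal := Ideal.Quotient.eq.1 h1.symm
    have h4 : g₀ ^ n * b ∉ v.asIdeal := by
      intro h
      rcases hvp.mem_or_mem h with h | h
      · exact hg₀v (hvp.mem_of_pow_mem _ h)
      · exact hb h
    have h5 : x' * (g ^ n)⁻¹ ∈ One1 v := by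
      refine ⟨a, g₀ ^ n * b, ha, h4, h3, ?_⟩
      rw [← hab]
      push_cast
      rw [hg, Units.val_mk0]
      field_simp
    refine ⟨n, ?_⟩
    have h6 : x * (g ^ n)⁻¹ = x' * (g ^ n)⁻¹ * (π ^ m) ^ p := by
      have h7 : (π ^ (-m)) ^ p * (π ^ m) ^ p = 1 := by
        rw [← mul_pow, zpow_neg, inv_mul_cancel, one_pow]
      calc x * (g ^ n)⁻¹ = x * (g ^ n)⁻¹ * ((π ^ (-m)) ^ p * (π ^ m) ^ p) := by rw [h7, mul_one]
        _ = x' * (g ^ n)⁻¹ * (π ^ m) ^ p := by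
            rw [hx']
            simp only [mul_assoc, mul_comm, mul_left_comm]
    rw [h6]
    exact mul_mem (Subgroup.mem_sup_left h5) (hpow _)
  -- the homomorphism
  let φ : B →* Kˣ ⧸ PRes p v := MonoidHom.mk' (fun b => (F b : Kˣ ⧸ PRes p v)) (by
    intro b b'
    obtain ⟨y, hy⟩ := hF b b'
    rw [hy, ← QuotientGroup.mk_mul, eq_comm, QuotientGroup.eq]
    rw [inv_mul_cancel_left]
    exact hpow y)
  have hφ : ∀ b, φ b = (F b : Kˣ ⧸ PRes p v) := fun b => rfl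
  have hrange : φ.range ≤ Subgroup.zpowers (g : Kˣ ⧸ PRes p v) := by
    rintro _ ⟨b, rfl⟩
    obtain ⟨n, hn⟩ := key (F b) (hod b)
    rw [hφ]
    refine ⟨n, ?_⟩
    change (g : Kˣ ⧸ PRes p v) ^ (n : ℤ) = _
    rw [zpow_natCast, ← QuotientGroup.mk_pow, QuotientGroup.eq, mul_comm]
    exact hn
  have hgp : orderOf (g : Kˣ ⧸ PRes p v) ∣ p := by
    rw [orderOf_dvd_iff_pow_eq_one, ← QuotientGroup.mk_pow, QuotientGroup.eq_one_iff]
    exact hpow g
  have hcr : Nat.card φ.range ≤ p := by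
    refine Nat.le_of_dvd hp.pos (Dvd.dvd.trans ?_ hgp)
    rw [← Nat.card_zpowers]
    exact Subgroup.card_dvd_of_le hrange
  have hker : Nat.card φ.ker = Nat.card {b : B // F b ∈ PRes p v} := by
    refine Nat.card_congr (Equiv.subtypeEquivRight fun b => ?_)
    rw [MonoidHom.mem_ker, hφ, QuotientGroup.eq_one_iff]
  have hc := Subgroup.card_mul_index φ.ker
  rw [Subgroup.index_ker, hker, mul_comm] at hc
  rw [← hc]
  exact Nat.mul_le_mul_right _ hcr

variable {K M : Type} [Field K] [NumberField K] [Field M] [NumberField M] [Algebra K M]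
  [IsGalois K M] {p : ℕ} {ζ : K} {x : Kˣ}

theorem spl_of_pres (D : KX K M p ζ x) (hp : p.Prime) (hζ : IsPrimitiveRoot ζ p) (v : Pl K)
    (hv : ((p : ℕ) : 𝓞 K) ∉ v.asIdeal) (hx : x ∈ PRes p v) : Spl D.γ v := by
  have hp0 : (p : ℤ) ≠ 0 := by exact_mod_cast hp.ne_zero
  have hNZ : NeZero p := ⟨hp.ne_zero⟩
  obtain ⟨o, ⟨a, b, ha, hb, hab, hoab⟩, _, ⟨y, rfl⟩, hoy⟩ := Subgroup.mem_sup.1 hx
  obtain ⟨Q, hQ⟩ := exists_ov M v
  have hQp := Q.isPrime
  have hQv : ∀ c : 𝓞 K, algebraMap (𝓞 K) (𝓞 M) c ∈ Q.asIdeal ↔ c ∈ v.asIdeal := by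
    intro c
    have hQ' : Q.asIdeal.under (𝓞 K) = v.asIdeal := hQ
    rw [← hQ', Ideal.mem_under]
  refine ⟨Q, hQ, fun hγQ => ?_⟩
  -- the order of `o` is zero
  have hodz : ∀ (c : 𝓞 K) (uc : Kˣ), (uc : K) = c → c ∉ v.asIdeal → od v uc = 0 := by
    intro c uc huc hc
    have h1 := od_nonneg v c uc huc
    have h2 := mt (od_pos_iff v c uc huc).1 hc
    omega
  have hne0 : ∀ c : 𝓞 K, c ∉ v.asIdeal → (c : K) ≠ 0 := by
    intro c hc h
    apply hc
    have h1 : c = 0 := NumberField.RingOfIntegers.ext h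
    rw [h1]
    exact v.asIdeal.zero_mem
  have hodo : od v o = 0 := by
    have h1 : o * Units.mk0 (b : K) (hne0 b hb) = Units.mk0 (a : K) (hne0 a ha) := by
      apply Units.ext
      exact hoab
    have h2 := congrArg (od v) h1
    rw [od_mul, hodz b (Units.mk0 (b : K) (hne0 b hb)) rfl hb,
      hodz a (Units.mk0 (a : K) (hne0 a ha)) rfl ha, add_zero] at h2
    exact h2
  set β' : Mˣ := D.β * (iU K M y)⁻¹ with hβ'
  have hβ'p : β' ^ p = iU K M o := by
    have h1 : x = o * y ^ p := hoy.symm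
    rw [hβ', mul_pow, D.pow, h1, map_mul, map_pow, inv_pow, mul_inv_cancel_right]
  have hod : od Q β' = 0 := by
    have h1 : (p : ℤ) * od Q β' = 0 := by
      rw [← od_pow, hβ'p, od_iU_card Q v hQ, hodo, mul_zero]
    exact (mul_eq_zero.1 h1).resolve_left hp0
  obtain ⟨s, t, hs, ht, hst⟩ := exists_int_div Q β' hod
  have hζM : IsPrimitiveRoot (algebraMap K M ζ) p := hζ.map_of_injective (algebraMap K M).injective
  have hz := hζM.toInteger_isPrimitiveRoot
  set z : 𝓞 M := hζM.toInteger with hzdef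
  have hzc : (z : M) = algebraMap K M ζ := rfl
  have hpQ : ((p : ℕ) : 𝓞 M) ∉ Q.asIdeal := by
    intro h
    apply hv
    rw [← hQv, map_natCast]
    exact h
  have hβ'c : (β' : M) ^ p = algebraMap K M o := by
    have := congrArg (fun u : Mˣ => (u : M)) hβ'p
    simpa [iU] using this
  -- `s ^ p - t ^ p ∈ Q`
  have h1 : algebraMap (𝓞 K) (𝓞 M) b * (s ^ p - t ^ p) =
      algebraMap (𝓞 K) (𝓞 M) (a - b) * t ^ p := by
    apply NumberField.RingOfIntegers.ext
    have e1 : ((algebraMap (𝓞 K) (𝓞 M) b : 𝓞 M) : M) = algebraMap K M (b : K) := rfl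
    have e2 : ((algebraMap (𝓞 K) (𝓞 M) (a - b) : 𝓞 M) : M) = algebraMap K M ((a : K) - (b : K)) := by
      rw [← map_sub]; rfl
    have e3 : (((algebraMap (𝓞 K) (𝓞 M) b * (s ^ p - t ^ p) : 𝓞 M)) : M) =
        algebraMap K M (b : K) * ((s : M) ^ p - (t : M) ^ p) := by
      rw [← e1, ← map_pow, ← map_pow, ← map_sub]; rfl
    have e4 : (((algebraMap (𝓞 K) (𝓞 M) (a - b) * t ^ p : 𝓞 M)) : M) =
        algebraMap K M ((a : K) - (b : K)) * (t : M) ^ p := by
      rw [← e2, ← map_pow]; rfl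
    rw [e3, e4, ← hst, mul_pow, hβ'c, ← hoab, map_sub, map_mul]
    ring
  have h2 : s ^ p - t ^ p ∈ Q.asIdeal := by
    have h3 : algebraMap (𝓞 K) (𝓞 M) b * (s ^ p - t ^ p) ∈ Q.asIdeal := by
      rw [h1]
      exact Ideal.mul_mem_right _ _ ((hQv _).2 hab)
    rcases hQp.mem_or_mem h3 with h4 | h4
    · exact absurd ((hQv b).1 h4) hb
    · exact h4
  rw [hz.pow_sub_pow_eq_prod_sub_mul s t hp.pos, Ideal.IsPrime.prod_mem_iff] at h2
  obtain ⟨ξ, hξ, hξQ⟩ := h2
  rw [Polynomial.mem_nthRootsFinset hp.pos] at hξ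
  obtain ⟨k, -, rfl⟩ := hz.eq_pow_of_pow_eq_one hξ
  -- `γ` fixes `Q`
  have hsm : ∀ c : 𝓞 M, D.γ • c ∈ Q.asIdeal ↔ c ∈ Q.asIdeal := by
    intro c
    conv_lhs => rw [← hγQ]
    exact Ideal.smul_mem_pointwise_smul_iff
  have hzfix : D.γ • z = z := by
    apply NumberField.RingOfIntegers.ext
    change D.γ (z : M) = (z : M)
    rw [hzc]
    exact D.γ.commutes _
  have h3 : D.γ • s - z ^ k * (D.γ • t) ∈ Q.asIdeal := by
    have h4 := (hsm _).2 hξQ
    rwa [smul_sub, smul_mul', smul_pow', hzfix] at h4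
  have hγβ' : D.γ (β' : M) = algebraMap K M ζ * β' := by
    have h5 : D.γ (((iU K M y)⁻¹ : Mˣ) : M) = (((iU K M y)⁻¹ : Mˣ) : M) := by
      have h6 := gU_iU D.γ (y⁻¹)
      have h7 := congrArg (fun u : Mˣ => (u : M)) h6
      rw [map_inv] at h7
      exact h7
    rw [hβ', Units.val_mul, map_mul, D.act, h5]
    ring
  have h4 : t * (D.γ • s) = z * s * (D.γ • t) := by
    apply NumberField.RingOfIntegers.ext
    change (t : M) * D.γ (s : M) = (z : M) * (s : M) * D.γ (t : M)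
    rw [← hst, map_mul, hγβ', hzc]
    ring
  have h5 : (z ^ 1 - 1) * (z ^ k * t * (D.γ • t)) ∈ Q.asIdeal := by
    have e : (z ^ 1 - 1) * (z ^ k * t * (D.γ • t)) =
        t * (D.γ • s - z ^ k * (D.γ • t)) - z * (D.γ • t) * (s - z ^ k * t) +
        (z * s * (D.γ • t) - t * (D.γ • s)) := by ring
    rw [e, h4, sub_self, add_zero]
    exact Q.asIdeal.sub_mem (Ideal.mul_mem_left _ _ h3) (Ideal.mul_mem_left _ _ hξQ)
  have hzk : z ^ k ∉ Q.asIdeal := by
    intro h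
    have h6 : (z ^ k) ^ p ∈ Q.asIdeal := Ideal.pow_mem_of_mem _ h _ hp.pos
    rw [hξ] at h6
    exact hQp.ne_top ((Ideal.eq_top_iff_one _).2 h6)
  rcases hQp.mem_or_mem h5 with h6 | h6
  · have h7 := ramf_dvd hp.pos hz Q.asIdeal hpQ 1 h6
    exact hp.one_lt.ne' (Nat.dvd_one.1 h7)
  · rcases hQp.mem_or_mem h6 with h7 | h7
    · rcases hQp.mem_or_mem h7 with h8 | h8
      · exact hzk h8
      · exact ht h8
    · exact ht ((hsm t).1 h7)

end H38.TD
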