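import Pool.Agent.H38.ML.RegInd
import Pool.Agent.H38.ML.InertOrb

/-!
# [H38 TD REG] Orbits in the regular representation; coprime products (two theorems, 60-110 lines)

* `reg_orbs`: `G` regular on `Fin n` (`#G = n`, transitive, so all stabilizers are trivial,
  `regind_stab` in `H38/ML/RegInd.lean`), `J ≤ G` with at most `p = minFac n` elements.  All orbits of `J`
  have `#J` elements, so `orbs J · #J = n`.  If `#J = 1` then `orbs J = n`.  Otherwise `#J` is a divisor
  of `n` different from `1`, so `#J ≥ p`, `#J = p`, `orbs J = n/p`; and `indG G = n - n/p`: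
  `exists_least` (G ≠ ⊥) gives `g` with `ind g = indG G` and `orderOf_of_least_regular`,
  `regind_orbs` (`orbs ⟨g⟩ · orderOf g = n`).
* `cop_surj`: the image `H` of `(ρ, ρ')` in `P × F` has order divisible by `#P` and by `#F`
  (the projections are surjective), so by `#P · #F` (coprime), so `H = ⊤`.
-/

namespace H38.TD

open H38.ML

theorem reg_orbs_mul {n : ℕ} (hn : 2 ≤ n) (G : Subgroup (Equiv.Perm (Fin n)))
    (hG : MulAction.IsPretransitive G (Fin n)) (hcard : Nat.card G = n)
    (H : Subgroup (Equiv.Perm (Fin n))) (hH : H ≤ G) : orbs H * Nat.card H = n := by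
  classical
  have hst : ∀ x : Fin n, MulAction.stabilizer H x = ⊥ := by
    intro x
    rw [eq_bot_iff]
    rintro ⟨h, hh⟩ hx
    rw [MulAction.mem_stabilizer_iff] at hx
    rw [Subgroup.mem_bot]
    apply Subtype.ext
    exact regind_stab hn G hG hcard h (hH hh) x hx
  have e := MulAction.selfEquivSigmaOrbitsQuotientStabilizer H (Fin n)
  have h1 := Nat.card_congr e
  rw [Nat.card_eq_fintype_card, Fintype.card_fin] at h1
  have : Fintype (MulAction.orbitRel.Quotient H (Fin n)) := Fintype.ofFinite _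
  rw [Nat.card_sigma] at h1
  have h2 : Nat.card (H ⧸ (⊥ : Subgroup H)) = Nat.card H :=
    (Nat.card_congr (QuotientGroup.quotientBot (G := H)).toEquiv)
  rw [Finset.sum_congr rfl (fun ω _ => by rw [hst])] at h1
  rw [Finset.sum_const, smul_eq_mul, Finset.card_univ, ← Nat.card_eq_fintype_card, h2] at h1
  exact h1.symm

theorem reg_orbs {n : ℕ} (hn : 2 ≤ n) (G : Subgroup (Equiv.Perm (Fin n)))
    (hG : MulAction.IsPretransitive G (Fin n)) (hcard : Nat.card G = n) (J : Subgroup G)
    (hJ : Nat.card J ≤ n.minFac) : n ≤ indG G + orbs (J.map G.subtype) := by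
  have hle : J.map G.subtype ≤ G := Subgroup.map_subtype_le J
  have h1 := reg_orbs_mul hn G hG hcard (J.map G.subtype) hle
  have hc : Nat.card (J.map G.subtype) = Nat.card J :=
    Subgroup.card_subtype G J
  rw [hc] at h1
  rcases Nat.eq_or_lt_of_le (Nat.one_le_iff_ne_zero.2 (Nat.card_pos (α := J)).ne') with h2 | h2
  · rw [← h2, mul_one] at h1
    omega
  · have hd : Nat.card J ∣ n := Dvd.intro_left _ h1
    have h3 : n.minFac ≤ Nat.card J := Nat.minFac_le_of_dvd (by omega) hd
    have h4 : Nat.card J = n.minFac := le_antisymm hJ h3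
    have hG1 : G ≠ ⊥ := by
      rintro rfl
      rw [Subgroup.card_bot] at hcard
      omega
    obtain ⟨g, hg, hi⟩ := exists_least G hG1
    have h5 := orderOf_of_least_regular hn G hG hcard g hg hi
    have h6 := regind_orbs hn G hG hcard (g : Equiv.Perm (Fin n)) g.2
    rw [Subgroup.orderOf_coe, h5] at h6
    rw [h4] at h1
    have h7 : 0 < n.minFac := (Nat.minFac_prime (by omega)).pos
    have h8 : orbs (J.map G.subtype) = orbs (Subgroup.zpowers (g : Equiv.Perm (Fin n))) :=
      Nat.eq_of_mul_eq_mul_right h7 (h1.trans h6.symm)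
    rw [← hi, h8]
    unfold ind
    omega

theorem cop_surj {Γ P F : Type} [Group Γ] [Group P] [Group F] [Finite P] [Finite F]
    (ρ : Γ →* P) (ρ' : Γ →* F) (h : Function.Surjective ρ) (h' : Function.Surjective ρ')
    (hc : Nat.Coprime (Nat.card P) (Nat.card F)) : Function.Surjective (ρ.prod ρ') := by
  have h1 : Nat.card P ∣ Nat.card (ρ.prod ρ').range := by
    have hs : Function.Surjective ((MonoidHom.fst P F).comp (ρ.prod ρ').range.subtype) := by
      intro x
      obtain ⟨g, hg⟩ := h x
      exact ⟨⟨ρ.prod ρ' g, ⟨g, rfl⟩⟩, hg⟩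
    exact Subgroup.card_dvd_of_surjective _ hs
  have h2 : Nat.card F ∣ Nat.card (ρ.prod ρ').range := by
    have hs : Function.Surjective ((MonoidHom.snd P F).comp (ρ.prod ρ').range.subtype) := by
      intro x
      obtain ⟨g, hg⟩ := h' x
      exact ⟨⟨ρ.prod ρ' g, ⟨g, rfl⟩⟩, hg⟩
    exact Subgroup.card_dvd_of_surjective _ hs
  have h3 : Nat.card (P × F) ∣ Nat.card (ρ.prod ρ').range := by
    rw [Nat.card_prod]
    exact Nat.Coprime.mul_dvd_of_dvd_of_dvd hc h1 h2
  have h4 : Nat.card (ρ.prod ρ').range = Nat.card (P × F) :=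
    Nat.dvd_antisymm (Subgroup.card_subgroup_dvd_card _) h3
  exact MonoidHom.range_eq_top.1 (Subgroup.eq_top_of_card_eq _ h4)

end H38.TD
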