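import Mathlib

/-!
# [H38 TD SELABS] Extending independent families (40-80 lines, pure algebra)

`Q` an abelian group killed by the prime `p`, i.e. a vector space over `ZMod p`
(`AddCommGroup.zmodModule` for `Additive Q`).  `Ind p g`: the family `g` is independent (this is
`LinearIndependent (ZMod p)` of the family in `Additive Q`).  If `g` is an independent family with `d`
members and `B` is a subgroup with `p^(d + n) ≤ #B` (`B` finite, or `n = 0`… note that
`Nat.card B = 0` if `B` is infinite, so `B` is finite here) then there are `n` elements of `B` which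
together with `g` form an independent family.  Proof by induction on `n`, or: the image of `B` in
`Q / ⟨g⟩` has dimension `≥ n` (`#⟨g⟩ = p^d`), lift `n` independent elements.
-/

namespace H38.TD

/-- Independence modulo `p`. -/
def Ind {Q ι : Type} [CommGroup Q] [Fintype ι] (p : ℕ) (g : ι → Q) : Prop :=
  ∀ n : ι → ℤ, ∏ i, g i ^ n i = 1 → ∀ i, (p : ℤ) ∣ n i

theorem ind_equiv {Q ι ι' : Type} [CommGroup Q] [Fintype ι] [Fintype ι'] (p : ℕ) (g : ι → Q)
    (e : ι' ≃ ι) (hg : Ind p g) : Ind p (g ∘ e) := by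
  intro n hn i
  have h1 : ∏ j, g j ^ n (e.symm j) = 1 := by
    rw [← hn]
    exact (Fintype.prod_equiv e _ _ (fun i => by simp)).symm
  have := hg (fun j => n (e.symm j)) h1 (e i)
  simpa using this

theorem ind_step {Q ι : Type} [CommGroup Q] [Fintype ι] (p : ℕ) (hp : p.Prime)
    (hQ : ∀ q : Q, q ^ p = 1) (g : ι → Q) (hg : Ind p g) (B : Subgroup Q)
    (hB : p ^ (Fintype.card ι + 1) ≤ Nat.card B) :
    ∃ b ∈ B, Ind p (Sum.elim g (fun _ : Unit => b)) := by
  classical
  have hp0 : (0 : ℤ) < (p : ℤ) := by exact_mod_cast hp.pos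
  have hex : ∃ b ∈ B, ∀ n : ι → ℤ, ∏ i, g i ^ n i ≠ b := by
    by_contra hcon
    push Not at hcon
    have h1 : ∀ b : B, ∃ f : ι → Fin p, ∏ i, g i ^ (f i : ℕ) = (b : Q) := by
      intro b
      obtain ⟨n, hn⟩ := hcon b b.2
      refine ⟨fun i => ⟨(n i % p).toNat, ?_⟩, ?_⟩
      · have h2 := Int.emod_lt_of_pos (n i) hp0
        have h3 := Int.emod_nonneg (n i) hp0.ne'
        omega
      · rw [← hn]
        apply Finset.prod_congr rfl
        intro i _
        have h3 := Int.emod_nonneg (n i) hp0.ne'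
        show g i ^ ((n i % p).toNat) = g i ^ n i
        rw [← zpow_natCast, Int.toNat_of_nonneg h3]
        conv_rhs => rw [← Int.mul_ediv_add_emod (n i) p, zpow_add, zpow_mul, zpow_natCast, hQ,
          one_zpow, one_mul]
    choose f hf using h1
    have hinj : Function.Injective f := by
      intro a b hab
      apply Subtype.ext
      rw [← hf a, ← hf b, hab]
    have h2 : Nat.card B ≤ Nat.card (ι → Fin p) := Nat.card_le_card_of_injective f hinj
    have h4 : Nat.card (ι → Fin p) = p ^ (Fintype.card ι) := by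
      rw [Nat.card_eq_fintype_card, Fintype.card_fun, Fintype.card_fin]
    rw [h4] at h2
    have h3 : p ^ (Fintype.card ι) < p ^ (Fintype.card ι + 1) :=
      Nat.pow_lt_pow_right hp.one_lt (by omega)
    omega
  obtain ⟨b, hbB, hb⟩ := hex
  refine ⟨b, hbB, ?_⟩
  intro n hn
  rw [Fintype.prod_sum_type] at hn
  have hn' : (∏ i, g i ^ n (Sum.inl i)) * b ^ n (Sum.inr ()) = 1 := by
    simpa using hn
  have hdvd : (p : ℤ) ∣ n (Sum.inr ()) := by
    by_contra hnd
    have hcop : IsCoprime (p : ℤ) (n (Sum.inr ())) :=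
      (Prime.coprime_iff_not_dvd (Nat.prime_iff_prime_int.mp hp)).mpr hnd
    obtain ⟨u, v, huv⟩ := hcop
    apply hb (fun i => -(n (Sum.inl i)) * v)
    have h5 : b ^ n (Sum.inr ()) = (∏ i, g i ^ n (Sum.inl i))⁻¹ :=
      eq_inv_of_mul_eq_one_right hn'
    have h6 : b = (b ^ n (Sum.inr ())) ^ v := by
      have h7 : b ^ (u * (p : ℤ) + v * n (Sum.inr ())) = b := by
        rw [huv, zpow_one]
      have h8 : b ^ (u * (p : ℤ)) = 1 := by
        rw [mul_comm, zpow_mul, zpow_natCast, hQ, one_zpow]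
      rw [zpow_add, h8, one_mul, mul_comm, zpow_mul] at h7
      exact h7.symm
    rw [h6, h5]
    have h9 : ∀ i, g i ^ (-(n (Sum.inl i)) * v) = ((g i ^ n (Sum.inl i))⁻¹) ^ v := by
      intro i
      rw [zpow_mul, zpow_neg]
    simp only [h9]
    rw [Finset.prod_zpow, Finset.prod_inv_distrib]
  have hb1 : b ^ n (Sum.inr ()) = 1 := by
    obtain ⟨c, hc⟩ := hdvd
    rw [hc, zpow_mul, zpow_natCast, hQ, one_zpow]
  rw [hb1, mul_one] at hn'
  have h10 := hg _ hn'
  rintro (i | i)
  · exact h10 i
  · exact hdvd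

theorem ind_extend_fin {Q : Type} [CommGroup Q] (p : ℕ) (hp : p.Prime) (hQ : ∀ q : Q, q ^ p = 1)
    (B : Subgroup Q) (m : ℕ) : ∀ {ι : Type} [Fintype ι] (g : ι → Q), Ind p g →
    p ^ (Fintype.card ι + m) ≤ Nat.card B →
    ∃ g' : Fin m → Q, (∀ k, g' k ∈ B) ∧ Ind p (Sum.elim g g') := by
  induction m with
  | zero =>
    intro ι _ g hg hB
    refine ⟨fun k => 1, fun k => k.elim0, ?_⟩
    intro n hn
    rw [Fintype.prod_sum_type] at hn
    have hn' : (∏ i, g i ^ n (Sum.inl i)) = 1 := by simpa using hn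
    rintro (i | i)
    · exact hg _ hn' i
    · exact i.elim0
  | succ m ih =>
    intro ι _ g hg hB
    obtain ⟨b, hbB, hb⟩ := ind_step p hp hQ g hg B
      (le_trans (Nat.pow_le_pow_right hp.pos (by omega)) hB)
    obtain ⟨g', hg', hI⟩ := ih (Sum.elim g (fun _ : Unit => b)) hb (by
      rw [Fintype.card_sum, Fintype.card_unit]
      have : Fintype.card ι + 1 + m = Fintype.card ι + (m + 1) := by omega
      rw [this]
      exact hB)
    refine ⟨Fin.cons b g', ?_, ?_⟩
    · intro k
      refine Fin.cases ?_ ?_ k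
      · simpa using hbB
      · intro j
        simpa using hg' j
    · intro n hn
      have h1 := hI (Sum.elim (Sum.elim (fun i => n (Sum.inl i)) (fun _ => n (Sum.inr 0)))
        (fun j => n (Sum.inr j.succ))) (by
          rw [Fintype.prod_sum_type, Fin.prod_univ_succ] at hn
          rw [Fintype.prod_sum_type, Fintype.prod_sum_type]
          simpa [mul_assoc] using hn)
      rintro (i | k)
      · exact h1 (Sum.inl (Sum.inl i))
      · refine Fin.cases ?_ ?_ k
        · exact h1 (Sum.inl (Sum.inr ()))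
        · intro j
          exact h1 (Sum.inr j)

theorem ind_extend {Q : Type} [CommGroup Q] (p : ℕ) (hp : p.Prime) (hQ : ∀ q : Q, q ^ p = 1)
    {ι κ : Type} [Fintype ι] [Fintype κ] (g : ι → Q) (hg : Ind p g) (B : Subgroup Q)
    (hB : p ^ (Fintype.card ι + Fintype.card κ) ≤ Nat.card B) :
    ∃ g' : κ → Q, (∀ k, g' k ∈ B) ∧ Ind p (Sum.elim g g') := by
  obtain ⟨g', hg', hI⟩ := ind_extend_fin p hp hQ B (Fintype.card κ) g hg hB
  refine ⟨fun k => g' (Fintype.equivFin κ k), fun k => hg' _, ?_⟩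
  have h1 := ind_equiv p _ (Equiv.sumCongr (Equiv.refl ι) (Fintype.equivFin κ)) hI
  have h2 : (Sum.elim g g') ∘ (Equiv.sumCongr (Equiv.refl ι) (Fintype.equivFin κ)) =
      Sum.elim g (fun k => g' (Fintype.equivFin κ k)) := by
    funext x
    rcases x with x | x <;> rfl
  rw [h2] at h1
  exact h1

end H38.TD
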