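import Pool.Agent.H38.TD.US
import Pool.Agent.H38.TD.SelAbs

/-!
# [H38 TD SEL] Selection of the elements for the Kummer construction (100-170 lines)

Work in `Q = Kˣ / QXs p x`, killed by `p` (`QXs` contains the `p`-th powers).  Start with the empty
family and apply `ind_extend` five times:
1. `J3` elements from the image of `TK K S`: by `us` with `t = ∅`, `p^s ≤ p #B`, and
   `#J3 + 1 ≤ s`.
2. `J1` elements from the image of `nU (TU K M (S ∪ supp))`: by `la4` with `T = S ∪ supp`, `t = ∅`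
   (`x` is a unit outside `S ∪ supp`, so `p ∣ od v x = 0`), `sp = ∅`: `p^s ≤ p #B` and
   `#J3 + #J1 + 1 ≤ s`.
3. `J2` elements from the image of `nU (TU K M (S ∪ R))`: if `J2` is empty nothing to do; otherwise
   `#supp ≤ #sp`, and `la4` with `T = S ∪ R`, `t = supp`, `sp = sp`: `p^(s + #sp) ≤ p^(#supp + 1) #B`,
   so `p^s ≤ p #B`, and `#J3 + #J1 + #J2 + 1 ≤ s`.
4. `Fin #sp` elements from the image of `nU (TU K M (S ∪ supp ∪ R))`: `la4` with `t = ∅`:
   `p^(s + #sp) ≤ p #B`.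
5. `Fin (#supp + #R - #sp)` elements from the image of `TK K (S ∪ supp ∪ R)`: `us` with
   `t = supp ∪ R`, `#t = #supp + #R`, and `#sp ≤ #R`: `p^(s + #supp + #R) ≤ p #B`.
Choose representatives (`nU e` with `e` in the group of units) and translate: a relation
`(∏ nU(e j)^{n j}) (∏ f j^{m j}) = x^l y^p` means that the product of the classes is `1`.
-/

open scoped NumberField Pointwise
open H38.ML

noncomputable section

namespace H38.TD

variable {K M : Type} [Field K] [NumberField K] [Field M] [NumberField M] [Algebra K M]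
  [IsGalois K M] {p : ℕ} {ζ : K} {x : Kˣ}

private theorem sel_le {p a b c d : ℕ} (hp : 0 < p) (h : p ^ a ≤ p ^ b * c) (hd : d + b ≤ a) :
    p ^ d ≤ c := by
  have h1 : p ^ b * p ^ d ≤ p ^ b * c := by
    calc p ^ b * p ^ d = p ^ (d + b) := by rw [pow_add, mul_comm]
      _ ≤ p ^ a := Nat.pow_le_pow_right hp hd
      _ ≤ _ := h
  exact Nat.le_of_mul_le_mul_left h1 (by positivity)

private theorem sel_ac {G : Type*} [CommGroup G] (a b c d e : G)
    (h : ((a * b) * c) * (d * e) = 1) : (((d * a) * b) * c) * e = 1 := by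
  rw [← h]
  simp only [mul_comm, mul_left_comm, mul_assoc]

private theorem sel_empty {Q ι κ : Type} [CommGroup Q] [Fintype ι] [Fintype κ] [IsEmpty κ] (p : ℕ)
    (g : ι → Q) (hg : Ind p g) (g' : κ → Q) : Ind p (Sum.elim g g') := by
  intro n hn
  rw [Fintype.prod_sum_type, Fintype.prod_empty (ι := κ), mul_one] at hn
  have h1 := hg (fun i => n (Sum.inl i)) hn
  rintro (i | k)
  · exact h1 i
  · exact isEmptyElim k

omit [IsGalois K M] in
private theorem sel_tu_mono {T T' : Set (Pl K)} (h : T ⊆ T') {e : Mˣ} (he : e ∈ TU K M T) :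
    e ∈ TU K M T' := fun Q hQ => he Q fun v hv => hQ v (h hv)

private theorem sel_tk_mono {K : Type} [Field K] [NumberField K] {T T' : Set (Pl K)} (h : T ⊆ T')
    {e : Kˣ} (he : e ∈ TK K T) : e ∈ TK K T' := fun v hv => he v fun h1 => hv (h h1)

theorem sel (D : KX K M p ζ x) (hp : p.Prime) (hζ : IsPrimitiveRoot ζ p)
    (htc : NumberField.IsTotallyComplex K) (s : ℕ)
    (hs : s + 1 ≤ Fintype.card (NumberField.InfinitePlace K)) (S : Set (Pl K)) (hS : S.Finite)
    (sd : SD K S) (hSp : ∀ v : Pl K, v ∉ S → ((p : ℕ) : 𝓞 K) ∉ v.asIdeal)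
    (supp R sp : Finset (Pl K)) (hsupp : ∀ v ∈ supp, v ∉ S) (hR : ∀ v ∈ R, v ∉ S)
    (hdis : Disjoint supp R) (hx : x ∈ TK K (S ∪ (supp : Set (Pl K))))
    (hsp : ∀ v, v ∈ sp ↔ v ∈ R ∧ Spl D.γ v)
    {J1 J2 J3 : Type} [Fintype J1] [Fintype J2] [Fintype J3]
    (hJ : Fintype.card J1 + Fintype.card J2 + Fintype.card J3 + 1 ≤ s)
    (hflag : IsEmpty J2 ∨ supp.card ≤ sp.card) :
    ∃ (e : (J1 ⊕ J2) ⊕ Fin sp.card → Mˣ) (f : J3 ⊕ Fin (supp.card + R.card - sp.card) → Kˣ),
      (∀ j, e (Sum.inl (Sum.inl j)) ∈ TU K M (S ∪ (supp : Set (Pl K)))) ∧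
      (∀ j, e (Sum.inl (Sum.inr j)) ∈ TU K M (S ∪ (R : Set (Pl K)))) ∧
      (∀ j, e j ∈ TU K M (S ∪ (supp : Set (Pl K)) ∪ (R : Set (Pl K)))) ∧
      (∀ j, f (Sum.inl j) ∈ TK K S) ∧
      (∀ j, f j ∈ TK K (S ∪ (supp : Set (Pl K)) ∪ (R : Set (Pl K)))) ∧
      ∀ (n : (J1 ⊕ J2) ⊕ Fin sp.card → ℤ) (m : J3 ⊕ Fin (supp.card + R.card - sp.card) → ℤ)
        (l : ℤ) (y : Kˣ), (∏ j, nU K M (e j) ^ n j) * (∏ j, f j ^ m j) = x ^ l * y ^ p →
        (∀ j, (p : ℤ) ∣ n j) ∧ (∀ j, (p : ℤ) ∣ m j) := by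
  classical
  have hp0 : 0 < p := hp.pos
  set q : Kˣ →* Kˣ ⧸ QXs p x := QuotientGroup.mk' (QXs p x) with hq
  have hpow : ∀ y : Kˣ, q (y ^ p) = 1 := by
    intro y
    rw [hq, QuotientGroup.mk'_apply, QuotientGroup.eq_one_iff]
    exact Subgroup.mem_sup_right ⟨y, rfl⟩
  have hQ : ∀ z : Kˣ ⧸ QXs p x, z ^ p = 1 := by
    intro z
    obtain ⟨y, rfl⟩ := QuotientGroup.mk'_surjective (QXs p x) z
    rw [← map_pow]
    exact hpow y
  have hodx : ∀ v, v ∉ S → v ∉ supp → (p : ℤ) ∣ od v x := by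
    intro v h1 h2
    have h3 : od v x = 0 := by
      apply hx v
      rintro (h | h)
      · exact h1 h
      · exact h2 h
    rw [h3]
    exact dvd_zero _
  have hspR : sp ⊆ R := fun v hv => ((hsp v).1 hv).1
  have hspc : sp.card ≤ R.card := Finset.card_le_card hspR
  -- step 1
  have b3 := us p hp x htc s hs S hS sd ∅ (by simp)
  rw [Finset.coe_empty, Set.union_empty, Finset.card_empty, add_zero] at b3
  have hg0 : Ind p (Empty.elim : Empty → Kˣ ⧸ QXs p x) := fun n _ i => i.elim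
  obtain ⟨g3, hg3B, hg3⟩ := ind_extend (κ := J3) p hp hQ _ hg0
    ((TK K S).map (QuotientGroup.mk' (QXs p x)))
    (sel_le (a := s) (b := 1) hp0 (by rw [pow_one]; exact b3)
      (by rw [Fintype.card_empty]; omega))
  -- step 2
  have b1 := la4 D hp hζ htc s hs S sd hSp (S ∪ (supp : Set (Pl K)))
    (hS.union supp.finite_toSet) Set.subset_union_left ∅
    (fun v hv _ => hodx v (fun h => hv (Or.inl h)) (fun h => hv (Or.inr h))) ∅
    (by simp)
  rw [Finset.card_empty, add_zero] at b1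
  obtain ⟨g1, hg1B, hg1⟩ := ind_extend (κ := J1) p hp hQ _ hg3 _
    (sel_le hp0 b1 (by
      rw [Fintype.card_sum, Fintype.card_empty]
      omega))
  -- step 3
  have s3 : ∃ g2 : J2 → Kˣ ⧸ QXs p x, (∀ k, g2 k ∈
      ((TU K M (S ∪ (R : Set (Pl K)))).map (nU K M)).map (QuotientGroup.mk' (QXs p x))) ∧
      Ind p (Sum.elim (Sum.elim (Sum.elim Empty.elim g3) g1) g2) := by
    rcases hflag with hE | hle
    · exact ⟨fun k => hE.elim k, fun k => hE.elim k, sel_empty p _ hg1 _⟩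
    · have b2 := la4 D hp hζ htc s hs S sd hSp (S ∪ (R : Set (Pl K)))
        (hS.union R.finite_toSet) Set.subset_union_left supp
        (fun v hv hv2 => hodx v (fun h => hv (Or.inl h)) hv2) sp
        (fun v hv => ⟨Or.inr (hspR hv), ((hsp v).1 hv).2⟩)
      refine ind_extend (κ := J2) p hp hQ _ hg1 _ (sel_le hp0 b2 ?_)
      rw [Fintype.card_sum, Fintype.card_sum, Fintype.card_empty]
      omega
  obtain ⟨g2, hg2B, hg2⟩ := s3
  -- step 4
  have b4 := la4 D hp hζ htc s hs S sd hSp (S ∪ (supp : Set (Pl K)) ∪ (R : Set (Pl K)))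
    ((hS.union supp.finite_toSet).union R.finite_toSet)
    (Set.subset_union_left.trans Set.subset_union_left) ∅
    (fun v hv _ => hodx v (fun h => hv (Or.inl (Or.inl h))) (fun h => hv (Or.inl (Or.inr h)))) sp
    (fun v hv => ⟨Or.inr (hspR hv), ((hsp v).1 hv).2⟩)
  rw [Finset.card_empty] at b4
  obtain ⟨g4, hg4B, hg4⟩ := ind_extend (κ := Fin sp.card) p hp hQ _ hg2 _
    (sel_le hp0 b4 (by
      rw [Fintype.card_sum, Fintype.card_sum, Fintype.card_sum, Fintype.card_empty,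
        Fintype.card_fin]
      omega))
  -- step 5
  have b5 := us p hp x htc s hs S hS sd (supp ∪ R) (by
    intro v hv
    rcases Finset.mem_union.1 hv with h | h
    · exact hsupp v h
    · exact hR v h)
  rw [Finset.coe_union, ← Set.union_assoc, Finset.card_union_of_disjoint hdis] at b5
  obtain ⟨g5, hg5B, hg5⟩ := ind_extend (κ := Fin (supp.card + R.card - sp.card)) p hp hQ _ hg4
    ((TK K (S ∪ (supp : Set (Pl K)) ∪ (R : Set (Pl K)))).map (QuotientGroup.mk' (QXs p x)))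
    (sel_le (a := s + (supp.card + R.card)) (b := 1) hp0 (by rw [pow_one]; exact b5) (by
      rw [Fintype.card_sum, Fintype.card_sum, Fintype.card_sum, Fintype.card_sum,
        Fintype.card_empty, Fintype.card_fin, Fintype.card_fin]
      omega))
  -- representatives
  have r3 : ∀ j, ∃ u : Kˣ, u ∈ TK K S ∧ q u = g3 j := fun j => hg3B j
  have r5 : ∀ j, ∃ u : Kˣ, u ∈ TK K (S ∪ (supp : Set (Pl K)) ∪ (R : Set (Pl K))) ∧ q u = g5 j :=
    fun j => hg5B j
  have r1 : ∀ j, ∃ e : Mˣ, e ∈ TU K M (S ∪ (supp : Set (Pl K))) ∧ q (nU K M e) = g1 j := by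
    intro j
    obtain ⟨u, ⟨e, he, rfl⟩, hu⟩ := hg1B j
    exact ⟨e, he, hu⟩
  have r2 : ∀ j, ∃ e : Mˣ, e ∈ TU K M (S ∪ (R : Set (Pl K))) ∧ q (nU K M e) = g2 j := by
    intro j
    obtain ⟨u, ⟨e, he, rfl⟩, hu⟩ := hg2B j
    exact ⟨e, he, hu⟩
  have r4 : ∀ j, ∃ e : Mˣ, e ∈ TU K M (S ∪ (supp : Set (Pl K)) ∪ (R : Set (Pl K))) ∧
      q (nU K M e) = g4 j := by
    intro j
    obtain ⟨u, ⟨e, he, rfl⟩, hu⟩ := hg4B j
    exact ⟨e, he, hu⟩
  choose f3 hf3 hf3' using r3
  choose f5 hf5 hf5' using r5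
  choose e1 he1 he1' using r1
  choose e2 he2 he2' using r2
  choose e4 he4 he4' using r4
  refine ⟨Sum.elim (Sum.elim e1 e2) e4, Sum.elim f3 f5, he1, he2, ?_, hf3, ?_, ?_⟩
  · rintro ((j | j) | j)
    · exact sel_tu_mono Set.subset_union_left (he1 j)
    · refine sel_tu_mono ?_ (he2 j)
      rintro v (h | h)
      · exact Or.inl (Or.inl h)
      · exact Or.inr h
    · exact he4 j
  · rintro (j | j)
    · exact sel_tk_mono (Set.subset_union_left.trans Set.subset_union_left) (hf3 j)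
    · exact hf5 j
  · intro n m l y hrel
    have h1 := congrArg q hrel
    have hR1 : q (x ^ l * y ^ p) = 1 := by
      rw [hq, QuotientGroup.mk'_apply, QuotientGroup.eq_one_iff]
      exact Subgroup.mul_mem _ (Subgroup.mem_sup_left ⟨l, rfl⟩) (Subgroup.mem_sup_right ⟨y, rfl⟩)
    rw [hR1, map_mul, map_prod, map_prod] at h1
    simp only [map_zpow] at h1
    rw [Fintype.prod_sum_type, Fintype.prod_sum_type, Fintype.prod_sum_type] at h1
    simp only [Sum.elim_inl, Sum.elim_inr, hf3', hf5', he1', he2', he4'] at h1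
    have h2 := hg5 (Sum.elim (Sum.elim (Sum.elim (Sum.elim (Sum.elim (Empty.elim : Empty → ℤ)
      (fun j => m (Sum.inl j))) (fun j => n (Sum.inl (Sum.inl j))))
      (fun j => n (Sum.inl (Sum.inr j)))) (fun j => n (Sum.inr j)))
      (fun j => m (Sum.inr j))) (by
        rw [Fintype.prod_sum_type, Fintype.prod_sum_type, Fintype.prod_sum_type,
          Fintype.prod_sum_type, Fintype.prod_sum_type, Fintype.prod_empty]
        simp only [Sum.elim_inl, Sum.elim_inr, one_mul]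
        exact sel_ac _ _ _ _ _ h1)
    constructor
    · rintro ((j | j) | j)
      · exact h2 (Sum.inl (Sum.inl (Sum.inl (Sum.inr j))))
      · exact h2 (Sum.inl (Sum.inl (Sum.inr j)))
      · exact h2 (Sum.inl (Sum.inr j))
    · rintro (j | j)
      · exact h2 (Sum.inl (Sum.inl (Sum.inl (Sum.inl (Sum.inr j)))))
      · exact h2 (Sum.inr j)

end H38.TD
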