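import Pool.Agent.H38.TD.TdMalle

/-!
# Two-layer groups: all cases
-/

open scoped NumberField Pointwise commutatorElement
open H38.ML

noncomputable section

namespace H38.TD

theorem realizable_prod {P F Q : Type} [Group P] [Group F] [Group Q] [Finite P] [Finite F]
    (φ : Q ≃* P × F) (hP : Realizable P) (hF : Realizable F)
    (hc : Nat.Coprime (Nat.card P) (Nat.card F)) : Realizable Q := by
  obtain ⟨K₁, hK₁, h1⟩ := hP
  obtain ⟨K₂, hK₂, h2⟩ := hF
  refine ⟨K₁ ⊔ K₂, IntermediateField.finiteDimensional_sup K₁ K₂, ?_⟩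
  intro K hK hKfin
  obtain ⟨ρ, hρ, hft⟩ := h1 K (le_trans le_sup_left hK) hKfin
  obtain ⟨ρ', hρ', hft'⟩ := h2 K (le_trans le_sup_right hK) hKfin
  have : NumberField K := numberField_of_finite K
  refine ⟨φ.symm.toMonoidHom.comp (ρ.prod ρ'),
    φ.symm.surjective.comp (cop_surj ρ ρ' hρ hρ' hc), ?_⟩
  exact ft_comp _ _ (ft_of_two ρ ρ' _ hft hft' fun σ h h' => by
    rw [MonoidHom.prod_apply, h, h']; rfl)

theorem realizable_comm {P : Type} [Group P] [Finite P] (hc : ∀ a b : P, a * b = b * a) :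
    Realizable P := by
  apply semiabelian_realizable
  refine ⟨1, fun k => if k = 0 then ⊤ else ⊥, fun _ => ⊤, by simp, by simp, ?_⟩
  intro k hk
  obtain rfl : k = 0 := by omega
  refine ⟨by simp, by simp, fun _ _ _ _ => Subgroup.mem_top _, ?_, by simp⟩
  rintro x - y -
  exact hc x y

theorem reg_least {n : ℕ} (hn : 2 ≤ n) (G : Subgroup (Equiv.Perm (Fin n)))
    (hG : MulAction.IsPretransitive G (Fin n)) (hcard : Nat.card G = n) (g : G) :
    orderOf g = n.minFac ↔ g ≠ 1 ∧ ind (g : Equiv.Perm (Fin n)) = indG G := by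
  constructor
  · intro h
    have hp : (n.minFac).Prime := Nat.minFac_prime (by omega)
    have hg : g ≠ 1 := by
      rintro rfl
      rw [orderOf_one] at h
      exact hp.one_lt.ne h
    refine ⟨hg, le_antisymm ?_ ?_⟩
    · have h1 := reg_orbs hn G hG hcard (Subgroup.zpowers g) (by rw [Nat.card_zpowers, h])
      rw [MonoidHom.map_zpowers] at h1
      change n - orbs (Subgroup.zpowers (g : Equiv.Perm (Fin n))) ≤ indG G
      have h2 : G.subtype g = (g : Equiv.Perm (Fin n)) := rfl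
      rw [h2] at h1
      omega
    · exact Nat.sInf_le ⟨g, g.2, fun h => hg (Subtype.ext h), rfl⟩
  · rintro ⟨h1, h2⟩
    exact orderOf_of_least_regular hn G hG hcard g h1 h2

/-- The main theorem. -/
theorem td_all {n : ℕ} (hn : 2 ≤ n) (G : Subgroup (Equiv.Perm (Fin n)))
    (hG : MulAction.IsPretransitive G (Fin n)) {p : ℕ} (hp : p.Prime) (hpG : p ∣ Nat.card G)
    (hleast : ∀ g : G, orderOf g = p ↔ g ≠ 1 ∧ ind (g : Equiv.Perm (Fin n)) = indG G)
    (N : Subgroup G) (hN : N.Normal) (htow : GoodTower N) (hNp : ¬ p ∣ Nat.card N)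
    (P F : Type) [Group P] [Group F] [Finite P] [Finite F] (φ : G ⧸ N ≃* P × F)
    (hP : IsPGroup p P) (hFp : ¬ p ∣ Nat.card F) (hF : Realizable F)
    (A₀ : Subgroup P) (hi : A₀.index = p) (hcomm : ∀ a ∈ A₀, ∀ b ∈ A₀, a * b = b * a)
    (hgen : Subgroup.center P ⊔ Subgroup.closure {g : P | g ^ p = 1} = ⊤) :
    ∃ K₀ : IntermediateField ℚ QBar, FiniteDimensional ℚ K₀ ∧
      ∀ K : IntermediateField ℚ QBar, K₀ ≤ K → FiniteDimensional ℚ K →
        ∃ c : ℝ, 0 < c ∧ ∃ B₀ : ℝ, ∀ B : ℝ, B₀ ≤ B →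
          ((⌈c * B ^ (1 / (indG G : ℝ)) * Real.log B ^ (betaAll G K - 1)⌉₊ : ℕ) : ℕ∞) ≤
            nK G K B := by
  by_cases hnc : ∃ a b : P, a * b ≠ b * a
  · exact td_malle hn G hG hp hleast N hN htow hNp P F φ hP hFp hF A₀ hi hcomm hgen hnc
  push Not at hnc
  have := Fact.mk hp
  have := hN
  obtain ⟨k, hk⟩ := IsPGroup.iff_card.mp hP
  have hcop : Nat.Coprime (Nat.card P) (Nat.card F) := by
    rw [hk]
    exact Nat.Coprime.pow_left _ ((Nat.Prime.coprime_iff_not_dvd hp).mpr hFp)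
  let T : Subgroup G := ((⊤ : Subgroup P).prod (⊥ : Subgroup F)).comap
    (φ.toMonoidHom.comp (QuotientGroup.mk' N))
  have hTmem : ∀ g : G, g ∈ T ↔ (φ (g : G ⧸ N)).2 = 1 := by
    intro g
    change φ (g : G ⧸ N) ∈ (⊤ : Subgroup P).prod (⊥ : Subgroup F) ↔ _
    rw [Subgroup.mem_prod]
    simp
  have hT : T.Normal := Subgroup.Normal.comap inferInstance _
  have hTN : ⁅T, T⁆ ≤ N := by
    rw [Subgroup.commutator_le]
    intro g hg h hh
    rw [← QuotientGroup.eq_one_iff]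
    apply φ.injective
    rw [map_one, commutatorElement_def, QuotientGroup.mk_mul, QuotientGroup.mk_mul,
      QuotientGroup.mk_mul, QuotientGroup.mk_inv, QuotientGroup.mk_inv, map_mul, map_mul, map_mul,
      map_inv, map_inv]
    have h1 := (hTmem g).mp hg
    have h2 := (hTmem h).mp hh
    ext
    · change (φ (g : G ⧸ N)).1 * (φ (h : G ⧸ N)).1 * ((φ (g : G ⧸ N)).1)⁻¹ *
        ((φ (h : G ⧸ N)).1)⁻¹ = 1
      rw [hnc (φ (g : G ⧸ N)).1 (φ (h : G ⧸ N)).1]
      group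
    · change (φ (g : G ⧸ N)).2 * (φ (h : G ⧸ N)).2 * ((φ (g : G ⧸ N)).2)⁻¹ *
        ((φ (h : G ⧸ N)).2)⁻¹ = 1
      rw [h1, h2]
      group
  have hreal : Realizable (G ⧸ N) := realizable_prod φ (realizable_comm hnc) hF hcop
  have hleast' : ∀ g : G, g ≠ 1 → ind (g : Equiv.Perm (Fin n)) = indG G →
      g ∈ T ∧ Nat.Coprime (orderOf g) (Nat.card N) := by
    intro g hg hi
    have h1 : orderOf g = p := (hleast g).mpr ⟨hg, hi⟩
    constructor
    · rw [hTmem]
      have h2 : (φ (g : G ⧸ N)) ^ p = 1 := by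
        rw [← map_pow, ← QuotientGroup.mk_pow, ← h1, pow_orderOf_eq_one]
        simp
      have h3 : (φ (g : G ⧸ N)).2 ^ p = 1 := (Prod.ext_iff.mp h2).2
      rw [← orderOf_eq_one_iff]
      rcases (Nat.dvd_prime hp).mp (orderOf_dvd_of_pow_eq_one h3) with h | h
      · exact h
      · exact absurd (h ▸ orderOf_dvd_natCard _) hFp
    · rw [h1]
      exact (Nat.Prime.coprime_iff_not_dvd hp).mpr hNp
  obtain ⟨g₀, hg₀⟩ := exists_prime_orderOf_dvd_card' (G := G) p hpG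
  have h1 := (hleast g₀).mp hg₀
  have h2 := hleast' g₀ h1.1 h1.2
  obtain ⟨K₀, hK₀, h⟩ := lower_bound hn G hG T N hT hN hTN htow hreal
    ⟨⟨g₀, h2.1, h1.1, h1.2, h2.2⟩⟩
  refine ⟨K₀, hK₀, fun K hK hKf => ?_⟩
  rw [← beta_eq_betaAll G K T N hleast']
  exact h K hK hKf

end H38.TD
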