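import Pool.Agent.H38.TD.TwFt
import Pool.Agent.H38.TD.AnaM
import Pool.Agent.H38.TD.MertA
import Pool.Agent.H38.TD.MertB
import Pool.Agent.H38.TD.DCount

/-!
# The count of homomorphisms onto `P` (assembly)
-/

open scoped NumberField Pointwise
open H38.ML

noncomputable section

namespace H38.TD

section abs

variable {Pt Ut Ht : Type} [Fintype Ut] {p : ℕ} [NeZero p] (D : AD Pt Ut Ht p)

theorem mem_Fs {Z : Finset Pt} {Λ ε : ℝ} {ρ : Ht} (h : ρ ∈ D.Fs Z Λ ε) :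
    ∃ x R, ρ ∈ D.H x R ∧ x.2.support ∈ D.Rs Z Λ ε ∧ R ∈ D.Rs Z Λ ε ∧
      ∀ v ∈ D.Tr ρ, v ∈ x.2.support ∨ v ∈ R := by
  classical
  unfold AD.Fs at h
  obtain ⟨⟨x, R⟩, hy, hρ⟩ := Finset.mem_biUnion.mp h
  unfold AD.Prs at hy
  obtain ⟨hy1, hy2⟩ := Finset.mem_filter.mp hy
  obtain ⟨h1, h2⟩ := Finset.mem_product.mp hy1
  refine ⟨x, R, hρ, hy2.2.1, h2, ?_⟩
  obtain ⟨h3, h4⟩ := D.hH x R ρ hρ
  unfold AD.Tr
  rw [h3]
  intro v hv
  exact (Finset.mem_union.mp hv).imp id fun h => h4 h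

theorem mem_Rs {Z : Finset Pt} {Λ ε : ℝ} {R : Finset Pt} (h : R ∈ D.Rs Z Λ ε) :
    R ⊆ Z ∧ Ln D.N R ≤ Λ ∧ Lv D.N R ≤ ε := by
  classical
  unfold AD.Rs at h
  obtain ⟨h1, h2⟩ := Finset.mem_filter.mp h
  exact ⟨Finset.mem_powerset.mp h1, h2⟩

end abs

theorem Lv_mono {Pt : Type} (N : Pt → ℕ) {R R' : Finset Pt} (h : R ⊆ R') : Lv N R ≤ Lv N R' :=
  Finset.sum_le_sum_of_subset_of_nonneg h fun _ _ _ => by positivity

theorem Lv_union_le {Pt : Type} [DecidableEq Pt] (N : Pt → ℕ) (R R' : Finset Pt) :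
    Lv N (R ∪ R') ≤ Lv N R + Lv N R' := by
  have h : Lv N (R ∪ R') + Lv N (R ∩ R') = Lv N R + Lv N R' :=
    Finset.sum_union_inter
  have h1 : 0 ≤ Lv N (R ∩ R') := Finset.sum_nonneg fun _ _ => by positivity
  linarith

theorem Ln_nonneg {Pt : Type} (N : Pt → ℕ) (hN : ∀ v, 2 ≤ N v) (R : Finset Pt) : 0 ≤ Ln N R :=
  Finset.sum_nonneg fun v _ => Real.log_nonneg (by exact_mod_cast (by have := hN v; omega))

theorem Ln_mono {Pt : Type} (N : Pt → ℕ) (hN : ∀ v, 2 ≤ N v) {R R' : Finset Pt} (h : R ⊆ R') :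
    Ln N R ≤ Ln N R' :=
  Finset.sum_le_sum_of_subset_of_nonneg h fun v _ _ =>
    Real.log_nonneg (by exact_mod_cast (by have := hN v; omega))

theorem Ln_union_le {Pt : Type} [DecidableEq Pt] (N : Pt → ℕ) (hN : ∀ v, 2 ≤ N v)
    (R R' : Finset Pt) : Ln N (R ∪ R') ≤ Ln N R + Ln N R' := by
  have h : Ln N (R ∪ R') + Ln N (R ∩ R') = Ln N R + Ln N R' :=
    Finset.sum_union_inter
  have h1 : 0 ≤ Ln N (R ∩ R') := Ln_nonneg N hN _
  linarith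

theorem exp_Ln {Pt : Type} (N : Pt → ℕ) (hN : ∀ v, 2 ≤ N v) (R : Finset Pt) :
    Real.exp (Ln N R) = ((∏ v ∈ R, N v : ℕ) : ℝ) := by
  unfold Ln
  rw [Real.exp_sum]
  push_cast
  refine Finset.prod_congr rfl fun v _ => Real.exp_log ?_
  have := hN v
  exact_mod_cast (by omega : 0 < N v)

variable {K Ω : Type} [Field K] [NumberField K] [Field Ω] [Algebra K Ω] [IsAlgClosure K Ω]

theorem td_main {A P : Type} [CommGroup A] [Finite A] [Group P] [Finite P] {p : ℕ}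
    (pd : PD p A P) (hp : p.Prime) (k : ℕ) (ζ : K) (hζ : IsPrimitiveRoot ζ (p ^ k)) (ζp : K)
    (hζp : IsPrimitiveRoot ζp p) (hA : ∀ t : A, t ^ p ^ k = 1)
    (htc : NumberField.IsTotallyComplex K) (s : ℕ)
    (hs : s + 1 ≤ Fintype.card (NumberField.InfinitePlace K)) (hs1 : 3 * Nat.card A + 1 ≤ s)
    (S₀ : Set (Pl K)) (hS₀ : S₀.Finite)
    (hfl : Subgroup.closure (((nh pd.θ p).ker : Set A) ∪ (fx pd.θ : Set A)) = ⊤ ∨
      (Subgroup.closure (((nh pd.θ p).ker : Set A) ∪ (fx pd.θ : Set A) ∪ (tp A p : Set A)) = ⊤ ∧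
        2 * (p - 1) * (Nat.card (fx pd.θ) / Nat.card (nh pd.θ p).range) * p ≤
          Nat.card (tp A p) ∧
        Nat.card (fx pd.θ ⊓ tp A p : Subgroup A) < Nat.card (tp A p)))
    (z : A) (hzθ : pd.θ z = z) (hzp : z ^ p = 1) (hz1 : z ≠ 1)
    (hzgen : ∀ H : Subgroup P, H ⊔ Subgroup.zpowers (pd.j z) = ⊤ → H = ⊤) (d : ℕ)
    (hd : (d : ℝ) + 2 ≤ ((p : ℝ) - 1) *
        ((Nat.card (fx pd.θ) / Nat.card (nh pd.θ p).range : ℕ) : ℝ) +
      ((Nat.card (fx pd.θ ⊓ tp A p : Subgroup A) : ℝ) +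
        ((Nat.card (tp A p) : ℝ) - Nat.card (fx pd.θ ⊓ tp A p : Subgroup A)) / p)) :
    ∃ S : Set (Pl K), S.Finite ∧ S₀ ⊆ S ∧ ∃ c : ℝ, 0 < c ∧ ∃ X₀ : ℝ, ∀ X : ℝ, X₀ ≤ X →
      ∃ Fs : Finset (Gal(Ω/K) →* P), c * X * Real.log X ^ d ≤ (Fs.card : ℝ) ∧
        ∀ ρ ∈ Fs, Function.Surjective ρ ∧ FT ρ ∧ (∀ v, v ∉ S → SmallAt p ρ v.asIdeal) ∧
          ∃ T : Finset (Pl K), (∀ v ∈ T, v ∉ S) ∧ ((∏ v ∈ T, nv v : ℕ) : ℝ) ≤ X ∧
            ∀ v, v ∉ S → v ∉ T → UnrAt ρ v.asIdeal := by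
  classical
  have : NeZero p := ⟨hp.ne_zero⟩
  obtain ⟨S, hS, hS₀S, hSp, ⟨sd⟩, U, hU, D, hDN, hDh, hDq, hDV, hD⟩ :=
    adata (Ω := Ω) pd hp k ζ hζ ζp hζp hA htc s hs hs1 S₀ hS₀ hfl
  refine ⟨S, hS, hS₀S, ?_⟩
  have hN : D.N = fun v : Po K S => nv v.1 := funext hDN
  -- the twisting data
  have hjz1 : pd.j z ≠ 1 := fun h => hz1 (pd.jinj (h.trans (map_one pd.j).symm))
  have hjzp : pd.j z ^ p = 1 := by rw [← map_pow, hzp, map_one]
  have hzj : ∀ a : A, pd.j z * pd.j a = pd.j a * pd.j z := by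
    intro a
    rw [← map_mul, ← map_mul, mul_comm]
  have hzc0 : pd.j z * pd.c = pd.c * pd.j z := by
    have h := pd.conj z
    rw [hzθ] at h
    exact (eq_mul_of_mul_inv_eq h).symm
  have hzc : ∀ g : P, pd.j z * g = g * pd.j z := by
    intro g
    obtain ⟨a, n, rfl⟩ := pd.gen g
    have h1 : Commute (pd.j z) (pd.j a) := hzj a
    have h2 : Commute (pd.j z) (pd.c ^ n) := Commute.pow_right hzc0 n
    exact (h1.mul_right h2 : Commute _ _)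
  obtain ⟨W, hW1, hW2, hW3⟩ := exists_twd (Ω := Ω) hp ζp hζp S sd hSp (pd.j z) hjz1 hjzp hzc
  -- constants
  obtain ⟨C₁, hC₁, hup⟩ := dcount_upper K S
  obtain ⟨c₂, hc₂, t₀, hlow⟩ := dcount_lower K S hS
  obtain ⟨ε₀, hε₀, t₁, hcut⟩ := cutb (fun v : Po K S => nv v.1) (fun v => two_le_nv v.1) C₁ hC₁ hup
    c₂ hc₂ t₀ hlow
  obtain ⟨c₁, hc₁, L₀, hana⟩ := ana_main D (ε₀ / 2) (by positivity)
  have hphV : 0 < ((p : ℝ) * D.h + D.V) := by
    have h1 : (1 : ℝ) ≤ D.h := by exact_mod_cast D.hh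
    have h2 : (2 : ℝ) ≤ p := by exact_mod_cast D.hp
    have h3 : (0 : ℝ) ≤ D.V := Nat.cast_nonneg _
    nlinarith
  obtain ⟨w, hw⟩ := sq_small K S (min (ε₀ / 2) 1 / (16 * ((p : ℝ) * D.h + D.V) ^ 2))
    (by have : 0 < min (ε₀ / 2) 1 := lt_min (by positivity) one_pos
        positivity)
  obtain ⟨C₂, hC₂, hml⟩ := mert_log K S
  obtain ⟨c₃, hc₃, z₀, hmw⟩ := mert_lower S hS w
  let δ : ℝ := 1 / (32 * ((p : ℝ) * D.h + D.V) * C₂)
  have hδ : 0 < δ := by positivity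
  refine ⟨c₂ / 2 * c₁ * (c₃ * δ) ^ d, by positivity, ?_⟩
  -- large X
  have hev : ∀ᶠ X : ℝ in Filter.atTop, 1 ≤ X ∧ 2 ≤ Real.exp (δ * Real.log X) ∧
      z₀ ≤ Real.exp (δ * Real.log X) ∧ max 1 (Real.exp L₀) ≤ c₃ * (δ * Real.log X) ∧
      max 1 t₁ ≤ Real.exp (1 / 2 * Real.log X) := by
    have h1 : Filter.Tendsto (fun X : ℝ => δ * Real.log X) Filter.atTop Filter.atTop :=
      Filter.Tendsto.const_mul_atTop hδ Real.tendsto_log_atTop
    have h2 : Filter.Tendsto (fun X : ℝ => Real.exp (δ * Real.log X)) Filter.atTop Filter.atTop :=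
      Real.tendsto_exp_atTop.comp h1
    have h3 : Filter.Tendsto (fun X : ℝ => c₃ * (δ * Real.log X)) Filter.atTop Filter.atTop :=
      Filter.Tendsto.const_mul_atTop hc₃ h1
    have h4 : Filter.Tendsto (fun X : ℝ => Real.exp (1 / 2 * Real.log X)) Filter.atTop
        Filter.atTop := Real.tendsto_exp_atTop.comp
      (Filter.Tendsto.const_mul_atTop (by norm_num) Real.tendsto_log_atTop)
    filter_upwards [Filter.eventually_ge_atTop 1, h2.eventually_ge_atTop 2,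
      h2.eventually_ge_atTop z₀, h3.eventually_ge_atTop (max 1 (Real.exp L₀)),
      h4.eventually_ge_atTop (max 1 t₁)] with X a1 a2 a3 a4 a5
    exact ⟨a1, a2, a3, a4, a5⟩
  obtain ⟨X₀, hX₀⟩ := Filter.eventually_atTop.mp hev
  refine ⟨X₀, fun X hX => ?_⟩
  obtain ⟨hX1, hz2, hzz₀, hzL, hXt⟩ := hX₀ X hX
  set zz : ℝ := Real.exp (δ * Real.log X) with hzz
  have hlogz : Real.log zz = δ * Real.log X := by rw [hzz, Real.log_exp]
  have hlogX : 0 ≤ Real.log X := Real.log_nonneg hX1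
  let Z := Zs S w zz
  have hL := hmw zz hzz₀
  rw [hlogz] at hL
  have hL' : max 1 (Real.exp L₀) ≤ Real.exp (Lv (fun v : Po K S => nv v.1) Z) := hzL.trans hL
  have hL0 : L₀ ≤ Lv (fun v : Po K S => nv v.1) Z :=
    Real.exp_le_exp.mp ((le_max_right _ _).trans hL')
  have hLpos : 0 ≤ Lv (fun v : Po K S => nv v.1) Z := by
    have h := (le_max_left _ _).trans hL'
    rw [← Real.exp_zero] at h
    exact Real.exp_le_exp.mp h
  have hanaX := hana Z (1 / 4 * Real.log X) (by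
    rw [hN]
    have h1 := hml w zz hz2
    rw [hlogz] at h1
    calc 8 * ((p : ℝ) * D.h + D.V) * ∑ v ∈ Z, Real.log (nv v.1) / (nv v.1 : ℝ)
        ≤ 8 * ((p : ℝ) * D.h + D.V) * (C₂ * (δ * Real.log X)) :=
          mul_le_mul_of_nonneg_left h1 (by positivity)
      _ = 1 / 4 * Real.log X := by
          simp only [δ]
          field_simp
          ring) (by
    rw [hN]
    have h1 := hw zz
    rw [le_div_iff₀ (by positivity)] at h1
    calc 16 * ((p : ℝ) * D.h + D.V) ^ 2 * ∑ v ∈ Z, 1 / (nv v.1 : ℝ) ^ 2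
        = (∑ v ∈ Z, 1 / (nv v.1 : ℝ) ^ 2) * (16 * ((p : ℝ) * D.h + D.V) ^ 2) := mul_comm _ _
      _ ≤ _ := h1) (by rw [hN]; exact hL0)
  set F := D.Fs Z (1 / 4 * Real.log X) (ε₀ / 2) with hF
  have hTr : ∀ ρ ∈ F, D.Tr ρ ⊆ Z ∧ Ln D.N (D.Tr ρ) ≤ 1 / 2 * Real.log X ∧
      Lv D.N (D.Tr ρ) ≤ ε₀ := by
    intro ρ hρ
    obtain ⟨x, R, _, h2, h3, h40⟩ := mem_Fs D hρ
    have h4 : D.Tr ρ ⊆ x.2.support ∪ R := fun v hv => Finset.mem_union.mpr (h40 v hv)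
    obtain ⟨h5, h6, h7⟩ := mem_Rs D h2
    obtain ⟨h8, h9, h10⟩ := mem_Rs D h3
    refine ⟨h4.trans (Finset.union_subset h5 h8), ?_, ?_⟩
    · have := (Ln_mono D.N D.hN h4).trans (Ln_union_le D.N D.hN _ _)
      linarith
    · have := (Lv_mono D.N h4).trans (Lv_union_le D.N _ _)
      linarith
  have hFp : ∀ ρ ∈ F, Function.Surjective ρ ∧ FT ρ ∧
      (∀ v : Po K S, v ∉ D.Tr ρ → UnrAt ρ v.1.asIdeal) ∧
      ∀ v : Po K S, SmallAt p ρ v.1.asIdeal := by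
    intro ρ hρ
    obtain ⟨x, R, h1, _⟩ := mem_Fs D hρ
    exact hD x R ρ h1
  obtain ⟨Fs, hFs, hcard⟩ := cutc W D.N D.hN F D.Tr (by
      intro ρ hρ v hv I hI τ hτ
      rw [hW1] at hI
      obtain ⟨𝔓, h𝔓, h𝔓v, rfl⟩ := hI
      exact (hFp ρ hρ).2.2.1 v hv 𝔓 h𝔓 h𝔓v τ hτ) Z (fun ρ hρ => (hTr ρ hρ).1) ε₀ (c₂ / 2)
    (max 1 t₁) X (by positivity) (by positivity) (by
      intro n hn t ht
      rw [hN] at hn ⊢
      exact hcut n hn t ((le_max_right _ _).trans ht)) (fun ρ hρ => (hTr ρ hρ).2.2) (by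
      intro ρ hρ
      have h1 : ((∏ v ∈ D.Tr ρ, D.N v : ℕ) : ℝ) ≤ Real.exp (1 / 2 * Real.log X) := by
        rw [← exp_Ln D.N D.hN]
        exact Real.exp_le_exp.mpr (hTr ρ hρ).2.1
      calc max 1 t₁ * ((∏ v ∈ D.Tr ρ, D.N v : ℕ) : ℝ)
          ≤ Real.exp (1 / 2 * Real.log X) * Real.exp (1 / 2 * Real.log X) :=
            mul_le_mul hXt h1 (Nat.cast_nonneg _) (Real.exp_pos _).le
        _ = X := by
            rw [← Real.exp_add, ← add_mul, add_halves, one_mul,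
              Real.exp_log (by linarith)])
  refine ⟨Fs, ?_, ?_⟩
  · refine le_trans ?_ hcard
    rw [hN] at hanaX ⊢
    set L := Lv (fun v : Po K S => nv v.1) Z with hLdef
    have h1 : (c₃ * (δ * Real.log X)) ^ d ≤ Real.exp (d * L) := by
      rw [Real.exp_nat_mul]
      exact pow_le_pow_left₀ (by positivity) hL d
    have h2 : Real.exp (d * L) ≤
        Real.exp ((((p : ℝ) - 1) * D.h + D.fb - 1) * L) * Real.exp (-L) := by
      rw [← Real.exp_add]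
      apply Real.exp_le_exp.mpr
      have h3 : (d : ℝ) ≤ ((p : ℝ) - 1) * D.h + D.fb - 2 := by
        unfold AD.fb
        rw [hDh, hDq, hDV]
        linarith
      nlinarith
    calc c₂ / 2 * c₁ * (c₃ * δ) ^ d * X * Real.log X ^ d
        = c₂ / 2 * X * c₁ * (c₃ * (δ * Real.log X)) ^ d := by
          rw [← mul_assoc c₃, mul_pow (c₃ * δ)]; ring
      _ ≤ c₂ / 2 * X * c₁ * (Real.exp ((((p : ℝ) - 1) * D.h + D.fb - 1) * L) *
            Real.exp (-L)) := by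
          apply mul_le_mul_of_nonneg_left (h1.trans h2)
          have : 0 ≤ X := by linarith
          positivity
      _ = c₂ / 2 * X * Real.exp (-L) *
            (c₁ * Real.exp ((((p : ℝ) - 1) * D.h + D.fb - 1) * L)) := by ring
      _ ≤ _ := by
          apply mul_le_mul_of_nonneg_left hanaX
          have : 0 ≤ X := by linarith
          positivity
  · intro ρ' hρ'
    obtain ⟨ρ, hρ, D₀, D', T', rfl, hT'X, hT'u, htri⟩ := hFs ρ' hρ'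
    obtain ⟨hsur, hft, hun, hsm⟩ := hFp ρ hρ
    refine ⟨?_, ft_tw W hW2 D₀ D' ρ hft, ?_, ?_⟩
    · rw [← MonoidHom.range_eq_top]
      apply hzgen
      rw [eq_top_iff]
      intro g _
      obtain ⟨σ, rfl⟩ := hsur g
      have h1 : ρ σ = W.tw ((∏ v ∈ D₀, W.κ v)⁻¹ * ∏ v ∈ D', W.κ v) ρ σ *
          (W.zc (((∏ v ∈ D₀, W.κ v)⁻¹ * ∏ v ∈ D', W.κ v) σ))⁻¹ := by
        change ρ σ = ρ σ * W.zc _ * (W.zc _)⁻¹
        rw [mul_assoc, mul_inv_cancel, mul_one]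
      rw [h1]
      exact Subgroup.mul_mem_sup ⟨σ, rfl⟩ (Subgroup.inv_mem _ (hW3 _))
    · intro v hv 𝔓 h𝔓 h𝔓v
      have hI : 𝔓.inertia Gal(Ω/K) ∈ W.In ⟨v, hv⟩ := by
        rw [hW1]
        exact ⟨𝔓, h𝔓, h𝔓v, rfl⟩
      rcases htri ⟨v, hv⟩ with h | h | h
      · have h1 : (𝔓.inertia Gal(Ω/K)).map
            (W.tw ((∏ v ∈ D₀, W.κ v)⁻¹ * ∏ v ∈ D', W.κ v) ρ) ≤
            Subgroup.zpowers (pd.j z) := by
          rintro _ ⟨τ, hτ, rfl⟩
          rw [h _ hI τ hτ]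
          exact hW3 _
        refine (Nat.card_le_card_of_injective _ (Subgroup.inclusion_injective h1)).trans ?_
        rw [Nat.card_zpowers]
        exact orderOf_le_of_pow_eq_one hp.pos hjzp
      · have h1 : (𝔓.inertia Gal(Ω/K)).map
            (W.tw ((∏ v ∈ D₀, W.κ v)⁻¹ * ∏ v ∈ D', W.κ v) ρ) = ⊥ := by
          rw [eq_bot_iff]
          rintro _ ⟨τ, hτ, rfl⟩
          rw [h _ hI τ hτ]
          exact Subgroup.mem_bot.mpr rfl
        rw [h1, Subgroup.card_bot]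
        exact hp.one_le
      · have h1 : (𝔓.inertia Gal(Ω/K)).map
            (W.tw ((∏ v ∈ D₀, W.κ v)⁻¹ * ∏ v ∈ D', W.κ v) ρ) =
            (𝔓.inertia Gal(Ω/K)).map ρ := by
          ext g
          constructor
          · rintro ⟨τ, hτ, rfl⟩
            exact ⟨τ, hτ, (h _ hI τ hτ).symm⟩
          · rintro ⟨τ, hτ, rfl⟩
            exact ⟨τ, hτ, h _ hI τ hτ⟩
        rw [h1]
        exact hsm ⟨v, hv⟩ 𝔓 h𝔓 h𝔓v
    · refine ⟨T'.map (Function.Embedding.subtype _), ?_, ?_, ?_⟩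
      · intro v hv
        obtain ⟨v', _, rfl⟩ := Finset.mem_map.mp hv
        exact v'.2
      · rw [Finset.prod_map]
        rw [hN] at hT'X
        exact hT'X
      · intro v hvS hv 𝔓 h𝔓 h𝔓v τ hτ
        refine hT'u ⟨v, hvS⟩ (fun h => hv (Finset.mem_map.mpr ⟨_, h, rfl⟩)) _ ?_ τ hτ
        rw [hW1]
        exact ⟨𝔓, h𝔓, h𝔓v, rfl⟩

end H38.TD
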