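import Pool.Agent.H38.TD.AnaDefs

/-!
# Twisting by central characters: definitions (complete)

`Γ` is a group with a family `In v` of sets of subgroups (the inertia groups over the place `v`),
`κ v : Γ → ZMod p` characters, `zc : ZMod p → P` an injective homomorphism to the centre of `P`.
-/

noncomputable section

namespace H38.TD

/-- The data for twisting. -/
structure TwD (Γ P Pt : Type) [Group Γ] [Group P] (p : ℕ) where
  /-- the inertia groups -/
  In : Pt → Set (Subgroup Γ)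
  /-- the characters -/
  κ : Pt → (Γ →* Multiplicative (ZMod p))
  /-- the central element -/
  zc : Multiplicative (ZMod p) →* P
  cen : ∀ i g, zc i * g = g * zc i
  inj : Function.Injective zc
  unr : ∀ v v', v ≠ v' → ∀ I ∈ In v', ∀ τ ∈ I, κ v τ = 1
  ram : ∀ v, ∃ I ∈ In v, ∃ τ ∈ I, κ v τ ≠ 1

namespace TwD

variable {Γ P Pt : Type} [Group Γ] [Group P] {p : ℕ} (W : TwD Γ P Pt p)

/-- The twist of `ρ` by the character `ω`. -/
def tw (ω : Γ →* Multiplicative (ZMod p)) (ρ : Γ →* P) : Γ →* P where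
  toFun σ := ρ σ * W.zc (ω σ)
  map_one' := by simp
  map_mul' σ τ := by
    rw [map_mul, map_mul, map_mul]
    rw [mul_assoc (ρ σ), ← mul_assoc (ρ τ), ← W.cen (ω σ) (ρ τ), mul_assoc (W.zc (ω σ)),
      ← mul_assoc (ρ σ)]

/-- `ρ` is unramified at `v`. -/
def Un (ρ : Γ →* P) (v : Pt) : Prop := ∀ I ∈ W.In v, ∀ τ ∈ I, ρ τ = 1

/-- `ρ` agrees with the character `κ v` on the inertia groups over `v`. -/
def Eqv (ρ : Γ →* P) (v : Pt) : Prop := ∀ I ∈ W.In v, ∀ τ ∈ I, ρ τ = W.zc (W.κ v τ)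

theorem tw_mul (ω ω' : Γ →* Multiplicative (ZMod p)) (ρ : Γ →* P) :
    W.tw ω (W.tw ω' ρ) = W.tw (ω' * ω) ρ := by
  ext σ
  change ρ σ * W.zc (ω' σ) * W.zc (ω σ) = ρ σ * W.zc ((ω' * ω) σ)
  rw [MonoidHom.mul_apply, map_mul, mul_assoc]

end TwD

end H38.TD
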