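import Pool.Agent.H38.TD.Adata
import Pool.Agent.H38.TD.CutC

/-!
# Twisting homomorphisms of finite type by central characters (complete)
-/

open scoped NumberField Pointwise
open H38.ML

noncomputable section

namespace H38.TD

variable {K Ω : Type} [Field K] [NumberField K] [Field Ω] [Algebra K Ω] [IsAlgClosure K Ω]

omit [NumberField K] [IsAlgClosure K Ω] in
theorem ft_of_two {H H' H'' : Type} [Group H] [Group H'] [Group H''] (ρ : Gal(Ω/K) →* H)
    (ρ' : Gal(Ω/K) →* H') (ρ'' : Gal(Ω/K) →* H'') (h : FT ρ) (h' : FT ρ')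
    (h'' : ∀ σ, ρ σ = 1 → ρ' σ = 1 → ρ'' σ = 1) : FT ρ'' := by
  obtain ⟨E, hE, hEk⟩ := h
  obtain ⟨E', hE', hEk'⟩ := h'
  have := hE
  have := hE'
  refine ⟨E ⊔ E', IntermediateField.finiteDimensional_sup E E', ?_⟩
  intro σ hσ
  have h1 : σ ∈ E.fixingSubgroup := IntermediateField.fixingSubgroup_antitone (le_sup_left) hσ
  have h2 : σ ∈ E'.fixingSubgroup := IntermediateField.fixingSubgroup_antitone (le_sup_right) hσ
  exact h'' σ (hEk h1) (hEk' h2)

omit [NumberField K] [IsAlgClosure K Ω] in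
theorem ft_one {H : Type} [Group H] : FT (1 : Gal(Ω/K) →* H) :=
  ⟨⊥, inferInstance, fun _ _ => by simp⟩

omit [NumberField K] [IsAlgClosure K Ω] in
theorem ft_finprod {H ι : Type} [CommGroup H] (κ : ι → (Gal(Ω/K) →* H)) (h : ∀ i, FT (κ i))
    (s : Finset ι) : FT (∏ i ∈ s, κ i) := by
  classical
  induction s using Finset.induction_on with
  | empty => simpa using ft_one
  | insert a s ha ih =>
    rw [Finset.prod_insert ha]
    exact ft_of_two (κ a) (∏ i ∈ s, κ i) _ (h a) ih fun σ h1 h2 => by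
      rw [MonoidHom.mul_apply, h1, h2, mul_one]

omit [NumberField K] [IsAlgClosure K Ω] in
theorem ft_tw {P Pt : Type} [Group P] {p : ℕ} (W : TwD Gal(Ω/K) P Pt p)
    (hκ : ∀ v, FT (W.κ v)) (D₀ D : Finset Pt) (ρ : Gal(Ω/K) →* P) (h : FT ρ) :
    FT (W.tw ((∏ v ∈ D₀, W.κ v)⁻¹ * ∏ v ∈ D, W.κ v) ρ) := by
  have h1 : FT ((∏ v ∈ D₀, W.κ v)⁻¹ * ∏ v ∈ D, W.κ v) :=
    ft_of_two _ _ _ (ft_finprod W.κ hκ D₀) (ft_finprod W.κ hκ D) fun σ h1 h2 => by
      rw [MonoidHom.mul_apply, MonoidHom.inv_apply, h1, h2]; simp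
  refine ft_of_two _ _ _ h h1 fun σ h2 h3 => ?_
  change ρ σ * W.zc _ = 1
  rw [h2, h3, map_one, mul_one]

/-- The homomorphism `ZMod p → P` with value `g` at `1`. -/
def zhom {P : Type} [Group P] (p : ℕ) [NeZero p] (g : P) (hg : g ^ p = 1) :
    Multiplicative (ZMod p) →* P where
  toFun i := g ^ (Multiplicative.toAdd i).val
  map_one' := by simp
  map_mul' i i' := by
    rw [toAdd_mul, ZMod.val_add, ← pow_add]
    conv_rhs => rw [← Nat.mod_add_div ((Multiplicative.toAdd i).val + (Multiplicative.toAdd i').val)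
      p, pow_add, pow_mul, hg, one_pow, mul_one]

/-- The twisting data attached to the places outside `S`. -/
theorem exists_twd {P : Type} [Group P] {p : ℕ} (hp : p.Prime) (ζp : K)
    (hζp : IsPrimitiveRoot ζp p) (S : Set (Pl K)) (sd : SD K S)
    (hSp : ∀ v : Pl K, v ∉ S → ((p : ℕ) : 𝓞 K) ∉ v.asIdeal) (z : P) (hz1 : z ≠ 1)
    (hzp : z ^ p = 1) (hzc : ∀ g, z * g = g * z) :
    ∃ W : TwD Gal(Ω/K) P (Po K S) p,
      (∀ v, W.In v = {I | ∃ 𝔓 : Ideal (𝓞 Ω), 𝔓.IsPrime ∧ 𝔓.under (𝓞 K) = v.1.asIdeal ∧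
        I = 𝔓.inertia Gal(Ω/K)}) ∧ (∀ v, FT (W.κ v)) ∧
      ∀ i, W.zc i ∈ Subgroup.zpowers z := by
  have : NeZero p := ⟨hp.ne_zero⟩
  have := Fact.mk hp
  have h1 : ∀ v : Po K S, ∃ (κ : Gal(Ω/K) →* Multiplicative (ZMod p)) (B : Ω), FT κ ∧
      B ^ p = algebraMap K Ω (sd.π v.1) ∧
      ∀ σ, σ B = algebraMap K Ω ζp ^ (Multiplicative.toAdd (κ σ)).val * B :=
    fun v => twist_ex p hp ζp hζp (sd.π v.1)
  choose κ B hκ hB hact using h1
  have hord : orderOf z = p := orderOf_eq_prime hzp hz1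
  have hζΩ : IsPrimitiveRoot (algebraMap K Ω ζp) p :=
    hζp.map_of_injective (algebraMap K Ω).injective
  have hB0 : ∀ v, B v ≠ 0 := by
    intro v h
    have h2 := hB v
    rw [h, zero_pow hp.ne_zero] at h2
    exact (sd.π v.1).ne_zero ((map_eq_zero _).mp h2.symm)
  have hκ1 : ∀ v σ, κ v σ = 1 ↔ σ (B v) = B v := by
    intro v σ
    rw [hact v σ]
    constructor
    · intro h
      rw [h]; simp
    · intro h
      have h2 : algebraMap K Ω ζp ^ (Multiplicative.toAdd (κ v σ)).val = 1 := by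
        have h3 := h
        conv_rhs at h3 => rw [← one_mul (B v)]
        exact mul_right_cancel₀ (hB0 v) h3
      have h4 : p ∣ (Multiplicative.toAdd (κ v σ)).val := (hζΩ.pow_eq_one_iff_dvd _).mp h2
      have h5 : (Multiplicative.toAdd (κ v σ)).val = 0 :=
        Nat.eq_zero_of_dvd_of_lt h4 (ZMod.val_lt _)
      have h6 : Multiplicative.toAdd (κ v σ) = 0 := (ZMod.val_eq_zero _).mp h5
      exact Multiplicative.toAdd.injective h6
  refine ⟨{ In := fun v => {I | ∃ 𝔓 : Ideal (𝓞 Ω), 𝔓.IsPrime ∧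
              𝔓.under (𝓞 K) = v.1.asIdeal ∧ I = 𝔓.inertia Gal(Ω/K)}
            κ := κ
            zc := zhom p z hzp
            cen := ?_
            inj := ?_
            unr := ?_
            ram := ?_ }, fun v => rfl, hκ, ?_⟩
  · intro i g
    change z ^ _ * g = g * z ^ _
    exact (Commute.pow_left (hzc g) _ : Commute _ _)
  · intro i i' h
    change z ^ (Multiplicative.toAdd i).val = z ^ (Multiplicative.toAdd i').val at h
    have h2 := (pow_inj_mod (x := z)).mp h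
    rw [hord, Nat.mod_eq_of_lt (ZMod.val_lt _), Nat.mod_eq_of_lt (ZMod.val_lt _)] at h2
    exact Multiplicative.toAdd.injective (ZMod.val_injective p h2)
  · rintro v v' hvv _ ⟨𝔓, h𝔓, h𝔓v, rfl⟩ τ hτ
    rw [hκ1]
    refine inert_fix p hp ζp hζp v'.1 (hSp _ v'.2) 𝔓 h𝔓 h𝔓v (sd.π v.1) ?_ (B v) (hB v) τ hτ
    rw [sd.h0 v.1 v.2 v'.1 v'.2 (fun h => hvv (Subtype.ext h.symm))]
    exact dvd_zero _
  · intro v
    obtain ⟨𝔓, h𝔓, h𝔓v⟩ : ∃ 𝔓 : Ideal (𝓞 Ω), 𝔓.IsPrime ∧ 𝔓.under (𝓞 K) = v.1.asIdeal := by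
      have := v.1.isPrime
      obtain ⟨Q, hQ, hQv⟩ := Ideal.exists_ideal_over_prime_of_isIntegral v.1.asIdeal
        (⊥ : Ideal (𝓞 Ω)) (by
        rw [← RingHom.ker_eq_comap_bot]
        have : Function.Injective (algebraMap (𝓞 K) (𝓞 Ω)) :=
          NumberField.RingOfIntegers.algebraMap.injective K Ω
        rw [(RingHom.injective_iff_ker_eq_bot _).mp this]
        exact bot_le)
      exact ⟨Q, hQv.1, hQv.2⟩
    obtain ⟨τ, hτ, h⟩ := ram_move p hp ζp hζp v.1 𝔓 h𝔓 h𝔓v (sd.π v.1) (sd.h1 v.1 v.2) (B v)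
      (hB v)
    exact ⟨_, ⟨𝔓, h𝔓, h𝔓v, rfl⟩, τ, hτ, fun h' => h ((hκ1 v τ).mp h')⟩
  · intro i
    exact ⟨((Multiplicative.toAdd i).val : ℤ), by
      change z ^ ((Multiplicative.toAdd i).val : ℤ) = z ^ (Multiplicative.toAdd i).val
      rw [zpow_natCast]⟩

end H38.TD
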