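import Pool.Agent.H38.TD.LA4

/-!
# [H38 TD US] The group of `(S ∪ t)`-units of `K` is large (60-110 lines)

`TK K (S ∪ t)` is finitely generated (`tk_fg`).  It contains `s` units which are independent over `ℤ`
(`indep_units K K`, with `M = K`, where `Gal(K/K)` is trivial: `Subsingleton`/`Unique`, and the map
`(𝓞 K)ˣ → Kˣ`), and the elements `π_v`, `v ∈ t`, of order one at `v` and zero at the other places
of `t`; together these `s + #t` elements are independent over `ℤ` (look at the orders at `v ∈ t`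
first).  By `fg_index`, `p^(s + #t) ≤ [TK : TK^p]`.  The homomorphism `TK → Kˣ / QXs p x` has image
the group in the statement; its kernel contains `TK^p` with index at most `p`: if
`u = x^l y^p`, `u' = x^{l'} y'^p` with `l ≡ l'` mod `p` then `u/u' = z^p`, and `z` is an
`(S ∪ t)`-unit because `z^p` is one.
-/

open scoped NumberField Pointwise
open H38.ML

noncomputable section

namespace H38.TD

private theorem us_sat {K : Type} [Field K] [NumberField K] {p : ℕ} (hp0 : p ≠ 0)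
    (T : Set (Pl K)) (e : Kˣ) (h : e ^ p ∈ TK K T) : e ∈ TK K T := by
  intro Q hQ
  have h1 := h Q hQ
  rw [od_pow] at h1
  rcases mul_eq_zero.1 h1 with h2 | h2
  · exact absurd (by exact_mod_cast h2) hp0
  · exact h2

private theorem us_mem {K : Type} [Field K] (p : ℕ) (x f : Kˣ) (h : f ∈ QXs p x) :
    ∃ (l : ℤ) (z : Kˣ), f = x ^ l * z ^ p := by
  obtain ⟨y, hy, z, hz, hyz⟩ := Subgroup.mem_sup.1 h
  obtain ⟨l, rfl⟩ := Subgroup.mem_zpowers_iff.1 hy
  obtain ⟨w, rfl⟩ := hz
  exact ⟨l, w, hyz.symm⟩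

/-- Independent elements of the group of `(S ∪ t)`-units. -/
private theorem us_indep {K : Type} [Field K] [NumberField K]
    (htc : NumberField.IsTotallyComplex K) (s : ℕ)
    (hs : s + 1 ≤ Fintype.card (NumberField.InfinitePlace K)) (S : Set (Pl K))
    (sd : SD K S) (t : Finset (Pl K)) (ht : ∀ v ∈ t, v ∉ S) :
    ∃ w : Fin (s + t.card) → TK K (S ∪ (t : Set (Pl K))),
      ∀ n : Fin (s + t.card) → ℤ, ∏ i, w i ^ n i = 1 → n = 0 := by
  classical
  obtain ⟨η, hη⟩ := ML.indep_units K K htc s hs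
  have hone : ∀ σ : Gal(K/K), σ = 1 := by
    intro σ
    apply AlgEquiv.ext
    intro y
    exact AlgEquiv.commutes σ y
  have hη' : ∀ n : Fin s → ℤ, ∏ i, ((η i : 𝓞 K) : K) ^ n i = 1 → n = 0 := by
    intro n hn
    have h1 := hη (fun i _ => n i) (by
      rw [← hn]
      refine Finset.prod_congr rfl fun i _ => ?_
      rw [Finset.prod_eq_single (1 : Gal(K/K))]
      · rfl
      · intro σ _ hσ
        exact absurd (hone σ) hσ
      · intro h
        exact absurd (Finset.mem_univ _) h)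
    funext i
    exact congrFun (congrFun h1 i) 1
  let u : Fin s → Kˣ := fun i => Units.map ((algebraMap (𝓞 K) K : 𝓞 K →+* K) : 𝓞 K →* K) (η i)
  have hu0 : ∀ i (Q : Pl K), od Q (u i) = 0 := fun i Q => od_unit Q (η i) (u i) rfl
  let w' : Fin s ⊕ t → TK K (S ∪ (t : Set (Pl K))) := Sum.elim
    (fun i => ⟨u i, fun Q _ => hu0 i Q⟩)
    (fun v => ⟨sd.π v.1, fun Q hQ => sd.h0 v.1 (ht v.1 v.2) Q (fun h => hQ (Or.inl h)) (by
      rintro rfl
      exact hQ (Or.inr v.2))⟩)
  let e : Fin s ⊕ t ≃ Fin (s + t.card) :=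
    (Equiv.sumCongr (Equiv.refl _) t.equivFin).trans finSumFinEquiv
  refine ⟨fun i => w' (e.symm i), fun n hn => ?_⟩
  have h1 : ∏ i, w' i ^ n (e i) = 1 := by
    rw [← hn, ← Equiv.prod_comp e]
    refine Finset.prod_congr rfl fun i _ => ?_
    change w' i ^ n (e i) = w' (e.symm (e i)) ^ n (e i)
    rw [Equiv.symm_apply_apply]
  have h2 : (∏ i, u i ^ n (e (Sum.inl i))) * ∏ v : t, sd.π v.1 ^ n (e (Sum.inr v)) = 1 := by
    have h3 := congrArg (Subtype.val : TK K (S ∪ (t : Set (Pl K))) → Kˣ) h1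
    rw [Fintype.prod_sum_type] at h3
    have h4 : ((((∏ i, w' (Sum.inl i) ^ n (e (Sum.inl i))) *
        ∏ v : t, w' (Sum.inr v) ^ n (e (Sum.inr v)) : TK K (S ∪ (t : Set (Pl K)))) : Kˣ)) =
        (∏ i, u i ^ n (e (Sum.inl i))) * ∏ v : t, sd.π v.1 ^ n (e (Sum.inr v)) := by
      rw [Subgroup.coe_mul, Subgroup.val_finset_prod, Subgroup.val_finset_prod]
      rfl
    rw [← h4, h3]
    rfl
  have hπ : ∀ v : t, n (e (Sum.inr v)) = 0 := by
    intro v₀
    have h3 := congrArg (od v₀.1) h2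
    rw [od_mul, od_one, od_prod, od_prod, Finset.sum_eq_zero, zero_add,
      Finset.sum_eq_single v₀] at h3
    · rw [od_zpow, sd.h1 v₀.1 (ht v₀.1 v₀.2), mul_one] at h3
      exact h3
    · intro v _ hv
      rw [od_zpow, sd.h0 v.1 (ht v.1 v.2) v₀.1 (ht v₀.1 v₀.2) (fun h => hv (Subtype.ext h.symm)),
        mul_zero]
    · intro h
      exact absurd (Finset.mem_univ _) h
    · intro i _
      rw [od_zpow, hu0, mul_zero]
  have hη0 : (fun i => n (e (Sum.inl i))) = 0 := by
    apply hη'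
    have h3 : (∏ i, u i ^ n (e (Sum.inl i))) = 1 := by
      rw [Finset.prod_eq_one (s := (Finset.univ : Finset t)) (fun v _ => by
        rw [hπ v, zpow_zero]), mul_one] at h2
      exact h2
    have h4 := congrArg (Units.val : Kˣ → K) h3
    rw [Units.coe_prod, Units.val_one] at h4
    rw [← h4]
    refine Finset.prod_congr rfl fun i _ => ?_
    rw [Units.val_zpow_eq_zpow_val]
    rfl
  funext i
  obtain ⟨j, rfl⟩ := e.surjective i
  cases j with
  | inl i => exact congrFun hη0 i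
  | inr v => exact hπ v

theorem us {K : Type} [Field K] [NumberField K] (p : ℕ) (hp : p.Prime) (x : Kˣ)
    (htc : NumberField.IsTotallyComplex K) (s : ℕ)
    (hs : s + 1 ≤ Fintype.card (NumberField.InfinitePlace K)) (S : Set (Pl K)) (hS : S.Finite)
    (sd : SD K S) (t : Finset (Pl K)) (ht : ∀ v ∈ t, v ∉ S) :
    p ^ (s + t.card) ≤ p *
      Nat.card ((TK K (S ∪ (t : Set (Pl K)))).map (QuotientGroup.mk' (QXs p x))) := by
  classical
  set T : Set (Pl K) := S ∪ (t : Set (Pl K)) with hT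
  have hTf : T.Finite := hS.union t.finite_toSet
  have hfg := tk_fg K T hTf
  obtain ⟨w, hw⟩ := us_indep htc s hs S sd t ht
  obtain ⟨hne, hidx⟩ := fg_index (TK K T) p hp (s + t.card) w hw
  set Φ : TK K T →* Kˣ ⧸ QXs p x :=
    (QuotientGroup.mk' (QXs p x)).comp (TK K T).subtype with hΦ
  have hΦr : Φ.range = (TK K T).map (QuotientGroup.mk' (QXs p x)) := by
    rw [hΦ, ← MonoidHom.map_range, Subgroup.range_subtype]
  rw [← hΦr]
  have hΦk : ∀ e : TK K T, e ∈ Φ.ker ↔ (e : Kˣ) ∈ QXs p x := by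
    intro e
    rw [MonoidHom.mem_ker]
    exact QuotientGroup.eq_one_iff _
  have hle : (powMonoidHom p : TK K T →* TK K T).range ≤ Φ.ker := by
    rintro _ ⟨e, rfl⟩
    rw [hΦk]
    exact Subgroup.mem_sup_right ⟨(e : Kˣ), rfl⟩
  have h4 : ∀ e : Φ.ker, ∃ (l : ℤ) (z : Kˣ), ((e : TK K T) : Kˣ) = x ^ l * z ^ p :=
    fun e => us_mem p x _ ((hΦk _).1 e.2)
  choose l z hlz using h4
  have key : ∀ e e' : Φ.ker, ((l e : ℤ) : ZMod p) = ((l e' : ℤ) : ZMod p) →
      e⁻¹ * e' ∈ ((powMonoidHom p : TK K T →* TK K T).range).subgroupOf Φ.ker := by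
    intro e e' h
    rw [Subgroup.mem_subgroupOf]
    obtain ⟨k, hk⟩ := (ZMod.intCast_eq_intCast_iff_dvd_sub _ _ _).1 h
    set b : TK K T := ((e⁻¹ * e' : Φ.ker) : TK K T) with hb
    set f : Kˣ := x ^ k * ((z e)⁻¹ * z e') with hf
    have h5 : (b : Kˣ) = f ^ p := by
      have h6 : (b : Kˣ) = ((e : TK K T) : Kˣ)⁻¹ * ((e' : TK K T) : Kˣ) := rfl
      rw [h6, hlz, hlz, hf, mul_pow, ← zpow_natCast (x ^ k), ← zpow_mul, mul_comm k (p : ℤ), ← hk,
        zpow_sub, mul_pow, inv_pow, mul_inv]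
      rw [mul_mul_mul_comm, mul_comm (x ^ l e)⁻¹ (x ^ l e')]
    have h7 : f ∈ TK K T := by
      apply us_sat hp.ne_zero T
      rw [← h5]
      exact b.2
    exact ⟨⟨f, h7⟩, Subtype.ext h5.symm⟩
  have hrel : ((powMonoidHom p : TK K T →* TK K T).range).relIndex Φ.ker ≤ p := by
    have : Fact p.Prime := ⟨hp⟩
    have h5 : Nat.card (Φ.ker ⧸ ((powMonoidHom p : TK K T →* TK K T).range).subgroupOf Φ.ker) ≤
        Nat.card (ZMod p) := by
      apply Nat.card_le_card_of_injective (fun q => ((l q.out : ℤ) : ZMod p))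
      intro q q' h
      have h6 := key _ _ h
      rw [← QuotientGroup.out_eq' q, ← QuotientGroup.out_eq' q']
      exact QuotientGroup.eq.2 h6
    rw [Nat.card_zmod] at h5
    exact h5
  have hC := Subgroup.relIndex_mul_index hle
  rw [Subgroup.index_ker] at hC
  calc p ^ (s + t.card)
      ≤ ((powMonoidHom p : TK K T →* TK K T).range).index := hidx
    _ = ((powMonoidHom p : TK K T →* TK K T).range).relIndex Φ.ker * Nat.card Φ.range := hC.symm
    _ ≤ p * Nat.card Φ.range := Nat.mul_le_mul_right _ hrel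

end H38.TD
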