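import Pool.Agent.H38.TD.Val

/-!
# [H38 TD VALG] Orders at places: Galois action and extension (100-180 lines)

`M/K` an extension of number fields (Galois where stated).

* `od_gal`: `ordAt_smul` (in `H38/ML/Ord.lean`) for integral elements, via `od_eq_ordAt`, and
  `e = a / b`.
* `exists_smul_pl`: `g • Q.asIdeal` is a nonzero prime.
* `ov_smul`: `(g • Q) ∩ 𝓞 K = Q ∩ 𝓞 K` (`Ideal.under_smul`).
* `ov_trans`: transitivity of the Galois group on the primes over `v`
  (`Ideal.exists_smul_eq_of_isGaloisGroup` or `Algebra.IsInvariant.exists_smul_of_under_eq`; search how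
  `H38/ML` uses it).
* `exists_ov`, `exists_below`: lying over; the prime below is nonzero.
* `od_iU`: the ramification index `e = Q.ramificationIdx (𝓞 K)` (or the multiplicity of `Q` in
  `v 𝓞 M`): for integral `z ∈ 𝓞 K`, `(z) = v ^ n J` with `J` prime to `v`, so
  `(z) 𝓞 M = (v 𝓞 M) ^ n (J 𝓞 M)` and `Q` does not divide `J 𝓞 M`.  `0 < e` because
  `Q ∣ v 𝓞 M`.
* `iU_nU`: `Algebra.norm_eq_prod_automorphisms`.
-/

open scoped NumberField Pointwise
open H38.ML

noncomputable section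

namespace H38.TD

variable {K M : Type} [Field K] [NumberField K] [Field M] [NumberField M] [Algebra K M]

omit [NumberField K] [NumberField M] in
theorem valg_coe_smul (g : Gal(M/K)) (z : 𝓞 M) : ((g • z : 𝓞 M) : M) = g (z : M) := rfl

/-- every element is a quotient of integers -/
theorem valg_div (e : Mˣ) : ∃ (a b : 𝓞 M) (ea eb : Mˣ), (ea : M) = a ∧ (eb : M) = b ∧
    e = ea * eb⁻¹ := by
  obtain ⟨a, b, hb, hab⟩ := IsFractionRing.div_surjective (A := 𝓞 M) (e : M)
  have hb0 : (b : M) ≠ 0 := by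
    intro h
    have : b = 0 := by
      apply NumberField.RingOfIntegers.ext
      rw [h]
      exact (map_zero (algebraMap (𝓞 M) M)).symm
    exact nonZeroDivisors.ne_zero hb this
  have ha0 : (a : M) ≠ 0 := by
    intro h
    have h2 : (e : M) = 0 := by
      rw [← hab]
      change (a : M) / (b : M) = 0
      rw [h, zero_div]
    exact e.ne_zero h2
  refine ⟨a, b, Units.mk0 (a : M) ha0, Units.mk0 (b : M) hb0, rfl, rfl, ?_⟩
  apply Units.ext
  rw [Units.val_mul, Units.val_inv_eq_inv_val, Units.val_mk0, Units.val_mk0, ← div_eq_mul_inv]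
  exact hab.symm

omit [NumberField K] [NumberField M] in
theorem valg_gU_coe (g : Gal(M/K)) (e : Mˣ) : ((gU g e : Mˣ) : M) = g (e : M) := rfl

omit [NumberField K] [NumberField M] in
theorem valg_iU_coe (f : Kˣ) : ((iU K M f : Mˣ) : M) = algebraMap K M (f : K) := rfl

omit [NumberField K] [NumberField M] in
theorem valg_nU_coe (e : Mˣ) : ((nU K M e : Kˣ) : K) = Algebra.norm K (e : M) := rfl

theorem od_gal (g : Gal(M/K)) (Q Q' : Pl M) (h : Q'.asIdeal = g • Q.asIdeal) (e : Mˣ) :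
    od Q' (gU g e) = od Q e := by
  obtain ⟨a, b, ea, eb, ha, hb, rfl⟩ := valg_div e
  have key : ∀ (z : 𝓞 M) (f : Mˣ), (f : M) = z → od Q' (gU g f) = od Q f := by
    intro z f hf
    have h1 : ((gU g f : Mˣ) : M) = ((g • z : 𝓞 M) : M) := by
      rw [valg_gU_coe, valg_coe_smul, hf]
    rw [od_eq_ordAt Q' (g • z) (gU g f) h1, od_eq_ordAt Q z f hf, h, ordAt_smul]
  rw [map_mul, map_inv, od_mul, od_inv, od_mul, od_inv, key a ea ha, key b eb hb]

theorem exists_smul_pl (g : Gal(M/K)) (Q : Pl M) : ∃ Q' : Pl M, Q'.asIdeal = g • Q.asIdeal := by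
  have h1 : (g • Q.asIdeal).IsPrime := by
    have := Q.isPrime
    infer_instance
  have h2 : g • Q.asIdeal ≠ ⊥ := by
    intro h
    apply Q.ne_bot
    have h3 : g⁻¹ • (g • Q.asIdeal) = g⁻¹ • (⊥ : Ideal (𝓞 M)) := by rw [h]
    rw [inv_smul_smul] at h3
    rw [h3]
    exact smul_zero _
  exact ⟨⟨g • Q.asIdeal, h1, h2⟩, rfl⟩

instance valg_smulComm : SMulCommClass Gal(M/K) (𝓞 K) (𝓞 M) :=
  ⟨fun g a b => by
    apply NumberField.RingOfIntegers.ext
    have e1 : ∀ (x : 𝓞 K) (y : 𝓞 M), ((x • y : 𝓞 M) : M) = algebraMap K M (x : K) * (y : M) := by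
      intro x y
      rw [Algebra.smul_def]
      rfl
    rw [valg_coe_smul, e1, e1, valg_coe_smul, map_mul]
    congr 1
    exact g.commutes _⟩

theorem ov_smul (g : Gal(M/K)) (Q Q' : Pl M) (v : Pl K) (h : Q'.asIdeal = g • Q.asIdeal)
    (hQ : Ov Q v) : Ov Q' v := by
  unfold Ov at *
  rw [h, Ideal.under_smul, hQ]

theorem ov_trans [IsGalois K M] (Q Q' : Pl M) (v : Pl K) (hQ : Ov Q v) (hQ' : Ov Q' v) :
    ∃ g : Gal(M/K), Q'.asIdeal = g • Q.asIdeal := by
  have h1 := Q.isPrime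
  have h2 := Q'.isPrime
  exact Algebra.IsInvariant.exists_smul_of_under_eq (𝓞 K) (𝓞 M) Gal(M/K) Q.asIdeal Q'.asIdeal
    (hQ.trans hQ'.symm)

theorem exists_ov (M : Type) [Field M] [NumberField M] [Algebra K M] (v : Pl K) :
    ∃ Q : Pl M, Ov Q v := by
  have hv := v.isPrime
  obtain ⟨Q, -, hQ1, hQ2⟩ := Ideal.exists_ideal_over_prime_of_isIntegral v.asIdeal
    (⊥ : Ideal (𝓞 M)) (by
      intro x hx
      have hx' : algebraMap (𝓞 K) (𝓞 M) x = 0 := by simpa using hx
      have : x = 0 := (FaithfulSMul.algebraMap_injective (𝓞 K) (𝓞 M)) (by simpa using hx')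
      rw [this]; exact v.asIdeal.zero_mem)
  have hQ3 : Q.under (𝓞 K) = v.asIdeal := hQ2
  refine ⟨⟨Q, hQ1, ?_⟩, hQ3⟩
  intro h
  apply v.ne_bot
  rw [← hQ3, h]
  exact Ideal.under_bot (𝓞 K) (𝓞 M)

theorem exists_below (K : Type) [Field K] [NumberField K] [Algebra K M] (Q : Pl M) :
    ∃ v : Pl K, Ov Q v := by
  have hQ := Q.isPrime
  have h1 : (Q.asIdeal.under (𝓞 K)).IsPrime := inferInstance
  have h2 : Q.asIdeal.under (𝓞 K) ≠ ⊥ := fun h => Q.ne_bot (Ideal.eq_bot_of_comap_eq_bot h)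
  exact ⟨⟨Q.asIdeal.under (𝓞 K), h1, h2⟩, rfl⟩

theorem ov_unique (Q : Pl M) (v v' : Pl K) (h : Ov Q v) (h' : Ov Q v') : v = v' :=
  IsDedekindDomain.HeightOneSpectrum.ext (h.symm.trans h')

theorem ov_finite (v : Pl K) : {Q : Pl M | Ov Q v}.Finite := by
  have hv := v.isPrime
  refine Set.Finite.of_finite_image (f := fun Q : Pl M => Q.asIdeal)
    ((IsDedekindDomain.primesOver_finite v.asIdeal (𝓞 M)).subset ?_) ?_
  · rintro _ ⟨Q, hQ, rfl⟩
    exact ⟨Q.isPrime, ⟨hQ.symm⟩⟩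
  · intro Q _ Q' _ h
    exact IsDedekindDomain.HeightOneSpectrum.ext h

/-- The orders on `K` and on `M` differ by the ramification index. -/
theorem od_iU (Q : Pl M) (v : Pl K) (h : Ov Q v) :
    ∃ r : ℕ, 0 < r ∧ ∀ f : Kˣ, od Q (iU K M f) = r * od v f := by
  have hl : Q.asIdeal.LiesOver v.asIdeal := ⟨h.symm⟩
  have hv := v.isPrime
  have hQ := Q.isPrime
  refine ⟨v.asIdeal.ramificationIdx' Q.asIdeal, Nat.pos_of_ne_zero
    (Ideal.IsDedekindDomain.ramificationIdx'_ne_zero_of_liesOver Q.asIdeal v.ne_bot), fun f => ?_⟩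
  have h1 := IsDedekindDomain.HeightOneSpectrum.valuation_liesOver (K := K) M v Q (f : K)
  have h2 : ((v.valuationOfNeZero f : Multiplicative ℤ) : WithZero (Multiplicative ℤ))
      = v.valuation K (f : K) := IsDedekindDomain.HeightOneSpectrum.valuationOfNeZero_eq v f
  have h3 : ((Q.valuationOfNeZero (iU K M f) : Multiplicative ℤ) : WithZero (Multiplicative ℤ))
      = Q.valuation M (algebraMap K M (f : K)) :=
    IsDedekindDomain.HeightOneSpectrum.valuationOfNeZero_eq Q (iU K M f)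
  rw [← h2, ← h3, ← WithZero.coe_pow, WithZero.coe_inj] at h1
  unfold od
  rw [← h1, toAdd_pow]
  simp

/-- `iU` is injective. -/
theorem valg_iU_inj : Function.Injective (iU K M) := by
  intro a b hab
  apply Units.ext
  have h1 := congrArg (fun x : Mˣ => (x : M)) hab
  exact (algebraMap K M).injective h1

theorem iU_nU [IsGalois K M] (e : Mˣ) : iU K M (nU K M e) = ∏ g : Gal(M/K), gU g e := by
  apply Units.ext
  rw [valg_iU_coe, valg_nU_coe, Algebra.norm_eq_prod_automorphisms, Units.coe_prod]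
  rfl

theorem nU_iU (f : Kˣ) : nU K M (iU K M f) = f ^ Module.finrank K M := by
  apply Units.ext
  rw [valg_nU_coe, valg_iU_coe, Algebra.norm_algebraMap, Units.val_pow_eq_pow_val]

theorem gU_iU (g : Gal(M/K)) (f : Kˣ) : gU g (iU K M f) = iU K M f := by
  apply Units.ext
  rw [valg_gU_coe, valg_iU_coe]
  exact g.commutes _

theorem gU_mul (g g' : Gal(M/K)) (e : Mˣ) : gU (g * g') e = gU g (gU g' e) := by
  apply Units.ext
  rfl

theorem nU_gU [IsGalois K M] (g : Gal(M/K)) (e : Mˣ) : nU K M (gU g e) = nU K M e := by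
  apply valg_iU_inj (K := K) (M := M)
  rw [iU_nU, iU_nU]
  refine Fintype.prod_equiv (Equiv.mulRight g) _ _ (fun g' => ?_)
  rw [← gU_mul]
  rfl

theorem fixed_iU [IsGalois K M] (e : Mˣ) (h : ∀ g : Gal(M/K), gU g e = e) :
    ∃ f : Kˣ, iU K M f = e := by
  have h1 : (e : M) ∈ (⊥ : IntermediateField K M) := by
    rw [IsGalois.mem_bot_iff_fixed]
    intro g
    exact congrArg (fun x : Mˣ => (x : M)) (h g)
  obtain ⟨f, hf⟩ := IntermediateField.mem_bot.1 h1
  have hf0 : f ≠ 0 := by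
    rintro rfl
    rw [map_zero] at hf
    exact e.ne_zero hf.symm
  refine ⟨Units.mk0 f hf0, ?_⟩
  apply Units.ext
  rw [valg_iU_coe, Units.val_mk0, hf]

/-- `T`-units are stable under the Galois group. -/
theorem gU_mem_TU (T : Set (Pl K)) (g : Gal(M/K)) (e : Mˣ) (he : e ∈ TU K M T) :
    gU g e ∈ TU K M T := by
  intro Q hQ
  obtain ⟨Q', hQ'⟩ := exists_smul_pl g⁻¹ Q
  have h1 : Q.asIdeal = g • Q'.asIdeal := by
    rw [hQ', smul_inv_smul]
  rw [od_gal g Q' Q h1 e]
  refine he Q' (fun v hv hov => hQ v hv ?_)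
  exact ov_smul g Q' Q v h1 hov

theorem iU_mem_TU_iff (T : Set (Pl K)) (f : Kˣ) : iU K M f ∈ TU K M T ↔ f ∈ TK K T := by
  constructor
  · intro h v hv
    obtain ⟨Q, hQ⟩ := exists_ov M v
    obtain ⟨r, hr, hr2⟩ := od_iU Q v hQ
    have h1 := h Q (fun v' hv' hov => hv (by rwa [ov_unique Q v v' hQ hov]))
    rw [hr2 f] at h1
    rcases mul_eq_zero.1 h1 with h2 | h2
    · exact absurd (by exact_mod_cast h2) hr.ne'
    · exact h2
  · intro h Q hQ
    obtain ⟨v, hv⟩ := exists_below K Q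
    obtain ⟨r, hr, hr2⟩ := od_iU Q v hv
    have h1 : v ∉ T := fun hvT => hQ v hvT hv
    rw [hr2 f, h v h1, mul_zero]

theorem nU_mem_TK [IsGalois K M] (T : Set (Pl K)) (e : Mˣ) (he : e ∈ TU K M T) :
    nU K M e ∈ TK K T := by
  rw [← iU_mem_TU_iff (M := M), iU_nU]
  exact Subgroup.prod_mem _ (fun g _ => gU_mem_TU T g e he)

end H38.TD
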