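import Pool.Agent.H38.TD.LA3
import Pool.Agent.H38.TD.Fgu
import Pool.Agent.H38.TD.AG1
import Pool.Agent.H38.TD.PRes
import Pool.Agent.H38.TD.AnaDefs

/-!
# [H38 TD XD] The classes `x` with given support (three theorems, 130-200 lines)

`S` finite, `sd : SD K S` generators for the places outside `S`.

* `xdata`: `U = TK K S ⧸ (p-th powers)`; it is finite by `tk_fg` and `fg_index` (with `m = 0`: the
  index of the `p`-th powers is not zero).  `F` is a system of representatives with `F 1 = 1`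
  (`Quotient.out`, changed at `1`).  `F u = y^p` implies `y ∈ TK K S` (orders are torsion free), so
  `u = 1`.
* `xv F sd (u, i) = F u ∏_{v ∈ supp i} π_v^{i_v}` (exponents `(i v).val`).  `od_xv`: its order at
  `v ∉ S` is `(i v).val`.  `xv_inj`: if `xv x = xv x' y^p` then the orders at `v ∉ S` give
  `(i v).val ≡ (i' v).val` mod `p`, so `i = i'`; then `F u = F u' y^p`, and
  `F (u u'⁻¹)` is a `p`-th power (use the cocycle property), so `u = u'`.
* `xv_mul`: `xv (u,i) xv(u',i') = xv (u u', i + i') y^p` for some `y`: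
  `(i v).val + (i' v).val ≡ ((i + i') v).val` mod `p`.
* `xv_P2`: `v ∉ R`.  Apply `pres_index` to the finite group
  `B = U × Multiplicative (R → ZMod p)` (or the subgroup of `U × Multiplicative (Pt →₀ ZMod p)` of
  the elements with support in `R`) and the function `xv`; the orders at `v` are zero.
-/

open scoped NumberField Pointwise
open H38.ML

noncomputable section

namespace H38.TD

/-- The places outside `S`. -/
abbrev Po (K : Type) [Field K] [NumberField K] (S : Set (Pl K)) : Type := {v : Pl K // v ∉ S}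

/-- `F u · ∏ π_v^{i_v}`. -/
def xv {K : Type} [Field K] [NumberField K] {S : Set (Pl K)} (sd : SD K S) {U : Type} {p : ℕ}
    (F : U → Kˣ) (x : U × (Po K S →₀ ZMod p)) : Kˣ :=
  F x.1 * ∏ v ∈ x.2.support, sd.π v ^ (x.2 v).val

variable {K : Type} [Field K] [NumberField K] {S : Set (Pl K)} (sd : SD K S) {p : ℕ}

/-- The representatives of `TK K S` modulo `p`-th powers. -/
structure UD (K : Type) [Field K] [NumberField K] (S : Set (Pl K)) (p : ℕ) (U : Type)
    [CommGroup U] (F : U → Kˣ) : Prop where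
  one : F 1 = 1
  mem : ∀ u, F u ∈ TK K S
  mul : ∀ u u', ∃ y : Kˣ, F (u * u') = F u * F u' * y ^ p
  inj : ∀ u, (∃ y : Kˣ, F u = y ^ p) → u = 1

theorem xdata (hp : p.Prime) (hS : S.Finite) :
    ∃ (U : Type) (_ : CommGroup U) (_ : Fintype U) (F : U → Kˣ), UD K S p U F := by
  classical
  haveI := tk_fg K S hS
  obtain ⟨hne, -⟩ := fg_index (TK K S) p hp 0 (fun i => Fin.elim0 i)
    (fun n _ => Subsingleton.elim _ _)
  have hfi : (powMonoidHom p : TK K S →* TK K S).range.FiniteIndex := ⟨hne⟩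
  have hfin : Finite (TK K S ⧸ (powMonoidHom p : TK K S →* TK K S).range) := inferInstance
  obtain ⟨g, hg1, hg⟩ : ∃ g : (TK K S ⧸ (powMonoidHom p : TK K S →* TK K S).range) → TK K S,
      g 1 = 1 ∧ ∀ u, (QuotientGroup.mk (g u) :
        TK K S ⧸ (powMonoidHom p : TK K S →* TK K S).range) = u := by
    refine ⟨fun u => if u = 1 then 1 else u.out, by simp, fun u => ?_⟩
    by_cases hu : u = 1
    · simp only [if_pos hu, hu]
      rfl
    · simp only [if_neg hu]
      exact QuotientGroup.out_eq' u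
  refine ⟨TK K S ⧸ (powMonoidHom p : TK K S →* TK K S).range, inferInstance,
    Fintype.ofFinite _, fun u => (g u : Kˣ), ?_, ?_, ?_, ?_⟩
  · simp only [hg1, OneMemClass.coe_one]
  · intro u
    exact (g u).2
  · intro u u'
    have h1 : (QuotientGroup.mk (g u * g u') :
        TK K S ⧸ (powMonoidHom p : TK K S →* TK K S).range) = QuotientGroup.mk (g (u * u')) := by
      rw [QuotientGroup.mk_mul, hg, hg, hg]
    obtain ⟨y, hy⟩ := QuotientGroup.eq.1 h1
    refine ⟨(y : Kˣ), ?_⟩
    have h2 : g (u * u') = g u * g u' * y ^ p := by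
      have h3 : y ^ p = (g u * g u')⁻¹ * g (u * u') := hy
      rw [h3, mul_inv_cancel_left]
    simp only [h2, Subgroup.coe_mul, Subgroup.coe_pow]
  · rintro u ⟨y, hy⟩
    have hy1 : y ∈ TK K S := by
      intro v hv
      have h1 := (g u).2 v hv
      rw [hy, od_pow] at h1
      have h2 : (p : ℤ) ≠ 0 := by exact_mod_cast hp.ne_zero
      rcases mul_eq_zero.1 h1 with h | h
      · exact absurd h h2
      · exact h
    rw [← hg u]
    rw [QuotientGroup.eq_one_iff]
    refine ⟨⟨y, hy1⟩, ?_⟩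
    apply Subtype.ext
    exact hy.symm

theorem od_xv [NeZero p] {U : Type} [CommGroup U] (F : U → Kˣ) (hF : UD K S p U F)
    (x : U × (Po K S →₀ ZMod p)) (v : Po K S) : od v.1 (xv sd F x) = ((x.2 v).val : ℤ) := by
  classical
  unfold xv
  rw [od_mul, hF.mem x.1 v.1 v.2, zero_add, od_prod]
  have h1 : ∀ v' ∈ x.2.support, v' ≠ v → od v.1 (sd.π v' ^ (x.2 v').val) = 0 := by
    intro v' _ hne
    rw [od_pow, sd.h0 v'.1 v'.2 v.1 v.2 (fun h => hne (Subtype.ext h.symm)), mul_zero]
  by_cases hv : v ∈ x.2.support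
  · rw [Finset.sum_eq_single_of_mem v hv h1, od_pow, sd.h1 v.1 v.2, mul_one]
  · rw [Finset.sum_eq_zero (fun v' hv' => h1 v' hv' (fun h => hv (h ▸ hv')))]
    have h2 : x.2 v = 0 := by simpa using hv
    rw [h2, ZMod.val_zero]
    rfl

theorem xv_inj (hp : p.Prime) {U : Type} [CommGroup U] (F : U → Kˣ) (hF : UD K S p U F)
    (x x' : U × (Po K S →₀ ZMod p)) (y : Kˣ) (h : xv sd F x = xv sd F x' * y ^ p) : x = x' := by
  haveI : NeZero p := ⟨hp.ne_zero⟩
  have h2 : x.2 = x'.2 := by
    ext v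
    have h3 := congrArg (od v.1) h
    rw [od_mul, od_pow, od_xv sd F hF, od_xv sd F hF] at h3
    have h4 := congrArg (fun n : ℤ => (n : ZMod p)) h3
    simp only [Int.cast_add, Int.cast_mul, Int.cast_natCast, ZMod.natCast_self, zero_mul, add_zero,
      ZMod.natCast_zmod_val] at h4
    rw [h4]
  have h5 : F x.1 = F x'.1 * y ^ p := by
    unfold xv at h
    rw [h2] at h
    have h6 : F x.1 * ∏ v ∈ x'.2.support, sd.π v ^ (x'.2 v).val =
        F x'.1 * y ^ p * ∏ v ∈ x'.2.support, sd.π v ^ (x'.2 v).val := by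
      rw [h]
      exact mul_right_comm _ _ _
    exact mul_right_cancel h6
  have h1 : x.1 = x'.1 := by
    obtain ⟨z, hz⟩ := hF.mul x.1 x'.1⁻¹
    obtain ⟨w, hw⟩ := hF.mul x'.1 x'.1⁻¹
    rw [mul_inv_cancel, hF.one] at hw
    have h7 : F (x.1 * x'.1⁻¹) = (y * w⁻¹ * z) ^ p := by
      rw [hz, h5, mul_pow, mul_pow, inv_pow]
      have h8 : F x'.1 * F x'.1⁻¹ = (w ^ p)⁻¹ := by
        rw [eq_comm, inv_eq_of_mul_eq_one_left]
        exact hw.symm
      calc F x'.1 * y ^ p * F x'.1⁻¹ * z ^ p = (F x'.1 * F x'.1⁻¹) * y ^ p * z ^ p := by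
            rw [mul_right_comm (F x'.1) (y ^ p)]
        _ = _ := by rw [h8, mul_comm ((w ^ p)⁻¹)]
    have h9 := hF.inj _ ⟨_, h7⟩
    exact mul_inv_eq_one.1 h9
  exact Prod.ext h1 h2

private theorem xvx_sub [NeZero p] (i : Po K S →₀ ZMod p) (T : Finset (Po K S))
    (hT : i.support ⊆ T) : ∏ v ∈ i.support, sd.π v ^ (i v).val = ∏ v ∈ T, sd.π v ^ (i v).val := by
  refine Finset.prod_subset hT fun v _ hv => ?_
  have h2 : i v = 0 := by simpa using hv
  rw [h2, ZMod.val_zero, pow_zero]

private theorem xvx_mul [NeZero p] {U : Type} [CommGroup U] (F : U → Kˣ)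
    (hF : UD K S p U F) (x x' : U × (Po K S →₀ ZMod p)) :
    ∃ y : Kˣ, xv sd F (x.1 * x'.1, x.2 + x'.2) = xv sd F x * xv sd F x' * y ^ p := by
  classical
  obtain ⟨z, hz⟩ := hF.mul x.1 x'.1
  have hT : (x.2 + x'.2).support ⊆ x.2.support ∪ x'.2.support := Finsupp.support_add
  have hq : ∀ v : Po K S, ∃ q : ℕ, (x.2 v).val + (x'.2 v).val = ((x.2 + x'.2) v).val + q * p := by
    intro v
    refine ⟨((x.2 v).val + (x'.2 v).val) / p, ?_⟩
    rw [Finsupp.add_apply, ZMod.val_add, mul_comm]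
    exact (Nat.mod_add_div _ _).symm
  choose q hq using hq
  refine ⟨z * ∏ v ∈ x.2.support ∪ x'.2.support, (sd.π v ^ q v)⁻¹, ?_⟩
  unfold xv
  rw [xvx_sub sd (x.2 + x'.2) _ hT, xvx_sub sd x.2 _ Finset.subset_union_left,
    xvx_sub sd x'.2 _ Finset.subset_union_right]
  simp only
  rw [hz, mul_pow, ← Finset.prod_pow]
  have h1 : ∏ v ∈ x.2.support ∪ x'.2.support, sd.π v ^ ((x.2 + x'.2) v).val =
      (∏ v ∈ x.2.support ∪ x'.2.support, sd.π v ^ (x.2 v).val) *
      (∏ v ∈ x.2.support ∪ x'.2.support, sd.π v ^ (x'.2 v).val) *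
      ∏ v ∈ x.2.support ∪ x'.2.support, ((sd.π v ^ q v)⁻¹) ^ p := by
    rw [← Finset.prod_mul_distrib, ← Finset.prod_mul_distrib]
    refine Finset.prod_congr rfl fun v _ => ?_
    rw [← pow_add, hq v, pow_add, inv_pow, ← pow_mul, mul_inv_cancel_right]
  rw [h1]
  generalize (∏ v ∈ x.2.support ∪ x'.2.support, sd.π v ^ (x.2 v).val) = a
  generalize (∏ v ∈ x.2.support ∪ x'.2.support, sd.π v ^ (x'.2 v).val) = b
  generalize (∏ v ∈ x.2.support ∪ x'.2.support, ((sd.π v ^ q v)⁻¹) ^ p) = c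
  apply Units.ext
  push_cast
  ring

theorem xv_P2 (hp : p.Prime) [NeZero p] {U : Type} [CommGroup U] [Fintype U] (F : U → Kˣ)
    (hF : UD K S p U F) (R : Finset (Po K S)) (v : Po K S) (hv : v ∉ R) :
    Fintype.card U * p ^ R.card ≤
      p * Nat.card {x : U × (Po K S →₀ ZMod p) // x.2.support ⊆ R ∧ xv sd F x ∈ PRes p v.1} := by
  classical
  let E : (R → ZMod p) → (Po K S →₀ ZMod p) := fun i => Finsupp.indicator R fun v hv => i ⟨v, hv⟩
  have hE : ∀ i v, E i v = if h : v ∈ R then i ⟨v, h⟩ else 0 := by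
    intro i v
    simp only [E, Finsupp.indicator_apply]
  have hEadd : ∀ i j, E (i + j) = E i + E j := by
    intro i j
    ext v
    rw [Finsupp.add_apply, hE, hE, hE]
    split_ifs
    · rfl
    · rw [add_zero]
  have hEinj : Function.Injective E := by
    intro i j hij
    ext v
    have h1 := DFunLike.congr_fun hij v.1
    rw [hE, hE, dif_pos v.2, dif_pos v.2] at h1
    exact h1
  have hEsup : ∀ i, (E i).support ⊆ R := fun i => Finsupp.support_indicator_subset ..
  let G : U × Multiplicative (R → ZMod p) → Kˣ := fun b => xv sd F (b.1, E (Multiplicative.toAdd b.2))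
  have h1 := pres_index hp v.1 G ?_ ?_
  · have hc : Nat.card (U × Multiplicative (R → ZMod p)) = Fintype.card U * p ^ R.card := by
      rw [Nat.card_prod, Nat.card_eq_fintype_card]
      congr 1
      have h2 : Nat.card (Multiplicative (R → ZMod p)) = Nat.card (R → ZMod p) :=
        Nat.card_congr Multiplicative.toAdd
      rw [h2, Nat.card_eq_fintype_card, Fintype.card_fun, ZMod.card, Fintype.card_coe]
    rw [hc] at h1
    refine h1.trans (Nat.mul_le_mul_left _ ?_)
    haveI : Finite {x : U × (Po K S →₀ ZMod p) // x.2.support ⊆ R ∧ xv sd F x ∈ PRes p v.1} := by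
      have h3 : {x : U × (Po K S →₀ ZMod p) | x.2.support ⊆ R ∧ xv sd F x ∈ PRes p v.1}.Finite := by
        refine (XR U p R).finite_toSet.subset ?_
        intro x hx
        exact (mem_XR R x).2 hx.1
      exact h3.to_subtype
    refine Nat.card_le_card_of_injective (fun b => ⟨(b.1.1, E (Multiplicative.toAdd b.1.2)),
      hEsup _, b.2⟩) ?_
    intro b b' h
    have h4 := congrArg Subtype.val h
    simp only [Prod.mk.injEq] at h4
    apply Subtype.ext
    exact Prod.ext h4.1 (Multiplicative.toAdd.injective (hEinj h4.2))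
  · intro b b'
    obtain ⟨y, hy⟩ := xvx_mul sd F hF (b.1, E (Multiplicative.toAdd b.2))
      (b'.1, E (Multiplicative.toAdd b'.2))
    refine ⟨y, ?_⟩
    rw [← hy]
    simp only [G]
    rw [Prod.fst_mul, Prod.snd_mul, toAdd_mul, hEadd]
  · intro b
    simp only [G]
    rw [od_xv sd F hF]
    simp only
    rw [hE, dif_neg hv, ZMod.val_zero]
    exact dvd_zero _

end H38.TD
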